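import Pool.Agent.D0H99.RM.Eq
import Pool.Agent.D0H99.RM.Stm2

/-!
Project OD (helper99), MP_81dc49_nt slot 4: for a positive proportion of ALL squarefree `D` in `F_q[t]`
of even degree the quadratic twist by `D` of `y² = (x - a) (x - b) (x - g(t))` has rank `0`. Four
independent modules. (The descent for primes of odd degree and the assembly are done by helper99.)

`PER` (finite linear algebra over `F_2`; adapts `Pool.Agent.D0H52.RM.{Par,Mo2}`, about 150 lines). The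
system `Sol` with `m = 2`, `t = 1` is perturbed by a fixed symmetric matrix: `δ` in `F_2 ^ r` with
`∑ δ = 0`, `κ`, `λ` in `F_2`. Let `b' = b + 1` be the other index. Multiply out `PSol`: the left side
`F_(x,b)` is row `(x, b')` of a matrix `M'` with the entries (for `y ≠ x`) `A_xy + δ_x δ_y (λ + κ)` at
`(y, b)` and `δ_x δ_y κ` at `(y, b')`, and (for `y = x`) `∑_y A_xy + δ_x λ` at `(x, b)` and
`p_xb' + δ_x λ` at `(x, b')`. So `M'` is symmetric, and `M' 1` is its diagonal because `∑ δ = 0`. By the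
linear algebra behind `PAR` the dimension of the kernel has the parity of
`∑ (p_xs + δ_x λ) = ∑ p_xs`. If `a_xs = 0` then `PSol` does not depend on `p_xs`; `a = (1, ..., 1)` is a
solution iff `p_xs = δ_x λ` for all `x, s`, and then `∑ p = 0`. So the signed sum is as in `signed` of
`D0H52.RM.Mo2`. For fixed `a` the condition `PSol` on `x = (B, p)` is affine with the linear part `Sol`, so
it has at most as many solutions `x` as `Sol`, and `∑_x nsolP x ≤ ∑_x nsol x`. The rest is as in `mo2`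
(`counts` uses only that the number is `2 ^ d` with `d` of the parity of `∑ p`).

`CNT` (weights of sets of degrees; real analysis, about 200 lines). Take `n0 ≥ N0` large, `I = [n0, y]`,
`y = D / 8`, and for `B ⊆ I` put `W(B) = ∏_{n ∈ B} 1 / n`; `Z = ∑_{B ⊆ I} W(B) = ∏_{n ∈ I} (1 + 1 / n) =
(y + 1) / n0` (`Finset.prod_one_add`). The members of `𝒜` are the sets `B ∪ {D - ∑ B}` for the good `B`:
(1) `∑ B ≤ D / 2` (then `D - ∑ B ≥ D / 2 > y`), (2) `wt Q C B ≤ ε / 2`, (3) `r0 ≤ |B|`. The weight of the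
bad `B` is at most `Z / 2`: (1) `∑_B W(B) ∑ B = ∑_{n ∈ I} ∏_{m ≠ n} (1 + 1 / m) ≤ y Z ≤ (D / 8) Z`, so the
weight of the `B` with `∑ B > D / 2` is at most `Z / 4`. (2) `∑_B W(B) wt(B) = ∑_{n ∈ I} (C n ^ 3 / Q ^ n)
(2 / n) ∏_{m < n} (1 + 2 / m) ∏_{m > n} (1 + 1 / m) ≤ Z ∑_n (2 C n ^ 3 / Q ^ n) / n0` because
`1 + 2 / m ≤ (1 + 1 / m) ^ 2` and `∏_{n0 ≤ m < n} (1 + 1 / m) = n / n0`; so the weight of the `B` with
`wt > ε / 2` is at most `Z / 8` for `n0` large. (3) the weight of the `B` with `|B| < r0` is at most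
`2 ^ r0 ∑_B W(B) 2 ^ (-|B|) = 2 ^ r0 ∏ (1 + 1 / (2 n)) ≤ 2 ^ r0 (2 Z) ^ (1 / 2)`, at most `Z / 8` for `D`
large (`(1 + 1 / (2 n)) ^ 2 ≤ (1 + 1 / n) (1 + 1 / (4 n ^ 2))`). The largest member `n' = D - ∑ B` of
`A = B ∪ {n'}` contributes `2 ^ (|B| + 1) C n' ^ 3 / Q ^ n'` to `wt`; `D / 2 ≤ n' ≤ D`, and
`|B| (|B| - 1) / 2 ≤ ∑ B ≤ D / 2`, so it is at most `ε / 2` for `D` large. `B ↦ A` is injective, and
`∑_A ∏_{n ∈ A} 1 / n ≥ (1 / D) (Z / 2) ≥ 1 / (32 n0)`.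

`EQD` (about 120 lines; adapts `exT_card`, `step_card`, `pt_density` of `Pool.Agent.D0H99.RM.Dn` and uses
`Pool.Agent.D0H99.FT.count_one`, `Pool.Agent.Y164.PS.card_Pr_ge`). Induction on `r`, removing the largest
degree `n 0`: given the tail `(d_1, ..., d_(r-1))` and `P`, a family of `r + 1` primes of total degree
`W ≤ (n 0) ^ 2 + 2 N`, the number of the `d_0` with prescribed symbols is at least
`2 ^ (-(r + 1)) #Pr(n 0) - ((10 W + 2) s ^ (n 0) + r + 1)`, and `#Pr(n) ≥ s ^ (2 n) / (2 n)` if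
`4 ≤ s ^ n`; so it is at least `2 ^ (-(r + 1)) #Pr(n 0) (1 - 2 ^ r (60 + 80 N) (n 0) ^ 3 / s ^ (n 0))`.
`cst 2 2 (r + 1) = cst 2 2 r * (1 / 2 ^ (r + 2))` is `cst_succ`. (The `d_i` have different degrees, also
different from `N`, so they are different from each other and from the `P s`.)

`FAM` (about 80 lines, unique factorization). `S` is the set of the products `∏ d_i`, `d_i` monic
irreducible of degree `dg A i`, `A` in `𝒜`. As the degrees are different, the product determines the set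
of the `d_i` (monic irreducible divisors), hence `A` and the tuple.
-/

set_option autoImplicit false

open Polynomial

namespace Pool.Agent.D0H99.OD

open Finset
open Pool.Agent.Y164.SZ
open Pool.Agent.Y164.PS (Pr)
open Pool.Agent.D0H99.RM (V X sy cst)

/-- the perturbed system over `F_2` -/
def PSol {r : ℕ} (δ : Fin r → ZMod 2) (κ lam : ZMod 2) (A : Fin r → Fin r → ZMod 2)
    (p : Fin r → V 2 2) (a : Fin r → V 2 2) : Prop :=
  ∀ (x : Fin r) (b : Fin 2), (∑ y, A x y * (a x b - a y b) + ∑ s, a x s * p x s + a x b * p x b) +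
    δ x * (∑ y, δ y * (lam * a y b + κ * (a y 0 + a y 1)) + lam * a x (b + 1) +
      κ * (a x 0 + a x 1)) = 0

/-- the number of the solutions -/
noncomputable def nsolP {r : ℕ} (δ : Fin r → ZMod 2) (κ lam : ZMod 2) (x : X 2 2 r) : ℕ :=
  {a : Fin r → V 2 2 | PSol δ κ lam (sy x.1) x.2 a}.ncard

/-- PER -/
def S_PER : Prop := ∀ ε : ℝ, 0 < ε → ∃ r0 : ℕ, ∀ r : ℕ, r0 ≤ r → ∀ δ : Fin r → ZMod 2,
  ∑ i, δ i = 0 → ∀ κ lam : ZMod 2,
  (1 / 6 - ε) * (Nat.card (X 2 2 r) : ℝ) ≤ ({x : X 2 2 r | nsolP δ κ lam x = 1}.ncard : ℝ) ∧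
  (7 / 12 - ε) * (Nat.card (X 2 2 r) : ℝ) ≤ ({x : X 2 2 r | nsolP δ κ lam x ≤ 2}.ncard : ℝ)

/-- the error of a set of degrees -/
noncomputable def wt (Q C : ℝ) (A : Finset ℕ) : ℝ :=
  ∑ n ∈ A, (2 : ℝ) ^ (A.filter fun m => m ≤ n).card * (C * (n : ℝ) ^ 3 / Q ^ n)

/-- CNT -/
def S_CNT : Prop := ∀ Q C ε : ℝ, 1 < Q → 0 < C → 0 < ε → ∀ r0 N0 : ℕ, ∃ c : ℝ, 0 < c ∧
  ∃ D0 : ℕ, ∀ D : ℕ, D0 ≤ D → ∃ 𝒜 : Finset (Finset ℕ),
    (∀ A ∈ 𝒜, (∀ n ∈ A, N0 ≤ n) ∧ ∑ n ∈ A, n = D ∧ r0 ≤ A.card ∧ wt Q C A ≤ ε) ∧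
    c ≤ ∑ A ∈ 𝒜, ∏ n ∈ A, (1 / (n : ℝ))

section
variable {k : Type} [Field k] [Fintype k] [DecidableEq k]

open Classical in
/-- the tuples with prescribed degrees and symbols -/
noncomputable def PtN (P : Fin 2 → k[X]) {r : ℕ} (n : Fin r → ℕ) (A : Fin r → Fin r → ZMod 2)
    (p : Fin r → V 2 2) : Finset (Fin r → k[X]) :=
  (Fintype.piFinset fun i : Fin r => Pr k (n i)).filter fun d =>
    (∀ i s, L 2 (P s) (d i) = p i s) ∧ ∀ i j, i ≠ j → L 2 (d j) (d i) = A i j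

end

/-- EQD -/
def S_EQD : Prop := ∀ (k : Type) [Field k] [Fintype k] [DecidableEq k], SYM 2 k →
  ringChar k ≠ 2 → ∀ (N : ℕ) (P : Fin 2 → k[X]), 1 ≤ N → (∀ s, (P s).Monic) →
  (∀ s, Irreducible (P s)) → Function.Injective P → (∀ s, (P s).natDegree = N) →
  ∀ (r : ℕ) (n : Fin r → ℕ), StrictAnti n → (∀ i, N < n i) →
  (∀ i, 4 ≤ (Real.sqrt (Fintype.card k)) ^ n i) → ∀ (A : Fin r → Fin r → ZMod 2)
  (p : Fin r → V 2 2), (∀ i j, A i j = A j i) →
  cst 2 2 r * (1 - ∑ i : Fin r, (2 : ℝ) ^ (r - (i : ℕ)) *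
      ((60 + 80 * (N : ℝ)) * (n i : ℝ) ^ 3 / (Real.sqrt (Fintype.card k)) ^ n i)) *
    ∏ i, ((Pr k (n i)).card : ℝ) ≤ ((PtN P n A p).card : ℝ)

/-- the members of `A` in decreasing order -/
noncomputable def dg (A : Finset ℕ) (i : Fin A.card) : ℕ := A.orderEmbOfFin rfl (Fin.rev i)

open Classical in
/-- FAM -/
def S_FAM : Prop := ∀ (k : Type) [Field k] [Fintype k] [DecidableEq k] (𝒜 : Finset (Finset ℕ)),
  (∀ A ∈ 𝒜, ∀ n ∈ A, 1 ≤ n) → ∃ S : Finset k[X],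
    (∀ D ∈ S, D.Monic ∧ Squarefree D ∧ ∃ A ∈ 𝒜, D.natDegree = ∑ n ∈ A, n) ∧
    S.card = ∑ A ∈ 𝒜, ∏ n ∈ A, (Pr k n).card ∧
    ∀ R : k[X] → Prop, (S.filter R).card = ∑ A ∈ 𝒜,
      ((Fintype.piFinset fun i : Fin A.card => Pr k (dg A i)).filter fun d => R (∏ i, d i)).card

end Pool.Agent.D0H99.OD
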