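import Pool.Agent.D0H99.FT.Cr
import Pool.Agent.D0H99.RM.Cr
import Pool.Agent.D0H99.OD.Stm

/-!
Twists of a pencil by several primes of any degrees: valuations and representations modulo `ℓ`-th powers
(adapted from `Pool.Agent.D0H99.RM.Rp`).
-/

set_option autoImplicit false
set_option linter.all false

open Polynomial IsDedekindDomain

namespace Pool.Agent.D0H99.OD

open Finset
open Pool.Agent.Y164.SZ
open Pool.Agent.Y713.SE (hp Pw mem_hp eq_hp val_hp_self not_pw_exp val_eq_one_iff val_C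
  exists_gen)
open Pool.Agent.Y164.PS (Fam el el' el_eq el'_not_dvd)
open Pool.Agent.D0H99.FT (br nu cs val_el val_el_one adj)
open Pool.Agent.Y713.SE.Dat (au)

/-- the data of a twist of a pencil -/
structure Dtc (ℓ : ℕ) [Fact ℓ.Prime] {k : Type} [Field k] [Fintype k] [DecidableEq k] {m : ℕ}
    (c : Fin m → k) (g : k[X]) (P : Fin m → k[X]) {ι : Type} [Fintype ι] (T : ι → k[X])
    (t : ι → ℕ) : Prop where
  S : SYM0 ℓ k
  hl : ∃ z : k, z ^ ℓ = -1
  hlk : (ℓ : k) ≠ 0
  hm : 2 ≤ m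
  hn : ¬ ℓ ∣ m + 1
  hc : Function.Injective c
  hg : ¬ ℓ ∣ g.natDegree
  hP : ∀ a, g - C (c a) = C g.leadingCoeff * P a
  fam : Fam (Sum.elim T P)
  ht : ∀ x, ¬ ℓ ∣ t x

namespace Dtc

variable {ℓ : ℕ} [hℓ : Fact ℓ.Prime] {k : Type} [Field k] [Fintype k] [DecidableEq k] {m : ℕ}
  {c : Fin m → k} {g : k[X]} {P : Fin m → k[X]} {ι : Type} [Fintype ι] {T : ι → k[X]} {t : ι → ℕ}
  (H : Dtc ℓ c g P T t)

include H

theorem gpos : 0 < g.natDegree := Nat.pos_of_ne_zero fun h => H.hg (h ▸ dvd_zero _)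

theorem lc_ne : g.leadingCoeff ≠ 0 := by
  intro h
  have h1 := H.gpos
  rw [leadingCoeff_eq_zero.1 h, natDegree_zero] at h1
  exact lt_irrefl _ h1

theorem ch_neg (x : k) (hx : x ≠ 0) : ch ℓ (-x) = ch ℓ x := by
  have h1 : ch ℓ (-1 : k) = 0 := by
    obtain ⟨z, hz⟩ := H.hl
    exact (H.S.ch_zero_iff (-1) (neg_ne_zero.2 one_ne_zero)).2 ⟨z, hz.symm⟩
  have h2 := H.S.ch_mul (-1) x (neg_ne_zero.2 one_ne_zero) hx
  rw [h1, zero_add, neg_one_mul] at h2
  exact h2

theorem deg_P (a : Fin m) : (P a).natDegree = g.natDegree := by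
  have h1 := congrArg natDegree (H.hP a)
  rw [natDegree_sub_C, natDegree_C_mul H.lc_ne] at h1
  exact h1.symm

theorem deg_P_ne (a : Fin m) : ((P a).natDegree : ZMod ℓ) ≠ 0 := by
  rw [H.deg_P, Ne, ZMod.natCast_eq_zero_iff]
  exact H.hg

theorem br_ne {i j : Fin (m + 1)} (h : i ≠ j) : br g c i ≠ br g c j := by
  have h0 : ∀ a : Fin m, g ≠ C (c a) := fun a h1 => by
    have h2 := H.gpos
    rw [h1, natDegree_C] at h2
    exact lt_irrefl _ h2
  rcases Fin.eq_zero_or_eq_succ i with rfl | ⟨a, rfl⟩ <;>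
    rcases Fin.eq_zero_or_eq_succ j with rfl | ⟨b, rfl⟩
  · exact absurd rfl h
  · exact h0 b
  · exact fun h1 => h0 a h1.symm
  · intro h1
    exact h (congrArg Fin.succ (H.hc (C_injective h1)))

/-- the factorization of the differences -/
theorem diff {i j : Fin (m + 1)} (h : i ≠ j) : br g c i - br g c j =
    el (Sum.elim T P) (br g c i - br g c j).leadingCoeff (Sum.elim (fun _ => 0) (nu i j)) := by
  have hel : ∀ (r : k) (n : Fin m → ℕ), el (Sum.elim T P) r (Sum.elim (fun _ => 0) n) =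
      C r * ∏ s, P s ^ n s := by
    intro r n
    rw [el, Fintype.prod_sum_type]
    simp
  have hsingle : ∀ (a : Fin m) (n : Fin m → ℕ), (∀ s, n s = if s = a then 1 else 0) →
      ∏ s, P s ^ n s = P a := by
    intro a n hn
    rw [Finset.prod_eq_single a]
    · rw [hn, if_pos rfl, pow_one]
    · intro s _ hs
      rw [hn, if_neg hs, pow_zero]
    · intro h
      exact absurd (mem_univ _) h
  rw [hel]
  rcases Fin.eq_zero_or_eq_succ i with rfl | ⟨a, rfl⟩ <;>
    rcases Fin.eq_zero_or_eq_succ j with rfl | ⟨b, rfl⟩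
  · exact absurd rfl h
  · have e1 : br g c 0 - br g c b.succ = C g.leadingCoeff * P b := H.hP b
    have e2 : (g - C (c b)).leadingCoeff = g.leadingCoeff := by
      apply leadingCoeff_sub_of_degree_lt
      exact lt_of_le_of_lt degree_C_le (natDegree_pos_iff_degree_pos.1 H.gpos)
    have e3 : (br g c 0 - br g c b.succ).leadingCoeff = g.leadingCoeff := e2
    rw [e3, hsingle b, e1]
    intro s
    unfold nu
    by_cases hs : s = b
    · rw [if_pos hs, if_pos (Or.inl ⟨rfl, congrArg Fin.succ hs⟩)]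
    · rw [if_neg hs, if_neg]
      rintro (⟨-, h1⟩ | ⟨h1, -⟩)
      · exact hs (Fin.succ_injective _ h1)
      · exact Fin.succ_ne_zero _ h1.symm
  · have e1 : br g c a.succ - br g c 0 = - (g - C (c a)) := by
      change C (c a) - g = _
      ring
    have e2 : (g - C (c a)).leadingCoeff = g.leadingCoeff := by
      apply leadingCoeff_sub_of_degree_lt
      exact lt_of_le_of_lt degree_C_le (natDegree_pos_iff_degree_pos.1 H.gpos)
    rw [e1, leadingCoeff_neg, e2, hsingle a, H.hP, C_neg, neg_mul]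
    intro s
    unfold nu
    by_cases hs : s = a
    · rw [if_pos hs, if_pos (Or.inr ⟨rfl, congrArg Fin.succ hs⟩)]
    · rw [if_neg hs, if_neg]
      rintro (⟨h1, -⟩ | ⟨-, h1⟩)
      · exact Fin.succ_ne_zero _ h1.symm
      · exact hs (Fin.succ_injective _ h1)
  · have e1 : br g c a.succ - br g c b.succ = C (c a - c b) := by
      change C (c a) - C (c b) = _
      rw [C_sub]
    rw [e1, leadingCoeff_C, Finset.prod_eq_one, mul_one]
    intro s _
    unfold nu
    rw [if_neg, pow_zero]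
    rintro (⟨h1, -⟩ | ⟨h1, -⟩) <;> exact Fin.succ_ne_zero _ h1.symm

theorem lc_diff {i j : Fin (m + 1)} (h : i ≠ j) : (br g c i - br g c j).leadingCoeff ≠ 0 :=
  leadingCoeff_ne_zero.2 (sub_ne_zero.2 (H.br_ne h))

end Dtc

namespace Dtc

variable {ℓ : ℕ} [hℓ : Fact ℓ.Prime] {k : Type} [Field k] [Fintype k] [DecidableEq k] {m : ℕ}
  {c : Fin m → k} {g : k[X]} {P : Fin m → k[X]} {ι : Type} [Fintype ι] {T : ι → k[X]} {t : ι → ℕ}
  (H : Dtc ℓ c g P T t)

include H

theorem cs_symm (i j : Fin (m + 1)) : cs ℓ g c i j = cs ℓ g c j i := by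
  by_cases h : i = j
  · rw [h]
  · have h1 : br g c i - br g c j = - (br g c j - br g c i) := by ring
    unfold cs
    rw [h1, leadingCoeff_neg, H.ch_neg _ (H.lc_diff (Ne.symm h))]

variable (K : Type) [Field K] [Algebra k[X] K] [IsFractionRing k[X] K]

theorem rep_diff {i j : Fin (m + 1)} (h : i ≠ j) :
    IsRep ℓ (Sum.elim T P) (algebraMap k[X] K (br g c i) - algebraMap k[X] K (br g c j))
      (cs ℓ g c i j) (Sum.elim (fun _ => 0) (fun s => mu ℓ (fun _ => 0) Fin.succ i j s)) := by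
  have h0 := isRep_el (ℓ := ℓ) (K := K) (R := Sum.elim T P) (H.lc_diff h)
    (Sum.elim (fun _ => 0) (nu i j))
  rw [← H.diff h, map_sub] at h0
  refine h0.congr rfl ?_
  rintro (x | s)
  · simp
  · change ((nu i j s : ℕ) : ZMod ℓ) = mu ℓ (fun _ => 0) Fin.succ i j s
    unfold nu mu
    split_ifs <;> simp

theorem rep_twist {r : k} (hr : r ≠ 0) :
    IsRep ℓ (Sum.elim T P) (algebraMap k[X] K (C r * ∏ x, T x ^ t x)) (ch ℓ r)
      (Sum.elim (fun x => (t x : ZMod ℓ)) (fun _ => 0)) := by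
  have h := isRep_el (ℓ := ℓ) (K := K) (R := Sum.elim T P) hr (Sum.elim t (fun _ => 0))
  have h1 : el (Sum.elim T P) r (Sum.elim t (fun _ => 0)) = C r * ∏ x, T x ^ t x := by
    rw [el, Fintype.prod_sum_type]
    simp
  rw [h1] at h
  refine h.congr rfl ?_
  rintro (x | x) <;> simp

end Dtc

namespace Dtc

variable {ℓ : ℕ} [hℓ : Fact ℓ.Prime] {k : Type} [Field k] [Fintype k] [DecidableEq k] {m : ℕ}
  {c : Fin m → k} {g : k[X]} {P : Fin m → k[X]} {ι : Type} [Fintype ι] {T : ι → k[X]} {t : ι → ℕ}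
  (H : Dtc ℓ c g P T t)

include H

section val
variable {K : Type} [Field K] [Algebra k[X] K] [IsFractionRing k[X] K]

theorem val_ell (v : HeightOneSpectrum k[X]) : v.valuation K ((ℓ : ℕ) : K) = 1 := by
  have h3 : ((ℓ : ℕ) : K) = algebraMap k[X] K (C ((ℓ : ℕ) : k)) := by
    rw [C_eq_natCast, map_natCast]
  rw [h3]
  exact val_C H.hlk

theorem notMem {x y : ι ⊕ Fin m} (h : y ≠ x) :
    Sum.elim T P y ∉ (hp (Sum.elim T P x) (H.fam.irr x)).asIdeal := by
  rw [mem_hp]
  intro hd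
  have h1 := eq_of_monic_of_associated (H.fam.mon x) (H.fam.mon y)
    (((H.fam.irr x).associated_of_dvd (H.fam.irr y)) hd)
  exact h (H.fam.inj h1).symm

theorem val_diff (x : ι ⊕ Fin m) {i j : Fin (m + 1)} (h : i ≠ j) :
    (hp (Sum.elim T P x) (H.fam.irr x)).valuation K
      (algebraMap k[X] K (br g c i) - algebraMap k[X] K (br g c j)) =
      (WithZero.exp (-1 : ℤ)) ^ (Sum.elim (fun _ => 0) (nu i j) x : ℕ) := by
  rw [← map_sub, H.diff h]
  exact val_el H.fam (H.lc_diff h) _ x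

theorem val_diff_one {v : HeightOneSpectrum k[X]} (hv : ∀ x, Sum.elim T P x ∉ v.asIdeal)
    {i j : Fin (m + 1)} (h : i ≠ j) :
    v.valuation K (algebraMap k[X] K (br g c i) - algebraMap k[X] K (br g c j)) = 1 := by
  rw [← map_sub, H.diff h]
  exact val_el_one (H.lc_diff h) _ hv

omit H in
theorem el_twist (r : k) : el (Sum.elim T P) r (Sum.elim t (fun _ => 0)) =
    C r * ∏ x, T x ^ t x := by
  rw [el, Fintype.prod_sum_type]
  simp

theorem val_del {r : k} (hr : r ≠ 0) (x : ι ⊕ Fin m) :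
    (hp (Sum.elim T P x) (H.fam.irr x)).valuation K
      (algebraMap k[X] K (C r * ∏ x, T x ^ t x)) =
      (WithZero.exp (-1 : ℤ)) ^ (Sum.elim t (fun _ => 0) x : ℕ) := by
  rw [← el_twist (P := P) r]
  exact val_el H.fam hr _ x

omit H in
theorem val_del_one {v : HeightOneSpectrum k[X]} {r : k} (hr : r ≠ 0)
    (hv : ∀ x, Sum.elim T P x ∉ v.asIdeal) :
    v.valuation K (algebraMap k[X] K (C r * ∏ x, T x ^ t x)) = 1 := by
  rw [← el_twist (P := P) r]
  exact val_el_one hr _ hv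

end val

theorem L_self (x : ι ⊕ Fin m) : L ℓ (Sum.elim T P x) (Sum.elim T P x) = 0 := by
  apply H.S.L_nc _ _ (H.fam.irr x).ne_zero
  intro h
  exact (H.fam.irr x).not_isUnit (h.isUnit_of_dvd' dvd_rfl dvd_rfl)

end Dtc

end Pool.Agent.D0H99.OD
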