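import Pool.Agent.D0H99.DE.Idx
import Pool.Agent.D0H99.OD.Rp

/-!
Explicit 2-descent for twists by primes of any degrees: the algebra (adapted from
`Pool.Agent.D0H99.DE.Alg`).
-/

set_option autoImplicit false
set_option linter.all false

open Polynomial IsDedekindDomain

namespace Pool.Agent.D0H99.OD

open Finset
open Pool.Agent.Y164.SZ
open Pool.Agent.Y713.SE (hp Pw)
open Pool.Agent.Y164.PS (Fam el)
open Pool.Agent.D0H99.FT (br nu cs)
open Pool.Agent.D0H99.RM (V Sol)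
open Pool.Agent.D0H99.DE (tx tp th t1 t2 t4 t5 th_ne th_mu succ_cases rt tors LSq locB Vec tc)

section
variable {k : Type} [Field k] [Fintype k] [DecidableEq k]
variable {K : Type} [Field K] [Algebra k[X] K] [IsFractionRing k[X] K]
variable {c : Fin 2 → k} {g : k[X]} {P : Fin 2 → k[X]} {r : ℕ} {T : Fin r → k[X]}

/-- the local conditions -/
structure Sel (H : Dtc 2 c g P T (fun _ => 1)) (D : Fin 3 → K) : Prop where
  ne : ∀ i, D i ≠ 0
  sq : ∃ y, y ≠ 0 ∧ D 0 * D 1 * D 2 = y ^ 2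
  good : ∀ v : HeightOneSpectrum k[X], (∀ x, Sum.elim T P x ∉ v.asIdeal) → ∀ i,
    Pw 2 (v.valuation K (D i))
  node : ∀ s : Fin 2, ∃ ρ : ℕ,
    LSq (hp (Sum.elim T P (Sum.inr s)) (H.fam.irr (Sum.inr s)))
      (D (th s) * (rt K c g T 0 - rt K c g T (th s)) ^ ρ) ∧
    Pw 2 ((hp (Sum.elim T P (Sum.inr s)) (H.fam.irr (Sum.inr s))).valuation K
      (D 0 * (algebraMap k[X] K (P s)) ^ ρ))
  twist : ∀ x : Fin r, ∃ m : Fin 3 → ℕ, ∀ j,
    LSq (hp (Sum.elim T P (Sum.inl x)) (H.fam.irr (Sum.inl x)))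
      (D j * ∏ i, tors K c g T i j ^ m i)

theorem Sel.mul {H : Dtc 2 c g P T (fun _ => 1)} {D D' : Fin 3 → K} (h : Sel H D)
    (h' : Sel H D') : Sel H (fun i => D i * D' i) where
  ne i := mul_ne_zero (h.ne i) (h'.ne i)
  sq := by
    obtain ⟨y, hy, e⟩ := h.sq
    obtain ⟨y', hy', e'⟩ := h'.sq
    exact ⟨y * y', mul_ne_zero hy hy', by rw [mul_pow, ← e, ← e']; ring⟩
  good v hv i := by
    rw [map_mul]
    exact (h.good v hv i).mul (h'.good v hv i)
  node s := by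
    obtain ⟨ρ, h1, h2⟩ := h.node s
    obtain ⟨ρ', h1', h2'⟩ := h'.node s
    refine ⟨ρ + ρ', ?_, ?_⟩
    · have e := h1.mul h1'
      refine cast (congrArg _ ?_) e
      ring
    · have e := h2.mul h2'
      rw [← map_mul] at e
      refine cast (congrArg _ (congrArg _ ?_)) e
      ring
  twist x := by
    obtain ⟨m, h1⟩ := h.twist x
    obtain ⟨m', h1'⟩ := h'.twist x
    refine ⟨m + m', fun j => ?_⟩
    have e := (h1 j).mul (h1' j)
    refine cast (congrArg _ ?_) e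
    simp only [Pi.add_apply, pow_add, prod_mul_distrib]
    ring

theorem exists_vec {H : Dtc 2 c g P T (fun _ => 1)} {D : Fin 3 → K} (h : Sel H D) :
    ∃ a, Vec T P D a := by
  obtain ⟨rA, rB, rC, rD⟩ :=
    Pool.Agent.Y547.SZ.Rep.t 2 k K (Fin r ⊕ Fin 2) (Sum.elim T P) H.fam H.S
  obtain ⟨c1, U1, h1⟩ := rD (D 1) (h.ne 1) fun v hv => h.good v hv 1
  obtain ⟨c2, U2, h2⟩ := rD (D 2) (h.ne 2) fun v hv => h.good v hv 2
  obtain ⟨y, hy, e⟩ := h.sq
  have h0 : IsRep 2 (Sum.elim T P) (D 0) (c1 + c2) (fun x => U1 x + U2 x) := by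
    have h3 := (h1.mul H.S h2).pow_mul' (z := y / (D 1 * D 2))
      (div_ne_zero hy (mul_ne_zero (h.ne 1) (h.ne 2)))
    have e' : (y / (D 1 * D 2)) ^ 2 * (D 1 * D 2) = D 0 := by
      rw [div_pow, ← e]
      have := h.ne 1
      have := h.ne 2
      field_simp
    rwa [e'] at h3
  refine ⟨_, ![c1 + c2, c1, c2], ![fun x => U1 x + U2 x, U1, U2], ?_, rfl, fun _ => rfl,
    fun _ _ => rfl⟩
  intro i
  fin_cases i
  · exact h0
  · exact h1
  · exact h2

theorem vec_mul (H : Dtc 2 c g P T (fun _ => 1)) {D D' : Fin 3 → K} {a a' : Fin r → V 2 2}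
    (h : Vec T P D a) (h' : Vec T P D' a') : Vec T P (fun i => D i * D' i) (a + a') := by
  obtain ⟨cc, U, h1, h2, h3, h4⟩ := h
  obtain ⟨cc', U', h1', h2', h3', h4'⟩ := h'
  refine ⟨fun i => cc i + cc' i, fun i x => U i x + U' i x, fun i => (h1 i).mul H.S (h1' i), ?_,
    fun y => ?_, fun x s => ?_⟩
  · simp only [h2, h2']
    ring
  · simp only [h3, h3']
    ring
  · rw [Pi.add_apply, Pi.add_apply, h4, h4']
    ring

end

end Pool.Agent.D0H99.OD
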