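import Pool.Agent.D0H99.OD.LawS

/-!
The law of the number of solutions with a fixed small block, for almost all matrices.
-/

set_option autoImplicit false
set_option linter.all false

open Filter

namespace Pool.Agent.D0H99.OD

open Finset
open Pool.Agent.D0H99.RM (V X sy cst)

/-- CONFS: for almost all matrices the law over `p` is as expected -/
def S_CONFS : Prop := ∀ (ε : ℝ), 0 < ε → ∀ s0 : ℕ, ∃ t0 : ℕ, ∀ r s : ℕ, s ≤ s0 → s ≤ r →
    t0 ≤ r - s → ∀ (β : Bm r) (π : Fin r → V 2 2) (δ : Fin r → ZMod 2), ∑ i, δ i = 0 →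
    ∀ κ lam : ZMod 2, ∃ Bad : Set (Bm r), (Bad.ncard : ℝ) ≤ ε * ((BS s β).ncard : ℝ) ∧
      ∀ B ∈ BS s β, B ∉ Bad → ∀ m : ℕ, (FF m - ε) * ((PS s π).ncard : ℝ) ≤
        ({p : Fin r → V 2 2 | p ∈ PS s π ∧ nsolP δ κ lam (B, p) ≤ 2 ^ m}.ncard : ℝ)

open Classical in
/-- one matrix -/
theorem one_matrixS (hSG2 : S_SG2) (hIN : S_IN) {r s : ℕ} (π : Fin r → V 2 2)
    (δ : Fin r → ZMod 2)
    (κ lam : ZMod 2) (B : Bm r) {η : ℝ} {K : ℕ}
    (hB : ∀ k ≤ K, |(YS s π δ κ lam k B : ℝ) - Tk k * ((PS s π).ncard : ℝ)| ≤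
        η * ((PS s π).ncard : ℝ) ∧
        (ZS s π δ κ lam k B : ℝ) ≤ η * ((PS s π).ncard : ℝ)) (d : (Fin r → V 2 2) → ℕ)
    (hd : ∀ p, nsolP δ κ lam (B, p) = 2 ^ d p)
    (hd2 : ∀ p, ((d p : ℕ) : ZMod 2) = ∑ y, ∑ t, p y t) (m k : ℕ) (hk : k ≤ K) :
    |(∑ a : {p // p ∈ PS s π} with d a.1 % 2 = m % 2, ∏ i ∈ range k, ((2 : ℝ) ^ d a.1 - 2 ^ i)) -
      (2 : ℝ) ^ (k * (k + 1) / 2) / 2 * (Fintype.card {p // p ∈ PS s π} : ℝ)| ≤
      η * (Fintype.card {p // p ∈ PS s π} : ℝ) := by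
  obtain ⟨h1, h2⟩ := hB k hk
  obtain ⟨h3, h4⟩ := evS_odS hSG2 hIN s π δ κ lam k B
  have h5 := evS_add_odS s π δ κ lam k B
  have hcd : (Fintype.card {p // p ∈ PS s π} : ℝ) = ((PS s π).ncard : ℝ) := by
    rw [← Nat.card_eq_fintype_card]
    rfl
  rw [hcd]
  have e0 : (2 : ℝ) ^ (k * (k + 1) / 2) = Tk k := rfl
  rw [e0]
  have h3' : (evS s π δ κ lam k B : ℝ) ≤ odS s π δ κ lam k B + ZS s π δ κ lam k B := by
    exact_mod_cast h3
  have h4' : (odS s π δ κ lam k B : ℝ) ≤ evS s π δ κ lam k B + ZS s π δ κ lam k B := by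
    exact_mod_cast h4
  have h5' : (evS s π δ κ lam k B : ℝ) + odS s π δ κ lam k B = YS s π δ κ lam k B := by
    exact_mod_cast h5
  rw [abs_le] at h1
  have hcase : ∀ p, d p % 2 = m % 2 ↔ (if m % 2 = 0 then ∑ y, ∑ t, p y t = 0 else
      ∑ y, ∑ t, p y t ≠ 0) := by
    intro p
    rw [← hd2 p]
    have hz : (((d p : ℕ) : ZMod 2) = 0) ↔ d p % 2 = 0 := by
      rw [ZMod.natCast_eq_zero_iff]
      exact Nat.dvd_iff_mod_eq_zero
    by_cases hm : m % 2 = 0
    · rw [if_pos hm, hz, hm]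
    · rw [if_neg hm, Ne, hz]
      omega
  have hval : (∑ a : {p // p ∈ PS s π} with d a.1 % 2 = m % 2,
      ∏ i ∈ range k, ((2 : ℝ) ^ d a.1 - 2 ^ i)) =
      if m % 2 = 0 then (evS s π δ κ lam k B : ℝ) else (odS s π δ κ lam k B : ℝ) := by
    have e1 : (∑ a : {p // p ∈ PS s π} with d a.1 % 2 = m % 2,
        ∏ i ∈ range k, ((2 : ℝ) ^ d a.1 - 2 ^ i)) =
        ∑ a : {p // p ∈ PS s π}, (if d a.1 % 2 = m % 2 then
          (fm δ κ lam k (B, a.1) : ℝ) else 0) := by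
      rw [sum_filter]
      refine sum_congr rfl fun a _ => ?_
      split_ifs
      · exact (fm_cast δ κ lam k (B, a.1) (hd a.1)).symm
      · rfl
    have e2 : ∑ a : {p // p ∈ PS s π}, (if d a.1 % 2 = m % 2 then
          (fm δ κ lam k (B, a.1) : ℝ) else 0) =
        ∑ p ∈ (univ.filter fun p : Fin r → V 2 2 => p ∈ PS s π), (if d p % 2 = m % 2 then
          (fm δ κ lam k (B, p) : ℝ) else 0) := by
      rw [Finset.sum_subtype (univ.filter fun p : Fin r → V 2 2 => p ∈ PS s π)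
        (p := fun p => p ∈ PS s π) (fun x => by simp)
        (fun p => if d p % 2 = m % 2 then (fm δ κ lam k (B, p) : ℝ) else 0)]
    rw [e1, e2, ← sum_filter, filter_filter]
    by_cases hm : m % 2 = 0
    · rw [if_pos hm]
      unfold evS
      rw [Nat.cast_sum]
      refine sum_congr ?_ fun a _ => rfl
      ext a
      rw [mem_filter, mem_filter, hcase, if_pos hm]
      exact and_congr_right fun _ => and_comm
    · rw [if_neg hm]
      unfold odS
      rw [Nat.cast_sum]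
      refine sum_congr ?_ fun a _ => rfl
      ext a
      rw [mem_filter, mem_filter, hcase, if_neg hm]
      exact and_congr_right fun _ => and_comm
  rw [hval, abs_le]
  split_ifs
  · constructor
    · linarith [h1.1, h1.2]
    · linarith [h1.1, h1.2]
  · constructor
    · linarith [h1.1, h1.2]
    · linarith [h1.1, h1.2]

theorem t_CONFS (hNG2 : S_NG2) (hGN : S_GN) (hGD : S_GD) (hGN2 : S_GN2) (hCT2 : S_CT2)
    (hSG2 : S_SG2) (hIN : S_IN) (hLAW : S_LAW) (hNUM : S_NUM) : S_CONFS := by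
  classical
  intro ε hε s0
  obtain ⟨-, -, -, hF01, hFlim⟩ := hNUM
  obtain ⟨m0, hm0⟩ := eventually_atTop.1 (hFlim.eventually (lt_mem_nhds
    (show (1 : ℝ) - ε / 2 < 1 by linarith)))
  have hm0' := hm0 m0 le_rfl
  obtain ⟨ε1, hε1⟩ : ∃ ε1 : ℝ, ε1 = ε / (2 * (m0 + 1)) := ⟨_, rfl⟩
  have hε10 : 0 < ε1 := by rw [hε1]; positivity
  have hε1m : (m0 + 1) * ε1 = ε / 2 := by
    rw [hε1]
    field_simp
  choose K η hη hL using fun m : ℕ => hLAW m ε1 hε10
  obtain ⟨K0, hK0⟩ : ∃ K0 : ℕ, ∀ m ≤ m0, K m ≤ K0 := by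
    refine ⟨(range (m0 + 1)).sup K, fun m hm => ?_⟩
    exact le_sup (f := K) (mem_range.2 (Nat.lt_succ_of_le hm))
  obtain ⟨η0, hη0, hη0'⟩ : ∃ η0 : ℝ, 0 < η0 ∧ ∀ m ≤ m0, η0 ≤ η m := by
    have hne : (range (m0 + 1)).Nonempty := ⟨0, mem_range.2 (Nat.succ_pos _)⟩
    refine ⟨(range (m0 + 1)).inf' hne η, ?_, fun m hm => ?_⟩
    · exact (lt_inf'_iff hne).2 fun m _ => hη m
    · exact inf'_le _ (mem_range.2 (Nat.lt_succ_of_le hm))
  obtain ⟨ε2, hε2⟩ : ∃ ε2 : ℝ, ε2 = min η0 (ε / (K0 + 1)) := ⟨_, rfl⟩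
  have hε20 : 0 < ε2 := by rw [hε2]; exact lt_min hη0 (by positivity)
  choose r1 hr1 using fun k : ℕ => almostS hNG2 hGN hGD hGN2 hCT2 hIN k s0 hε20
  obtain ⟨r0, hr0⟩ : ∃ r0 : ℕ, ∀ k ≤ K0, r1 k ≤ r0 := by
    refine ⟨(range (K0 + 1)).sup r1, fun k hk => ?_⟩
    exact le_sup (f := r1) (mem_range.2 (Nat.lt_succ_of_le hk))
  refine ⟨r0, fun r s hs0 hs ht β π δ hδ κ lam => ?_⟩
  have hal : ∀ (k : ℕ), ∃ Bad : Set (Bm r), k ≤ K0 →
      ((Bad.ncard : ℝ) ≤ ε2 * ((BS s β).ncard : ℝ) ∧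
      ∀ B ∈ BS s β, B ∉ Bad → |(YS s π δ κ lam k B : ℝ) - Tk k * ((PS s π).ncard : ℝ)| ≤
        ε2 * ((PS s π).ncard : ℝ) ∧ (ZS s π δ κ lam k B : ℝ) ≤ ε2 * ((PS s π).ncard : ℝ)) := by
    intro k
    by_cases hk : k ≤ K0
    · obtain ⟨Bad, h⟩ := hr1 k r s hs0 hs ((hr0 k hk).trans ht) β π δ hδ κ lam
      exact ⟨Bad, fun _ => h⟩
    · exact ⟨∅, fun h => absurd h hk⟩
  choose Bad hBad using hal
  obtain ⟨Bf, hBf⟩ : ∃ Bf : ℕ → Finset (Bm r), ∀ k, (Bf k : Set _) = Bad k :=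
    ⟨fun k => (Set.toFinite (Bad k)).toFinset, fun k => Set.Finite.coe_toFinset _⟩
  refine ⟨(((range (K0 + 1)).biUnion Bf : Finset (Bm r)) : Set (Bm r)), ?_, ?_⟩
  · rw [Set.ncard_coe_finset]
    have h1 : (((range (K0 + 1)).biUnion Bf).card : ℝ) ≤
        ∑ z ∈ range (K0 + 1), ((Bf z).card : ℝ) := by
      exact_mod_cast card_biUnion_le
    have h2 : ∑ z ∈ range (K0 + 1), ((Bf z).card : ℝ) ≤
        ∑ z ∈ range (K0 + 1), ε2 * ((BS s β).ncard : ℝ) := by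
      refine sum_le_sum fun z hz => ?_
      have h3 := (hBad z (Nat.le_of_lt_succ (mem_range.1 hz))).1
      rw [← hBf, Set.ncard_coe_finset] at h3
      exact h3
    refine h1.trans (h2.trans ?_)
    rw [sum_const, card_range, nsmul_eq_mul]
    have h4 : ε2 ≤ ε / (K0 + 1) := by rw [hε2]; exact min_le_right _ _
    have h5 : ((K0 + 1 : ℕ) : ℝ) * ε2 ≤ ε := by
      push_cast
      calc ((K0 : ℝ) + 1) * ε2 ≤ ((K0 : ℝ) + 1) * (ε / (K0 + 1)) :=
            mul_le_mul_of_nonneg_left h4 (by positivity)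
        _ = ε := by
            field_simp
    rw [← mul_assoc]
    exact mul_le_mul_of_nonneg_right h5 (Nat.cast_nonneg _)
  · intro B hBS hB
    have hB' : ∀ k ≤ K0, |(YS s π δ κ lam k B : ℝ) - Tk k * ((PS s π).ncard : ℝ)| ≤
        ε2 * ((PS s π).ncard : ℝ) ∧ (ZS s π δ κ lam k B : ℝ) ≤ ε2 * ((PS s π).ncard : ℝ) := by
      intro k hk
      apply (hBad k hk).2 B hBS
      intro h
      apply hB
      rw [mem_coe, mem_biUnion]
      refine ⟨k, mem_range.2 (Nat.lt_succ_of_le hk), ?_⟩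
      rw [← hBf] at h
      exact h
    choose d hd hd2 using fun p : Fin r → V 2 2 => Pool.Agent.D0H52.OD.ppar δ hδ κ lam (B, p)
    have hcd : (Fintype.card {p // p ∈ PS s π} : ℝ) = ((PS s π).ncard : ℝ) := by
      rw [← Nat.card_eq_fintype_card]
      rfl
    have hM0 : (0 : ℝ) ≤ ((PS s π).ncard : ℝ) := Nat.cast_nonneg _
    have hone : ∀ m ≤ m0, (aa m - ε1) * ((PS s π).ncard : ℝ) ≤
        ({p : Fin r → V 2 2 | p ∈ PS s π ∧ d p = m}.ncard : ℝ) := by
      intro m hm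
      have g1 := hL m {p // p ∈ PS s π} (fun a => d a.1) (by
        intro k hk
        have g2 := one_matrixS hSG2 hIN π δ κ lam B hB' d hd hd2 m k (hk.trans (hK0 m hm))
        refine le_trans ?_ (g2.trans ?_)
        · apply le_of_eq
          congr 2
        · apply mul_le_mul_of_nonneg_right _ (Nat.cast_nonneg _)
          have : ε2 ≤ η0 := by rw [hε2]; exact min_le_left _ _
          exact this.trans (hη0' m hm))
      rw [hcd] at g1
      refine g1.trans (le_of_eq ?_)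
      congr 1
      refine Set.ncard_congr (fun a _ => a.1) ?_ ?_ ?_
      · rintro ⟨a, ha⟩ h
        exact ⟨ha, h⟩
      · rintro ⟨a, ha⟩ ⟨b, hb⟩ _ _ h
        exact Subtype.ext h
      · rintro p ⟨hp1, hp2⟩
        exact ⟨⟨p, hp1⟩, hp2, rfl⟩
    have hset : ∀ m, {p : Fin r → V 2 2 | p ∈ PS s π ∧ nsolP δ κ lam (B, p) ≤ 2 ^ m} =
        {p | p ∈ PS s π ∧ d p ≤ m} := by
      intro m
      ext p
      rw [Set.mem_setOf_eq, Set.mem_setOf_eq, hd p]
      exact and_congr_right fun _ => Nat.pow_le_pow_iff_right (by norm_num)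
    have hsm : ∀ m ≤ m0, (FF m - ε / 2) * ((PS s π).ncard : ℝ) ≤
        ({p : Fin r → V 2 2 | p ∈ PS s π ∧ d p ≤ m}.ncard : ℝ) := by
      intro m hm
      have h1 : {p : Fin r → V 2 2 | p ∈ PS s π ∧ d p ≤ m}.ncard =
          ∑ j ∈ range (m + 1), {p : Fin r → V 2 2 | p ∈ PS s π ∧ d p = j}.ncard := by
        have e1 : {p : Fin r → V 2 2 | p ∈ PS s π ∧ d p ≤ m} =
            ((univ.filter fun p : Fin r → V 2 2 => p ∈ PS s π ∧ d p ≤ m : Finset _) : Set _) := by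
          ext p
          simp
        rw [e1, Set.ncard_coe_finset,
          card_eq_sum_card_fiberwise (f := d) (t := range (m + 1)) (fun p hp => by
            have := (mem_filter.1 hp).2.2
            exact mem_coe.2 (mem_range.2 (Nat.lt_succ_of_le this)))]
        refine sum_congr rfl fun j hj => ?_
        rw [filter_filter, ← Set.ncard_coe_finset]
        congr 1
        ext p
        rw [mem_coe, mem_filter, Set.mem_setOf_eq]
        have := mem_range.1 hj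
        constructor
        · rintro ⟨-, ⟨h1, -⟩, h⟩
          exact ⟨h1, h⟩
        · rintro ⟨h1, h⟩
          exact ⟨mem_univ _, ⟨h1, by omega⟩, h⟩
      rw [h1, FF_eq, Nat.cast_sum]
      have h2 : ∑ j ∈ range (m + 1), (aa j - ε1) * ((PS s π).ncard : ℝ) ≤
          ∑ j ∈ range (m + 1), ({p : Fin r → V 2 2 | p ∈ PS s π ∧ d p = j}.ncard : ℝ) :=
        sum_le_sum fun j hj => hone j ((Nat.le_of_lt_succ (mem_range.1 hj)).trans hm)
      refine le_trans ?_ h2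
      rw [← sum_mul]
      apply mul_le_mul_of_nonneg_right _ hM0
      rw [sum_sub_distrib, sum_const, card_range, nsmul_eq_mul]
      have h3 : ((m + 1 : ℕ) : ℝ) * ε1 ≤ ε / 2 := by
        rw [← hε1m]
        apply mul_le_mul_of_nonneg_right _ hε10.le
        push_cast
        have : (m : ℝ) ≤ m0 := by exact_mod_cast hm
        linarith
      linarith
    intro m
    rw [hset]
    rcases le_total m m0 with hm | hm
    · refine le_trans ?_ (hsm m hm)
      apply mul_le_mul_of_nonneg_right _ hM0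
      linarith
    · have h1 : ({p : Fin r → V 2 2 | p ∈ PS s π ∧ d p ≤ m0}.ncard : ℝ) ≤
          ({p : Fin r → V 2 2 | p ∈ PS s π ∧ d p ≤ m}.ncard : ℝ) := by
        exact_mod_cast Set.ncard_le_ncard (fun p (hp : p ∈ PS s π ∧ d p ≤ m0) =>
          (⟨hp.1, hp.2.trans hm⟩ : p ∈ PS s π ∧ d p ≤ m)) (Set.toFinite _)
      refine le_trans ?_ ((hsm m0 le_rfl).trans h1)
      apply mul_le_mul_of_nonneg_right _ hM0
      have := (hF01 m).2
      linarith

end Pool.Agent.D0H99.OD
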