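import Pool.Agent.D0H99.OD.Stm

/-!
Project OD (helper99), part 6: the prime factors of almost all monic polynomials over a finite field `k`
with `q` elements (odd characteristic). `Pr k n` = the monic irreducible polynomials of degree `n`,
`n #Pr(n) ≤ q ^ n` (`Pool.Agent.Y164.PS.card_Pr_le`) and `q ^ n - 2 q ^ (n / 2) ≤ n #Pr(n)` (`card_Pr_ge`).

`A0` (50 lines): the monic polynomials of degree `D` and the multiples of `E` (`f = E g`).

`A2` (80 lines): `2 ^ (#T)` = number of the subsets `T` of the set of the prime factors of degree `≤ n`; their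
products divide `f`; so the sum is at most `∑_T q ^ (D - deg ∏T) ≤ q ^ D ∏_(P, deg P ≤ n) (1 + q ^ (-deg P)) ≤
q ^ D exp (∑_(j ≤ n) 1 / j) ≤ 3 (n + 1) q ^ D` (`T` over the finsets of primes of degree `≤ n`;
`Finset.prod_one_add` or `prod_add`).

`A3` (50 lines): union over `n > n0` and the pairs `P ≠ Q` in `Pr(n)`: at most `∑ #Pr(n) ^ 2 q ^ (D - 2 n) ≤
q ^ D ∑_(n > n0) 1 / n ^ 2 ≤ q ^ D / n0`.

`A4` (120 lines, Turan): `X f` = number of the prime factors `P` of `f` with `n0 < deg P ≤ y`, `y = D / 2`.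
Over the `q ^ D` monic `f` of degree `D`: mean `μ = ∑_(n0 < n ≤ y) #Pr(n) / q ^ n`, and
`mean of X ^ 2 ≤ μ ^ 2 + μ` (two different primes of degree `≤ D / 2`: `q ^ (D - deg P - deg Q)` multiples of
`P Q`). So `#{X < R} ≤ q ^ D μ / (μ - R) ^ 2`, and `μ → ∞` for `D → ∞`.

`A5` (150 lines): Let `s0` be minimal with `2 ^ s0 ≥ 12 (n0 + 1) / η`; then `2 ^ s0 ≤ 24 (n0 + 1) / η + 2`.
(a) more than `s0` prime factors of degree `≤ n0`: at most `2 ^ (-s0) 3 (n0 + 1) q ^ D ≤ (η / 4) q ^ D` (`A2`).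
(b) `A3`: at most `q ^ D / n0 ≤ (η / 4) q ^ D`. (c) `A4`. (d) `Dg f n0 = A`, `Q = q ^ (1 / 2)`:
`∑_f wt Q C A ≤ ∑_(n > n0) (C n ^ 3 / Q ^ n) ∑_f 2 ^ (number of the prime factors of degree ≤ n) ≤
q ^ D ∑_(n > n0) 3 (n + 1) C n ^ 3 / Q ^ n` (`A2`), `C = 2 ^ (m + s0) (20 + 20 (m + s0) n0)` is at most
polynomial in `n0`, so this is `≤ ε (η / 4) q ^ D` for `n0` large; Markov.

`FM2` (100 lines; adapts `Pool.Agent.D0H98.OD.Fam`): unique factorization with small primes.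
-/

set_option autoImplicit false

open Polynomial

namespace Pool.Agent.D0H99.OD

open Finset
open Pool.Agent.Y164.PS (Pr)

section
variable (k : Type) [Field k] [Fintype k]

open Classical in
/-- the monic polynomials of degree `D` -/
noncomputable def MO (D : ℕ) : Finset k[X] :=
  (univ : Finset (Fin D → k)).image fun c => X ^ D + ∑ i : Fin D, C (c i) * X ^ (i : ℕ)

variable {k}

/-- the monic prime factors -/
def PD (f : k[X]) : Set k[X] := {P | P.Monic ∧ Irreducible P ∧ P ∣ f}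

open Classical in
/-- the degrees `> n0` of the prime factors -/
noncomputable def Dg (f : k[X]) (n0 : ℕ) : Finset ℕ :=
  (range (f.natDegree + 1)).filter fun n => n0 < n ∧ ∃ P ∈ PD f, P.natDegree = n

/-- typical factorization -/
def Typ (f : k[X]) (n0 s0 R : ℕ) (Q Cst ε : ℝ) : Prop :=
  {P ∈ PD f | P.natDegree ≤ n0}.ncard ≤ s0 ∧
  (∀ P ∈ PD f, ∀ P' ∈ PD f, n0 < P.natDegree → P.natDegree = P'.natDegree → P = P') ∧
  R ≤ (Dg f n0).card ∧ wt Q Cst (Dg f n0) ≤ ε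

end

open Classical in
/-- A0 -/
def S_A0 : Prop := ∀ (k : Type) [Field k] [Fintype k] (D : ℕ),
  (∀ f : k[X], f ∈ MO k D ↔ f.Monic ∧ f.natDegree = D) ∧ (MO k D).card = Fintype.card k ^ D ∧
  ∀ E : k[X], E.Monic → ((MO k D).filter fun f => E ∣ f).card =
    if E.natDegree ≤ D then Fintype.card k ^ (D - E.natDegree) else 0

/-- A2 -/
def S_A2 : Prop := ∀ (k : Type) [Field k] [Fintype k], ringChar k ≠ 2 → ∀ n D : ℕ,
  ∑ f ∈ MO k D, (2 : ℝ) ^ {P ∈ PD f | P.natDegree ≤ n}.ncard ≤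
    3 * ((n : ℝ) + 1) * (Fintype.card k : ℝ) ^ D

/-- A3 -/
def S_A3 : Prop := ∀ (k : Type) [Field k] [Fintype k], ringChar k ≠ 2 → ∀ n0 D : ℕ, 1 ≤ n0 →
  ({f ∈ (MO k D : Set k[X]) | ∃ P ∈ PD f, ∃ P' ∈ PD f, P ≠ P' ∧ n0 < P.natDegree ∧
    P.natDegree = P'.natDegree}.ncard : ℝ) ≤ (Fintype.card k : ℝ) ^ D / n0

/-- A4 -/
def S_A4 : Prop := ∀ (k : Type) [Field k] [Fintype k], ringChar k ≠ 2 → ∀ (n0 R : ℕ) (η : ℝ),
  0 < η → ∃ D0 : ℕ, ∀ D : ℕ, D0 ≤ D →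
  ({f ∈ (MO k D : Set k[X]) | {P ∈ PD f | n0 < P.natDegree}.ncard < R}.ncard : ℝ) ≤
    η * (Fintype.card k : ℝ) ^ D

/-- AN -/
def S_AN : Prop := ∀ (k : Type) [Field k] [Fintype k], ringChar k ≠ 2 → ∀ (N m : ℕ) (ε η : ℝ),
  0 < ε → 0 < η → ∀ rf : ℕ → ℕ, ∃ n0 s0 D0 : ℕ, N ≤ n0 ∧
  (∀ n, n0 < n → 4 ≤ (Real.sqrt (Fintype.card k)) ^ n) ∧ ∀ D : ℕ, D0 ≤ D →
  ({f ∈ (MO k D : Set k[X]) | ¬ Typ f n0 s0 (rf s0) (Real.sqrt (Fintype.card k))
    ((2 : ℝ) ^ (m + s0) * (20 + 20 * ((m + s0 : ℕ) : ℝ) * (n0 : ℝ))) ε}.ncard : ℝ) ≤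
    η * (Fintype.card k : ℝ) ^ D

/-- A5 -/
def S_A5 : Prop := S_A0 → S_A2 → S_A3 → S_A4 → S_AN

/-- FM2: the monic squarefree polynomials with the set `E` of small prime factors and the set `A` of the
degrees of the large prime factors, the latter with different degrees -/
def S_FM2 : Prop := ∀ (k : Type) [Field k] [Fintype k] [DecidableEq k] (n0 : ℕ)
  (E : Finset k[X]) (A : Finset ℕ), (∀ P ∈ E, P.Monic ∧ Irreducible P ∧ P.natDegree ≤ n0) →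
  (∀ n ∈ A, n0 < n) → ∀ R : k[X] → Prop,
  {f : k[X] | (f.Monic ∧ Squarefree f ∧ {P ∈ PD f | P.natDegree ≤ n0} = (E : Set k[X]) ∧
    (∀ P ∈ PD f, ∀ P' ∈ PD f, n0 < P.natDegree → P.natDegree = P'.natDegree → P = P') ∧
    Dg f n0 = A) ∧ R f}.ncard =
  {d : Fin A.card → k[X] | (∀ i, d i ∈ Pr k (dg A i)) ∧ R ((∏ P ∈ E, P) * ∏ i, d i)}.ncard

end Pool.Agent.D0H99.OD
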