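import Pool.Agent.D0H99.OD.Fin3
import Pool.Agent.D0H99.OD.ConfS
import Pool.Agent.D0H99.OD.Stm6

/-!
All squarefree twists: one class (fixed small prime factors, fixed degrees of the large ones).
-/

set_option autoImplicit false
set_option linter.all false

open Polynomial IsDedekindDomain WeierstrassCurve Filter

namespace Pool.Agent.D0H99.OD

open Finset
open Pool.Agent.Y164.SZ
open Pool.Agent.Y164.PS (Fam Pr mem_Pr card_Pr_ge)
open Pool.Agent.D0H99.FT (br nu cs zeta_data sym0 chr)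
open Pool.Agent.D0H99.RM (V X sy crv cst card_X_pos cst_le sy_symm)
open Pool.Agent.D0H99.DE (rt rk nodes)

section
variable {k : Type} [Field k] [Fintype k] [DecidableEq k]

theorem rank_boundG (S : SYM0 2 k) (h2 : (2 : k) ≠ 0) (hneg : ∃ z : k, z ^ 2 = -1) {g : k[X]}
    {N : ℕ} (hN : ¬ 2 ∣ N) (hg : g.natDegree = N) {a b : k} (hab : a ≠ b) {P : Fin 2 → k[X]}
    (hPm : ∀ s, (P s).Monic) (hPi : ∀ s, Irreducible (P s)) (hPinj : Function.Injective P)
    (hPd : ∀ s, (P s).natDegree = N) (hP : ∀ s, g - C (![a, b] s) = C g.leadingCoeff * P s)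
    {r : ℕ} {n : Fin r → ℕ}
    (hsum : ∑ i, ((n i : ℕ) : ZMod 2) = 0) {c0 : k} (hc0 : c0 ≠ 0)
    (x : X 2 2 r) {d : Fin r → k[X]}
    (hd5 : ∀ i, (d i).Monic ∧ Irreducible (d i) ∧ (d i).natDegree = n i)
    (hd2 : Function.Injective d) (hdP : ∀ i s, d i ≠ P s) (hd3 : ∀ i s, L 2 (P s) (d i) = x.2 i s)
    (hd4 : ∀ i j, i ≠ j → L 2 (d j) (d i) = sy x.1 i j) :
    2 ^ rk g a b (C c0 * ∏ i, d i) ≤ nsolP (fun i => ((n i : ℕ) : ZMod 2))
      (cs 2 (C c0 * g) ![c0 * a, c0 * b] 1 2) (ch 2 (C c0 * g).leadingCoeff) x := by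
  classical
  have H : Dtc 2 (![c0 * a, c0 * b]) (C c0 * g) P d (fun _ => 1) :=
    { S := S
      hl := hneg
      hlk := by exact_mod_cast h2
      hm := le_refl 2
      hn := by decide
      hc := by
        intro i j hij
        fin_cases i <;> fin_cases j
        · rfl
        · exact absurd (mul_left_cancel₀ hc0 hij) hab
        · exact absurd (mul_left_cancel₀ hc0 hij) hab.symm
        · rfl
      hg := by
        rw [natDegree_C_mul hc0, hg]
        exact hN
      hP := by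
        intro s
        rw [leadingCoeff_mul, leadingCoeff_C, C_mul, mul_assoc, ← hP s, mul_sub, ← C_mul]
        congr 2
        fin_cases s <;> rfl
      fam := by
        refine ⟨?_, ?_, ?_⟩
        · rintro (y | s)
          · exact (hd5 y).1
          · exact hPm s
        · rintro (y | s)
          · exact (hd5 y).2.1
          · exact hPi s
        · refine hd2.sumElim hPinj ?_
          intro y s h
          exact hdP y s h
      ht := fun _ => by decide }
  have hδ : ∑ x, ((d x).natDegree : ZMod 2) = 0 := by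
    rw [← hsum]
    exact sum_congr rfl fun i _ => by rw [(hd5 i).2.2]
  have h1 := rank_le h2 H hδ
  have e1 : (fun x y => L 2 (d y) (d x)) = sy x.1 := by
    funext i j
    by_cases hij : i = j
    · subst hij
      have h8 : L 2 (d i) (d i) = 0 := by
        apply S.L_nc _ _ (hd5 i).2.1.ne_zero
        intro h
        exact (hd5 i).2.1.not_isUnit (h.isUnit_of_dvd' dvd_rfl dvd_rfl)
      have h9 : sy x.1 i i = 0 := by
        unfold sy
        rw [dif_neg (lt_irrefl _), dif_neg (lt_irrefl _)]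
      rw [h8, h9]
    · exact hd4 i j hij
  have e2 : (fun x s => L 2 (P s) (d x)) = x.2 := by
    funext i s
    exact hd3 i s
  have e0 : (fun x => ((d x).natDegree : ZMod 2)) = fun i => ((n i : ℕ) : ZMod 2) := by
    funext i
    rw [(hd5 i).2.2]
  have e3 : (SolSet (C c0 * g) (![c0 * a, c0 * b]) P d).ncard =
      nsolP (fun i => ((n i : ℕ) : ZMod 2))
      (cs 2 (C c0 * g) ![c0 * a, c0 * b] 1 2) (ch 2 (C c0 * g).leadingCoeff) x := by
    unfold SolSet nsolP
    rw [e0, e1, e2]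
  rw [e3] at h1
  have e4 : rt (RatFunc k) (![c0 * a, c0 * b]) (C c0 * g) d 0 =
      algebraMap k[X] (RatFunc k) ((C c0 * ∏ i, d i) * g) := by
    unfold rt
    congr 1
    change (C c0 * g) * ∏ x, d x = _
    ring
  have e5 : rt (RatFunc k) (![c0 * a, c0 * b]) (C c0 * g) d 1 =
      algebraMap k[X] (RatFunc k) ((C c0 * ∏ i, d i) * C a) := by
    unfold rt
    congr 1
    change (C (c0 * a)) * ∏ x, d x = _
    rw [C_mul]
    ring
  have e6 : rt (RatFunc k) (![c0 * a, c0 * b]) (C c0 * g) d 2 =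
      algebraMap k[X] (RatFunc k) ((C c0 * ∏ i, d i) * C b) := by
    unfold rt
    congr 1
    change (C (c0 * b)) * ∏ x, d x = _
    rw [C_mul]
    ring
  rw [e4, e5, e6] at h1
  exact h1

end

section count

theorem card_PS (s r : ℕ) (π : Fin (s + r) → V 2 2) : (PS s π).ncard = 4 ^ r := by
  classical
  have h1 : PS s π = ((Fintype.piFinset fun x : Fin (s + r) =>
      if (x : ℕ) < s then {π x} else (univ : Finset (V 2 2)) : Finset _) : Set _) := by
    ext p
    rw [mem_coe, Fintype.mem_piFinset]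
    constructor
    · intro h x
      split_ifs with hx
      · exact mem_singleton.2 (h x hx)
      · exact mem_univ _
    · intro h x hx
      have := h x
      rw [if_pos hx] at this
      exact mem_singleton.1 this
  rw [h1, Set.ncard_coe_finset, Fintype.card_piFinset, Fin.prod_univ_add]
  have h2 : ∀ x : Fin s, (if ((Fin.castAdd r x : Fin (s + r)) : ℕ) < s then
      {π (Fin.castAdd r x)} else (univ : Finset (V 2 2))).card = 1 := by
    intro x
    rw [if_pos (by rw [Fin.val_castAdd]; exact x.2), card_singleton]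
  have h3 : ∀ x : Fin r, (if ((Fin.natAdd s x : Fin (s + r)) : ℕ) < s then
      {π (Fin.natAdd s x)} else (univ : Finset (V 2 2))).card = 4 := by
    intro x
    rw [if_neg (by rw [Fin.val_natAdd]; omega), card_univ, Fintype.card_fun, Fintype.card_fin,
      ZMod.card]
    norm_num
  rw [prod_congr rfl fun x _ => h2 x, prod_congr rfl fun x _ => h3 x, prod_const_one, one_mul,
    prod_const, card_univ, Fintype.card_fin]

theorem card_BS (s r : ℕ) (β : Bm (s + r)) : (BS s β).ncard = Nat.card (Bm r) * (2 ^ s) ^ r := by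
  classical
  have h1 : BS s β = ((Fintype.piFinset fun x : Fin (s + r) =>
      if (x : ℕ) < s then {β x} else (univ : Finset (Fin (x : ℕ) → ZMod 2)) : Finset _) :
        Set _) := by
    ext p
    rw [mem_coe, Fintype.mem_piFinset]
    constructor
    · intro h x
      split_ifs with hx
      · exact mem_singleton.2 (h x hx)
      · exact mem_univ _
    · intro h x hx
      have := h x
      rw [if_pos hx] at this
      exact mem_singleton.1 this
  rw [h1, Set.ncard_coe_finset, Fintype.card_piFinset, Fin.prod_univ_add]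
  have h2 : ∀ x : Fin s, (if ((Fin.castAdd r x : Fin (s + r)) : ℕ) < s then
      {β (Fin.castAdd r x)} else
      (univ : Finset (Fin ((Fin.castAdd r x : Fin (s + r)) : ℕ) → ZMod 2))).card = 1 := by
    intro x
    rw [if_pos (by rw [Fin.val_castAdd]; exact x.2), card_singleton]
  have h3 : ∀ x : Fin r, (if ((Fin.natAdd s x : Fin (s + r)) : ℕ) < s then
      {β (Fin.natAdd s x)} else
      (univ : Finset (Fin ((Fin.natAdd s x : Fin (s + r)) : ℕ) → ZMod 2))).card =
        2 ^ s * 2 ^ (x : ℕ) := by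
    intro x
    rw [if_neg (by rw [Fin.val_natAdd]; omega), card_univ, Fintype.card_fun, Fintype.card_fin,
      ZMod.card, Fin.val_natAdd, pow_add]
  rw [prod_congr rfl fun x _ => h2 x, prod_congr rfl fun x _ => h3 x, prod_const_one, one_mul,
    prod_mul_distrib, prod_const, card_univ, Fintype.card_fin, mul_comm]
  congr 1
  rw [Nat.card_eq_fintype_card, Fintype.card_pi]
  refine prod_congr rfl fun i _ => ?_
  rw [Fintype.card_fun, Fintype.card_fin, ZMod.card]

theorem card_data (n s r : ℕ) (β : Bm (s + r)) (π : Fin n → Fin (s + r) → V 2 2) :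
    (BS s β).ncard * ∏ i, (PS s (π i)).ncard =
      Nat.card (Bm r) * Nat.card (Fin r → (Fin n × Fin 2) ⊕ Fin s → ZMod 2) := by
  rw [card_BS, prod_congr rfl fun i _ => card_PS s r (π i), prod_const, card_univ,
    Fintype.card_fin, mul_assoc]
  congr 1
  rw [Nat.card_fun, Nat.card_fun, Nat.card_eq_fintype_card, Nat.card_eq_fintype_card,
    Nat.card_eq_fintype_card, Fintype.card_fin, Fintype.card_sum, Fintype.card_prod,
    Fintype.card_fin, Fintype.card_fin, Fintype.card_fin, ZMod.card]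
  rw [← pow_mul, ← pow_mul, ← pow_mul, show (4 : ℕ) = 2 ^ 2 by norm_num, ← pow_mul, ← pow_add]
  congr 1
  ring

theorem count_lawS (hCONFS : S_CONFS) (hNUM : S_NUM) (n : ℕ) {ε : ℝ} (hε : 0 < ε) (s0 : ℕ) :
    ∃ t0 : ℕ, ∀ R s : ℕ, s ≤ s0 → s ≤ R → t0 ≤ R - s → ∀ (β : Bm R)
    (π : Fin n → Fin R → V 2 2) (δ : Fin R → ZMod 2), ∑ i, δ i = 0 →
    ∀ (kap lam : Fin n → ZMod 2) (m : Fin n → ℕ),
    (∏ i, FF (m i) - ε) * (((BS s β).ncard : ℝ) * ∏ i, ((PS s (π i)).ncard : ℝ)) ≤
      ({x : Bm R × (Fin R → Fin n × Fin 2 → ZMod 2) | x.1 ∈ BS s β ∧ ∀ i,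
        pc x.2 i ∈ PS s (π i) ∧
        nsolP δ (kap i) (lam i) (x.1, pc x.2 i) ≤ 2 ^ m i}.ncard : ℝ) := by
  classical
  obtain ⟨ε', hε'⟩ : ∃ ε' : ℝ, ε' = ε / (2 * n + 1) := ⟨_, rfl⟩
  have hε0 : 0 < ε' := by rw [hε']; positivity
  have hεn : (2 * n + 1) * ε' = ε := by rw [hε']; field_simp
  obtain ⟨t0, ht0⟩ := hCONFS ε' hε0 s0
  obtain ⟨-, -, -, hF01, -⟩ := hNUM
  refine ⟨t0, fun R s hs0 hs ht β π δ hδ kap lam m => ?_⟩
  choose Bad hBad hB using fun i : Fin n => ht0 R s hs0 hs ht β (π i) δ hδ (kap i) (lam i)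
  obtain ⟨c, hc⟩ : ∃ c : Fin n → ℝ, c = fun i => FF (m i) := ⟨_, rfl⟩
  have hc0 : ∀ i, 0 ≤ c i := fun i => by rw [hc]; exact (hF01 _).1
  have hc1 : ∀ i, c i ≤ 1 := fun i => by rw [hc]; exact (hF01 _).2
  have hcprod : ∏ i, c i = ∏ i, FF (m i) := by rw [hc]
  obtain ⟨M, hM⟩ : ∃ M : Fin n → ℝ, M = fun i => ((PS s (π i)).ncard : ℝ) := ⟨_, rfl⟩
  have hM0 : ∀ i, 0 < M i := fun i => by
    rw [hM]
    have := PS_pos s (π i)
    dsimp only
    exact_mod_cast this
  obtain ⟨b, hb⟩ : ∃ b : ℝ, b = ((BS s β).ncard : ℝ) := ⟨_, rfl⟩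
  have hb0 : 0 ≤ b := by rw [hb]; exact Nat.cast_nonneg _
  have hprodM : ∏ i, ((PS s (π i)).ncard : ℝ) = ∏ i, M i := by rw [hM]
  obtain ⟨Q, hQ⟩ : ∃ Q : Bm R → Fin n → Set (Fin R → V 2 2), Q = fun B i =>
      {p | p ∈ PS s (π i) ∧ nsolP δ (kap i) (lam i) (B, p) ≤ 2 ^ m i} := ⟨_, rfl⟩
  have hP0 : (0 : ℝ) < ∏ i, M i := prod_pos fun i _ => hM0 i
  have h1 : ∀ B ∈ BS s β, (∀ i, B ∉ Bad i) → (∏ i, c i - n * ε') * ∏ i, M i ≤
      ((∏ i, (Q B i).ncard : ℕ) : ℝ) := by
    intro B hBS hBB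
    have h2 : ∀ i, c i - ε' ≤ ((Q B i).ncard : ℝ) / M i := by
      intro i
      rw [le_div_iff₀ (hM0 i), hM, hQ, hc]
      dsimp only
      exact hB i B hBS (hBB i) (m i)
    have h3 := prod_sub_le c (fun i => ((Q B i).ncard : ℝ) / M i) hε0.le hc0 hc1 h2
      (fun i => div_nonneg (Nat.cast_nonneg _) (hM0 i).le) univ
    rw [card_univ, Fintype.card_fin, prod_div_distrib, le_div_iff₀ hP0] at h3
    push_cast
    exact h3
  -- counting
  obtain ⟨G, hG⟩ : ∃ G : Finset (Bm R × (Fin R → Fin n × Fin 2 → ZMod 2)),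
      (G : Set _) = {x : Bm R × (Fin R → Fin n × Fin 2 → ZMod 2) | x.1 ∈ BS s β ∧ ∀ i,
        pc x.2 i ∈ PS s (π i) ∧ nsolP δ (kap i) (lam i) (x.1, pc x.2 i) ≤ 2 ^ m i} :=
    ⟨(Set.toFinite _).toFinset, Set.Finite.coe_toFinset _⟩
  obtain ⟨Gd, hGd⟩ : ∃ Gd : Finset (Bm R), (Gd : Set _) = {B | B ∈ BS s β ∧ ∀ i, B ∉ Bad i} :=
    ⟨(Set.toFinite _).toFinset, Set.Finite.coe_toFinset _⟩
  rw [← hG, Set.ncard_coe_finset]
  have h4 : ∀ B ∈ BS s β, ((G.filter fun x => x.1 = B).card) = ∏ i, (Q B i).ncard := by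
    intro B hBS
    rw [← card_pc (Q B), ← Set.ncard_coe_finset]
    refine Set.ncard_congr (fun x _ => x.2) ?_ ?_ ?_
    · rintro ⟨B', p⟩ hx
      rw [mem_coe, mem_filter, ← mem_coe, hG] at hx
      obtain ⟨hx1, hx2⟩ := hx
      intro i
      have h5 := hx1.2 i
      rw [hQ]
      simp only at hx2 h5
      rw [hx2] at h5
      exact h5
    · rintro ⟨B1, p1⟩ ⟨B2, p2⟩ hx1 hx2 h
      rw [mem_coe, mem_filter] at hx1 hx2
      exact Prod.ext (hx1.2.trans hx2.2.symm) h
    · intro p hp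
      refine ⟨(B, p), ?_, rfl⟩
      rw [mem_coe, mem_filter, ← mem_coe, hG]
      refine ⟨⟨hBS, fun i => ?_⟩, rfl⟩
      have h5 := hp i
      rw [hQ] at h5
      exact h5
  have hGdBS : ∀ B ∈ Gd, B ∈ BS s β ∧ ∀ i, B ∉ Bad i := by
    intro B hB'
    have : B ∈ (Gd : Set (Bm R)) := hB'
    rw [hGd] at this
    exact this
  have h5 : ∑ B ∈ Gd, (((∏ i, (Q B i).ncard : ℕ)) : ℝ) ≤ (G.card : ℝ) := by
    have h6 : ∑ B ∈ Gd, (G.filter fun x => x.1 = B).card ≤ G.card := by
      rw [← card_biUnion]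
      · exact card_le_card fun x hx => by
          rw [mem_biUnion] at hx
          obtain ⟨B, -, hx⟩ := hx
          exact (mem_filter.1 hx).1
      · intro B _ B' _ hne
        rw [Function.onFun, Finset.disjoint_left]
        intro x hx hx'
        exact hne ((mem_filter.1 hx).2.symm.trans (mem_filter.1 hx').2)
    have h7 : ∑ B ∈ Gd, (∏ i, (Q B i).ncard) ≤ G.card := by
      rw [← sum_congr rfl fun B hB' => h4 B (hGdBS B hB').1]
      exact h6
    exact_mod_cast h7
  have h8 : (1 - n * ε') * b ≤ (Gd.card : ℝ) := by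
    have h9 : BS s β ⊆ (Gd : Set (Bm R)) ∪ ⋃ i, Bad i := by
      intro B hBS
      by_cases h : ∀ i, B ∉ Bad i
      · left
        rw [hGd]
        exact ⟨hBS, h⟩
      · right
        push Not at h
        obtain ⟨i, hi⟩ := h
        exact Set.mem_iUnion.2 ⟨i, hi⟩
    have h10 : (BS s β).ncard ≤ Gd.card + (⋃ i, Bad i).ncard := by
      refine (Set.ncard_le_ncard h9 (Set.toFinite _)).trans ?_
      rw [← Set.ncard_coe_finset]
      exact Set.ncard_union_le _ _
    obtain ⟨Bf, hBf⟩ : ∃ Bf : Fin n → Finset (Bm R), ∀ i, (Bf i : Set _) = Bad i :=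
      ⟨fun i => (Set.toFinite (Bad i)).toFinset, fun i => Set.Finite.coe_toFinset _⟩
    have h11 : (((⋃ i, Bad i).ncard : ℕ) : ℝ) ≤ n * ε' * b := by
      have e1 : (⋃ i, Bad i) = ((univ.biUnion Bf : Finset (Bm R)) : Set (Bm R)) := by
        ext B
        simp [← hBf]
      rw [e1, Set.ncard_coe_finset]
      have e2 : ((univ.biUnion Bf).card : ℝ) ≤ ∑ i, ((Bf i).card : ℝ) := by
        exact_mod_cast card_biUnion_le
      refine e2.trans ?_
      have e3 : ∀ i ∈ (univ : Finset (Fin n)), ((Bf i).card : ℝ) ≤ ε' * b := by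
        intro i _
        have := hBad i
        rw [← hBf, Set.ncard_coe_finset, ← hb] at this
        exact this
      refine (sum_le_sum e3).trans ?_
      rw [sum_const, card_univ, Fintype.card_fin, nsmul_eq_mul, mul_assoc]
    have h12 : b ≤ (Gd.card : ℝ) + (((⋃ i, Bad i).ncard : ℕ) : ℝ) := by
      rw [hb]
      exact_mod_cast h10
    linarith
  have hprod0 : 0 ≤ ∏ i, c i := prod_nonneg fun i _ => hc0 i
  have hprod1 : ∏ i, c i ≤ 1 := prod_le_one (fun i _ => hc0 i) fun i _ => hc1 i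
  rw [hprodM, ← hb, ← hcprod]
  have hn0 : (0 : ℝ) ≤ n := Nat.cast_nonneg _
  have hne : 0 ≤ (n : ℝ) * ε' := mul_nonneg hn0 hε0.le
  rcases le_total (∏ i, c i - n * ε') 0 with hneg | hpos
  · have : (∏ i, c i - ε) ≤ 0 := by nlinarith
    exact (mul_nonpos_of_nonpos_of_nonneg this (by positivity)).trans (Nat.cast_nonneg _)
  · refine le_trans ?_ h5
    have h11 : (Gd.card : ℝ) * ((∏ i, c i - n * ε') * ∏ i, M i) ≤
        ∑ B ∈ Gd, (((∏ i, (Q B i).ncard : ℕ)) : ℝ) := by
      rw [← nsmul_eq_mul, ← sum_const]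
      exact sum_le_sum fun B hB' => h1 B (hGdBS B hB').1 (hGdBS B hB').2
    refine le_trans ?_ h11
    have h12 : (1 - n * ε') * b * ((∏ i, c i - n * ε') * ∏ i, M i) ≤
        (Gd.card : ℝ) * ((∏ i, c i - n * ε') * ∏ i, M i) :=
      mul_le_mul_of_nonneg_right h8 (mul_nonneg hpos hP0.le)
    refine le_trans ?_ h12
    have h13 : (1 - n * ε') * b * ((∏ i, c i - n * ε') * ∏ i, M i) =
        ((1 - n * ε') * (∏ i, c i - n * ε')) * (b * ∏ i, M i) := by ring
    rw [h13]
    apply mul_le_mul_of_nonneg_right _ (by positivity)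
    nlinarith

end count

end Pool.Agent.D0H99.OD
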