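import Pool.Agent.D0H99.OD.AllA

/-!
All squarefree twists: the proportions in one class.
-/

set_option autoImplicit false
set_option linter.all false

open Polynomial IsDedekindDomain WeierstrassCurve Filter

namespace Pool.Agent.D0H99.OD

open Finset
open Pool.Agent.Y164.SZ
open Pool.Agent.Y164.PS (Fam Pr mem_Pr card_Pr_ge)
open Pool.Agent.D0H99.FT (br nu cs zeta_data sym0 chr)
open Pool.Agent.D0H99.RM (V X sy crv cst card_X_pos cst_le sy_symm)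
open Pool.Agent.D0H99.DE (rt rk nodes)

section
variable {k : Type} [Field k] [Fintype k] [DecidableEq k]

theorem mem_ptE {κ : Type} {P : κ → k[X]} {s r : ℕ} {e : Fin s → k[X]} {n : Fin r → ℕ}
    {B : Bm (s + r)} {p : Fin (s + r) → κ → ZMod 2} {d : Fin r → k[X]} : d ∈ PtE P e n B p ↔
      (d ∈ Fintype.piFinset fun i : Fin r => Pr k (n i)) ∧
        (∀ x a, L 2 (P a) (Fin.append e d x) = p x a) ∧
      ∀ x y, x ≠ y → L 2 (Fin.append e d y) (Fin.append e d x) = sy B x y := by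
  classical
  rw [PtE, mem_filter]

theorem ptE_disj {κ : Type} (P : κ → k[X]) {s r : ℕ} (e : Fin s → k[X]) (n : Fin r → ℕ)
    {x y : Bm (s + r) × (Fin (s + r) → κ → ZMod 2)} (hxy : x ≠ y) :
    Disjoint (PtE P e n x.1 x.2) (PtE P e n y.1 y.2) := by
  classical
  rw [Finset.disjoint_left]
  intro d hd hd'
  apply hxy
  obtain ⟨-, h1, h3⟩ := mem_ptE.1 hd
  obtain ⟨-, h1', h3'⟩ := mem_ptE.1 hd'
  refine Prod.ext ?_ ?_
  · funext i j
    have hji : (j : ℕ) < i := j.2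
    have hjr : (j : ℕ) < s + r := hji.trans i.2
    have h4 := h3 i ⟨j, hjr⟩ (fun h => by
      have := congrArg Fin.val h
      simp only at this
      omega)
    have h5 := h3' i ⟨j, hjr⟩ (fun h => by
      have := congrArg Fin.val h
      simp only at this
      omega)
    have h6 : sy x.1 i ⟨j, hjr⟩ = x.1 i j := by
      unfold sy
      rw [dif_pos hji]
    have h7 : sy y.1 i ⟨j, hjr⟩ = y.1 i j := by
      unfold sy
      rw [dif_pos hji]
    rw [← h6, ← h7, ← h4, ← h5]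
  · funext i a
    rw [← h1 i a, ← h1' i a]

/-- the constant in the error -/
noncomputable def CE (m s N : ℕ) : ℝ :=
  (2 : ℝ) ^ (m + s) * (20 + 20 * ((m + s : ℕ) : ℝ) * (N : ℝ))

theorem CE_nonneg (m s N : ℕ) : 0 ≤ CE m s N := by
  unfold CE
  positivity

theorem CE_mono (m N : ℕ) {s s0 : ℕ} (h : s ≤ s0) : CE m s N ≤ CE m s0 N := by
  unfold CE
  have h1 : (2 : ℝ) ^ (m + s) ≤ 2 ^ (m + s0) := pow_le_pow_right₀ (by norm_num) (by omega)
  have h2 : ((m + s : ℕ) : ℝ) ≤ ((m + s0 : ℕ) : ℝ) := by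
    exact_mod_cast (by omega : m + s ≤ m + s0)
  have h3 : (0 : ℝ) ≤ (N : ℝ) := Nat.cast_nonneg _
  have h4 : (0 : ℝ) ≤ ((m + s : ℕ) : ℝ) := Nat.cast_nonneg _
  apply mul_le_mul h1 _ (by positivity) (by positivity)
  nlinarith [mul_le_mul_of_nonneg_right h2 h3]

theorem wt_mono {Q C C' : ℝ} (hQ : 0 < Q) (h : C ≤ C') (A : Finset ℕ) :
    wt Q C A ≤ wt Q C' A := by
  unfold wt
  refine sum_le_sum fun n _ => ?_
  apply mul_le_mul_of_nonneg_left _ (by positivity)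
  apply div_le_div_of_nonneg_right _ (by positivity)
  exact mul_le_mul_of_nonneg_right h (by positivity)

/-- proportions in one class -/
theorem one_class (hEQ2 : S_EQ2) (S : SYM 2 k) (hk : ringChar k ≠ 2) {κ : Type} [Fintype κ]
    {n0 : ℕ} (hn1 : 1 ≤ n0) {P : κ → k[X]} (hPm : ∀ a, (P a).Monic)
    (hPi : ∀ a, Irreducible (P a)) (hPinj : Function.Injective P)
    (hPd : ∀ a, (P a).natDegree ≤ n0) {s s0 : ℕ} (hs0 : s ≤ s0) {e : Fin s → k[X]}
    (hem : ∀ i, (e i).Monic) (hei : ∀ i, Irreducible (e i)) (heinj : Function.Injective e)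
    (hed : ∀ i, (e i).natDegree ≤ n0) (heP : ∀ i a, e i ≠ P a) {A : Finset ℕ}
    (hA1 : ∀ n ∈ A, n0 < n) (hA2 : ∀ n ∈ A, 4 ≤ (Real.sqrt (Fintype.card k)) ^ n) {ε ρ : ℝ}
    (hρ : ρ ≤ 1) (hε : 0 ≤ ε)
    (hw : wt (Real.sqrt (Fintype.card k)) (CE (Fintype.card κ) s0 n0) A ≤ ε / 2)
    (hw1 : wt (Real.sqrt (Fintype.card k)) (CE (Fintype.card κ) s0 n0) A ≤ 1)
    (G : Set (Bm (s + A.card) × (Fin (s + A.card) → κ → ZMod 2)))
    (hGs : ∀ x ∈ G, (∀ i j : Fin s, i ≠ j → L 2 (e j) (e i) =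
        sy x.1 (Fin.castAdd A.card i) (Fin.castAdd A.card j)) ∧
      ∀ (i : Fin s) a, L 2 (P a) (e i) = x.2 (Fin.castAdd A.card i) a)
    (hG : (ρ - ε / 2) * ((Nat.card (Bm A.card) : ℝ) *
      (Nat.card (Fin A.card → κ ⊕ Fin s → ZMod 2) : ℝ)) ≤ (G.ncard : ℝ))
    (R : (Fin A.card → k[X]) → Prop)
    (hR : ∀ x ∈ G, ∀ d ∈ PtE P e (dg A) x.1 x.2, R d) :
    (ρ - ε) * ∏ n ∈ A, ((Pr k n).card : ℝ) ≤
      ({d : Fin A.card → k[X] | (∀ i, d i ∈ Pr k (dg A i)) ∧ R d}.ncard : ℝ) := by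
  classical
  have hq0 : (0 : ℝ) < Real.sqrt (Fintype.card k) := by
    apply Real.sqrt_pos.2
    exact_mod_cast Fintype.card_pos
  obtain ⟨G', hG'⟩ : ∃ G' : Finset (Bm (s + A.card) × (Fin (s + A.card) → κ → ZMod 2)),
      (G' : Set _) = G :=
    ⟨(Set.toFinite G).toFinset, Set.Finite.coe_toFinset _⟩
  have hGm : ∀ x ∈ G', x ∈ G := by
    intro x hx
    rw [← hG']
    exact hx
  rw [← hG', Set.ncard_coe_finset] at hG
  obtain ⟨w, hwd⟩ : ∃ w, w = wt (Real.sqrt (Fintype.card k)) (CE (Fintype.card κ) s n0) A :=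
    ⟨_, rfl⟩
  have hwle : w ≤ wt (Real.sqrt (Fintype.card k)) (CE (Fintype.card κ) s0 n0) A := by
    rw [hwd]
    exact wt_mono hq0 (CE_mono _ _ hs0) A
  have hw' : w ≤ ε / 2 := hwle.trans hw
  have hw1' : w ≤ 1 := hwle.trans hw1
  have hw0 : 0 ≤ w := by
    rw [hwd]
    unfold wt
    have := CE_nonneg (Fintype.card κ) s n0
    exact sum_nonneg fun n _ => by positivity
  obtain ⟨M, hM⟩ : ∃ M : ℝ, M = ∏ n ∈ A, ((Pr k n).card : ℝ) := ⟨_, rfl⟩
  have hM0 : 0 ≤ M := by rw [hM]; exact prod_nonneg fun n _ => Nat.cast_nonneg _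
  rw [← hM]
  obtain ⟨Y, hY⟩ : ∃ Y : ℝ, Y = (Nat.card (Bm A.card) : ℝ) *
      (Nat.card (Fin A.card → κ ⊕ Fin s → ZMod 2) : ℝ) := ⟨_, rfl⟩
  rw [← hY] at hG
  have hY0 : 0 < Y := by
    rw [hY]
    have h1 : 0 < Nat.card (Bm A.card) := Nat.card_pos
    have h2 : 0 < Nat.card (Fin A.card → κ ⊕ Fin s → ZMod 2) := Nat.card_pos
    have h3 : (0 : ℝ) < (Nat.card (Bm A.card) : ℝ) := by exact_mod_cast h1
    have h4 : (0 : ℝ) < (Nat.card (Fin A.card → κ ⊕ Fin s → ZMod 2) : ℝ) := by exact_mod_cast h2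
    exact mul_pos h3 h4
  have h1 : ∀ x ∈ G', 1 / Y * (1 - w) * M ≤ ((PtE P e (dg A) x.1 x.2).card : ℝ) := by
    intro x hx
    obtain ⟨g1, g2⟩ := hGs x (hGm x hx)
    have h2 := hEQ2 k S hk κ n0 P hn1 hPm hPi hPinj hPd s A.card e hem hei heinj hed heP (dg A)
      (dg_anti A) (fun i => hA1 _ (dg_mem A i)) (fun i => hA2 _ (dg_mem A i)) x.1 x.2 g1 g2
    have h3 : ∑ i : Fin A.card, (2 : ℝ) ^ (A.card - (i : ℕ)) *
        ((2 : ℝ) ^ (Fintype.card κ + s) * (20 + 20 * ((Fintype.card κ + s : ℕ) : ℝ) * (n0 : ℝ)) *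
          (dg A i : ℝ) ^ 3 / (Real.sqrt (Fintype.card k)) ^ dg A i) = w := by
      rw [hwd, wt_eq]
      rfl
    rw [h3, prod_dg A (fun n => ((Pr k n).card : ℝ)), ← hM, ← hY] at h2
    exact h2
  have hsub : ((G'.biUnion fun x => PtE P e (dg A) x.1 x.2 : Finset _) : Set _) ⊆
      {d : Fin A.card → k[X] | (∀ i, d i ∈ Pr k (dg A i)) ∧ R d} := by
    intro d hd
    rw [mem_coe, mem_biUnion] at hd
    obtain ⟨x, hx, hd⟩ := hd
    exact ⟨fun i => Fintype.mem_piFinset.1 (mem_ptE.1 hd).1 i, hR x (hGm x hx) d hd⟩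
  have hfin : {d : Fin A.card → k[X] | (∀ i, d i ∈ Pr k (dg A i)) ∧ R d}.Finite := by
    refine (Finset.finite_toSet (Fintype.piFinset fun i : Fin A.card => Pr k (dg A i))).subset ?_
    intro d hd
    rw [mem_coe, Fintype.mem_piFinset]
    exact hd.1
  have h3 : ((G'.biUnion fun x => PtE P e (dg A) x.1 x.2).card : ℝ) ≤
      ({d : Fin A.card → k[X] | (∀ i, d i ∈ Pr k (dg A i)) ∧ R d}.ncard : ℝ) := by
    rw [← Set.ncard_coe_finset]
    exact_mod_cast Set.ncard_le_ncard hsub hfin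
  refine le_trans ?_ h3
  rw [card_biUnion (fun x _ y _ hxy => ptE_disj P e (dg A) hxy), Nat.cast_sum]
  have h4 : (G'.card : ℝ) * (1 / Y * (1 - w) * M) ≤
      ∑ x ∈ G', ((PtE P e (dg A) x.1 x.2).card : ℝ) := by
    rw [← nsmul_eq_mul, ← sum_const]
    exact sum_le_sum fun x hx => h1 x hx
  refine le_trans ?_ h4
  obtain ⟨z, hz⟩ : ∃ z : ℝ, z = G'.card / Y := ⟨_, rfl⟩
  have hz1 : ρ - ε / 2 ≤ z := by
    rw [hz, le_div_iff₀ hY0]
    exact hG
  have hz0 : 0 ≤ z := by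
    rw [hz]
    positivity
  have h5 : (G'.card : ℝ) * (1 / Y * (1 - w) * M) = (z * (1 - w)) * M := by
    rw [hz]
    ring
  rw [h5]
  apply mul_le_mul_of_nonneg_right _ hM0
  rcases le_total z 1 with hz2 | hz2
  · nlinarith
  · have : 1 - w ≤ z * (1 - w) := by nlinarith
    linarith

end

end Pool.Agent.D0H99.OD
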