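import Pool.Agent.D0H99.OD.AllB

/-!
All squarefree twists: one class, from the polynomials.
-/

set_option autoImplicit false
set_option linter.all false

open Polynomial IsDedekindDomain WeierstrassCurve Filter

namespace Pool.Agent.D0H99.OD

open Finset
open Pool.Agent.Y164.SZ
open Pool.Agent.Y164.PS (Fam Pr mem_Pr card_Pr_ge)
open Pool.Agent.D0H99.FT (br nu cs zeta_data sym0 chr)
open Pool.Agent.D0H99.RM (V X sy crv cst card_X_pos cst_le sy_symm)
open Pool.Agent.D0H99.DE (rt rk nodes)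

theorem lowerD (hCNT : S_CNT) (hFAM : S_FAM) (k : Type) [Field k] [Fintype k] [DecidableEq k]
    (hchar : ringChar k ≠ 2) (N : ℕ) :
    ∃ c : ℝ, 0 < c ∧ ∃ D0 : ℕ, ∀ D : ℕ, D0 ≤ D → ∃ S : Finset k[X],
      (∀ f ∈ S, f.Monic ∧ Squarefree f ∧ f.natDegree = D ∧
        ∀ Q : k[X], Irreducible Q → Q.natDegree ≤ N → ¬ Q ∣ f) ∧
      c * (Fintype.card k : ℝ) ^ D ≤ (S.card : ℝ) := by
  classical
  obtain ⟨s, hs⟩ : ∃ s : ℝ, s = Real.sqrt (Fintype.card k) := ⟨_, rfl⟩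
  have hq2 : (2 : ℝ) ≤ Fintype.card k := by exact_mod_cast (Fintype.one_lt_card (α := k))
  have hs1 : 1 < s := by
    rw [hs, Real.lt_sqrt (by norm_num)]
    linarith
  obtain ⟨n1, hn1⟩ := eventually_atTop.1
    ((tendsto_pow_atTop_atTop_of_one_lt hs1).eventually_ge_atTop 4)
  obtain ⟨c, hc, D0, hD0⟩ := hCNT s 2 (1 / 2) hs1 (by norm_num) (by norm_num) 0 (max (N + 1) n1)
  refine ⟨c / 2, half_pos hc, D0, fun D hD => ?_⟩
  obtain ⟨𝒜, hA, hsum⟩ := hD0 D hD
  have hAN : ∀ A ∈ 𝒜, ∀ n ∈ A, N < n := fun A hA' n hn =>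
    Nat.lt_of_succ_le ((le_max_left _ _).trans ((hA A hA').1 n hn))
  have hA4 : ∀ A ∈ 𝒜, ∀ n ∈ A, 4 ≤ s ^ n := fun A hA' n hn =>
    hn1 n ((le_max_right _ _).trans ((hA A hA').1 n hn))
  have hA1 : ∀ A ∈ 𝒜, ∀ n ∈ A, 1 ≤ n := fun A hA' n hn => by
    have := hAN A hA' n hn
    omega
  obtain ⟨S, hS1, hS2, hS3⟩ := hFAM k 𝒜 hA1
  have hScard : (S.card : ℝ) = ∑ A ∈ 𝒜, ∏ n ∈ A, ((Pr k n).card : ℝ) := by
    rw [hS2]
    push_cast
    rfl
  have h0 : (S.filter fun f => ∃ Q : k[X], Irreducible Q ∧ Q.natDegree ≤ N ∧ Q ∣ f).card = 0 := by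
    have h9 : (S.filter fun f => ∃ Q : k[X], Irreducible Q ∧ Q.natDegree ≤ N ∧ Q ∣ f).card =
      ∑ A ∈ 𝒜, ((Fintype.piFinset fun i : Fin A.card => Pr k (dg A i)).filter
          fun d => ∃ Q : k[X], Irreducible Q ∧ Q.natDegree ≤ N ∧ Q ∣ ∏ i, d i).card := by
      convert hS3 (fun f => ∃ Q : k[X], Irreducible Q ∧ Q.natDegree ≤ N ∧ Q ∣ f)
    rw [h9]
    refine sum_eq_zero fun A hA' => ?_
    rw [card_eq_zero, filter_eq_empty_iff]
    rintro d hd ⟨Q, hQi, hQd, hQ⟩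
    rw [Fintype.mem_piFinset] at hd
    obtain ⟨i, -, hi⟩ := (hQi.prime.dvd_finset_prod_iff _).1 hQ
    obtain ⟨m1, m2, m3⟩ := mem_Pr.1 (hd i)
    have h5 := natDegree_eq_of_degree_eq (degree_eq_degree_of_associated
      (hQi.associated_of_dvd m2 hi))
    have h6 := hAN A hA' _ (dg_mem A i)
    omega
  rw [card_eq_zero, filter_eq_empty_iff] at h0
  refine ⟨S, ?_, ?_⟩
  · intro f hf
    obtain ⟨h3, h4, A, hA', h5⟩ := hS1 f hf
    exact ⟨h3, h4, h5.trans (hA A hA').2.1, fun Q hQ hQd hQf => h0 hf ⟨Q, hQ, hQd, hQf⟩⟩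
  · rw [hScard]
    have h3 : ∀ A ∈ 𝒜, (1 / 2) * ((Fintype.card k : ℝ) ^ D * ∏ n ∈ A, (1 / (n : ℝ))) ≤
        ∏ n ∈ A, ((Pr k n).card : ℝ) := by
      intro A hA'
      obtain ⟨q1, q2, q3, q4⟩ := hA A hA'
      have h4 := prod_lower hchar (C := 2) le_rfl (hA1 A hA')
        (by rw [← hs]; exact hA4 A hA') (by
          rw [← hs]
          exact q4)
      rw [q2] at h4
      exact h4
    refine le_trans ?_ (sum_le_sum h3)
    rw [← mul_sum, ← mul_sum]
    have h4 : (0 : ℝ) < (Fintype.card k : ℝ) ^ D := by positivity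
    nlinarith

section
variable {k : Type} [Field k] [Fintype k] [DecidableEq k]

/-- the class of `(E, A)` -/
def Cls (n0 : ℕ) (E : Finset k[X]) (A : Finset ℕ) (f : k[X]) : Prop :=
  f.Monic ∧ Squarefree f ∧ {P ∈ PD f | P.natDegree ≤ n0} = (E : Set k[X]) ∧
    (∀ P ∈ PD f, ∀ P' ∈ PD f, n0 < P.natDegree → P.natDegree = P'.natDegree → P = P') ∧
    Dg f n0 = A

theorem one_polys (hEQ2 : S_EQ2) (hFM2 : S_FM2) (hNUM : S_NUM)
    (S0 : SYM0 2 k) (S : SYM 2 k) (hk : ringChar k ≠ 2) (h2 : (2 : k) ≠ 0)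
    (hneg : ∃ z : k, z ^ 2 = -1) {n n0 s0 t0 D : ℕ} (hD2 : 2 ∣ D) {ε : ℝ} (hε : 0 < ε)
    (hlaw : ∀ R s : ℕ, s ≤ s0 → s ≤ R → t0 ≤ R - s → ∀ (β : Bm R)
    (π : Fin n → Fin R → V 2 2) (δ : Fin R → ZMod 2), ∑ i, δ i = 0 →
    ∀ (kap lam : Fin n → ZMod 2) (m : Fin n → ℕ),
    (∏ i, FF (m i) - ε / 2) * (((BS s β).ncard : ℝ) * ∏ i, ((PS s (π i)).ncard : ℝ)) ≤
      ({x : Bm R × (Fin R → Fin n × Fin 2 → ZMod 2) | x.1 ∈ BS s β ∧ ∀ i,
        pc x.2 i ∈ PS s (π i) ∧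
        nsolP δ (kap i) (lam i) (x.1, pc x.2 i) ≤ 2 ^ m i}.ncard : ℝ))
    (hn1 : 1 ≤ n0) (hn4 : ∀ n, n0 < n → 4 ≤ (Real.sqrt (Fintype.card k)) ^ n)
    {g : Fin n → k[X]} {a b : Fin n → k} (hodd : ∀ i, ¬ 2 ∣ (g i).natDegree)
    (hdeg : ∀ i, (g i).natDegree ≤ n0) (hab : ∀ i, a i ≠ b i)
    {P : Fin n → Fin 2 → k[X]} (hPm : ∀ i s, (P i s).Monic) (hPi : ∀ i s, Irreducible (P i s))
    (hPinj : Function.Injective fun y : Fin n × Fin 2 => P y.1 y.2)
    (hPd : ∀ i s, (P i s).natDegree = (g i).natDegree)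
    (hP : ∀ i s, g i - C (![a i, b i] s) = C (g i).leadingCoeff * P i s)
    {u : Fin n → k} (hu : ∀ i, u i ≠ 0) (J : Fin n → ℕ)
    {E : Finset k[X]} (hE : ∀ Q ∈ E, Q.Monic ∧ Irreducible Q ∧ Q.natDegree ≤ n0)
    (hEP : ∀ Q ∈ E, ∀ i s, Q ≠ P i s) (hEc : E.card ≤ s0)
    {A : Finset ℕ} (hA1 : ∀ n ∈ A, n0 < n) (hAc : t0 ≤ A.card)
    (hw : wt (Real.sqrt (Fintype.card k)) (CE (Fintype.card (Fin n × Fin 2)) s0 n0) A ≤ ε / 2)
    (hw1 : wt (Real.sqrt (Fintype.card k)) (CE (Fintype.card (Fin n × Fin 2)) s0 n0) A ≤ 1)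
    {f0 : k[X]} (hf0 : Cls n0 E A f0) (hf0D : f0.natDegree = D) :
    (∏ i, FF (J i) - ε) * ({f : k[X] | Cls n0 E A f ∧ f.natDegree = D}.ncard : ℝ) ≤
      ({f : k[X] | Cls n0 E A f ∧ (f.natDegree = D ∧
        ∀ i, rk (g i) (a i) (b i) (C (u i) * f) ≤ J i)}.ncard : ℝ) := by
  classical
  obtain ⟨r, hr⟩ : ∃ r : ℕ, r = A.card := ⟨_, rfl⟩
  obtain ⟨s, hs⟩ : ∃ s : ℕ, s = E.card := ⟨_, rfl⟩
  obtain ⟨e, he1, he2, he3⟩ : ∃ e : Fin E.card → k[X], Function.Injective e ∧ (∀ i, e i ∈ E) ∧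
      ∏ i, e i = ∏ Q ∈ E, Q := by
    refine ⟨fun i => (E.equivFin.symm i : k[X]), ?_, fun i => (E.equivFin.symm i).2, ?_⟩
    · intro i j h
      exact E.equivFin.symm.injective (Subtype.ext h)
    · rw [Equiv.prod_comp E.equivFin.symm (fun x : E => (x : k[X])), Finset.prod_coe_sort E
        (fun x => x)]
  have hcl : ∀ R : k[X] → Prop, {f : k[X] | Cls n0 E A f ∧ R f}.ncard =
      {d : Fin A.card → k[X] | (∀ i, d i ∈ Pr k (dg A i)) ∧
        R ((∏ Q ∈ E, Q) * ∏ i, d i)}.ncard := by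
    intro R
    exact hFM2 k n0 E A hE hA1 R
  have hPr : ∀ d : Fin A.card → k[X], (∀ i, d i ∈ Pr k (dg A i)) →
      ((∏ Q ∈ E, Q) * ∏ i, d i).natDegree = ∑ i, (e i).natDegree + ∑ i, dg A i := by
    intro d hd
    have m1 : ∀ i, (d i).Monic := fun i => (mem_Pr.1 (hd i)).1
    rw [← he3, Monic.natDegree_mul (monic_prod_of_monic _ _ fun i _ => (hE _ (he2 i)).1)
      (monic_prod_of_monic _ _ fun i _ => m1 i),
      natDegree_prod_of_monic _ _ fun i _ => (hE _ (he2 i)).1,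
      natDegree_prod_of_monic _ _ fun i _ => m1 i]
    congr 1
    exact sum_congr rfl fun i _ => (mem_Pr.1 (hd i)).2.2
  have hfinPr : {d : Fin A.card → k[X] | ∀ i, d i ∈ Pr k (dg A i)} =
      ((Fintype.piFinset fun i : Fin A.card => Pr k (dg A i) : Finset _) : Set _) := by
    ext d
    rw [mem_coe, Fintype.mem_piFinset]
    rfl
  -- the degree
  have hDsum : ∑ i, (e i).natDegree + ∑ i, dg A i = D := by
    have h1 := hcl (fun f => f = f0)
    have h3 : {f : k[X] | Cls n0 E A f ∧ f = f0} = {f0} := by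
      ext f
      constructor
      · exact fun h => h.2
      · intro h
        rw [Set.mem_singleton_iff] at h
        subst h
        exact ⟨hf0, rfl⟩
    rw [h3, Set.ncard_singleton] at h1
    obtain ⟨d, hd⟩ : {d : Fin A.card → k[X] | (∀ i, d i ∈ Pr k (dg A i)) ∧
        (∏ Q ∈ E, Q) * ∏ i, d i = f0}.Nonempty := by
      rw [Set.nonempty_iff_ne_empty]
      intro h
      rw [h, Set.ncard_empty] at h1
      exact absurd h1 (by norm_num)
    rw [← hPr d hd.1, hd.2, hf0D]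
  have hcard1 : ({f : k[X] | Cls n0 E A f ∧ f.natDegree = D}.ncard : ℝ) =
      ∏ n ∈ A, ((Pr k n).card : ℝ) := by
    rw [hcl (fun f => f.natDegree = D)]
    have h1 : {d : Fin A.card → k[X] | (∀ i, d i ∈ Pr k (dg A i)) ∧
        ((∏ Q ∈ E, Q) * ∏ i, d i).natDegree = D} =
        {d : Fin A.card → k[X] | ∀ i, d i ∈ Pr k (dg A i)} := by
      ext d
      constructor
      · exact fun h => h.1
      · intro h
        exact ⟨h, (hPr d h).trans hDsum⟩
    rw [h1, hfinPr, Set.ncard_coe_finset, Fintype.card_piFinset, Nat.cast_prod]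
    exact prod_dg A (fun n => ((Pr k n).card : ℝ))
  rw [hcard1, hcl (fun f => f.natDegree = D ∧ ∀ i, rk (g i) (a i) (b i) (C (u i) * f) ≤ J i)]
  obtain ⟨-, -, -, hF01, -⟩ := hNUM
  have hρ1 : ∏ i, FF (J i) ≤ 1 := prod_le_one (fun i _ => (hF01 _).1) fun i _ => (hF01 _).2
  obtain ⟨ρ, hρ⟩ : ∃ ρ : ℝ, ρ = ∏ i, FF (J i) := ⟨_, rfl⟩
  obtain ⟨ê, hê⟩ : ∃ ê : Fin (E.card + A.card) → k[X], ê = Fin.append e (fun _ => 1) := ⟨_, rfl⟩
  have hêc : ∀ i : Fin E.card, ê (Fin.castAdd A.card i) = e i := fun i => by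
    rw [hê, Fin.append_left]
  obtain ⟨β, hβ⟩ : ∃ β : Bm (E.card + A.card), β =
    fun (i : Fin (E.card + A.card)) (j : Fin (i : ℕ)) =>
      L 2 (ê ⟨(j : ℕ), j.2.trans i.2⟩) (ê i) := ⟨_, rfl⟩
  obtain ⟨π, hπ⟩ : ∃ π : Fin n → Fin (E.card + A.card) → V 2 2, π = fun i x t =>
    L 2 (P i t) (ê x) := ⟨_, rfl⟩
  obtain ⟨nn, hnn⟩ : ∃ nn : Fin (E.card + A.card) → ℕ, nn =
    Fin.append (fun i => (e i).natDegree) (dg A) := ⟨_, rfl⟩
  have hnnc : ∀ i : Fin E.card, nn (Fin.castAdd A.card i) = (e i).natDegree := fun i => by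
    rw [hnn, Fin.append_left]
  have hnnr : ∀ i : Fin A.card, nn (Fin.natAdd E.card i) = dg A i := fun i => by
    rw [hnn, Fin.append_right]
  have hδ : ∑ i, ((nn i : ℕ) : ZMod 2) = 0 := by
    rw [Fin.sum_univ_add]
    simp only [hnnc, hnnr]
    rw [← Nat.cast_sum, ← Nat.cast_sum, ← Nat.cast_add, hDsum]
    exact (ZMod.natCast_eq_zero_iff _ _).2 hD2
  have hL := hlaw (E.card + A.card) E.card hEc (Nat.le_add_right _ _) (by omega) β π
    (fun i => ((nn i : ℕ) : ZMod 2)) hδ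
    (fun i => cs 2 (C (u i) * g i) ![u i * a i, u i * b i] 1 2)
    (fun i => ch 2 (C (u i) * g i).leadingCoeff) J
  have hcd : ((BS E.card β).ncard : ℝ) * ∏ i, ((PS E.card (π i)).ncard : ℝ) =
      (Nat.card (Bm A.card) : ℝ) *
        (Nat.card (Fin A.card → (Fin n × Fin 2) ⊕ Fin E.card → ZMod 2) : ℝ) := by
    have := card_data n E.card A.card β π
    exact_mod_cast this
  rw [hcd] at hL
  refine one_class hEQ2 S hk hn1 (P := fun y : Fin n × Fin 2 => P y.1 y.2)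
    (fun y => hPm y.1 y.2) (fun y => hPi y.1 y.2) hPinj
    (fun y => (hPd y.1 y.2).le.trans (hdeg y.1)) hEc (e := e)
    (fun i => (hE _ (he2 i)).1) (fun i => (hE _ (he2 i)).2.1) he1
    (fun i => (hE _ (he2 i)).2.2) (fun i y => hEP _ (he2 i) y.1 y.2) hA1
    (fun n hn => hn4 n (hA1 n hn)) hρ1 hε.le hw hw1 _ ?_ hL _ ?_
  · rintro x ⟨hx1, hx2⟩
    refine ⟨fun i j hij => ?_, fun i y => ?_⟩
    · have q1 : ∀ i : Fin E.card, x.1 (Fin.castAdd A.card i) = β (Fin.castAdd A.card i) :=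
        fun i => hx1 _ (by rw [Fin.val_castAdd]; exact i.2)
      rcases lt_trichotomy (j : ℕ) (i : ℕ) with hji | hji | hji
      · have h6 : sy x.1 (Fin.castAdd A.card i) (Fin.castAdd A.card j) =
            x.1 (Fin.castAdd A.card i) ⟨(j : ℕ), hji⟩ := by
          unfold sy
          rw [dif_pos (show ((Fin.castAdd A.card j : Fin _) : ℕ) < (Fin.castAdd A.card i : Fin _)
            from hji)]
          rfl
        rw [h6, q1, hβ]
        change _ = L 2 (ê (Fin.castAdd A.card j)) (ê (Fin.castAdd A.card i))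
        rw [hêc, hêc]
      · exact absurd (Fin.ext hji.symm) hij
      · have h6 : sy x.1 (Fin.castAdd A.card i) (Fin.castAdd A.card j) =
            x.1 (Fin.castAdd A.card j) ⟨(i : ℕ), hji⟩ := by
          unfold sy
          rw [dif_neg (show ¬ ((Fin.castAdd A.card j : Fin _) : ℕ) < (Fin.castAdd A.card i : Fin _)
            from fun h => absurd hji (not_lt.2 (le_of_lt h))),
            dif_pos (show ((Fin.castAdd A.card i : Fin _) : ℕ) < (Fin.castAdd A.card j : Fin _)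
            from hji)]
          rfl
        rw [h6, q1, hβ]
        change _ = L 2 (ê (Fin.castAdd A.card i)) (ê (Fin.castAdd A.card j))
        rw [hêc, hêc, S0.L_comm]
    · have h7 := (hx2 y.1).1 (Fin.castAdd A.card i) (by rw [Fin.val_castAdd]; exact i.2)
      have h8 := congrFun h7 y.2
      rw [hπ] at h8
      simp only [hêc] at h8
      exact h8.symm
  · rintro x ⟨hx1, hx2⟩ d hd
    obtain ⟨w1, w2, w3⟩ := mem_ptE.1 hd
    rw [Fintype.mem_piFinset] at w1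
    refine ⟨(hPr d w1).trans hDsum, fun i => ?_⟩
    have hall : ∀ j, (Fin.append e d j).Monic ∧ Irreducible (Fin.append e d j) ∧
        (Fin.append e d j).natDegree = nn j := by
      intro j
      refine Fin.addCases (fun j => ?_) (fun j => ?_) j
      · rw [Fin.append_left, hnnc]
        exact ⟨(hE _ (he2 j)).1, (hE _ (he2 j)).2.1, rfl⟩
      · rw [Fin.append_right, hnnr]
        exact mem_Pr.1 (w1 j)
    have hdd : ∀ j, n0 < (d j).natDegree := fun j => by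
      rw [(mem_Pr.1 (w1 j)).2.2]
      exact hA1 _ (dg_mem A j)
    have hinj : Function.Injective (Fin.append e d) := by
      intro j j'
      refine Fin.addCases (fun j => ?_) (fun j => ?_) j <;>
      refine Fin.addCases (fun j' => ?_) (fun j' => ?_) j'
      · rw [Fin.append_left, Fin.append_left]
        intro h
        rw [he1 h]
      · rw [Fin.append_left, Fin.append_right]
        intro h
        have h3 := (hE _ (he2 j)).2.2
        rw [h] at h3
        exact absurd (hdd j') (not_lt.2 h3)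
      · rw [Fin.append_left, Fin.append_right]
        intro h
        have h3 := (hE _ (he2 j')).2.2
        rw [← h] at h3
        exact absurd (hdd j) (not_lt.2 h3)
      · rw [Fin.append_right, Fin.append_right]
        intro h
        have h3 : dg A j = dg A j' := by
          rw [← (mem_Pr.1 (w1 j)).2.2, ← (mem_Pr.1 (w1 j')).2.2, h]
        rw [(dg_anti A).injective h3]
    have h3 := rank_boundG S0 h2 hneg (hodd i) rfl (hab i) (hPm i) (hPi i)
      (fun t t' h => by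
        have := hPinj (a₁ := (i, t)) (a₂ := (i, t')) h
        exact (Prod.ext_iff.1 this).2)
      (hPd i) (hP i) (n := nn) hδ (hu i) (x.1, pc x.2 i) (d := Fin.append e d)
      hall hinj (fun j t => by
        refine Fin.addCases (fun j => ?_) (fun j => ?_) j
        · rw [Fin.append_left]
          exact hEP _ (he2 j) i t
        · rw [Fin.append_right]
          intro h
          have h4 := hdd j
          rw [h, hPd] at h4
          exact absurd h4 (not_lt.2 (hdeg i)))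
      (fun j t => w2 j (i, t)) (fun j j' hjj => w3 j j' hjj)
    have h4 := h3.trans (hx2 i).2
    have h5 : ∏ j, Fin.append e d j = (∏ Q ∈ E, Q) * ∏ j, d j := by
      rw [Fin.prod_univ_add]
      simp only [Fin.append_left, Fin.append_right]
      rw [he3]
    rw [h5] at h4
    exact (Nat.pow_le_pow_iff_right (by norm_num)).1 h4

end

end Pool.Agent.D0H99.OD
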