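import Pool.Agent.D0H99.OD.AllC

/-!
All squarefree twists: the theorem.
-/

set_option autoImplicit false
set_option linter.all false

open Polynomial IsDedekindDomain WeierstrassCurve Filter

namespace Pool.Agent.D0H99.OD

open Finset
open Pool.Agent.Y164.SZ
open Pool.Agent.Y164.PS (Fam Pr mem_Pr card_Pr_ge)
open Pool.Agent.D0H99.FT (br nu cs zeta_data sym0 chr)
open Pool.Agent.D0H99.RM (V X sy crv cst card_X_pos cst_le sy_symm)
open Pool.Agent.D0H99.DE (rt rk nodes)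

theorem finPD {k : Type} [Field k] {f : k[X]} (hf : f ≠ 0) : (PD f).Finite := by
  classical
  refine (UniqueFactorizationMonoid.normalizedFactors f).toFinset.finite_toSet.subset ?_
  rintro P ⟨h1, h2, h3⟩
  rw [mem_coe, Multiset.mem_toFinset, UniqueFactorizationMonoid.mem_normalizedFactors_iff' hf]
  exact ⟨h2, h1.normalize_eq_self, h3⟩

theorem mainS (hCONFS : S_CONFS) (hNUM : S_NUM) (hCNT : S_CNT) (hEQ2 : S_EQ2) (hFAM : S_FAM)
    (hA0 : S_A0) (hAN : S_AN) (hFM2 : S_FM2) (k : Type) [Field k]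
    [Finite k] (h2 : (2 : k) ≠ 0) (hlk : 2 ∣ Nat.card k - 1) (hneg : ∃ z : k, z ^ 2 = -1)
    (N n : ℕ) {ε : ℝ} (hε : 0 < ε) : ∃ c : ℝ, 0 < c ∧ ∃ D0 : ℕ, ∀ D : ℕ, D0 ≤ D → 2 ∣ D →
    ∀ (g : Fin n → k[X]) (a b : Fin n → k), (∀ i, ¬ 2 ∣ (g i).natDegree) →
      (∀ i, (g i).natDegree ≤ N) → (∀ i, a i ≠ b i) → (∀ i, Irreducible (g i - C (a i))) →
      (∀ i, Irreducible (g i - C (b i))) →
      (∀ i j x y, (x = a i ∨ x = b i) → (y = a j ∨ y = b j) →
        Associated (g i - C x) (g j - C y) → i = j) →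
      ∀ u : Fin n → k, (∀ i, u i ≠ 0) → ∀ J : Fin n → ℕ,
      c * (Nat.card k : ℝ) ^ D ≤ ({f : k[X] | f.Monic ∧ Squarefree f ∧ f.natDegree = D ∧
        ∀ i, IsCoprime f ((g i - C (a i)) * (g i - C (b i)))}.ncard : ℝ) ∧
      (∏ i, FF (J i) - ε) * ({f : k[X] | f.Monic ∧ Squarefree f ∧ f.natDegree = D ∧
        ∀ i, IsCoprime f ((g i - C (a i)) * (g i - C (b i)))}.ncard : ℝ) ≤
        ({f : k[X] | (f.Monic ∧ Squarefree f ∧ f.natDegree = D ∧
          ∀ i, IsCoprime f ((g i - C (a i)) * (g i - C (b i)))) ∧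
          ∀ i, rk (g i) (a i) (b i) (C (u i) * f) ≤ J i}.ncard : ℝ) := by
  classical
  obtain ⟨hlk0, ζ, hζ⟩ := zeta_data Nat.prime_two hlk
  letI : Fintype k := Fintype.ofFinite k
  have hchar : ringChar k ≠ 2 := by
    intro h
    apply h2
    have := ringChar.Nat.cast_ringChar (R := k)
    rw [h] at this
    exact_mod_cast this
  have hcard : Nat.card k = Fintype.card k := Nat.card_eq_fintype_card
  rw [hcard] at hlk
  have S0 : SYM0 2 k := sym0 hneg hlk
  have S' : SYM 2 k := chr hlk hchar S0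
  obtain ⟨c, hc, D1, hD1⟩ := lowerD hCNT hFAM k hchar N
  have hε2 : 0 < ε / 2 := half_pos hε
  obtain ⟨m, hm⟩ : ∃ m : ℕ, m = Fintype.card (Fin n × Fin 2) := ⟨_, rfl⟩
  choose t0 ht0 using fun s0 => count_lawS hCONFS hNUM n (half_pos hε2) s0
  obtain ⟨ε', hε'⟩ : ∃ ε' : ℝ, ε' = min (ε / 2 / 2) 1 := ⟨_, rfl⟩
  have hε0 : 0 < ε' := by rw [hε']; exact lt_min (half_pos hε2) one_pos
  obtain ⟨n0, s0, D2, hn0, hn4, hD2⟩ := hAN k hchar (max N 1) m ε' (c * (ε / 2)) hε0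
    (mul_pos hc hε2) t0
  have hNn0 : N ≤ n0 := (le_max_left _ _).trans hn0
  have h1n0 : 1 ≤ n0 := (le_max_right _ _).trans hn0
  refine ⟨c, hc, max D1 D2, fun D hD h2D g a b hodd hdeg hab hga hgb hsep u hu J => ?_⟩
  have hpos : ∀ i, 0 < (g i).natDegree := fun i =>
    Nat.pos_of_ne_zero fun h => hodd i (by rw [h]; exact dvd_zero _)
  have hnod := fun i => nodes (hpos i) rfl ![a i, b i] (by
    intro x y hij
    fin_cases x <;> fin_cases y
    · rfl
    · exact absurd hij (hab i)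
    · exact absurd hij (hab i).symm
    · rfl) (by
    intro s
    fin_cases s
    · exact hga i
    · exact hgb i)
  choose P hPm hPi hPinj hPd hP using hnod
  have hassoc : ∀ i s, Associated (g i - C (![a i, b i] s)) (P i s) := by
    intro i s
    have hlc : (g i).leadingCoeff ≠ 0 := by
      apply leadingCoeff_ne_zero.2
      rintro h0
      have := hpos i
      rw [h0, natDegree_zero] at this
      exact lt_irrefl _ this
    rw [hP i s]
    exact (associated_isUnit_mul_left_iff (isUnit_C.2 (isUnit_iff_ne_zero.2 hlc))).2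
      (Associated.refl _)
  have hv : ∀ i (s : Fin 2), ![a i, b i] s = a i ∨ ![a i, b i] s = b i := by
    intro i s
    fin_cases s
    · exact Or.inl rfl
    · exact Or.inr rfl
  have hP'inj : Function.Injective fun y : Fin n × Fin 2 => P y.1 y.2 := by
    rintro ⟨i, s⟩ ⟨j, t⟩ h
    simp only at h
    have h3 : Associated (g i - C (![a i, b i] s)) (g j - C (![a j, b j] t)) := by
      refine (hassoc i s).trans ?_
      rw [h]
      exact (hassoc j t).symm
    have h4 := hsep i j _ _ (hv i s) (hv j t) h3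
    subst h4
    rw [hPinj i h]
  -- coprimality
  have hcop : ∀ f : k[X], (∀ i, IsCoprime f ((g i - C (a i)) * (g i - C (b i)))) ↔
      ∀ i s, ¬ P i s ∣ f := by
    intro f
    constructor
    · intro h i s hs
      have h3 : P i s ∣ (g i - C (a i)) * (g i - C (b i)) := by
        fin_cases s
        · exact dvd_mul_of_dvd_left (hassoc i 0).symm.dvd _
        · exact dvd_mul_of_dvd_right (hassoc i 1).symm.dvd _
      exact (hPi i s).not_isUnit ((h i).isUnit_of_dvd' hs h3)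
    · intro h i
      refine IsCoprime.mul_right ?_ ?_
      · refine ((hga i).coprime_iff_not_dvd.2 fun h3 => h i 0 ?_).symm
        exact (hassoc i 0).dvd_iff_dvd_left.1 h3
      · refine ((hgb i).coprime_iff_not_dvd.2 fun h3 => h i 1 ?_).symm
        exact (hassoc i 1).dvd_iff_dvd_left.1 h3
  have hPn0 : ∀ i s, (P i s).natDegree ≤ n0 := fun i s =>
    (hPd i s).le.trans ((hdeg i).trans hNn0)
  obtain ⟨good, hgood⟩ : ∃ good : k[X] → Prop, good = fun f =>
    ∀ i, rk (g i) (a i) (b i) (C (u i) * f) ≤ J i := ⟨_, rfl⟩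
  obtain ⟨𝒟, h𝒟⟩ : ∃ 𝒟 : Finset k[X], 𝒟 = (MO k D).filter fun f => Squarefree f ∧
    ∀ i, IsCoprime f ((g i - C (a i)) * (g i - C (b i))) := ⟨_, rfl⟩
  have hmem : ∀ f, f ∈ 𝒟 ↔ f.Monic ∧ Squarefree f ∧ f.natDegree = D ∧
      ∀ i, IsCoprime f ((g i - C (a i)) * (g i - C (b i))) := by
    intro f
    rw [h𝒟, mem_filter, (hA0 k D).1 f]
    tauto
  have e1 : {f : k[X] | f.Monic ∧ Squarefree f ∧ f.natDegree = D ∧
        ∀ i, IsCoprime f ((g i - C (a i)) * (g i - C (b i)))} = (𝒟 : Set k[X]) := by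
    ext f
    rw [mem_coe, hmem]
    rfl
  have e2 : {f : k[X] | (f.Monic ∧ Squarefree f ∧ f.natDegree = D ∧
          ∀ i, IsCoprime f ((g i - C (a i)) * (g i - C (b i)))) ∧
          ∀ i, rk (g i) (a i) (b i) (C (u i) * f) ≤ J i} =
      ((𝒟.filter good : Finset k[X]) : Set k[X]) := by
    ext f
    rw [mem_coe, mem_filter, hmem, hgood]
    rfl
  rw [e1, e2, Set.ncard_coe_finset, Set.ncard_coe_finset]
  obtain ⟨ty, hty⟩ : ∃ ty : k[X] → Prop, ty = fun f => Typ f n0 s0 (t0 s0)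
    (Real.sqrt (Fintype.card k)) (CE m s0 n0) ε' := ⟨_, rfl⟩
  obtain ⟨𝒯, h𝒯⟩ : ∃ 𝒯 : Finset k[X], 𝒯 = 𝒟.filter ty := ⟨_, rfl⟩
  have hbad : ((𝒟.filter fun f => ¬ ty f).card : ℝ) ≤
      c * (ε / 2) * (Fintype.card k : ℝ) ^ D := by
    refine le_trans ?_ (hD2 D ((le_max_right _ _).trans hD))
    rw [← Set.ncard_coe_finset]
    refine Nat.cast_le.2 (Set.ncard_le_ncard ?_ ?_)
    · intro f hf
      rw [mem_coe, mem_filter, h𝒟, mem_filter, hty] at hf
      exact ⟨hf.1.1, hf.2⟩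
    · exact (MO k D).finite_toSet.subset fun f hf => hf.1
  have hlow : c * (Fintype.card k : ℝ) ^ D ≤ (𝒟.card : ℝ) := by
    obtain ⟨S, hS1, hS2⟩ := hD1 D ((le_max_left _ _).trans hD)
    refine hS2.trans (Nat.cast_le.2 (card_le_card fun f hf => ?_))
    obtain ⟨q1, q2, q3, q4⟩ := hS1 f hf
    rw [hmem]
    exact ⟨q1, q2, q3, (hcop f).2 fun i s => q4 _ (hPi i s) ((hPd i s).le.trans (hdeg i))⟩
  have hsplit : (𝒯.card : ℝ) + ((𝒟.filter fun f => ¬ ty f).card : ℝ) = (𝒟.card : ℝ) := by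
    rw [h𝒯]
    exact_mod_cast Finset.card_filter_add_card_filter_not (s := 𝒟) ty
  -- the classes
  obtain ⟨φ, hφ⟩ : ∃ φ : k[X] → Finset k[X] × Finset ℕ, φ = fun f =>
    (if h : {P ∈ PD f | P.natDegree ≤ n0}.Finite then h.toFinset else ∅, Dg f n0) := ⟨_, rfl⟩
  have hφE : ∀ f : k[X], f ≠ 0 → ((φ f).1 : Set k[X]) = {P ∈ PD f | P.natDegree ≤ n0} := by
    intro f hf
    have h3 : {P ∈ PD f | P.natDegree ≤ n0}.Finite := (finPD hf).subset fun P hP' => hP'.1
    rw [hφ]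
    simp only
    rw [dif_pos h3, Set.Finite.coe_toFinset]
  have hφA : ∀ f : k[X], (φ f).2 = Dg f n0 := by
    intro f
    rw [hφ]
  obtain ⟨-, -, -, hF01, -⟩ := id hNUM
  have hρ1 : ∏ i, FF (J i) ≤ 1 := prod_le_one (fun i _ => (hF01 _).1) fun i _ => (hF01 _).2
  have hT : (∏ i, FF (J i) - ε / 2) * (𝒯.card : ℝ) ≤ ((𝒯.filter good).card : ℝ) := by
    have c1 : 𝒯.card = ∑ y ∈ 𝒯.image φ, (𝒯.filter fun f => φ f = y).card :=
      card_eq_sum_card_image φ 𝒯
    have c2 : (𝒯.filter good).card =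
        ∑ y ∈ 𝒯.image φ, ((𝒯.filter good).filter fun f => φ f = y).card :=
      card_eq_sum_card_fiberwise (fun f hf => by
        rw [mem_coe] at hf ⊢
        exact mem_image_of_mem φ (mem_filter.1 hf).1)
    rw [c1, c2, Nat.cast_sum, Nat.cast_sum, mul_sum]
    refine sum_le_sum fun y hy => ?_
    obtain ⟨f0, hf0, rfl⟩ := mem_image.1 hy
    have hf0' := hf0
    rw [h𝒯, mem_filter, hmem, hty] at hf0'
    obtain ⟨⟨m1, m2, m3, m4⟩, t1, t2, t3, t4⟩ := hf0'
    have hE0 := hφE f0 m1.ne_zero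
    have hE : ∀ Q ∈ (φ f0).1, Q.Monic ∧ Irreducible Q ∧ Q.natDegree ≤ n0 := by
      intro Q hQ
      rw [← mem_coe, hE0] at hQ
      exact ⟨hQ.1.1, hQ.1.2.1, hQ.2⟩
    have hEP : ∀ Q ∈ (φ f0).1, ∀ i s, Q ≠ P i s := by
      intro Q hQ i s h
      rw [← mem_coe, hE0] at hQ
      have h3 := hQ.1.2.2
      rw [h] at h3
      exact (hcop f0).1 m4 i s h3
    have hEc : (φ f0).1.card ≤ s0 := by
      rw [← Set.ncard_coe_finset, hE0]
      exact t1
    have hf0c : Cls n0 (φ f0).1 (Dg f0 n0) f0 := ⟨m1, m2, hE0.symm, t2, rfl⟩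
    have hcls : ∀ f, (f ∈ 𝒯 ∧ φ f = φ f0) ↔ (Cls n0 (φ f0).1 (Dg f0 n0) f ∧ f.natDegree = D) := by
      intro f
      constructor
      · rintro ⟨hf, hff⟩
        rw [h𝒯, mem_filter, hmem, hty] at hf
        obtain ⟨⟨r1, r2, r3, r4⟩, v1, v2, v3, v4⟩ := hf
        refine ⟨⟨r1, r2, ?_, v2, ?_⟩, r3⟩
        · rw [← hφE f r1.ne_zero, hff]
        · rw [← hφA, hff, hφA]
      · rintro ⟨⟨r1, r2, r3, r4, r5⟩, r6⟩
        refine ⟨?_, ?_⟩
        · rw [h𝒯, mem_filter, hmem, hty]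
          refine ⟨⟨r1, r2, r6, (hcop f).2 fun i s h3 => ?_⟩, ?_, r4, ?_, ?_⟩
          · have h4 : P i s ∈ {P ∈ PD f | P.natDegree ≤ n0} := ⟨⟨hPm i s, hPi i s, h3⟩, hPn0 i s⟩
            rw [r3, mem_coe] at h4
            exact hEP _ h4 i s rfl
          · rw [r3, hE0]
            exact t1
          · rw [r5]
            exact t3
          · rw [r5]
            exact t4
        · refine Prod.ext ?_ ?_
          · apply Finset.coe_injective
            rw [hφE f r1.ne_zero, r3]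
          · rw [hφA, r5, hφA]
    have k1 : ((𝒯.filter fun f => φ f = φ f0).card : ℕ) =
        {f : k[X] | Cls n0 (φ f0).1 (Dg f0 n0) f ∧ f.natDegree = D}.ncard := by
      rw [← Set.ncard_coe_finset]
      congr 1
      ext f
      rw [mem_coe, mem_filter, hcls]
      rfl
    have k2 : (((𝒯.filter good).filter fun f => φ f = φ f0).card : ℕ) =
        {f : k[X] | Cls n0 (φ f0).1 (Dg f0 n0) f ∧ (f.natDegree = D ∧
          ∀ i, rk (g i) (a i) (b i) (C (u i) * f) ≤ J i)}.ncard := by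
      rw [← Set.ncard_coe_finset]
      congr 1
      ext f
      rw [mem_coe, mem_filter, mem_filter, Set.mem_setOf_eq]
      constructor
      · rintro ⟨⟨l1, l2⟩, l3⟩
        obtain ⟨l4, l5⟩ := (hcls f).1 ⟨l1, l3⟩
        rw [hgood] at l2
        exact ⟨l4, l5, l2⟩
      · rintro ⟨l4, l5, l2⟩
        obtain ⟨l1, l3⟩ := (hcls f).2 ⟨l4, l5⟩
        rw [hgood]
        exact ⟨⟨l1, l2⟩, l3⟩
    rw [k1, k2]
    have hA1 : ∀ n ∈ Dg f0 n0, n0 < n := by
      intro n hn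
      rw [Dg, mem_filter] at hn
      exact hn.2.1
    refine one_polys hEQ2 hFM2 hNUM S0 S' hchar h2 hneg h2D hε2 (ht0 s0) h1n0 hn4 hodd
      (fun i => (hdeg i).trans hNn0) hab hPm hPi hP'inj hPd hP hu J hE hEP hEc hA1 t3
      ?_ ?_ hf0c m3
    · rw [← hm]
      exact t4.trans (by rw [hε']; exact min_le_left _ _)
    · rw [← hm]
      exact t4.trans (by rw [hε']; exact min_le_right _ _)
  have hmono : ((𝒯.filter good).card : ℝ) ≤ ((𝒟.filter good).card : ℝ) := by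
    refine Nat.cast_le.2 (card_le_card ?_)
    rw [h𝒯]
    exact filter_subset_filter _ (filter_subset _ _)
  refine ⟨by rw [hcard]; exact hlow, ?_⟩
  refine le_trans ?_ hmono
  refine le_trans ?_ hT
  have hB0 : (0 : ℝ) ≤ ((𝒟.filter fun f => ¬ ty f).card : ℝ) := Nat.cast_nonneg _
  have hT0 : (0 : ℝ) ≤ (𝒯.card : ℝ) := Nat.cast_nonneg _
  have hDn0 : (0 : ℝ) ≤ (𝒟.card : ℝ) := Nat.cast_nonneg _
  generalize hbd : ((𝒟.filter fun f => ¬ ty f).card : ℝ) = bd at *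
  generalize hTn : (𝒯.card : ℝ) = Tn at *
  generalize hDn : (𝒟.card : ℝ) = Dn at *
  generalize hqD : (Fintype.card k : ℝ) ^ D = qD at *
  generalize hρ : ∏ i, FF (J i) = ρ at *
  have hb2 : bd ≤ ε / 2 * Dn := by nlinarith
  rcases le_total (ρ - ε / 2) 0 with hneg' | hpos'
  · nlinarith
  · nlinarith

end Pool.Agent.D0H99.OD
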