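import Mathlib

/-!
Project OD (helper99), part 4: from the moments to the law. `ww d = ∏_(i=1..d) 2 / (2 ^ i - 1)`,
`aa d = ww d / ∑ ww` (the law of Heath-Brown and Poonen-Rains), `FF m = aa 0 + ... + aa m`.

`LAW` (200 lines). `f_k(n) = ∏_(i<k) (n - 2 ^ i)`. (a) `ww d f_k(2 ^ d) = 2 ^ (k (k + 1) / 2) ww (d - k)` for
`d ≥ k`, and `0` for `d < k`. (b) The sums of `ww` over the even and over the odd `d` are equal: with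
`u d = ∏_(i=1..d) 1 / (2 ^ i - 1)` one has `ww 0 = u 0`, `ww (d + 1) = u d + u (d + 1)`, so the alternating sum
telescopes to `lim ± u D = 0`. So for both parities and all `k` the sum of `aa d f_k(2 ^ d)` over the `d` of
this parity is `Tk k / 2`, `Tk k = 2 ^ (k (k + 1) / 2)`. (c) For `m = 2 μ + ρ` (`ρ = 0, 1`) put
`g_E(n) = ∏_(e < E, e ≠ μ) (2 ^ (2 e + ρ) - n) / (2 ^ (2 e + ρ) - 2 ^ m)`; for `E > μ` it is `1` at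
`n = 2 ^ m`, `0` at the other `n = 2 ^ d`, `d ≡ m` modulo `2`, `d < 2 E + ρ`, and for the right parity of
`E` (`E - 1 + μ` odd) it is `≤ 0` at `n = 2 ^ d`, `d ≡ m`, `d ≥ 2 E + ρ`. It is a linear combination
`∑_(k < E) c_k f_k`. So `#{d = m} ≥ ∑_(d a ≡ m) g_E(2 ^ (d a)) = ∑ c_k ∑ f_k ≥ #A (∑ c_k Tk k / 2 - η ∑ |c_k|)`, and
`∑ c_k Tk k / 2 = ∑_(d ≡ m) aa d g_E(2 ^ d)` tends to `aa m` for `E → ∞`: dominated convergence, because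
`|g_E(2 ^ d)| ≤ ∏_(j < d, j ≡ d) 2 ^ (d - j + 1)` for all `E`, `d` (`|2 ^ j - 2 ^ m| ≥ 2 ^ (j - 1)`), and this
bound `G(d)` has `G(d + 2) ≤ 2 ^ (d + 3) G(d)`, `ww (d + 2) ≤ 2 ^ (1 - 2 d) ww d`, so `∑ ww d G(d)` converges.

`NUM` (60 lines): `∑ ww = 4.76846...`; `1 + 2 + 4 / 3 + 8 / 21 + 16 / 315 + 32 / 9765 + ...`, the rest is a
geometric series; `1 / 0.2097 = 4.76871...`.

`AVG` (80 lines): `∑ d a = ∑_(m ≥ 0) #{d a > m}`, the part `m < m0` from the hypothesis, the rest with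
`(d - m0)^+ ≤ 2 ^ d / 2 ^ m0`; `∑_m (1 - FF m) = ∑ d (aa d) = 1.26449...`.
-/

set_option autoImplicit false

namespace Pool.Agent.D0H99.OD

open Finset Filter

/-- the weights -/
noncomputable def ww (d : ℕ) : ℝ := ∏ i ∈ range d, 2 / ((2 : ℝ) ^ (i + 1) - 1)

/-- the law -/
noncomputable def aa (d : ℕ) : ℝ := ww d / ∑' j, ww j

/-- the distribution function -/
noncomputable def FF (m : ℕ) : ℝ := (∑ d ∈ range (m + 1), ww d) / ∑' j, ww j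

/-- the interpolation polynomials -/
noncomputable def gE (μ ρ E : ℕ) (n : ℝ) : ℝ :=
  ∏ e ∈ (range E).erase μ,
    ((2 : ℝ) ^ (2 * e + ρ) - n) / ((2 : ℝ) ^ (2 * e + ρ) - (2 : ℝ) ^ (2 * μ + ρ))

/-- LWA: steps (a), (b) -/
def S_LWA : Prop := Summable ww ∧ ∀ k ρ : ℕ, ρ < 2 → HasSum
  (fun e : ℕ => aa (2 * e + ρ) * ∏ i ∈ range k, ((2 : ℝ) ^ (2 * e + ρ) - 2 ^ i))
  ((2 : ℝ) ^ (k * (k + 1) / 2) / 2)

/-- LWB: the limit in step (c) -/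
def S_LWB : Prop := ∀ μ ρ : ℕ, ρ < 2 →
  Tendsto (fun E : ℕ => ∑' e : ℕ, aa (2 * e + ρ) * gE μ ρ E ((2 : ℝ) ^ (2 * e + ρ))) atTop
    (nhds (aa (2 * μ + ρ)))

/-- LAW -/
def S_LAW : Prop := ∀ (m : ℕ) (ε : ℝ), 0 < ε → ∃ K : ℕ, ∃ η : ℝ, 0 < η ∧
  ∀ (A : Type) [Fintype A] (d : A → ℕ),
    (∀ k : ℕ, k ≤ K → |(∑ a with d a % 2 = m % 2, ∏ i ∈ range k, ((2 : ℝ) ^ d a - 2 ^ i)) -
      (2 : ℝ) ^ (k * (k + 1) / 2) / 2 * (Fintype.card A : ℝ)| ≤ η * (Fintype.card A : ℝ)) →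
    (aa m - ε) * (Fintype.card A : ℝ) ≤ ({a : A | d a = m}.ncard : ℝ)

/-- LWC: the rest of step (c) -/
def S_LWC : Prop := S_LWA → S_LWB → S_LAW

/-- NUM -/
def S_NUM : Prop := Summable ww ∧ (2097 / 10000 : ℝ) ≤ FF 0 ∧ (6291 / 10000 : ℝ) ≤ FF 1 ∧
  (∀ m, 0 ≤ FF m ∧ FF m ≤ 1) ∧ Tendsto FF atTop (nhds 1)

/-- AVG -/
def S_AVG : Prop := ∃ m0 : ℕ, ∃ η : ℝ, 0 < η ∧ ∀ (A : Type) [Fintype A] (d : A → ℕ),
  (∀ m : ℕ, m ≤ m0 → (FF m - η) * (Fintype.card A : ℝ) ≤ ({a : A | d a ≤ m}.ncard : ℝ)) →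
  ∑ a, (2 : ℝ) ^ d a ≤ 4 * (Fintype.card A : ℝ) →
  ∑ a, (d a : ℝ) ≤ (1265 / 1000 : ℝ) * (Fintype.card A : ℝ)

end Pool.Agent.D0H99.OD
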