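import Pool.Agent.D0H99.OD.Law
import Pool.Agent.D0H99.OD.Stm4
import Pool.Agent.D0H52.OD.Per

/-!
The law of the number of solutions for almost all matrices.
-/

set_option autoImplicit false
set_option linter.all false

open Filter

namespace Pool.Agent.D0H99.OD

open Finset
open Pool.Agent.D0H99.RM (V X sy cst)

/-- CONF: for almost all matrices the law over `p` is as expected -/
def S_CONF : Prop := ∀ ε : ℝ, 0 < ε → ∃ r0 : ℕ, ∀ r : ℕ, r0 ≤ r → ∀ δ : Fin r → ZMod 2,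
  ∑ i, δ i = 0 → ∃ Bad : Set (Bm r), (Bad.ncard : ℝ) ≤ ε * (Nat.card (Bm r) : ℝ) ∧
    ∀ B : Bm r, B ∉ Bad → ∀ (κ lam : ZMod 2) (m : ℕ),
    (FF m - ε) * (Nat.card (Fin r → V 2 2) : ℝ) ≤
      ({p : Fin r → V 2 2 | nsolP δ κ lam (B, p) ≤ 2 ^ m}.ncard : ℝ)

theorem FF_eq (m : ℕ) : FF m = ∑ d ∈ range (m + 1), aa d := by
  unfold FF aa
  rw [sum_div]

theorem fm_cast {r : ℕ} (δ : Fin r → ZMod 2) (κ lam : ZMod 2) (k : ℕ) (x : X 2 2 r) {d : ℕ}
    (hd : nsolP δ κ lam x = 2 ^ d) :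
    (fm δ κ lam k x : ℝ) = ∏ i ∈ range k, ((2 : ℝ) ^ d - 2 ^ i) := by
  unfold fm
  rw [hd]
  by_cases h : k ≤ d
  · rw [Nat.cast_prod]
    refine prod_congr rfl fun i hi => ?_
    have hi' : i ≤ d := ((mem_range.1 hi).le).trans h
    rw [Nat.cast_sub (Nat.pow_le_pow_right (by norm_num) hi')]
    push_cast
    rfl
  · push Not at h
    rw [prod_eq_zero (mem_range.2 h) (by rw [Nat.sub_self]), prod_eq_zero (mem_range.2 h) (by
      rw [sub_self]), Nat.cast_zero]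

theorem card_V (r : ℕ) : (Fintype.card (Fin r → V 2 2) : ℝ) = 4 ^ r := by
  rw [Fintype.card_fun, Fintype.card_fun, Fintype.card_fin, Fintype.card_fin, ZMod.card]
  norm_num

/-- one matrix -/
theorem one_matrix (hSG : S_SG) (hIN : S_IN) {r : ℕ} (δ : Fin r → ZMod 2) (hδ : ∑ i, δ i = 0)
    (κ lam : ZMod 2) (B : Bm r) {η : ℝ} {K : ℕ}
    (hB : ∀ k ≤ K, |(YY δ κ lam k B : ℝ) - Tk k * 4 ^ r| ≤ η * 4 ^ r ∧
        (ZZ δ κ lam k B : ℝ) ≤ η * 4 ^ r) (d : (Fin r → V 2 2) → ℕ)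
    (hd : ∀ p, nsolP δ κ lam (B, p) = 2 ^ d p)
    (hd2 : ∀ p, ((d p : ℕ) : ZMod 2) = ∑ y, ∑ t, p y t) (m k : ℕ) (hk : k ≤ K) :
    |(∑ a with d a % 2 = m % 2, ∏ i ∈ range k, ((2 : ℝ) ^ d a - 2 ^ i)) -
      (2 : ℝ) ^ (k * (k + 1) / 2) / 2 * (Fintype.card (Fin r → V 2 2) : ℝ)| ≤
      η * (Fintype.card (Fin r → V 2 2) : ℝ) := by
  classical
  obtain ⟨h1, h2⟩ := hB k hk
  obtain ⟨h3, h4⟩ := ev_od hSG hIN δ κ lam k B
  have h5 := ev_add_od δ κ lam k B
  rw [card_V]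
  have e0 : (2 : ℝ) ^ (k * (k + 1) / 2) = Tk k := rfl
  rw [e0]
  have h3' : (ev δ κ lam k B : ℝ) ≤ od δ κ lam k B + ZZ δ κ lam k B := by exact_mod_cast h3
  have h4' : (od δ κ lam k B : ℝ) ≤ ev δ κ lam k B + ZZ δ κ lam k B := by exact_mod_cast h4
  have h5' : (ev δ κ lam k B : ℝ) + od δ κ lam k B = YY δ κ lam k B := by
    unfold YY
    exact_mod_cast h5
  rw [abs_le] at h1
  have hcase : ∀ p, d p % 2 = m % 2 ↔ (if m % 2 = 0 then ∑ y, ∑ t, p y t = 0 else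
      ∑ y, ∑ t, p y t ≠ 0) := by
    intro p
    rw [← hd2 p]
    have hz : (((d p : ℕ) : ZMod 2) = 0) ↔ d p % 2 = 0 := by
      rw [ZMod.natCast_eq_zero_iff]
      exact Nat.dvd_iff_mod_eq_zero
    by_cases hm : m % 2 = 0
    · rw [if_pos hm, hz, hm]
    · rw [if_neg hm, Ne, hz]
      omega
  have hval : (∑ a with d a % 2 = m % 2, ∏ i ∈ range k, ((2 : ℝ) ^ d a - 2 ^ i)) =
      if m % 2 = 0 then (ev δ κ lam k B : ℝ) else (od δ κ lam k B : ℝ) := by
    have e1 : (∑ a with d a % 2 = m % 2, ∏ i ∈ range k, ((2 : ℝ) ^ d a - 2 ^ i)) =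
        ∑ a with d a % 2 = m % 2, (fm δ κ lam k (B, a) : ℝ) :=
      sum_congr rfl fun a _ => (fm_cast δ κ lam k (B, a) (hd a)).symm
    rw [e1]
    by_cases hm : m % 2 = 0
    · rw [if_pos hm]
      unfold ev
      rw [Nat.cast_sum]
      refine sum_congr ?_ fun a _ => rfl
      ext a
      rw [mem_filter, mem_filter, hcase, if_pos hm]
    · rw [if_neg hm]
      unfold od
      rw [Nat.cast_sum]
      refine sum_congr ?_ fun a _ => rfl
      ext a
      rw [mem_filter, mem_filter, hcase, if_neg hm]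
  rw [hval, abs_le]
  split_ifs
  · constructor
    · linarith [h1.1, h1.2]
    · linarith [h1.1, h1.2]
  · constructor
    · linarith [h1.1, h1.2]
    · linarith [h1.1, h1.2]

theorem t_CONF (hNG : S_NG) (hGN : S_GN) (hGD : S_GD) (hCT : S_CT) (hSG : S_SG) (hIN : S_IN)
    (hLAW : S_LAW) (hNUM : S_NUM) : S_CONF := by
  classical
  intro ε hε
  obtain ⟨-, -, -, hF01, hFlim⟩ := hNUM
  obtain ⟨m0, hm0⟩ := eventually_atTop.1 (hFlim.eventually (lt_mem_nhds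
    (show (1 : ℝ) - ε / 2 < 1 by linarith)))
  have hm0' := hm0 m0 le_rfl
  obtain ⟨ε1, hε1⟩ : ∃ ε1 : ℝ, ε1 = ε / (2 * (m0 + 1)) := ⟨_, rfl⟩
  have hε10 : 0 < ε1 := by rw [hε1]; positivity
  have hε1m : (m0 + 1) * ε1 = ε / 2 := by
    rw [hε1]
    field_simp
  choose K η hη hL using fun m : ℕ => hLAW m ε1 hε10
  obtain ⟨K0, hK0⟩ : ∃ K0 : ℕ, ∀ m ≤ m0, K m ≤ K0 := by
    refine ⟨(range (m0 + 1)).sup K, fun m hm => ?_⟩
    exact le_sup (f := K) (mem_range.2 (Nat.lt_succ_of_le hm))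
  obtain ⟨η0, hη0, hη0'⟩ : ∃ η0 : ℝ, 0 < η0 ∧ ∀ m ≤ m0, η0 ≤ η m := by
    have hne : (range (m0 + 1)).Nonempty := ⟨0, mem_range.2 (Nat.succ_pos _)⟩
    refine ⟨(range (m0 + 1)).inf' hne η, ?_, fun m hm => ?_⟩
    · exact (lt_inf'_iff hne).2 fun m _ => hη m
    · exact inf'_le _ (mem_range.2 (Nat.lt_succ_of_le hm))
  obtain ⟨ε2, hε2⟩ : ∃ ε2 : ℝ, ε2 = min η0 (ε / (4 * (K0 + 1))) := ⟨_, rfl⟩
  have hε20 : 0 < ε2 := by rw [hε2]; exact lt_min hη0 (by positivity)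
  choose r1 hr1 using fun k : ℕ => almost hNG hGN hGD hCT hIN k hε20
  obtain ⟨r0, hr0⟩ : ∃ r0 : ℕ, ∀ k ≤ K0, r1 k ≤ r0 := by
    refine ⟨(range (K0 + 1)).sup r1, fun k hk => ?_⟩
    exact le_sup (f := r1) (mem_range.2 (Nat.lt_succ_of_le hk))
  refine ⟨r0, fun r hr δ hδ => ?_⟩
  have hal : ∀ (k : ℕ) (t : ZMod 2 × ZMod 2), ∃ Bad : Set (Bm r), k ≤ K0 →
      ((Bad.ncard : ℝ) ≤ ε2 * (Nat.card (Bm r) : ℝ) ∧
      ∀ B : Bm r, B ∉ Bad → |(YY δ t.1 t.2 k B : ℝ) - Tk k * 4 ^ r| ≤ ε2 * 4 ^ r ∧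
        (ZZ δ t.1 t.2 k B : ℝ) ≤ ε2 * 4 ^ r) := by
    intro k t
    by_cases hk : k ≤ K0
    · obtain ⟨Bad, h⟩ := hr1 k r ((hr0 k hk).trans hr) δ hδ t.1 t.2
      exact ⟨Bad, fun _ => h⟩
    · exact ⟨∅, fun h => absurd h hk⟩
  choose Bad hBad using hal
  obtain ⟨Bf, hBf⟩ : ∃ Bf : ℕ → ZMod 2 × ZMod 2 → Finset (Bm r), ∀ k t, (Bf k t : Set _) = Bad k t :=
    ⟨fun k t => (Set.toFinite (Bad k t)).toFinset, fun k t => Set.Finite.coe_toFinset _⟩
  refine ⟨(((range (K0 + 1) ×ˢ univ).biUnion fun z : ℕ × (ZMod 2 × ZMod 2) => Bf z.1 z.2 :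
    Finset (Bm r)) : Set (Bm r)), ?_, ?_⟩
  · rw [Set.ncard_coe_finset]
    have h1 : (((range (K0 + 1) ×ˢ univ).biUnion
        fun z : ℕ × (ZMod 2 × ZMod 2) => Bf z.1 z.2).card : ℝ) ≤
        ∑ z ∈ range (K0 + 1) ×ˢ (univ : Finset (ZMod 2 × ZMod 2)), ((Bf z.1 z.2).card : ℝ) := by
      exact_mod_cast card_biUnion_le
    have h2 : ∑ z ∈ range (K0 + 1) ×ˢ (univ : Finset (ZMod 2 × ZMod 2)),
        ((Bf z.1 z.2).card : ℝ) ≤
        ∑ z ∈ range (K0 + 1) ×ˢ (univ : Finset (ZMod 2 × ZMod 2)),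
          ε2 * (Nat.card (Bm r) : ℝ) := by
      refine sum_le_sum fun z hz => ?_
      rw [mem_product, mem_range] at hz
      have h3 := (hBad z.1 z.2 (Nat.le_of_lt_succ hz.1)).1
      rw [← hBf, Set.ncard_coe_finset] at h3
      exact h3
    refine h1.trans (h2.trans ?_)
    rw [sum_const, card_product, card_range, card_univ, Fintype.card_prod, ZMod.card,
      nsmul_eq_mul]
    have h4 : ε2 ≤ ε / (4 * (K0 + 1)) := by rw [hε2]; exact min_le_right _ _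
    have h5 : ((((K0 + 1) * (2 * 2) : ℕ)) : ℝ) * ε2 ≤ ε := by
      have h6 : ((((K0 + 1) * (2 * 2) : ℕ)) : ℝ) = ((K0 : ℝ) + 1) * 4 := by
        push_cast
        ring
      rw [h6]
      calc ((K0 : ℝ) + 1) * 4 * ε2 ≤ ((K0 : ℝ) + 1) * 4 * (ε / (4 * (K0 + 1))) :=
            mul_le_mul_of_nonneg_left h4 (by positivity)
        _ = ε := by
            field_simp
    rw [← mul_assoc]
    exact mul_le_mul_of_nonneg_right h5 (Nat.cast_nonneg _)
  · intro B hB κ lam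
    have hB' : ∀ k ≤ K0, |(YY δ κ lam k B : ℝ) - Tk k * 4 ^ r| ≤ ε2 * 4 ^ r ∧
        (ZZ δ κ lam k B : ℝ) ≤ ε2 * 4 ^ r := by
      intro k hk
      apply (hBad k (κ, lam) hk).2 B
      intro h
      apply hB
      rw [mem_coe, mem_biUnion]
      refine ⟨(k, (κ, lam)), mem_product.2 ⟨mem_range.2 (Nat.lt_succ_of_le hk), mem_univ _⟩, ?_⟩
      rw [← hBf] at h
      exact h
    choose d hd hd2 using fun p : Fin r → V 2 2 => Pool.Agent.D0H52.OD.ppar δ hδ κ lam (B, p)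
    have hcardM : (Nat.card (Fin r → V 2 2) : ℝ) = (Fintype.card (Fin r → V 2 2) : ℝ) := by
      rw [Nat.card_eq_fintype_card]
    have hM0 : (0 : ℝ) ≤ (Fintype.card (Fin r → V 2 2) : ℝ) := Nat.cast_nonneg _
    have hone : ∀ m ≤ m0, (aa m - ε1) * (Fintype.card (Fin r → V 2 2) : ℝ) ≤
        ({p : Fin r → V 2 2 | d p = m}.ncard : ℝ) := by
      intro m hm
      apply hL m (Fin r → V 2 2) d
      intro k hk
      refine (one_matrix hSG hIN δ hδ κ lam B hB' d hd hd2 m k (hk.trans (hK0 m hm))).trans ?_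
      apply mul_le_mul_of_nonneg_right _ hM0
      have : ε2 ≤ η0 := by rw [hε2]; exact min_le_left _ _
      exact this.trans (hη0' m hm)
    have hset : ∀ m, {p : Fin r → V 2 2 | nsolP δ κ lam (B, p) ≤ 2 ^ m} = {p | d p ≤ m} := by
      intro m
      ext p
      rw [Set.mem_setOf_eq, Set.mem_setOf_eq, hd p]
      exact Nat.pow_le_pow_iff_right (by norm_num)
    have hsm : ∀ m ≤ m0, (FF m - ε / 2) * (Fintype.card (Fin r → V 2 2) : ℝ) ≤
        ({p : Fin r → V 2 2 | d p ≤ m}.ncard : ℝ) := by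
      intro m hm
      have h1 : {p : Fin r → V 2 2 | d p ≤ m}.ncard =
          ∑ j ∈ range (m + 1), {p : Fin r → V 2 2 | d p = j}.ncard := by
        have e1 : {p : Fin r → V 2 2 | d p ≤ m} =
            ((univ.filter fun p : Fin r → V 2 2 => d p ≤ m : Finset _) : Set _) := by
          ext p
          simp
        rw [e1, Set.ncard_coe_finset,
          card_eq_sum_card_fiberwise (f := d) (t := range (m + 1)) (fun p hp => by
            have := (mem_filter.1 hp).2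
            exact mem_coe.2 (mem_range.2 (Nat.lt_succ_of_le this)))]
        refine sum_congr rfl fun j hj => ?_
        rw [filter_filter, ← Set.ncard_coe_finset]
        congr 1
        ext p
        rw [mem_coe, mem_filter, Set.mem_setOf_eq]
        have := mem_range.1 hj
        constructor
        · rintro ⟨-, -, h⟩
          exact h
        · intro h
          exact ⟨mem_univ _, by omega, h⟩
      rw [h1, FF_eq, Nat.cast_sum]
      have h2 : ∑ j ∈ range (m + 1), (aa j - ε1) * (Fintype.card (Fin r → V 2 2) : ℝ) ≤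
          ∑ j ∈ range (m + 1), ({p : Fin r → V 2 2 | d p = j}.ncard : ℝ) :=
        sum_le_sum fun j hj => hone j ((Nat.le_of_lt_succ (mem_range.1 hj)).trans hm)
      refine le_trans ?_ h2
      rw [← sum_mul]
      apply mul_le_mul_of_nonneg_right _ hM0
      rw [sum_sub_distrib, sum_const, card_range, nsmul_eq_mul]
      have h3 : ((m + 1 : ℕ) : ℝ) * ε1 ≤ ε / 2 := by
        rw [← hε1m]
        apply mul_le_mul_of_nonneg_right _ hε10.le
        push_cast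
        have : (m : ℝ) ≤ m0 := by exact_mod_cast hm
        linarith
      linarith
    intro m
    rw [hset, hcardM]
    rcases le_total m m0 with hm | hm
    · refine le_trans ?_ (hsm m hm)
      apply mul_le_mul_of_nonneg_right _ hM0
      linarith
    · have h1 : ({p : Fin r → V 2 2 | d p ≤ m0}.ncard : ℝ) ≤
          ({p : Fin r → V 2 2 | d p ≤ m}.ncard : ℝ) := by
        exact_mod_cast Set.ncard_le_ncard (fun p (hp : d p ≤ m0) => hp.trans hm) (Set.toFinite _)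
      refine le_trans ?_ ((hsm m0 le_rfl).trans h1)
      apply mul_le_mul_of_nonneg_right _ hM0
      have := (hF01 m).2
      linarith

end Pool.Agent.D0H99.OD
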