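import Pool.Agent.D0H99.OD.Stm2
import Pool.Agent.D0H41.OD.Eqd

/-!
Project OD, module EQM: the symbols of random primes of different degrees, any number of nodes (adapted
from `Pool.Agent.D0H41.OD.Eqd`).
-/

set_option autoImplicit false
set_option linter.all false

open Polynomial

namespace Pool.Agent.D0H99.OD.Eqm

open Finset
open Pool.Agent.Y164.SZ
open Pool.Agent.Y164.PS (Fam Pr mem_Pr card_Pr_ge)
open Pool.Agent.D0H99.FT (count_one)
open Pool.Agent.D0H99.RM (V X sy)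
open Pool.Agent.D0H99.OD
open Pool.Agent.D0H41.OD (pr_ge)

section
variable {k : Type} [Field k] [Fintype k] [DecidableEq k]

open Classical in
/-- the extensions of a tuple -/
noncomputable def exM {κ : Type} (P : κ → k[X]) {r : ℕ} (n : ℕ) (b : Fin r → ZMod 2)
    (q : κ → ZMod 2) (d : Fin r → k[X]) : Finset k[X] :=
  (Pr k n).filter fun x => (∀ y, Sum.elim d P y ≠ x) ∧
    ∀ y, L 2 (Sum.elim d P y) x = Sum.elim b q y

theorem mem_exM {κ : Type} {P : κ → k[X]} {r n : ℕ} {b : Fin r → ZMod 2}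
    {q : κ → ZMod 2} {d : Fin r → k[X]} {x : k[X]} : x ∈ exM P n b q d ↔
      x ∈ Pr k n ∧ (∀ y, Sum.elim d P y ≠ x) ∧
        ∀ y, L 2 (Sum.elim d P y) x = Sum.elim b q y := by
  classical
  rw [exM, mem_filter]

theorem mem_ptM' {κ : Type} {P : κ → k[X]} {r : ℕ} {n : Fin r → ℕ} {A : Fin r → Fin r → ZMod 2}
    {p : Fin r → κ → ZMod 2} {d : Fin r → k[X]} : d ∈ PtM P n A p ↔
      (∀ i, d i ∈ Pr k (n i)) ∧
        (∀ i s, L 2 (P s) (d i) = p i s) ∧ ∀ i j, i ≠ j → L 2 (d j) (d i) = A i j := by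
  classical
  rw [PtM, mem_filter, Fintype.mem_piFinset]

/-- the number of the extensions of a tuple -/
theorem ex_card (S : SYM 2 k) (hk : ringChar k ≠ 2) {κ : Type} [Fintype κ] {N : ℕ}
    (hN1 : 1 ≤ N) {P : κ → k[X]}
    (hPm : ∀ s, (P s).Monic) (hPi : ∀ s, Irreducible (P s)) (hPinj : Function.Injective P)
    (hPd : ∀ s, (P s).natDegree ≤ N) {r : ℕ} {n : Fin r → ℕ} (hn : StrictAnti n)
    (hN : ∀ i, N < n i) {M : ℕ} (hM : ∀ i, n i < M) (hM1 : 1 ≤ M)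
    (h4 : 4 ≤ (Real.sqrt (Fintype.card k)) ^ M) (b : Fin r → ZMod 2) (q : κ → ZMod 2)
    {d : Fin r → k[X]} (hd : ∀ i, d i ∈ Pr k (n i)) :
    1 / (2 : ℝ) ^ (r + Fintype.card κ) * ((Pr k M).card : ℝ) * (1 - (2 : ℝ) ^ (r + 1) *
        ((2 : ℝ) ^ Fintype.card κ * (20 + 20 * (Fintype.card κ : ℝ) * (N : ℝ)) * (M : ℝ) ^ 3 /
          (Real.sqrt (Fintype.card k)) ^ M)) ≤
      ((exM P M b q d).card : ℝ) := by
  classical
  have hd5 : ∀ i, (d i).Monic ∧ Irreducible (d i) ∧ (d i).natDegree = n i := fun i =>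
    mem_Pr.1 (hd i)
  have hR : Fam (Sum.elim d P) := by
    refine ⟨?_, ?_, ?_⟩
    · rintro (x | a)
      · exact (hd5 x).1
      · exact hPm a
    · rintro (x | a)
      · exact (hd5 x).2.1
      · exact hPi a
    · refine Function.Injective.sumElim (fun i j h => ?_) hPinj ?_
      · apply hn.injective
        rw [← (hd5 i).2.2, ← (hd5 j).2.2, h]
      · intro x a h
        have h1 := hN x
        have h2 := hPd a
        rw [← h, (hd5 x).2.2] at h2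
        omega
  have hr : r ≤ M := by
    have h1 : Function.Injective fun i : Fin r => (⟨n i, hM i⟩ : Fin M) := fun i j h =>
      hn.injective (congrArg Fin.val h)
    have h2 := Fintype.card_le_of_injective _ h1
    rwa [Fintype.card_fin, Fintype.card_fin] at h2
  have hW : ∑ x, ((Sum.elim d P x).natDegree) ≤ M * M + Fintype.card κ * N := by
    rw [Fintype.sum_sum_type]
    simp only [Sum.elim_inl, Sum.elim_inr]
    have h0 : ∑ a, (P a).natDegree ≤ ∑ _a : κ, N := sum_le_sum fun a _ => hPd a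
    rw [sum_const, card_univ, smul_eq_mul] at h0
    have h1 : ∑ i, (d i).natDegree ≤ ∑ _i : Fin r, M := sum_le_sum fun i _ => by
      rw [(hd5 i).2.2]
      exact (hM i).le
    rw [sum_const, card_univ, Fintype.card_fin, smul_eq_mul] at h1
    have h2 : r * M ≤ M * M := Nat.mul_le_mul_right _ hr
    omega
  have h1 := count_one S hR (Sum.elim b q) hM1 hW
  have h2 : (Fintype.card (Fin r ⊕ κ → ZMod 2) : ℝ) = (2 : ℝ) ^ (r + Fintype.card κ) := by
    rw [Fintype.card_fun, ZMod.card, Fintype.card_sum, Fintype.card_fin, Nat.cast_pow]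
    norm_num
  have h3 : (Fintype.card (Fin r ⊕ κ) : ℝ) = (r : ℝ) + (Fintype.card κ : ℝ) := by
    rw [Fintype.card_sum, Fintype.card_fin]
    push_cast
    ring
  rw [h2, h3] at h1
  have h5 : ((exM P M b q d).card : ℝ) = (((Pr k M).filter fun x => (∀ y, Sum.elim d P y ≠ x) ∧
      ∀ y, L 2 (Sum.elim d P y) x = Sum.elim b q y).card : ℝ) := by
    congr 2
    ext x
    rw [mem_exM, mem_filter]
  rw [h5]
  refine le_trans ?_ h1
  obtain ⟨m, hm⟩ : ∃ m : ℕ, m = Fintype.card κ := ⟨_, rfl⟩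
  rw [← hm]
  have h6 := pr_ge (k := k) hk hM1 h4
  obtain ⟨t, ht⟩ : ∃ t, t = (Real.sqrt (Fintype.card k)) ^ M := ⟨_, rfl⟩
  obtain ⟨c, hc⟩ : ∃ c : ℝ, c = ((Pr k M).card : ℝ) := ⟨_, rfl⟩
  rw [← ht, ← hc] at h6 ⊢
  rw [← ht] at h4
  have ht0 : 0 < t := by linarith
  have hMr : (1 : ℝ) ≤ M := by exact_mod_cast hM1
  have hN0 : (0 : ℝ) ≤ N := Nat.cast_nonneg _
  have hrM : (r : ℝ) ≤ M := by exact_mod_cast hr
  have hm0 : (0 : ℝ) ≤ m := Nat.cast_nonneg _
  have hN1r : (1 : ℝ) ≤ N := by exact_mod_cast hN1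
  have hpow : (1 : ℝ) / (2 : ℝ) ^ (r + m) * c * (1 - (2 : ℝ) ^ (r + 1) *
      ((2 : ℝ) ^ m * (20 + 20 * (m : ℝ) * (N : ℝ)) * (M : ℝ) ^ 3 / t)) =
      c / (2 : ℝ) ^ (r + m) - c * ((40 + 40 * (m : ℝ) * (N : ℝ)) * (M : ℝ) ^ 3) / t := by
    have e1 : (2 : ℝ) ^ (r + m) = (2 : ℝ) ^ r * (2 : ℝ) ^ m := pow_add _ _ _
    have e2 : (2 : ℝ) ^ (r + 1) = 2 * (2 : ℝ) ^ r := by ring
    rw [e1, e2]
    field_simp
    ring
  rw [hpow]
  have h7 : t * ((20 + 20 * (m : ℝ) * (N : ℝ)) * (M : ℝ) ^ 2) ≤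
      c * ((40 + 40 * (m : ℝ) * (N : ℝ)) * (M : ℝ) ^ 3) / t := by
    rw [le_div_iff₀ (by positivity)]
    have h8 := mul_le_mul_of_nonneg_right h6
      (by positivity : (0 : ℝ) ≤ (20 + 20 * (m : ℝ) * (N : ℝ)) * (M : ℝ) ^ 2)
    calc t * ((20 + 20 * (m : ℝ) * (N : ℝ)) * (M : ℝ) ^ 2) * t =
          t * t * ((20 + 20 * (m : ℝ) * (N : ℝ)) * (M : ℝ) ^ 2) := by ring
      _ ≤ 2 * M * c * ((20 + 20 * (m : ℝ) * (N : ℝ)) * (M : ℝ) ^ 2) := h8
      _ = c * ((40 + 40 * (m : ℝ) * (N : ℝ)) * (M : ℝ) ^ 3) := by ring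
  have h9 : (5 * ((2 * (M * M + m * N) : ℕ) : ℝ) + 2) * t + ((r : ℝ) + m) ≤
      t * ((20 + 20 * (m : ℝ) * (N : ℝ)) * (M : ℝ) ^ 2) := by
    push_cast
    have hM2 : (1 : ℝ) ≤ (M : ℝ) ^ 2 := one_le_pow₀ hMr
    have e0 : (m : ℝ) ≤ m * N := le_mul_of_one_le_right hm0 hN1r
    have hmN : (0 : ℝ) ≤ m * N := by positivity
    have e1 : (r : ℝ) ≤ t * ((M : ℝ) ^ 2) := by nlinarith
    have e2 : (m : ℝ) * N ≤ (m * N) * (M : ℝ) ^ 2 := le_mul_of_one_le_right hmN hM2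
    have e4 : (m : ℝ) ≤ t * ((m * N) * (M : ℝ) ^ 2) := by
      have : (1 : ℝ) * ((m * N) * (M : ℝ) ^ 2) ≤ t * ((m * N) * (M : ℝ) ^ 2) :=
        mul_le_mul_of_nonneg_right (by linarith) (by positivity)
      linarith
    have e3 : (5 * (2 * ((M : ℝ) * M + m * N)) + 2) * t ≤
        t * (12 * (M : ℝ) ^ 2 + 10 * ((m * N) * (M : ℝ) ^ 2)) := by
      rw [mul_comm _ t]
      apply mul_le_mul_of_nonneg_left _ ht0.le
      nlinarith
    have e5 : t * ((20 + 20 * (m : ℝ) * (N : ℝ)) * (M : ℝ) ^ 2) =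
        t * (12 * (M : ℝ) ^ 2 + 10 * ((m * N) * (M : ℝ) ^ 2)) + t * ((M : ℝ) ^ 2) +
          t * ((m * N) * (M : ℝ) ^ 2) + t * (7 * (M : ℝ) ^ 2 + 9 * ((m * N) * (M : ℝ) ^ 2)) := by
      ring
    rw [e5]
    have e6 : 0 ≤ t * (7 * (M : ℝ) ^ 2 + 9 * ((m * N) * (M : ℝ) ^ 2)) := by positivity
    linarith
  linarith

theorem step (S : SYM0 2 k) {κ : Type} {P : κ → k[X]} {r : ℕ} (n : Fin (r + 1) → ℕ)
    (A : Fin (r + 1) → Fin (r + 1) → ZMod 2) (hA : ∀ i j, A i j = A j i)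
    (p : Fin (r + 1) → κ → ZMod 2) :
    ∑ d ∈ PtM P (fun i => n i.succ) (fun i j => A i.succ j.succ) (fun i => p i.succ),
      (exM P (n 0) (fun i => A 0 i.succ) (p 0) d).card ≤ (PtM P n A p).card := by
  classical
  rw [← card_sigma]
  refine card_le_card_of_injOn (fun x => (Fin.cons x.2 x.1 : Fin (r + 1) → k[X])) ?_ ?_
  · rintro ⟨d, x⟩ hx
    rw [mem_coe, mem_sigma] at hx
    obtain ⟨hd, hx⟩ := hx
    simp only at hd hx
    rw [mem_ptM'] at hd
    rw [mem_exM] at hx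
    obtain ⟨hd1, hd3, hd4⟩ := hd
    obtain ⟨hx1, hx2, hx3⟩ := hx
    have hx4 : ∀ i, L 2 (d i) x = A 0 i.succ := fun i => hx3 (Sum.inl i)
    have hx5 : ∀ s, L 2 (P s) x = p 0 s := fun s => hx3 (Sum.inr s)
    rw [mem_coe, mem_ptM']
    refine ⟨fun i => ?_, fun i s => ?_, fun i j hij => ?_⟩
    · refine Fin.cases ?_ (fun i => ?_) i
      · exact hx1
      · exact hd1 i
    · rcases Fin.eq_zero_or_eq_succ i with rfl | ⟨i, rfl⟩
      · exact hx5 s
      · exact hd3 i s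
    · rcases Fin.eq_zero_or_eq_succ i with rfl | ⟨i, rfl⟩ <;>
        rcases Fin.eq_zero_or_eq_succ j with rfl | ⟨j, rfl⟩
      · exact absurd rfl hij
      · simp only [Fin.cons_zero, Fin.cons_succ]
        exact hx4 j
      · simp only [Fin.cons_zero, Fin.cons_succ]
        rw [S.L_comm, hA]
        exact hx4 i
      · simp only [Fin.cons_succ]
        exact hd4 i j fun h => hij (congrArg Fin.succ h)
  · rintro ⟨d, x⟩ _ ⟨d', x'⟩ _ h
    simp only at h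
    have h1 := Fin.cons_injective2 h
    obtain ⟨h2, h3⟩ := h1
    rw [h2, h3]

end

theorem card_B (r : ℕ) : (Nat.card (Bm (r + 1)) : ℝ) = (Nat.card (Bm r) : ℝ) * 2 ^ r := by
  rw [Nat.card_eq_fintype_card, Nat.card_eq_fintype_card, Fintype.card_pi, Fintype.card_pi,
    Fin.prod_univ_castSucc]
  simp only [Fintype.card_fun, ZMod.card, Fintype.card_fin, Fin.val_castSucc, Fin.val_last]
  push_cast
  rfl

theorem card_p (κ : Type) [Fintype κ] (r : ℕ) : (Nat.card (Fin (r + 1) → κ → ZMod 2) : ℝ) =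
    (Nat.card (Fin r → κ → ZMod 2) : ℝ) * 2 ^ Fintype.card κ := by
  classical
  have h : Fintype.card (κ → ZMod 2) = 2 ^ Fintype.card κ := by rw [Fintype.card_fun, ZMod.card]
  have h1 : ∀ s : ℕ, Fintype.card (Fin s → κ → ZMod 2) = (2 ^ Fintype.card κ) ^ s := fun s => by
    rw [Fintype.card_fun, Fintype.card_fin, h]
  rw [Nat.card_eq_fintype_card, Nat.card_eq_fintype_card, h1, h1]
  push_cast
  rw [pow_succ]

theorem t_EQM : S_EQM := by
  intro k _ _ _ S hk κ _ N P hN1 hPm hPi hPinj hPd r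
  obtain ⟨CCm, hCC⟩ : ∃ z : ℝ, z = (2 : ℝ) ^ Fintype.card κ *
    (20 + 20 * (Fintype.card κ : ℝ) * (N : ℝ)) := ⟨_, rfl⟩
  have hCC0 : 0 ≤ CCm := by rw [hCC]; positivity
  rw [← hCC]
  induction r with
  | zero =>
    intro n _ _ _ A p _
    have h1 : (PtM P n A p).card = 1 := by
      rw [card_eq_one]
      refine ⟨fun i => i.elim0, ?_⟩
      ext d
      rw [mem_ptM', mem_singleton]
      constructor
      · intro _
        funext i
        exact i.elim0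
      · intro _
        exact ⟨fun i => i.elim0, fun i => i.elim0, fun i => i.elim0⟩
    rw [h1, Fin.prod_univ_zero, Fin.sum_univ_zero, mul_one, Nat.cast_one, sub_zero, mul_one]
    have h2 : Nat.card (Bm 0) = 1 := by
      rw [Nat.card_eq_fintype_card, Fintype.card_pi, Fin.prod_univ_zero]
    have h3 : Nat.card (Fin 0 → κ → ZMod 2) = 1 := by
      rw [Nat.card_eq_one_iff_unique]
      exact ⟨inferInstance, inferInstance⟩
    rw [h2, h3]
    norm_num
  | succ r ih =>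
    intro n hn hnN hn4 A p hA
    have hanti : StrictAnti fun i : Fin r => n i.succ := fun i j hij =>
      hn (Fin.succ_lt_succ_iff.2 hij)
    have h1 := ih (fun i => n i.succ) hanti (fun i => hnN _) (fun i => hn4 _)
      (fun i j => A i.succ j.succ) (fun i => p i.succ) fun i j => hA _ _
    have h2 := step S.toSYM0 (P := P) n A hA p
    obtain ⟨G, hG⟩ : ∃ G, G = PtM P (fun i => n i.succ) (fun i j => A i.succ j.succ)
      (fun i => p i.succ) := ⟨_, rfl⟩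
    have hM : ∀ i : Fin r, n i.succ < n 0 := fun i => hn (Fin.succ_pos i)
    have hM1 : 1 ≤ n 0 := by
      have := hnN 0
      omega
    obtain ⟨c, hc⟩ : ∃ c : ℝ, c = ((Pr k (n 0)).card : ℝ) := ⟨_, rfl⟩
    obtain ⟨E, hE⟩ : ∃ E : ℝ, E = (2 : ℝ) ^ (r + 1) *
        (CCm * (n 0 : ℝ) ^ 3 / (Real.sqrt (Fintype.card k)) ^ n 0) := ⟨_, rfl⟩
    have h3 : (G.card : ℝ) * (1 / (2 : ℝ) ^ (r + Fintype.card κ) * c * (1 - E)) ≤
        ((PtM P n A p).card : ℝ) := by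
      have h6 : ((∑ d ∈ G, (exM P (n 0) (fun i => A 0 i.succ) (p 0) d).card : ℕ) : ℝ) ≤
          ((PtM P n A p).card : ℝ) := by
        rw [hG]
        exact_mod_cast h2
      refine le_trans ?_ h6
      rw [Nat.cast_sum, ← nsmul_eq_mul, ← sum_const]
      refine sum_le_sum fun d hd => ?_
      rw [hG, mem_ptM'] at hd
      rw [hc, hE, hCC]
      exact ex_card S hk hN1 hPm hPi hPinj hPd hanti (fun i => hnN _) hM hM1 (hn4 0) _ _ hd.1
    rw [← hG] at h1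
    have hE0 : 0 ≤ E := by rw [hE]; positivity
    obtain ⟨T, hT⟩ : ∃ T : ℝ, T = ∑ i : Fin r, (2 : ℝ) ^ (r - (i : ℕ)) *
      (CCm * (n i.succ : ℝ) ^ 3 / (Real.sqrt (Fintype.card k)) ^ n i.succ) :=
      ⟨_, rfl⟩
    have hT0 : 0 ≤ T := by
      rw [hT]
      exact sum_nonneg fun i _ => by positivity
    obtain ⟨Q, hQ⟩ : ∃ Q : ℝ, Q = ∏ i : Fin r, ((Pr k (n i.succ)).card : ℝ) := ⟨_, rfl⟩
    have hQ0 : 0 ≤ Q := by
      rw [hQ]
      exact prod_nonneg fun i _ => Nat.cast_nonneg _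
    have hsum : ∑ i : Fin (r + 1), (2 : ℝ) ^ (r + 1 - (i : ℕ)) *
      (CCm * (n i : ℝ) ^ 3 / (Real.sqrt (Fintype.card k)) ^ n i) = E + T := by
      rw [Fin.sum_univ_succ, hE, hT]
      congr 1
      refine sum_congr rfl fun i _ => ?_
      have e1 : r + 1 - ((Fin.succ i : Fin (r + 1)) : ℕ) = r - (i : ℕ) := by
        rw [Fin.val_succ]
        omega
      rw [e1]
    obtain ⟨Y, hY⟩ : ∃ Y : ℝ, Y = (Nat.card (Bm r) : ℝ) *
      (Nat.card (Fin r → κ → ZMod 2) : ℝ) := ⟨_, rfl⟩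
    have hYY : (Nat.card (Bm (r + 1)) : ℝ) * (Nat.card (Fin (r + 1) → κ → ZMod 2) : ℝ) =
        Y * (2 : ℝ) ^ (r + Fintype.card κ) := by
      rw [card_B, card_p, hY, pow_add]
      ring
    have hY0 : 0 < Y := by
      rw [hY]
      have h4 : 0 < Nat.card (Bm r) := Nat.card_pos
      have h5 : 0 < Nat.card (Fin r → κ → ZMod 2) := Nat.card_pos
      have h6 : (0 : ℝ) < Nat.card (Bm r) := by exact_mod_cast h4
      have h7 : (0 : ℝ) < Nat.card (Fin r → κ → ZMod 2) := by exact_mod_cast h5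
      positivity
    rw [hsum, Fin.prod_univ_succ, ← hQ, ← hc, hYY]
    rw [← hT, ← hQ, ← hY] at h1
    have hc0 : 0 ≤ c := by rw [hc]; exact Nat.cast_nonneg _
    have hres : (0 : ℝ) ≤ ((PtM P n A p).card : ℝ) := Nat.cast_nonneg _
    have e1 : 1 / (Y * (2 : ℝ) ^ (r + Fintype.card κ)) =
        1 / Y * (1 / (2 : ℝ) ^ (r + Fintype.card κ)) := by
      rw [one_div_mul_one_div]
    have h10 : 0 ≤ 1 / Y := by positivity
    have h11 : (0 : ℝ) ≤ 1 / (2 : ℝ) ^ (r + Fintype.card κ) := by positivity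
    rw [e1]
    by_cases hcase : 1 - E ≤ 0
    · refine le_trans ?_ hres
      have e2 : 0 ≤ c * Q := mul_nonneg hc0 hQ0
      have e3 : 1 - (E + T) ≤ 0 := by linarith
      nlinarith [mul_nonneg (mul_nonneg (mul_nonneg h10 h11) e2) (neg_nonneg.2 e3)]
    · push Not at hcase
      refine le_trans ?_ h3
      have h8 := mul_le_mul_of_nonneg_right h1
        (by positivity : (0 : ℝ) ≤ 1 / (2 : ℝ) ^ (r + Fintype.card κ) * c * (1 - E))
      refine le_trans ?_ h8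
      have e2 : 0 ≤ 1 / Y * (1 / (2 : ℝ) ^ (r + Fintype.card κ)) * (c * Q) :=
        mul_nonneg (mul_nonneg h10 h11) (mul_nonneg hc0 hQ0)
      have e3 : 0 ≤ T * E := mul_nonneg hT0 hE0
      nlinarith [mul_nonneg e2 e3]

end Pool.Agent.D0H99.OD.Eqm
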