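import Pool.Agent.D0H99.OD.Main

/-!
A positive proportion of all the quadratic twists of even degree has rank zero: the main theorem.
-/

set_option autoImplicit false
set_option linter.all false

open Polynomial IsDedekindDomain WeierstrassCurve Filter

namespace Pool.Agent.D0H99.OD

open Finset
open Pool.Agent.Y164.SZ
open Pool.Agent.Y164.PS (Fam Pr mem_Pr card_Pr_ge)
open Pool.Agent.D0H99.FT (br nu cs zeta_data sym0 chr)
open Pool.Agent.D0H99.RM (V X sy crv cst card_X_pos cst_le sy_symm)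
open Pool.Agent.D0H99.DE (rt rk nodes)

theorem one_sub_le (A : Finset ℕ) (x : ℕ → ℝ) (h0 : ∀ n ∈ A, 0 ≤ x n) (h1 : ∀ n ∈ A, x n ≤ 1) :
    1 - ∑ n ∈ A, x n ≤ ∏ n ∈ A, (1 - x n) := by
  classical
  induction A using Finset.induction_on with
  | empty => simp
  | insert a A ha ih =>
    rw [sum_insert ha, prod_insert ha]
    have h2 := ih (fun n hn => h0 n (mem_insert_of_mem hn)) (fun n hn => h1 n (mem_insert_of_mem hn))
    have h3 : 0 ≤ ∑ n ∈ A, x n := sum_nonneg fun n hn => h0 n (mem_insert_of_mem hn)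
    have h4 := h0 a (mem_insert_self _ _)
    have h5 := h1 a (mem_insert_self _ _)
    have h6 : (1 - x a) * (1 - ∑ n ∈ A, x n) ≤ (1 - x a) * ∏ n ∈ A, (1 - x n) :=
      mul_le_mul_of_nonneg_left h2 (by linarith)
    nlinarith

section
variable {k : Type} [Field k] [Fintype k] [DecidableEq k]

theorem prod_lower (hk : ringChar k ≠ 2) {A : Finset ℕ} {C : ℝ} (hC : 2 ≤ C)
    (hA1 : ∀ n ∈ A, 1 ≤ n) (hA2 : ∀ n ∈ A, 4 ≤ (Real.sqrt (Fintype.card k)) ^ n)
    (hw : wt (Real.sqrt (Fintype.card k)) C A ≤ 1 / 2) :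
    (1 / 2) * ((Fintype.card k : ℝ) ^ (∑ n ∈ A, n) * ∏ n ∈ A, (1 / (n : ℝ))) ≤
      ∏ n ∈ A, ((Pr k n).card : ℝ) := by
  obtain ⟨s, hs⟩ : ∃ s : ℝ, s = Real.sqrt (Fintype.card k) := ⟨_, rfl⟩
  rw [← hs] at hA2 hw
  have hss : s ^ 2 = (Fintype.card k : ℝ) := by
    rw [hs, Real.sq_sqrt (Nat.cast_nonneg _)]
  have hspos : ∀ n ∈ A, 0 < s ^ n := fun n hn => by linarith [hA2 n hn]
  have h1 : ∀ n ∈ A, ((Fintype.card k : ℝ) ^ n * (1 / (n : ℝ))) * (1 - 2 / s ^ n) ≤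
      ((Pr k n).card : ℝ) := by
    intro n hn
    have h2 := card_Pr_ge hk n (hA1 n hn)
    rw [← hs, ← hss] at h2
    have h3 : (0 : ℝ) < n := by exact_mod_cast hA1 n hn
    have h4 := hspos n hn
    rw [← hss]
    have h5 : ((s ^ 2) ^ n * (1 / (n : ℝ))) * (1 - 2 / s ^ n) =
        ((s ^ 2) ^ n - 2 * s ^ n) / n := by
      have h6 : (s ^ 2) ^ n = s ^ n * s ^ n := by rw [← pow_mul, two_mul, pow_add]
      rw [h6]
      field_simp
    rw [h5, div_le_iff₀ h3, mul_comm]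
    linarith
  have h6 : ∀ n ∈ A, (2 / s ^ n) ≤ 1 := by
    intro n hn
    rw [div_le_one (hspos n hn)]
    linarith [hA2 n hn]
  have h7 : ∀ n ∈ A, 0 ≤ 2 / s ^ n := fun n hn => by
    have := hspos n hn
    positivity
  have h8 : ∏ n ∈ A, (((Fintype.card k : ℝ) ^ n * (1 / (n : ℝ))) * (1 - 2 / s ^ n)) ≤
      ∏ n ∈ A, ((Pr k n).card : ℝ) := by
    apply Finset.prod_le_prod
    · intro n hn
      have h9 := h6 n hn
      have : 0 ≤ 1 - 2 / s ^ n := by linarith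
      positivity
    · exact h1
  refine le_trans ?_ h8
  rw [prod_mul_distrib, prod_mul_distrib, prod_pow_eq_pow_sum, mul_comm (1 / 2 : ℝ)]
  apply mul_le_mul_of_nonneg_left
  · refine le_trans ?_ (one_sub_le A (fun n => 2 / s ^ n) h7 h6)
    have h9 : ∑ n ∈ A, 2 / s ^ n ≤ wt s C A := by
      unfold wt
      refine sum_le_sum fun n hn => ?_
      have h10 : (1 : ℝ) ≤ (2 : ℝ) ^ (A.filter fun m => m ≤ n).card := one_le_pow₀ (by norm_num)
      have h11 : (1 : ℝ) ≤ (n : ℝ) ^ 3 := one_le_pow₀ (by exact_mod_cast hA1 n hn)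
      have h12 : 2 / s ^ n ≤ C * (n : ℝ) ^ 3 / s ^ n := by
        apply div_le_div_of_nonneg_right _ (hspos n hn).le
        nlinarith
      have h13 : 0 ≤ C * (n : ℝ) ^ 3 / s ^ n := (h7 n hn).trans h12
      nlinarith
    linarith
  · positivity

end

theorem main (hPER : S_PER) (hCNT : S_CNT) (hEQD : S_EQD) (hFAM : S_FAM) (k : Type) [Field k]
    [Finite k] (h2 : (2 : k) ≠ 0) (hlk : 2 ∣ Nat.card k - 1) (hneg : ∃ z : k, z ^ 2 = -1) (N : ℕ)
    (hN : ¬ 2 ∣ N) {ε : ℝ} (hε : 0 < ε) : ∃ c : ℝ, 0 < c ∧ ∃ D0 : ℕ, ∀ D : ℕ, D0 ≤ D → 2 ∣ D →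
    ∃ S : Finset k[X], (∀ f ∈ S, f.Monic ∧ Squarefree f ∧ f.natDegree = D) ∧
      c * (Nat.card k : ℝ) ^ D ≤ (S.card : ℝ) ∧
      ∀ (g : k[X]) (a b : k), g.natDegree = N → a ≠ b →
      Irreducible (g - C a) → Irreducible (g - C b) → ∀ c0 : k, c0 ≠ 0 →
      (1 / 6 - ε) * (S.card : ℝ) ≤
        (({f ∈ (S : Set k[X]) | rk g a b (C c0 * f) = 0}).ncard : ℝ) ∧
      (7 / 12 - ε) * (S.card : ℝ) ≤
        (({f ∈ (S : Set k[X]) | rk g a b (C c0 * f) ≤ 1}).ncard : ℝ) := by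
  classical
  have hN1 : 1 ≤ N := Nat.pos_of_ne_zero fun h => hN (by rw [h]; exact dvd_zero _)
  obtain ⟨hlk0, ζ, hζ⟩ := zeta_data Nat.prime_two hlk
  letI : Fintype k := Fintype.ofFinite k
  have hchar : ringChar k ≠ 2 := by
    intro h
    apply h2
    have := ringChar.Nat.cast_ringChar (R := k)
    rw [h] at this
    exact_mod_cast this
  have hcard : Nat.card k = Fintype.card k := Nat.card_eq_fintype_card
  rw [hcard] at hlk ⊢
  have S0 : SYM0 2 k := sym0 hneg hlk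
  have S' : SYM 2 k := chr hlk hchar S0
  obtain ⟨s, hs⟩ : ∃ s : ℝ, s = Real.sqrt (Fintype.card k) := ⟨_, rfl⟩
  have hq2 : (2 : ℝ) ≤ Fintype.card k := by exact_mod_cast (Fintype.one_lt_card (α := k))
  have hs1 : 1 < s := by
    rw [hs, Real.lt_sqrt (by norm_num)]
    linarith
  obtain ⟨n1, hn1⟩ := eventually_atTop.1
    ((tendsto_pow_atTop_atTop_of_one_lt hs1).eventually_ge_atTop 4)
  obtain ⟨r0, hr0⟩ := hPER (ε / 2) (half_pos hε)
  obtain ⟨ε', hε'⟩ : ∃ ε' : ℝ, ε' = min (ε / 2) (1 / 2) := ⟨_, rfl⟩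
  have hε0 : 0 < ε' := by rw [hε']; exact lt_min (half_pos hε) (by norm_num)
  obtain ⟨c, hc, D0, hD0⟩ := hCNT s (60 + 80 * (N : ℝ)) ε' hs1 (by positivity) hε0 r0
    (max (N + 1) n1)
  refine ⟨c / 2, half_pos hc, D0, fun D hD hD2 => ?_⟩
  obtain ⟨𝒜, hA, hsum⟩ := hD0 D hD
  have hAN : ∀ A ∈ 𝒜, ∀ n ∈ A, N < n := fun A hA' n hn =>
    Nat.lt_of_succ_le ((le_max_left _ _).trans ((hA A hA').1 n hn))
  have hA4 : ∀ A ∈ 𝒜, ∀ n ∈ A, 4 ≤ s ^ n := fun A hA' n hn =>
    hn1 n ((le_max_right _ _).trans ((hA A hA').1 n hn))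
  have hA1 : ∀ A ∈ 𝒜, ∀ n ∈ A, 1 ≤ n := fun A hA' n hn => by
    have := hAN A hA' n hn
    omega
  obtain ⟨S, hS1, hS2, hS3⟩ := hFAM k 𝒜 hA1
  have hScard : (S.card : ℝ) = ∑ A ∈ 𝒜, ∏ n ∈ A, ((Pr k n).card : ℝ) := by
    rw [hS2]
    push_cast
    rfl
  refine ⟨S, ?_, ?_, ?_⟩
  · intro f hf
    obtain ⟨h3, h4, A, hA', h5⟩ := hS1 f hf
    exact ⟨h3, h4, h5.trans (hA A hA').2.1⟩
  · rw [hScard]
    have h3 : ∀ A ∈ 𝒜, (1 / 2) * ((Fintype.card k : ℝ) ^ D * ∏ n ∈ A, (1 / (n : ℝ))) ≤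
        ∏ n ∈ A, ((Pr k n).card : ℝ) := by
      intro A hA'
      obtain ⟨q1, q2, q3, q4⟩ := hA A hA'
      have h4 := prod_lower hchar (C := 60 + 80 * (N : ℝ)) (by
        have : (0 : ℝ) ≤ N := Nat.cast_nonneg _
        linarith) (hA1 A hA') (by rw [← hs]; exact hA4 A hA') (by
          rw [← hs]
          exact q4.trans (by rw [hε']; exact min_le_right _ _))
      rw [q2] at h4
      exact h4
    refine le_trans ?_ (sum_le_sum h3)
    rw [← mul_sum, ← mul_sum]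
    have h4 : (0 : ℝ) < (Fintype.card k : ℝ) ^ D := by positivity
    nlinarith
  · intro g a b hg hab hga hgb c0 hc0
    obtain ⟨P, hPm, hPi, hPinj, hPd, hP⟩ := nodes hN1 hg ![a, b] (by
      intro i j hij
      fin_cases i <;> fin_cases j
      · rfl
      · exact absurd hij hab
      · exact absurd hij hab.symm
      · rfl) (by
      intro s
      fin_cases s
      · exact hga
      · exact hgb)
    have key : ∀ (ρ : ℝ) (B : ℕ), (∀ A ∈ 𝒜,
        (ρ - ε / 2) * (Nat.card (X 2 2 A.card) : ℝ) ≤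
          (({x : X 2 2 A.card | nsolP (fun i => ((dg A i : ℕ) : ZMod 2))
            (cs 2 (C c0 * g) ![c0 * a, c0 * b] 1 2) (ch 2 (C c0 * g).leadingCoeff) x ≤
              2 ^ B}).ncard : ℝ)) →
        (ρ - ε) * (S.card : ℝ) ≤ ((S.filter fun f => rk g a b (C c0 * f) ≤ B).card : ℝ) := by
      intro ρ B hρ
      have h9 : (S.filter fun f => rk g a b (C c0 * f) ≤ B).card = ∑ A ∈ 𝒜,
          ((Fintype.piFinset fun i : Fin A.card => Pr k (dg A i)).filter
            fun d => rk g a b (C c0 * ∏ i, d i) ≤ B).card := by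
        convert hS3 (fun f => rk g a b (C c0 * f) ≤ B)
      rw [h9, hScard, mul_sum, Nat.cast_sum]
      refine sum_le_sum fun A hA' => ?_
      obtain ⟨q1, q2, q3, q4⟩ := hA A hA'
      refine one_type hEQD S' hchar hN1 hPm hPi hPinj hPd (hAN A hA')
        (by rw [← hs]; exact hA4 A hA') (by
          rw [← hs]
          exact q4.trans (by rw [hε']; exact min_le_left _ _)) (by
          rw [← hs]
          exact q4.trans (by
            rw [hε']
            exact (min_le_right _ _).trans (by norm_num))) _ (hρ A hA')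
        (fun f => rk g a b (C c0 * f) ≤ B) ?_
      intro x hx d hd
      have h3 := rank_bound S0 h2 hneg hN hg hab hPm hPi hPinj hPd hP (dg_anti A)
        (fun i => hAN A hA' _ (dg_mem A i)) (by
          rw [sum_dg A (fun n => (n : ZMod 2)), ← Nat.cast_sum, q2]
          exact (ZMod.natCast_eq_zero_iff _ _).2 hD2) hc0 x hd
      exact (Nat.pow_le_pow_iff_right (by norm_num)).1 (h3.trans hx)
    have hPA : ∀ A ∈ 𝒜, _ := fun A hA' => hr0 A.card (hA A hA').2.2.1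
      (fun i => ((dg A i : ℕ) : ZMod 2)) (by
          rw [sum_dg A (fun n => (n : ZMod 2)), ← Nat.cast_sum, (hA A hA').2.1]
          exact (ZMod.natCast_eq_zero_iff _ _).2 hD2)
      (cs 2 (C c0 * g) ![c0 * a, c0 * b] 1 2) (ch 2 (C c0 * g).leadingCoeff)
    have e : ∀ B : ℕ, {f ∈ (S : Set k[X]) | rk g a b (C c0 * f) ≤ B} =
        ((S.filter fun f => rk g a b (C c0 * f) ≤ B : Finset k[X]) : Set k[X]) := by
      intro B
      ext f
      simp
    constructor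
    · have h3 := key (1 / 6) 0 (fun A hA' => by
        refine (hPA A hA').1.trans ?_
        have : {x : X 2 2 A.card | nsolP (fun i => ((dg A i : ℕ) : ZMod 2))
            (cs 2 (C c0 * g) ![c0 * a, c0 * b] 1 2) (ch 2 (C c0 * g).leadingCoeff) x = 1} ⊆
            {x : X 2 2 A.card | nsolP (fun i => ((dg A i : ℕ) : ZMod 2))
            (cs 2 (C c0 * g) ![c0 * a, c0 * b] 1 2) (ch 2 (C c0 * g).leadingCoeff) x ≤ 2 ^ 0} :=
          fun x hx => (show _ = 1 from hx).le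
        exact_mod_cast Set.ncard_le_ncard this (Set.toFinite _))
      have e0 : {f ∈ (S : Set k[X]) | rk g a b (C c0 * f) = 0} =
          {f ∈ (S : Set k[X]) | rk g a b (C c0 * f) ≤ 0} := by
        ext f
        simp
      rw [e0, e, Set.ncard_coe_finset]
      exact h3
    · have h3 := key (7 / 12) 1 (fun A hA' => (hPA A hA').2)
      rw [e, Set.ncard_coe_finset]
      exact h3

end Pool.Agent.D0H99.OD
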