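import Pool.Agent.D0H99.OD.Joint

/-!
Several curves at the same time: the main theorem.
-/

set_option autoImplicit false
set_option linter.all false

open Polynomial IsDedekindDomain WeierstrassCurve Filter

namespace Pool.Agent.D0H99.OD

open Finset
open Pool.Agent.Y164.SZ
open Pool.Agent.Y164.PS (Fam Pr mem_Pr card_Pr_ge)
open Pool.Agent.D0H99.FT (br nu cs zeta_data sym0 chr)
open Pool.Agent.D0H99.RM (V X sy crv cst card_X_pos cst_le sy_symm)
open Pool.Agent.D0H99.DE (rt rk nodes)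

section
variable {k : Type} [Field k] [Fintype k] [DecidableEq k]

theorem mem_ptM {κ : Type} {P : κ → k[X]} {r : ℕ} {n : Fin r → ℕ} {A : Fin r → Fin r → ZMod 2}
    {p : Fin r → κ → ZMod 2} {d : Fin r → k[X]} : d ∈ PtM P n A p ↔
      (d ∈ Fintype.piFinset fun i : Fin r => Pr k (n i)) ∧
        (∀ i s, L 2 (P s) (d i) = p i s) ∧ ∀ i j, i ≠ j → L 2 (d j) (d i) = A i j := by
  classical
  rw [PtM, mem_filter]

theorem ptM_disj {κ : Type} (P : κ → k[X]) {r : ℕ} (n : Fin r → ℕ)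
    {x y : Bm r × (Fin r → κ → ZMod 2)} (hxy : x ≠ y) :
    Disjoint (PtM P n (sy x.1) x.2) (PtM P n (sy y.1) y.2) := by
  classical
  rw [Finset.disjoint_left]
  intro d hd hd'
  apply hxy
  rw [PtM, mem_filter] at hd hd'
  obtain ⟨-, h1, h3⟩ := hd
  obtain ⟨-, h1', h3'⟩ := hd'
  refine Prod.ext ?_ ?_
  · funext i j
    have hji : (j : ℕ) < i := j.2
    have hjr : (j : ℕ) < r := hji.trans i.2
    have h4 := h3 i ⟨j, hjr⟩ (fun h => by
      have := congrArg Fin.val h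
      simp only at this
      omega)
    have h5 := h3' i ⟨j, hjr⟩ (fun h => by
      have := congrArg Fin.val h
      simp only at this
      omega)
    have h6 : sy x.1 i ⟨j, hjr⟩ = x.1 i j := by
      unfold sy
      rw [dif_pos hji]
    have h7 : sy y.1 i ⟨j, hjr⟩ = y.1 i j := by
      unfold sy
      rw [dif_pos hji]
    rw [← h6, ← h7, ← h4, ← h5]
  · funext i s
    rw [← h1 i s, ← h1' i s]

/-- the constant in the error -/
noncomputable def CC (m N : ℕ) : ℝ := (2 : ℝ) ^ m * (20 + 20 * (m : ℝ) * (N : ℝ))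

theorem CC_ge (m N : ℕ) : 2 ≤ CC m N := by
  unfold CC
  have h1 : (1 : ℝ) ≤ (2 : ℝ) ^ m := one_le_pow₀ (by norm_num)
  have h2 : (0 : ℝ) ≤ (m : ℝ) * (N : ℝ) := by positivity
  nlinarith

/-- proportions in one set of degrees -/
theorem one_typeM (hEQM : S_EQM) (S : SYM 2 k) (hk : ringChar k ≠ 2) {κ : Type} [Fintype κ]
    {N : ℕ} (hN1 : 1 ≤ N) {P : κ → k[X]} (hPm : ∀ s, (P s).Monic)
    (hPi : ∀ s, Irreducible (P s)) (hPinj : Function.Injective P)
    (hPd : ∀ s, (P s).natDegree ≤ N) {A : Finset ℕ}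
    (hA1 : ∀ n ∈ A, N < n) (hA2 : ∀ n ∈ A, 4 ≤ (Real.sqrt (Fintype.card k)) ^ n) {ε ρ : ℝ}
    (hw : wt (Real.sqrt (Fintype.card k)) (CC (Fintype.card κ) N) A ≤ ε / 2)
    (hw1 : wt (Real.sqrt (Fintype.card k)) (CC (Fintype.card κ) N) A ≤ 1)
    (G : Set (Bm A.card × (Fin A.card → κ → ZMod 2)))
    (hG : (ρ - ε / 2) * ((Nat.card (Bm A.card) : ℝ) *
      (Nat.card (Fin A.card → κ → ZMod 2) : ℝ)) ≤ (G.ncard : ℝ)) (R : k[X] → Prop)
    [DecidablePred R]
    (hR : ∀ x ∈ G, ∀ d ∈ PtM P (dg A) (sy x.1) x.2, R (∏ i, d i)) :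
    (ρ - ε) * ∏ n ∈ A, ((Pr k n).card : ℝ) ≤
      (((Fintype.piFinset fun i : Fin A.card => Pr k (dg A i)).filter
        fun d => R (∏ i, d i)).card : ℝ) := by
  classical
  obtain ⟨G', hG'⟩ : ∃ G' : Finset (Bm A.card × (Fin A.card → κ → ZMod 2)),
      (G' : Set _) = G :=
    ⟨(Set.toFinite G).toFinset, Set.Finite.coe_toFinset _⟩
  rw [← hG', Set.ncard_coe_finset] at hG
  obtain ⟨w, hwd⟩ : ∃ w, w = wt (Real.sqrt (Fintype.card k)) (CC (Fintype.card κ) N) A :=
    ⟨_, rfl⟩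
  rw [← hwd] at hw hw1
  obtain ⟨M, hM⟩ : ∃ M : ℝ, M = ∏ n ∈ A, ((Pr k n).card : ℝ) := ⟨_, rfl⟩
  have hM0 : 0 ≤ M := by rw [hM]; exact prod_nonneg fun n _ => Nat.cast_nonneg _
  rw [← hM]
  obtain ⟨Y, hY⟩ : ∃ Y : ℝ, Y = (Nat.card (Bm A.card) : ℝ) *
      (Nat.card (Fin A.card → κ → ZMod 2) : ℝ) := ⟨_, rfl⟩
  rw [← hY] at hG
  have hYc : Y = (Nat.card (Bm A.card × (Fin A.card → κ → ZMod 2)) : ℝ) := by
    rw [hY, Nat.card_prod, Nat.cast_mul]
  have hY0 : 0 < Y := by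
    rw [hYc]
    exact_mod_cast Nat.card_pos
  have h1 : ∀ x : Bm A.card × (Fin A.card → κ → ZMod 2), 1 / Y * (1 - w) * M ≤
      ((PtM P (dg A) (sy x.1) x.2).card : ℝ) := by
    intro x
    have h2 := hEQM k S hk κ N P hN1 hPm hPi hPinj hPd A.card (dg A) (dg_anti A)
      (fun i => hA1 _ (dg_mem A i)) (fun i => hA2 _ (dg_mem A i)) (sy x.1) x.2 (sy_symm x.1)
    have h3 : ∑ i : Fin A.card, (2 : ℝ) ^ (A.card - (i : ℕ)) *
        ((2 : ℝ) ^ Fintype.card κ * (20 + 20 * (Fintype.card κ : ℝ) * (N : ℝ)) *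
          (dg A i : ℝ) ^ 3 / (Real.sqrt (Fintype.card k)) ^ dg A i) = w := by
      rw [hwd, wt_eq]
      rfl
    rw [h3, prod_dg A (fun n => ((Pr k n).card : ℝ)), ← hM, ← hY] at h2
    exact h2
  have hsub : (G'.biUnion fun x => PtM P (dg A) (sy x.1) x.2) ⊆
      ((Fintype.piFinset fun i : Fin A.card => Pr k (dg A i)).filter fun d => R (∏ i, d i)) := by
    intro d hd
    rw [mem_biUnion] at hd
    obtain ⟨x, hx, hd⟩ := hd
    rw [mem_filter]
    refine ⟨?_, hR x (by rw [← hG']; exact hx) d hd⟩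
    exact (mem_ptM.1 hd).1
  have h3 : ((G'.biUnion fun x => PtM P (dg A) (sy x.1) x.2).card : ℝ) ≤
      (((Fintype.piFinset fun i : Fin A.card => Pr k (dg A i)).filter
        fun d => R (∏ i, d i)).card : ℝ) := by
    exact_mod_cast card_le_card hsub
  refine le_trans ?_ h3
  rw [card_biUnion (fun x _ y _ hxy => ptM_disj P (dg A) hxy), Nat.cast_sum]
  have h4 : (G'.card : ℝ) * (1 / Y * (1 - w) * M) ≤
      ∑ x ∈ G', ((PtM P (dg A) (sy x.1) x.2).card : ℝ) := by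
    rw [← nsmul_eq_mul, ← sum_const]
    exact sum_le_sum fun x _ => h1 x
  refine le_trans ?_ h4
  have hGX : (G'.card : ℝ) ≤ Y := by
    rw [hYc, Nat.card_eq_fintype_card]
    exact_mod_cast card_le_univ G'
  obtain ⟨z, hz⟩ : ∃ z : ℝ, z = G'.card / Y := ⟨_, rfl⟩
  have hz1 : ρ - ε / 2 ≤ z := by
    rw [hz, le_div_iff₀ hY0]
    exact hG
  have hz2 : z ≤ 1 := by
    rw [hz, div_le_one hY0]
    exact hGX
  have hz0 : 0 ≤ z := by
    rw [hz]
    positivity
  have h5 : (G'.card : ℝ) * (1 / Y * (1 - w) * M) = (z * (1 - w)) * M := by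
    rw [hz]
    ring
  rw [h5]
  apply mul_le_mul_of_nonneg_right _ hM0
  have hw0 : 0 ≤ w := by
    rw [hwd]
    unfold wt
    have := CC_ge (Fintype.card κ) N
    exact sum_nonneg fun n _ => by positivity
  nlinarith

end

theorem mainJ (hCON : S_CON) (hCNT : S_CNT) (hEQM : S_EQM) (hFAM : S_FAM) (k : Type) [Field k]
    [Finite k] (h2 : (2 : k) ≠ 0) (hlk : 2 ∣ Nat.card k - 1) (hneg : ∃ z : k, z ^ 2 = -1)
    (N n : ℕ) {ε : ℝ} (hε : 0 < ε) : ∃ c : ℝ, 0 < c ∧ ∃ D0 : ℕ, ∀ D : ℕ, D0 ≤ D → 2 ∣ D →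
    ∃ S : Finset k[X], (∀ f ∈ S, f.Monic ∧ Squarefree f ∧ f.natDegree = D) ∧
      c * (Nat.card k : ℝ) ^ D ≤ (S.card : ℝ) ∧
      ∀ (g : Fin n → k[X]) (a b : Fin n → k), (∀ i, ¬ 2 ∣ (g i).natDegree) →
      (∀ i, (g i).natDegree ≤ N) → (∀ i, a i ≠ b i) → (∀ i, Irreducible (g i - C (a i))) →
      (∀ i, Irreducible (g i - C (b i))) →
      (∀ i j x y, (x = a i ∨ x = b i) → (y = a j ∨ y = b j) →
        Associated (g i - C x) (g j - C y) → i = j) →
      ∀ u : Fin n → k, (∀ i, u i ≠ 0) → ∀ J : Finset (Fin n),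
      ((1 / 6) ^ J.card * (7 / 12) ^ (n - J.card) - ε) * (S.card : ℝ) ≤
        (({f ∈ (S : Set k[X]) | ∀ i, rk (g i) (a i) (b i) (C (u i) * f) ≤
          if i ∈ J then 0 else 1}).ncard : ℝ) := by
  classical
  obtain ⟨hlk0, ζ, hζ⟩ := zeta_data Nat.prime_two hlk
  letI : Fintype k := Fintype.ofFinite k
  have hchar : ringChar k ≠ 2 := by
    intro h
    apply h2
    have := ringChar.Nat.cast_ringChar (R := k)
    rw [h] at this
    exact_mod_cast this
  have hcard : Nat.card k = Fintype.card k := Nat.card_eq_fintype_card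
  rw [hcard] at hlk ⊢
  have S0 : SYM0 2 k := sym0 hneg hlk
  have S' : SYM 2 k := chr hlk hchar S0
  obtain ⟨s, hs⟩ : ∃ s : ℝ, s = Real.sqrt (Fintype.card k) := ⟨_, rfl⟩
  have hq2 : (2 : ℝ) ≤ Fintype.card k := by exact_mod_cast (Fintype.one_lt_card (α := k))
  have hs1 : 1 < s := by
    rw [hs, Real.lt_sqrt (by norm_num)]
    linarith
  obtain ⟨n1, hn1⟩ := eventually_atTop.1
    ((tendsto_pow_atTop_atTop_of_one_lt hs1).eventually_ge_atTop 4)
  obtain ⟨r0, hr0⟩ := count_joint hCON n (half_pos hε)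
  obtain ⟨ε', hε'⟩ : ∃ ε' : ℝ, ε' = min (ε / 2) (1 / 2) := ⟨_, rfl⟩
  have hε0 : 0 < ε' := by rw [hε']; exact lt_min (half_pos hε) (by norm_num)
  obtain ⟨m, hm⟩ : ∃ m : ℕ, m = Fintype.card (Fin n × Fin 2) := ⟨_, rfl⟩
  obtain ⟨c, hc, D0, hD0⟩ := hCNT s (CC m (N + 1)) ε' hs1
    (by have := CC_ge m (N + 1); linarith) hε0 r0 (max (N + 2) n1)
  refine ⟨c / 2, half_pos hc, D0, fun D hD hD2 => ?_⟩
  obtain ⟨𝒜, hA, hsum⟩ := hD0 D hD
  have hAN : ∀ A ∈ 𝒜, ∀ n ∈ A, N + 1 < n := fun A hA' n hn =>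
    Nat.lt_of_succ_le ((le_max_left _ _).trans ((hA A hA').1 n hn))
  have hA4 : ∀ A ∈ 𝒜, ∀ n ∈ A, 4 ≤ s ^ n := fun A hA' n hn =>
    hn1 n ((le_max_right _ _).trans ((hA A hA').1 n hn))
  have hA1 : ∀ A ∈ 𝒜, ∀ n ∈ A, 1 ≤ n := fun A hA' n hn => by
    have := hAN A hA' n hn
    omega
  obtain ⟨S, hS1, hS2, hS3⟩ := hFAM k 𝒜 hA1
  have hScard : (S.card : ℝ) = ∑ A ∈ 𝒜, ∏ n ∈ A, ((Pr k n).card : ℝ) := by
    rw [hS2]
    push_cast
    rfl
  refine ⟨S, ?_, ?_, ?_⟩
  · intro f hf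
    obtain ⟨h3, h4, A, hA', h5⟩ := hS1 f hf
    exact ⟨h3, h4, h5.trans (hA A hA').2.1⟩
  · rw [hScard]
    have h3 : ∀ A ∈ 𝒜, (1 / 2) * ((Fintype.card k : ℝ) ^ D * ∏ n ∈ A, (1 / (n : ℝ))) ≤
        ∏ n ∈ A, ((Pr k n).card : ℝ) := by
      intro A hA'
      obtain ⟨q1, q2, q3, q4⟩ := hA A hA'
      have h4 := prod_lower hchar (C := CC m (N + 1)) (CC_ge m (N + 1)) (hA1 A hA')
        (by rw [← hs]; exact hA4 A hA') (by
          rw [← hs]
          exact q4.trans (by rw [hε']; exact min_le_right _ _))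
      rw [q2] at h4
      exact h4
    refine le_trans ?_ (sum_le_sum h3)
    rw [← mul_sum, ← mul_sum]
    have h4 : (0 : ℝ) < (Fintype.card k : ℝ) ^ D := by positivity
    nlinarith
  · intro g a b hodd hdeg hab hga hgb hsep u hu J
    have hpos : ∀ i, 0 < (g i).natDegree := fun i =>
      Nat.pos_of_ne_zero fun h => hodd i (by rw [h]; exact dvd_zero _)
    have hnod := fun i => nodes (hpos i) rfl ![a i, b i] (by
      intro x y hij
      fin_cases x <;> fin_cases y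
      · rfl
      · exact absurd hij (hab i)
      · exact absurd hij (hab i).symm
      · rfl) (by
      intro s
      fin_cases s
      · exact hga i
      · exact hgb i)
    choose P hPm hPi hPinj hPd hP using hnod
    have hassoc : ∀ i s, Associated (g i - C (![a i, b i] s)) (P i s) := by
      intro i s
      have hlc : (g i).leadingCoeff ≠ 0 := by
        apply leadingCoeff_ne_zero.2
        rintro h0
        have := hpos i
        rw [h0, natDegree_zero] at this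
        exact lt_irrefl _ this
      rw [hP i s]
      exact (associated_isUnit_mul_left_iff (isUnit_C.2 (isUnit_iff_ne_zero.2 hlc))).2
        (Associated.refl _)
    obtain ⟨P', hP'⟩ : ∃ P' : Fin n × Fin 2 → k[X], P' = fun y => P y.1 y.2 := ⟨_, rfl⟩
    have hv : ∀ i (s : Fin 2), ![a i, b i] s = a i ∨ ![a i, b i] s = b i := by
      intro i s
      fin_cases s
      · exact Or.inl rfl
      · exact Or.inr rfl
    have hP'inj : Function.Injective P' := by
      rintro ⟨i, s⟩ ⟨j, t⟩ h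
      rw [hP'] at h
      simp only at h
      have h3 : Associated (g i - C (![a i, b i] s)) (g j - C (![a j, b j] t)) := by
        refine (hassoc i s).trans ?_
        rw [h]
        exact (hassoc j t).symm
      have h4 := hsep i j _ _ (hv i s) (hv j t) h3
      subst h4
      rw [hPinj i h]
    obtain ⟨ρ, hρ⟩ : ∃ ρ : ℝ, ρ = (1 / 6) ^ J.card * (7 / 12) ^ (n - J.card) := ⟨_, rfl⟩
    rw [← hρ]
    have h9 : (S.filter fun f => ∀ i, rk (g i) (a i) (b i) (C (u i) * f) ≤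
        if i ∈ J then 0 else 1).card = ∑ A ∈ 𝒜,
        ((Fintype.piFinset fun i : Fin A.card => Pr k (dg A i)).filter
          fun d => ∀ i, rk (g i) (a i) (b i) (C (u i) * ∏ i, d i) ≤
            if i ∈ J then 0 else 1).card := by
      convert hS3 (fun f => ∀ i, rk (g i) (a i) (b i) (C (u i) * f) ≤ if i ∈ J then 0 else 1)
    have e : {f ∈ (S : Set k[X]) | ∀ i, rk (g i) (a i) (b i) (C (u i) * f) ≤
          if i ∈ J then 0 else 1} =
        ((S.filter fun f => ∀ i, rk (g i) (a i) (b i) (C (u i) * f) ≤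
          if i ∈ J then 0 else 1 : Finset k[X]) : Set k[X]) := by
      ext f
      simp
    rw [e, Set.ncard_coe_finset, h9, hScard, mul_sum, Nat.cast_sum]
    refine sum_le_sum fun A hA' => ?_
    obtain ⟨q1, q2, q3, q4⟩ := hA A hA'
    have hδ : ∑ i, ((dg A i : ℕ) : ZMod 2) = 0 := by
      rw [sum_dg A (fun n => (n : ZMod 2)), ← Nat.cast_sum, q2]
      exact (ZMod.natCast_eq_zero_iff _ _).2 hD2
    have h10 := hr0 A.card q3 (fun i => ((dg A i : ℕ) : ZMod 2)) hδ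
      (fun i => cs 2 (C (u i) * g i) ![u i * a i, u i * b i] 1 2)
      (fun i => ch 2 (C (u i) * g i).leadingCoeff) J
    rw [← hρ] at h10
    refine one_typeM hEQM S' hchar (N := N + 1) (by omega) (P := P') (by
        rw [hP']
        exact fun y => hPm y.1 y.2) (by
        rw [hP']
        exact fun y => hPi y.1 y.2) hP'inj (by
        rw [hP']
        exact fun y => by
          rw [hPd y.1 y.2]
          have := hdeg y.1
          omega) (hAN A hA')
        (by rw [← hs]; exact hA4 A hA') (by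
          rw [← hs, ← hm]
          exact q4.trans (by rw [hε']; exact min_le_left _ _)) (by
          rw [← hs, ← hm]
          exact q4.trans (by
            rw [hε']
            exact (min_le_right _ _).trans (by norm_num))) _ h10
        (fun f => ∀ i, rk (g i) (a i) (b i) (C (u i) * f) ≤ if i ∈ J then 0 else 1) ?_
    intro x hx d hd i
    have hd' : d ∈ PtN (P i) (dg A) (sy x.1) (pc x.2 i) := by
      rw [PtN, mem_filter]
      obtain ⟨w1, w2, w3⟩ := mem_ptM.1 hd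
      refine ⟨w1, fun y t => ?_, w3⟩
      have w4 := w2 y (i, t)
      rw [hP'] at w4
      exact w4
    have h3 := rank_bound S0 h2 hneg (hodd i) rfl (hab i) (hPm i) (hPi i) (hPinj i) (hPd i) (hP i)
      (dg_anti A) (fun j => by
        have := hAN A hA' _ (dg_mem A j)
        have := hdeg i
        omega) hδ (hu i) (x.1, pc x.2 i) hd'
    have h4 := h3.trans (hx i)
    by_cases hi : i ∈ J
    · rw [if_pos hi] at h4 ⊢
      exact (Nat.pow_le_pow_iff_right (by norm_num)).1 (h4.trans (by norm_num : 1 ≤ 2 ^ 0))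
    · rw [if_neg hi] at h4 ⊢
      exact (Nat.pow_le_pow_iff_right (by norm_num)).1 (h4.trans (by norm_num : 2 ≤ 2 ^ 1))

end Pool.Agent.D0H99.OD
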