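import Pool.Agent.D0H99.OD.Joint
import Pool.Agent.D0H99.OD.Fin2
import Pool.Agent.D0H99.OD.Conf

/-!
Several curves at the same time: the law of the ranks.
-/

set_option autoImplicit false
set_option linter.all false

open Polynomial IsDedekindDomain WeierstrassCurve Filter

namespace Pool.Agent.D0H99.OD

open Finset
open Pool.Agent.Y164.SZ
open Pool.Agent.Y164.PS (Fam Pr mem_Pr card_Pr_ge)
open Pool.Agent.D0H99.FT (br nu cs zeta_data sym0 chr)
open Pool.Agent.D0H99.RM (V X sy crv cst card_X_pos cst_le sy_symm)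
open Pool.Agent.D0H99.DE (rt rk nodes)

section count

/-- the patterns which are good for all curves -/
theorem count_law (hCONF : S_CONF) (hNUM : S_NUM) (n : ℕ) {ε : ℝ} (hε : 0 < ε) : ∃ r0 : ℕ, ∀ r : ℕ, r0 ≤ r →
    ∀ δ : Fin r → ZMod 2, ∑ i, δ i = 0 → ∀ kap lam : Fin n → ZMod 2, ∀ m : Fin n → ℕ,
    (∏ i, FF (m i) - ε) *
      ((Nat.card (Bm r) : ℝ) * (Nat.card (Fin r → Fin n × Fin 2 → ZMod 2) : ℝ)) ≤
      ({x : Bm r × (Fin r → Fin n × Fin 2 → ZMod 2) | ∀ i,
        nsolP δ (kap i) (lam i) (x.1, pc x.2 i) ≤ 2 ^ m i}.ncard : ℝ) := by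
  classical
  obtain ⟨ε', hε'⟩ : ∃ ε' : ℝ, ε' = ε / (n + 1) := ⟨_, rfl⟩
  have hε0 : 0 < ε' := by rw [hε']; positivity
  have hεn : (n + 1) * ε' = ε := by rw [hε']; field_simp
  obtain ⟨r0, hr0⟩ := hCONF ε' hε0
  obtain ⟨-, -, -, hF01, -⟩ := hNUM
  refine ⟨r0, fun r hr δ hδ kap lam m => ?_⟩
  obtain ⟨Bad, hBad, hB⟩ := hr0 r hr δ hδ
  obtain ⟨c, hc⟩ : ∃ c : Fin n → ℝ, c = fun i => FF (m i) := ⟨_, rfl⟩
  have hc0 : ∀ i, 0 ≤ c i := fun i => by rw [hc]; exact (hF01 _).1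
  have hc1 : ∀ i, c i ≤ 1 := fun i => by rw [hc]; exact (hF01 _).2
  have hcprod : ∏ i, c i = ∏ i, FF (m i) := by rw [hc]
  obtain ⟨M, hM⟩ : ∃ M : ℝ, M = (Nat.card (Fin r → V 2 2) : ℝ) := ⟨_, rfl⟩
  have hM0 : 0 < M := by
    rw [hM]
    exact_mod_cast Nat.card_pos
  obtain ⟨Bc, hBc⟩ : ∃ Bc : ℝ, Bc = (Nat.card (Bm r) : ℝ) := ⟨_, rfl⟩
  have hBc0 : 0 < Bc := by
    rw [hBc]
    exact_mod_cast Nat.card_pos
  obtain ⟨Q, hQ⟩ : ∃ Q : Bm r → Fin n → Set (Fin r → V 2 2), Q = fun B i =>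
      {p | nsolP δ (kap i) (lam i) (B, p) ≤ 2 ^ m i} := ⟨_, rfl⟩
  have h1 : ∀ B, B ∉ Bad → (∏ i, c i - n * ε') * M ^ n ≤
      ((∏ i, (Q B i).ncard : ℕ) : ℝ) := by
    intro B hBB
    have h2 : ∀ i, c i - ε' ≤ ((Q B i).ncard : ℝ) / M := by
      intro i
      rw [le_div_iff₀ hM0, hM, hQ, hc]
      dsimp only
      exact hB B hBB (kap i) (lam i) (m i)
    have h3 := prod_sub_le c (fun i => ((Q B i).ncard : ℝ) / M) hε0.le hc0 hc1 h2
      (fun i => by positivity) univ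
    rw [card_univ, Fintype.card_fin, prod_div_distrib, prod_const, card_univ, Fintype.card_fin,
      le_div_iff₀ (by positivity)] at h3
    push_cast
    exact h3
  -- counting
  obtain ⟨G, hG⟩ : ∃ G : Finset (Bm r × (Fin r → Fin n × Fin 2 → ZMod 2)),
      (G : Set _) = {x : Bm r × (Fin r → Fin n × Fin 2 → ZMod 2) | ∀ i,
        nsolP δ (kap i) (lam i) (x.1, pc x.2 i) ≤ 2 ^ m i} :=
    ⟨(Set.toFinite _).toFinset, Set.Finite.coe_toFinset _⟩
  obtain ⟨Gd, hGd⟩ : ∃ Gd : Finset (Bm r), (Gd : Set _) = Badᶜ :=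
    ⟨(Set.toFinite _).toFinset, Set.Finite.coe_toFinset _⟩
  rw [← hG, Set.ncard_coe_finset]
  have h4 : ∀ B : Bm r, ((G.filter fun x => x.1 = B).card) = ∏ i, (Q B i).ncard := by
    intro B
    rw [← card_pc (Q B), ← Set.ncard_coe_finset]
    refine Set.ncard_congr (fun x _ => x.2) ?_ ?_ ?_
    · rintro ⟨B', p⟩ hx
      rw [mem_coe, mem_filter, ← mem_coe, hG] at hx
      obtain ⟨hx1, hx2⟩ := hx
      intro i
      have h5 := hx1 i
      rw [hQ]
      simp only at hx2 h5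
      rw [hx2] at h5
      exact h5
    · rintro ⟨B1, p1⟩ ⟨B2, p2⟩ hx1 hx2 h
      rw [mem_coe, mem_filter] at hx1 hx2
      exact Prod.ext (hx1.2.trans hx2.2.symm) h
    · intro p hp
      refine ⟨(B, p), ?_, rfl⟩
      rw [mem_coe, mem_filter, ← mem_coe, hG]
      refine ⟨fun i => ?_, rfl⟩
      have h5 := hp i
      rw [hQ] at h5
      exact h5
  have h5 : ∑ B ∈ Gd, (((∏ i, (Q B i).ncard : ℕ)) : ℝ) ≤ (G.card : ℝ) := by
    have h6 : ∑ B ∈ Gd, (G.filter fun x => x.1 = B).card ≤ G.card := by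
      rw [← card_biUnion]
      · exact card_le_card fun x hx => by
          rw [mem_biUnion] at hx
          obtain ⟨B, -, hx⟩ := hx
          exact (mem_filter.1 hx).1
      · intro B _ B' _ hne
        rw [Function.onFun, Finset.disjoint_left]
        intro x hx hx'
        exact hne ((mem_filter.1 hx).2.symm.trans (mem_filter.1 hx').2)
    have h7 : ∑ B ∈ Gd, (∏ i, (Q B i).ncard) ≤ G.card := by
      rw [← sum_congr rfl fun B _ => h4 B]
      exact h6
    exact_mod_cast h7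
  have h8 : (Gd.card : ℝ) ≥ (1 - ε') * Bc := by
    have h9 : Bad.ncard + Gd.card = Nat.card (Bm r) := by
      rw [← Set.ncard_coe_finset, hGd]
      exact Set.ncard_add_ncard_compl Bad
    have h10 : (Bad.ncard : ℝ) + (Gd.card : ℝ) = Bc := by
      rw [hBc]
      exact_mod_cast h9
    rw [← hBc] at hBad
    linarith
  have hprod0 : 0 ≤ ∏ i, c i := prod_nonneg fun i _ => hc0 i
  have hprod1 : ∏ i, c i ≤ 1 := prod_le_one (fun i _ => hc0 i) fun i _ => hc1 i
  rw [card_univ_pc, Nat.cast_pow, ← hM, ← hBc, ← hcprod]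
  have hMn : (0 : ℝ) < M ^ n := by positivity
  have hn0 : (0 : ℝ) ≤ n := Nat.cast_nonneg _
  rcases le_total (∏ i, c i - n * ε') 0 with hneg | hpos
  · have : (∏ i, c i - ε) ≤ 0 := by
      have : (n : ℝ) * ε' ≤ ε := by nlinarith
      linarith
    exact (mul_nonpos_of_nonpos_of_nonneg this (by positivity)).trans (Nat.cast_nonneg _)
  · refine le_trans ?_ h5
    have h11 : (Gd.card : ℝ) * ((∏ i, c i - n * ε') * M ^ n) ≤
        ∑ B ∈ Gd, (((∏ i, (Q B i).ncard : ℕ)) : ℝ) := by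
      rw [← nsmul_eq_mul, ← sum_const]
      refine sum_le_sum fun B hB' => h1 B ?_
      have : B ∈ (Gd : Set (Bm r)) := hB'
      rw [hGd] at this
      exact this
    refine le_trans ?_ h11
    have h12 : (1 - ε') * Bc * ((∏ i, c i - n * ε') * M ^ n) ≤
        (Gd.card : ℝ) * ((∏ i, c i - n * ε') * M ^ n) :=
      mul_le_mul_of_nonneg_right h8 (mul_nonneg hpos hMn.le)
    refine le_trans ?_ h12
    have h13 : (1 - ε') * Bc * ((∏ i, c i - n * ε') * M ^ n) =
        ((1 - ε') * (∏ i, c i - n * ε')) * (Bc * M ^ n) := by ring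
    rw [h13]
    apply mul_le_mul_of_nonneg_right _ (by positivity)
    nlinarith [mul_nonneg hn0 hε0.le, mul_nonneg (mul_nonneg hn0 hε0.le) hε0.le]

end count

theorem mainK (hCONF : S_CONF) (hNUM : S_NUM) (hCNT : S_CNT) (hEQM : S_EQM) (hFAM : S_FAM) (k : Type) [Field k]
    [Finite k] (h2 : (2 : k) ≠ 0) (hlk : 2 ∣ Nat.card k - 1) (hneg : ∃ z : k, z ^ 2 = -1)
    (N n : ℕ) {ε : ℝ} (hε : 0 < ε) : ∃ c : ℝ, 0 < c ∧ ∃ D0 : ℕ, ∀ D : ℕ, D0 ≤ D → 2 ∣ D →
    ∃ S : Finset k[X], (∀ f ∈ S, f.Monic ∧ Squarefree f ∧ f.natDegree = D) ∧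
      c * (Nat.card k : ℝ) ^ D ≤ (S.card : ℝ) ∧
      ∀ (g : Fin n → k[X]) (a b : Fin n → k), (∀ i, ¬ 2 ∣ (g i).natDegree) →
      (∀ i, (g i).natDegree ≤ N) → (∀ i, a i ≠ b i) → (∀ i, Irreducible (g i - C (a i))) →
      (∀ i, Irreducible (g i - C (b i))) →
      (∀ i j x y, (x = a i ∨ x = b i) → (y = a j ∨ y = b j) →
        Associated (g i - C x) (g j - C y) → i = j) →
      ∀ u : Fin n → k, (∀ i, u i ≠ 0) → ∀ J : Fin n → ℕ,
      (∏ i, FF (J i) - ε) * (S.card : ℝ) ≤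
        (({f ∈ (S : Set k[X]) | ∀ i, rk (g i) (a i) (b i) (C (u i) * f) ≤ J i}).ncard : ℝ) := by
  classical
  obtain ⟨hlk0, ζ, hζ⟩ := zeta_data Nat.prime_two hlk
  letI : Fintype k := Fintype.ofFinite k
  have hchar : ringChar k ≠ 2 := by
    intro h
    apply h2
    have := ringChar.Nat.cast_ringChar (R := k)
    rw [h] at this
    exact_mod_cast this
  have hcard : Nat.card k = Fintype.card k := Nat.card_eq_fintype_card
  rw [hcard] at hlk ⊢
  have S0 : SYM0 2 k := sym0 hneg hlk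
  have S' : SYM 2 k := chr hlk hchar S0
  obtain ⟨s, hs⟩ : ∃ s : ℝ, s = Real.sqrt (Fintype.card k) := ⟨_, rfl⟩
  have hq2 : (2 : ℝ) ≤ Fintype.card k := by exact_mod_cast (Fintype.one_lt_card (α := k))
  have hs1 : 1 < s := by
    rw [hs, Real.lt_sqrt (by norm_num)]
    linarith
  obtain ⟨n1, hn1⟩ := eventually_atTop.1
    ((tendsto_pow_atTop_atTop_of_one_lt hs1).eventually_ge_atTop 4)
  obtain ⟨r0, hr0⟩ := count_law hCONF hNUM n (half_pos hε)
  obtain ⟨ε', hε'⟩ : ∃ ε' : ℝ, ε' = min (ε / 2) (1 / 2) := ⟨_, rfl⟩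
  have hε0 : 0 < ε' := by rw [hε']; exact lt_min (half_pos hε) (by norm_num)
  obtain ⟨m, hm⟩ : ∃ m : ℕ, m = Fintype.card (Fin n × Fin 2) := ⟨_, rfl⟩
  obtain ⟨c, hc, D0, hD0⟩ := hCNT s (CC m (N + 1)) ε' hs1
    (by have := CC_ge m (N + 1); linarith) hε0 r0 (max (N + 2) n1)
  refine ⟨c / 2, half_pos hc, D0, fun D hD hD2 => ?_⟩
  obtain ⟨𝒜, hA, hsum⟩ := hD0 D hD
  have hAN : ∀ A ∈ 𝒜, ∀ n ∈ A, N + 1 < n := fun A hA' n hn =>
    Nat.lt_of_succ_le ((le_max_left _ _).trans ((hA A hA').1 n hn))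
  have hA4 : ∀ A ∈ 𝒜, ∀ n ∈ A, 4 ≤ s ^ n := fun A hA' n hn =>
    hn1 n ((le_max_right _ _).trans ((hA A hA').1 n hn))
  have hA1 : ∀ A ∈ 𝒜, ∀ n ∈ A, 1 ≤ n := fun A hA' n hn => by
    have := hAN A hA' n hn
    omega
  obtain ⟨S, hS1, hS2, hS3⟩ := hFAM k 𝒜 hA1
  have hScard : (S.card : ℝ) = ∑ A ∈ 𝒜, ∏ n ∈ A, ((Pr k n).card : ℝ) := by
    rw [hS2]
    push_cast
    rfl
  refine ⟨S, ?_, ?_, ?_⟩
  · intro f hf
    obtain ⟨h3, h4, A, hA', h5⟩ := hS1 f hf
    exact ⟨h3, h4, h5.trans (hA A hA').2.1⟩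
  · rw [hScard]
    have h3 : ∀ A ∈ 𝒜, (1 / 2) * ((Fintype.card k : ℝ) ^ D * ∏ n ∈ A, (1 / (n : ℝ))) ≤
        ∏ n ∈ A, ((Pr k n).card : ℝ) := by
      intro A hA'
      obtain ⟨q1, q2, q3, q4⟩ := hA A hA'
      have h4 := prod_lower hchar (C := CC m (N + 1)) (CC_ge m (N + 1)) (hA1 A hA')
        (by rw [← hs]; exact hA4 A hA') (by
          rw [← hs]
          exact q4.trans (by rw [hε']; exact min_le_right _ _))
      rw [q2] at h4
      exact h4
    refine le_trans ?_ (sum_le_sum h3)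
    rw [← mul_sum, ← mul_sum]
    have h4 : (0 : ℝ) < (Fintype.card k : ℝ) ^ D := by positivity
    nlinarith
  · intro g a b hodd hdeg hab hga hgb hsep u hu J
    have hpos : ∀ i, 0 < (g i).natDegree := fun i =>
      Nat.pos_of_ne_zero fun h => hodd i (by rw [h]; exact dvd_zero _)
    have hnod := fun i => nodes (hpos i) rfl ![a i, b i] (by
      intro x y hij
      fin_cases x <;> fin_cases y
      · rfl
      · exact absurd hij (hab i)
      · exact absurd hij (hab i).symm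
      · rfl) (by
      intro s
      fin_cases s
      · exact hga i
      · exact hgb i)
    choose P hPm hPi hPinj hPd hP using hnod
    have hassoc : ∀ i s, Associated (g i - C (![a i, b i] s)) (P i s) := by
      intro i s
      have hlc : (g i).leadingCoeff ≠ 0 := by
        apply leadingCoeff_ne_zero.2
        rintro h0
        have := hpos i
        rw [h0, natDegree_zero] at this
        exact lt_irrefl _ this
      rw [hP i s]
      exact (associated_isUnit_mul_left_iff (isUnit_C.2 (isUnit_iff_ne_zero.2 hlc))).2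
        (Associated.refl _)
    obtain ⟨P', hP'⟩ : ∃ P' : Fin n × Fin 2 → k[X], P' = fun y => P y.1 y.2 := ⟨_, rfl⟩
    have hv : ∀ i (s : Fin 2), ![a i, b i] s = a i ∨ ![a i, b i] s = b i := by
      intro i s
      fin_cases s
      · exact Or.inl rfl
      · exact Or.inr rfl
    have hP'inj : Function.Injective P' := by
      rintro ⟨i, s⟩ ⟨j, t⟩ h
      rw [hP'] at h
      simp only at h
      have h3 : Associated (g i - C (![a i, b i] s)) (g j - C (![a j, b j] t)) := by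
        refine (hassoc i s).trans ?_
        rw [h]
        exact (hassoc j t).symm
      have h4 := hsep i j _ _ (hv i s) (hv j t) h3
      subst h4
      rw [hPinj i h]
    obtain ⟨ρ, hρ⟩ : ∃ ρ : ℝ, ρ = ∏ i, FF (J i) := ⟨_, rfl⟩
    rw [← hρ]
    have h9 : (S.filter fun f => ∀ i, rk (g i) (a i) (b i) (C (u i) * f) ≤ J i).card = ∑ A ∈ 𝒜,
        ((Fintype.piFinset fun i : Fin A.card => Pr k (dg A i)).filter
          fun d => ∀ i, rk (g i) (a i) (b i) (C (u i) * ∏ i, d i) ≤ J i).card := by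
      convert hS3 (fun f => ∀ i, rk (g i) (a i) (b i) (C (u i) * f) ≤ J i)
    have e : {f ∈ (S : Set k[X]) | ∀ i, rk (g i) (a i) (b i) (C (u i) * f) ≤ J i} =
        ((S.filter fun f => ∀ i, rk (g i) (a i) (b i) (C (u i) * f) ≤ J i : Finset k[X]) : Set k[X]) := by
      ext f
      simp
    rw [e, Set.ncard_coe_finset, h9, hScard, mul_sum, Nat.cast_sum]
    refine sum_le_sum fun A hA' => ?_
    obtain ⟨q1, q2, q3, q4⟩ := hA A hA'
    have hδ : ∑ i, ((dg A i : ℕ) : ZMod 2) = 0 := by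
      rw [sum_dg A (fun n => (n : ZMod 2)), ← Nat.cast_sum, q2]
      exact (ZMod.natCast_eq_zero_iff _ _).2 hD2
    have h10 := hr0 A.card q3 (fun i => ((dg A i : ℕ) : ZMod 2)) hδ
      (fun i => cs 2 (C (u i) * g i) ![u i * a i, u i * b i] 1 2)
      (fun i => ch 2 (C (u i) * g i).leadingCoeff) J
    rw [← hρ] at h10
    refine one_typeM hEQM S' hchar (N := N + 1) (by omega) (P := P') (by
        rw [hP']
        exact fun y => hPm y.1 y.2) (by
        rw [hP']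
        exact fun y => hPi y.1 y.2) hP'inj (by
        rw [hP']
        exact fun y => by
          rw [hPd y.1 y.2]
          have := hdeg y.1
          omega) (hAN A hA')
        (by rw [← hs]; exact hA4 A hA') (by
          rw [← hs, ← hm]
          exact q4.trans (by rw [hε']; exact min_le_left _ _)) (by
          rw [← hs, ← hm]
          exact q4.trans (by
            rw [hε']
            exact (min_le_right _ _).trans (by norm_num))) _ h10
        (fun f => ∀ i, rk (g i) (a i) (b i) (C (u i) * f) ≤ J i) ?_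
    intro x hx d hd i
    have hd' : d ∈ PtN (P i) (dg A) (sy x.1) (pc x.2 i) := by
      rw [PtN, mem_filter]
      obtain ⟨w1, w2, w3⟩ := mem_ptM.1 hd
      refine ⟨w1, fun y t => ?_, w3⟩
      have w4 := w2 y (i, t)
      rw [hP'] at w4
      exact w4
    have h3 := rank_bound S0 h2 hneg (hodd i) rfl (hab i) (hPm i) (hPi i) (hPinj i) (hPd i) (hP i)
      (dg_anti A) (fun j => by
        have := hAN A hA' _ (dg_mem A j)
        have := hdeg i
        omega) hδ (hu i) (x.1, pc x.2 i) hd'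
    have h4 := h3.trans (hx i)
    exact (Nat.pow_le_pow_iff_right (by norm_num)).1 h4

end Pool.Agent.D0H99.OD
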