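import Pool.Agent.D0H99.OD.Loc2

/-!
Explicit 2-descent for twists by primes of any degrees: the index of the doubles in the group of points
(adapted from `Pool.Agent.D0H99.DE.Idx`).
-/

set_option autoImplicit false
set_option linter.all false

open Polynomial IsDedekindDomain WeierstrassCurve

namespace Pool.Agent.D0H99.OD

open Finset
open Pool.Agent.Y164.SZ
open Pool.Agent.Y713.SE (hp Pw)
open Pool.Agent.D0H99.FT (br nu cs)
open Pool.Agent.D0H99.RM (V Sol)
open Pool.Agent.D0H99.DE (rt tors Vec z_add_self idx_abs pt_cases Wp)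
open Pool.Agent.D0H99.DE.Hv (Ea tp2)

section
variable {k : Type} [Field k] [Fintype k] [DecidableEq k]
variable {K : Type} [Field K] [Algebra k[X] K] [IsFractionRing k[X] K] [NeZero (2 : K)]
  [DecidableEq K]
variable {c : Fin 2 → k} {g : k[X]} {P : Fin 2 → k[X]} {r : ℕ} {T : Fin r → k[X]}

theorem rt_inj (H : Dtc 2 c g P T (fun _ => 1)) : Function.Injective (rt K c g T) := by
  intro i j hij
  by_contra h
  exact rt_ne H h (sub_eq_zero.2 hij)

/-- the solutions of the system -/
def SolSet (g : k[X]) (c : Fin 2 → k) (P : Fin 2 → k[X]) (T : Fin r → k[X]) :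
    Set (Fin r → V 2 2) :=
  {a | PSol (fun x => ((T x).natDegree : ZMod 2)) (cs 2 g c 1 2) (ch 2 g.leadingCoeff)
    (fun x y => L 2 (T y) (T x)) (fun x s => L 2 (P s) (T x)) a}

theorem zero_mem : (0 : Fin r → V 2 2) ∈ SolSet g c P T := by
  intro y c
  simp

theorem cover (H : Dtc 2 c g P T (fun _ => 1)) (hδ : ∑ x, ((T x).natDegree : ZMod 2) = 0) :
    ∃ f : (SolSet g c P T) × Option (Fin 3) → Ea (rt K c g T),
      ∀ Q, ∃ s, ∃ R, R + R = Q + f s := by
  classical
  have hα := rt_inj (K := K) H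
  have ht : ∀ i, Sel (K := K) H (tors K c g T i) := sel_tors H
  obtain ⟨ref, href⟩ : ∃ ref : (Fin r → V 2 2) → Ea (rt K c g T), ref = fun a =>
      if a = 0 then 0 else if h : ∃ Q, Wp P T (rt K c g T) a Q then h.choose else 0 := ⟨_, rfl⟩
  have ref0 : ref 0 = 0 := by rw [href]; simp only [if_pos]
  have ref1 : ∀ a Q, a ≠ 0 → Wp P T (rt K c g T) a Q → Wp P T (rt K c g T) a (ref a) := by
    intro a Q ha hQ
    have hex : ∃ Q, Wp P T (rt K c g T) a Q := ⟨Q, hQ⟩
    have : ref a = hex.choose := by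
      rw [href]
      simp only [if_neg ha, dif_pos hex]
    rw [this]
    exact hex.choose_spec
  refine ⟨fun s => ref s.1.1 + s.2.elim 0 (fun i => tp2 hα i), fun Q => ?_⟩
  rcases pt_cases hα Q with rfl | ⟨i, rfl⟩ | ⟨x, y, h, hy, rfl⟩
  · refine ⟨(⟨0, zero_mem⟩, none), 0, ?_⟩
    simp only [ref0, Option.elim_none, add_zero]
  · refine ⟨(⟨0, zero_mem⟩, some i), tp2 hα i, ?_⟩
    simp only [ref0, Option.elim_some, zero_add]
  · have h1 := Pool.Agent.D0H99.DE.Hv.eqn.1 h.1
    have hS := sel_pt H hy h1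
    obtain ⟨a, ha⟩ := exists_vec hS
    have hsol := sol_of hδ hS ha
    by_cases ha0 : a = 0
    · rw [ha0] at ha
      rcases triv_of ht hS ha with h2 | ⟨i, h2⟩
      · obtain ⟨R, hR⟩ := DE.Hv.dbl0 hα h h2
        refine ⟨(⟨0, zero_mem⟩, none), R, ?_⟩
        simp only [ref0, Option.elim_none, add_zero]
        exact hR
      · obtain ⟨R, hR⟩ := DE.Hv.dbl0' hα hy h i h2
        refine ⟨(⟨0, zero_mem⟩, some i), R, ?_⟩
        simp only [ref0, Option.elim_some, zero_add]
        exact hR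
    · obtain ⟨x', y', h', hy', e', ha'⟩ := ref1 a _ ha0 ⟨x, y, h, hy, rfl, ha⟩
      have hS' := sel_pt H hy' (Pool.Agent.D0H99.DE.Hv.eqn.1 h'.1)
      have hv := vec_mul H ha ha'
      have haa : a + a = 0 := by
        funext u v
        exact z_add_self _
      rw [haa] at hv
      rcases triv_of ht (hS.mul hS') hv with h2 | ⟨i, h2⟩
      · have h3 : ∀ j, ∃ z : K, z ≠ 0 ∧ (x - rt K c g T j) * (x' - rt K c g T j) = z ^ 2 := by
          intro j
          obtain ⟨z, hz⟩ := h2 j
          refine ⟨z, ?_, hz⟩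
          rintro rfl
          rw [zero_pow two_ne_zero] at hz
          exact mul_ne_zero (hS.ne j) (hS'.ne j) hz
        obtain ⟨R, hR⟩ := DE.Hv.dbl1 hα h h' h3
        refine ⟨(⟨a, hsol⟩, none), R, ?_⟩
        simp only [e', Option.elim_none, add_zero]
        exact hR
      · obtain ⟨R, hR⟩ := DE.Hv.dbl1' hα hy hy' h h' i h2
        refine ⟨(⟨a, hsol⟩, some i), R, ?_⟩
        simp only [e', Option.elim_some]
        rw [hR]
        abel

theorem idx (H : Dtc 2 c g P T (fun _ => 1)) (hδ : ∑ x, ((T x).natDegree : ZMod 2) = 0) :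
    (nsmulAddMonoidHom (α := Ea (rt K c g T)) 2).range.FiniteIndex ∧
      Nat.card (Ea (rt K c g T) ⧸ (nsmulAddMonoidHom (α := Ea (rt K c g T)) 2).range) ≤
        4 * (SolSet g c P T).ncard := by
  obtain ⟨f, hf⟩ := cover (K := K) H hδ
  obtain ⟨h1, h2⟩ := idx_abs f hf
  refine ⟨h1, h2.trans ?_⟩
  rw [Nat.card_prod, Nat.card_eq_fintype_card (α := Option (Fin 3)), Fintype.card_option,
    Fintype.card_fin, Nat.card_coe_set_eq]
  omega

end

end Pool.Agent.D0H99.OD
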