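import Pool.Agent.D0H99.OD.Stm

/-!
Project OD (helper99), part 2: several curves at the same time. For `n` curves of the family with
different nodes the Selmer ranks of the twists by `D` are asymptotically independent: given the matrix
`A` of the symbols between the prime factors of `D`, the vectors `p` of the different curves are
independent, and for almost all `A` the distribution of the number of solutions over `p` is the same.
Two modules.

`EQM` (helper41? the proof of `S_EQD` with any number `m` of nodes of degree at most `N`). With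
`m = |κ|` primes `P s` and `r'` smaller primes the number of the `d_0` with prescribed symbols is at least
`2 ^ (-(r' + m)) #Pr(n) - ((10 W + 2) s ^ n + r' + m)`, `W ≤ n ^ 2 + m N`, `r' ≤ n`, and
`#Pr(n) ≥ s ^ (2 n) / (2 n)`; so the relative error is at most
`2 ^ (r' + m) (2 n) (13 n ^ 2 + 11 m N n ^ 2) / s ^ n ≤ 2 ^ (r' + 1) 2 ^ m (20 + 20 m N) n ^ 3 / s ^ n`.

`CON` (helper52? adapts `Cl2`, `Mo2`, `Per`; about 250 lines). Fix `δ` (`∑ δ = 0`), `κ`, `λ`. Write the
system as `M(B, p) a + Δ a = 0`, `M(B, p)`, `Δ` symmetric of size `2 r`, `M w = diag M`, `Δ w = diag Δ`,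
`w = (1, ..., 1)`. Let `μ(B) = 4 ^ (-r) ∑_p nsolP (B, p)`, `𝓑` the set of the `B`.
(1) Second moment: `∑_B μ(B) ^ 2 ≤ |𝓑| (9 + o(1))`. `∑_B (∑_p nsolP (B, p)) ^ 2 =
∑_(a, a') #{(B, p, p') : M(B, p) a = Δ a, M(B, p') a' = Δ a'}`, at most the number with `Δ = 0`, which is
`|𝓑| 4 ^ (2 r) 4 ^ (-2 r)` times the number of the `(c, c')` orthogonal to all `(M(B, p) a, M(B, p') a')`. The
coefficients of `p_xs`, `p'_xs`, `B_xy` give: `v_x = (a_x, c_x)` and `v'_x = (a'_x, c'_x)` are in the cone `Zc`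
and `Q(v_x - v_y) + Q(v'_x - v'_y) = 0`. Lemma `CL3` (proof as for `CL2`): let `I` be a set of pairs
`(v, v')` in `(V × V) ^ 2`, `V = F_2 ^ 2`, with `v, v'` in `Zc` and `Q(v - w) + Q(v' - w') = 0` for any two of
its members. Then `|I| < 16` or `I` is contained in one of the nine products `T_i × T_j`,
`T_1 = {a = 0}`, `T_2 = {c = 0}`, `T_3 = {a_s + γ_s = 1 for all s}` (each `T_i` in the cone, with 4 members).
Proof: the span `W` of the differences is totally singular for `Q + Q'`, so `|I| ≤ |W| ≤ 16`; if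
`|I| = 16` then `I` is affine; for each of the four coordinates one of the three affine conditions
`a_s = 0`, `γ_s = 0`, `a_s + γ_s = 1` holds on `I`, so `I` is the set `U` of all points with these
conditions; the conditions at the two coordinates of the same copy are equal by the argument of `CL2`
(differences of points of `U` with nonzero coordinates in this copy only). So the number of the
quadruples of maps is at most `9 * 16 ^ r + 2 ^ 256 * 15 ^ r`.
(2) First moment from below: `∑_B μ(B) ≥ |𝓑| (3 - o(1))`. `∑_(B, p) nsolP = ∑_a #{(B, p) : M(B, p) a = Δ a}`;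
`a = 0` gives `|X|`. Let `C_a` be the group of the `c` orthogonal to all `M(B, p) a`. It contains `0` and
`a + w` because `a^T M a = (diag M) a = w^T M a`. The number of the `(B, p)` with `M(B, p) a = e` is
`4 ^ (-r) |X| ∑_(c ∈ C_a) ψ(<c, e>)`; if `C_a = {0, a + w}` and `e = Δ a` this is `2 * 4 ^ (-r) |X|`
(`<a + w, Δ a> = 0` as before). `∑_a |C_a| ≤ 3 * 4 ^ r + 2 ^ 16 * 3 ^ r` (`good_card2`), `|C_0| = 4 ^ r`,
`|C_a| ≥ 2` for `a ≠ w`, and `|C_a|` is a power of two, so at most `2 ^ 15 * 3 ^ r + 2` of the `a ≠ 0` have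
`|C_a| ≥ 4`.
(3) Chebyshev: `ε ^ 2 #{B : μ(B) ≥ 3 + ε} ≤ ∑_B (μ(B) - 3) ^ 2 ≤ o(1) |𝓑|`.
(4) For fixed `B`: `ppar` gives the parity; the signed sum over `p` of `nsolP (B, p)` is at most `1` in
absolute value (only `a = w` remains, as in `psigned`). So `∑_(p even) nsolP ≤ (4 ^ r μ + 1) / 2`, the same for
odd, and with `2 * 4 ^ r = 4 #(even) ≤ ∑_(p even) nsolP + 3 #{nsolP = 1}`,
`4 * 4 ^ r = 8 #(odd) ≤ ∑_(p odd) nsolP + 6 #{nsolP = 2}`: `#{nsolP = 1} ≥ 4 ^ r (4 - μ) / 6 - 1 / 6`,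
`#{nsolP ≤ 2} ≥ 4 ^ r (16 - 3 μ) / 12 - 1 / 4`. (Union of the four exceptional sets for `(κ, λ)`.)
-/

set_option autoImplicit false

open Polynomial

namespace Pool.Agent.D0H99.OD

open Finset
open Pool.Agent.Y164.SZ
open Pool.Agent.Y164.PS (Pr)
open Pool.Agent.D0H99.RM (V X sy cst)

/-- the matrices -/
abbrev Bm (r : ℕ) : Type := ∀ i : Fin r, Fin (i : ℕ) → ZMod 2

/-- CON: for almost all matrices the proportions over `p` are as expected -/
def S_CON : Prop := ∀ ε : ℝ, 0 < ε → ∃ r0 : ℕ, ∀ r : ℕ, r0 ≤ r → ∀ δ : Fin r → ZMod 2,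
  ∑ i, δ i = 0 → ∃ Bad : Set (Bm r), (Bad.ncard : ℝ) ≤ ε * (Nat.card (Bm r) : ℝ) ∧
    ∀ B : Bm r, B ∉ Bad → ∀ κ lam : ZMod 2,
    (1 / 6 - ε) * (Nat.card (Fin r → V 2 2) : ℝ) ≤
      ({p : Fin r → V 2 2 | nsolP δ κ lam (B, p) = 1}.ncard : ℝ) ∧
    (7 / 12 - ε) * (Nat.card (Fin r → V 2 2) : ℝ) ≤
      ({p : Fin r → V 2 2 | nsolP δ κ lam (B, p) ≤ 2}.ncard : ℝ)

section
variable {k : Type} [Field k] [Fintype k] [DecidableEq k]

open Classical in
/-- the tuples with prescribed degrees and symbols -/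
noncomputable def PtM {κ : Type} (P : κ → k[X]) {r : ℕ} (n : Fin r → ℕ)
    (A : Fin r → Fin r → ZMod 2) (p : Fin r → κ → ZMod 2) : Finset (Fin r → k[X]) :=
  (Fintype.piFinset fun i : Fin r => Pr k (n i)).filter fun d =>
    (∀ i s, L 2 (P s) (d i) = p i s) ∧ ∀ i j, i ≠ j → L 2 (d j) (d i) = A i j

end

/-- EQM -/
def S_EQM : Prop := ∀ (k : Type) [Field k] [Fintype k] [DecidableEq k], SYM 2 k →
  ringChar k ≠ 2 → ∀ (κ : Type) [Fintype κ] (N : ℕ) (P : κ → k[X]), 1 ≤ N → (∀ s, (P s).Monic) →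
  (∀ s, Irreducible (P s)) → Function.Injective P → (∀ s, (P s).natDegree ≤ N) →
  ∀ (r : ℕ) (n : Fin r → ℕ), StrictAnti n → (∀ i, N < n i) →
  (∀ i, 4 ≤ (Real.sqrt (Fintype.card k)) ^ n i) → ∀ (A : Fin r → Fin r → ZMod 2)
  (p : Fin r → κ → ZMod 2), (∀ i j, A i j = A j i) →
  1 / ((Nat.card (Bm r) : ℝ) * (Nat.card (Fin r → κ → ZMod 2) : ℝ)) *
      (1 - ∑ i : Fin r, (2 : ℝ) ^ (r - (i : ℕ)) *
        ((2 : ℝ) ^ Fintype.card κ * (20 + 20 * (Fintype.card κ : ℝ) * (N : ℝ)) * (n i : ℝ) ^ 3 /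
          (Real.sqrt (Fintype.card k)) ^ n i)) *
    ∏ i, ((Pr k (n i)).card : ℝ) ≤ ((PtM P n A p).card : ℝ)

end Pool.Agent.D0H99.OD
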