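import Pool.Agent.D0H99.OD.Fin
import Pool.Agent.D0H99.OD.Stm2

/-!
Several curves at the same time: the patterns.
-/

set_option autoImplicit false
set_option linter.all false

open Polynomial IsDedekindDomain WeierstrassCurve Filter

namespace Pool.Agent.D0H99.OD

open Finset
open Pool.Agent.Y164.SZ
open Pool.Agent.Y164.PS (Fam Pr mem_Pr card_Pr_ge)
open Pool.Agent.D0H99.FT (br nu cs zeta_data sym0 chr)
open Pool.Agent.D0H99.RM (V X sy crv cst card_X_pos cst_le sy_symm)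
open Pool.Agent.D0H99.DE (rt rk nodes)

section count

/-- the vectors of one curve -/
def pc {n r : ℕ} (p : Fin r → Fin n × Fin 2 → ZMod 2) (i : Fin n) : Fin r → V 2 2 :=
  fun x s => p x (i, s)

theorem card_pc {n r : ℕ} (Q : Fin n → Set (Fin r → V 2 2)) :
    ({p : Fin r → Fin n × Fin 2 → ZMod 2 | ∀ i, pc p i ∈ Q i}.ncard) = ∏ i, (Q i).ncard := by
  classical
  obtain ⟨e, he⟩ : ∃ e : (Fin r → Fin n × Fin 2 → ZMod 2) ≃ (Fin n → Fin r → V 2 2),
      ∀ p i, e p i = pc p i :=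
    ⟨{ toFun := fun p i => pc p i
       invFun := fun q x y => q y.1 x y.2
       left_inv := fun p => rfl
       right_inv := fun q => rfl }, fun p i => rfl⟩
  obtain ⟨Q', hQ'⟩ : ∃ Q' : Fin n → Finset (Fin r → V 2 2), ∀ i, (Q' i : Set _) = Q i :=
    ⟨fun i => (Set.toFinite (Q i)).toFinset, fun i => Set.Finite.coe_toFinset _⟩
  have h1 : {p : Fin r → Fin n × Fin 2 → ZMod 2 | ∀ i, pc p i ∈ Q i} =
      (((Fintype.piFinset Q').map e.symm.toEmbedding : Finset _) : Set _) := by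
    ext p
    rw [mem_coe, Finset.mem_map]
    constructor
    · intro h
      refine ⟨e p, ?_, ?_⟩
      · rw [Fintype.mem_piFinset]
        intro i
        rw [he, ← mem_coe, hQ']
        exact h i
      · simp
    · rintro ⟨q, hq, rfl⟩
      rw [Fintype.mem_piFinset] at hq
      intro i
      have h2 := hq i
      rw [← mem_coe, hQ'] at h2
      have h3 : pc (e.symm q) i = q i := by rw [← he, Equiv.apply_symm_apply]
      change pc (e.symm q) i ∈ Q i
      rw [h3]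
      exact h2
  rw [h1, Set.ncard_coe_finset, card_map, Fintype.card_piFinset]
  refine prod_congr rfl fun i _ => ?_
  rw [← hQ', Set.ncard_coe_finset]

theorem card_univ_pc (n r : ℕ) : Nat.card (Fin r → Fin n × Fin 2 → ZMod 2) =
    Nat.card (Fin r → V 2 2) ^ n := by
  have h := card_pc (n := n) (r := r) (fun _ => Set.univ)
  have h1 : {p : Fin r → Fin n × Fin 2 → ZMod 2 | ∀ i, pc p i ∈ (Set.univ : Set (Fin r → V 2 2))} =
      Set.univ := by
    ext p
    simp
  rw [h1, Set.ncard_univ, prod_congr rfl fun i _ => Set.ncard_univ _, prod_const, card_univ,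
    Fintype.card_fin] at h
  exact h

/-- products of nearly independent probabilities -/
theorem prod_sub_le {n : ℕ} (c y : Fin n → ℝ) {ε : ℝ} (hε : 0 ≤ ε) (h0 : ∀ i, 0 ≤ c i)
    (h1 : ∀ i, c i ≤ 1) (hy : ∀ i, c i - ε ≤ y i) (hy0 : ∀ i, 0 ≤ y i) (s : Finset (Fin n)) :
    ∏ i ∈ s, c i - s.card * ε ≤ ∏ i ∈ s, y i := by
  classical
  induction s using Finset.induction_on with
  | empty => simp
  | insert a s ha ih =>
    rw [prod_insert ha, prod_insert ha, card_insert_of_notMem ha]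
    have h2 : 0 ≤ ∏ i ∈ s, c i := prod_nonneg fun i _ => h0 i
    have h3 : ∏ i ∈ s, c i ≤ 1 := prod_le_one (fun i _ => h0 i) fun i _ => h1 i
    have h4 : 0 ≤ ∏ i ∈ s, y i := prod_nonneg fun i _ => hy0 i
    have h5 := h0 a
    have h6 := h1 a
    have h7 := hy a
    have h8 := hy0 a
    have h9 : (0 : ℝ) ≤ s.card := Nat.cast_nonneg _
    push_cast
    rcases le_total (c a) ε with h | h
    · have : c a * ∏ i ∈ s, c i ≤ ε := by nlinarith
      have : 0 ≤ y a * ∏ i ∈ s, y i := mul_nonneg h8 h4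
      nlinarith
    · have q1 : (c a - ε) * ∏ i ∈ s, y i ≤ y a * ∏ i ∈ s, y i :=
        mul_le_mul_of_nonneg_right h7 h4
      have q2 : (c a - ε) * (∏ i ∈ s, c i - s.card * ε) ≤ (c a - ε) * ∏ i ∈ s, y i :=
        mul_le_mul_of_nonneg_left ih (by linarith)
      nlinarith [mul_nonneg h9 hε, mul_nonneg (mul_nonneg h9 hε) hε]

/-- the patterns which are good for all curves -/
theorem count_joint (hCON : S_CON) (n : ℕ) {ε : ℝ} (hε : 0 < ε) : ∃ r0 : ℕ, ∀ r : ℕ, r0 ≤ r →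
    ∀ δ : Fin r → ZMod 2, ∑ i, δ i = 0 → ∀ kap lam : Fin n → ZMod 2, ∀ J : Finset (Fin n),
    ((1 / 6) ^ J.card * (7 / 12) ^ (n - J.card) - ε) *
      ((Nat.card (Bm r) : ℝ) * (Nat.card (Fin r → Fin n × Fin 2 → ZMod 2) : ℝ)) ≤
      ({x : Bm r × (Fin r → Fin n × Fin 2 → ZMod 2) | ∀ i,
        nsolP δ (kap i) (lam i) (x.1, pc x.2 i) ≤ if i ∈ J then 1 else 2}.ncard : ℝ) := by
  classical
  obtain ⟨ε', hε'⟩ : ∃ ε' : ℝ, ε' = ε / (n + 1) := ⟨_, rfl⟩
  have hε0 : 0 < ε' := by rw [hε']; positivity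
  have hεn : (n + 1) * ε' = ε := by rw [hε']; field_simp
  obtain ⟨r0, hr0⟩ := hCON ε' hε0
  refine ⟨r0, fun r hr δ hδ kap lam J => ?_⟩
  obtain ⟨Bad, hBad, hB⟩ := hr0 r hr δ hδ
  obtain ⟨c, hc⟩ : ∃ c : Fin n → ℝ, c = fun i => if i ∈ J then 1 / 6 else 7 / 12 := ⟨_, rfl⟩
  have hc0 : ∀ i, 0 ≤ c i := fun i => by rw [hc]; dsimp only; split_ifs <;> norm_num
  have hc1 : ∀ i, c i ≤ 1 := fun i => by rw [hc]; dsimp only; split_ifs <;> norm_num
  have hcprod : ∏ i, c i = (1 / 6) ^ J.card * (7 / 12) ^ (n - J.card) := by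
    rw [hc]
    rw [prod_ite, prod_const, prod_const]
    congr 2
    · congr 1
      ext i
      simp
    · have h1 : (univ.filter fun i => ¬ i ∈ J) = Jᶜ := by
        ext i
        simp
      rw [h1, card_compl, Fintype.card_fin]
  obtain ⟨M, hM⟩ : ∃ M : ℝ, M = (Nat.card (Fin r → V 2 2) : ℝ) := ⟨_, rfl⟩
  have hM0 : 0 < M := by
    rw [hM]
    exact_mod_cast Nat.card_pos
  obtain ⟨Bc, hBc⟩ : ∃ Bc : ℝ, Bc = (Nat.card (Bm r) : ℝ) := ⟨_, rfl⟩
  have hBc0 : 0 < Bc := by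
    rw [hBc]
    exact_mod_cast Nat.card_pos
  obtain ⟨Q, hQ⟩ : ∃ Q : Bm r → Fin n → Set (Fin r → V 2 2), Q = fun B i =>
      {p | nsolP δ (kap i) (lam i) (B, p) ≤ if i ∈ J then 1 else 2} := ⟨_, rfl⟩
  have h1 : ∀ B, B ∉ Bad → (∏ i, c i - n * ε') * M ^ n ≤
      ((∏ i, (Q B i).ncard : ℕ) : ℝ) := by
    intro B hBB
    have h2 : ∀ i, c i - ε' ≤ ((Q B i).ncard : ℝ) / M := by
      intro i
      rw [le_div_iff₀ hM0, hM, hQ, hc]
      dsimp only
      obtain ⟨b1, b2⟩ := hB B hBB (kap i) (lam i)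
      split_ifs with hi
      · refine b1.trans ?_
        have : {p : Fin r → V 2 2 | nsolP δ (kap i) (lam i) (B, p) = 1} ⊆
            {p : Fin r → V 2 2 | nsolP δ (kap i) (lam i) (B, p) ≤ 1} :=
          fun p hp => (show _ = 1 from hp).le
        exact_mod_cast Set.ncard_le_ncard this (Set.toFinite _)
      · exact b2
    have h3 := prod_sub_le c (fun i => ((Q B i).ncard : ℝ) / M) hε0.le hc0 hc1 h2
      (fun i => by positivity) univ
    rw [card_univ, Fintype.card_fin, prod_div_distrib, prod_const, card_univ, Fintype.card_fin,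
      le_div_iff₀ (by positivity)] at h3
    push_cast
    exact h3
  -- counting
  obtain ⟨G, hG⟩ : ∃ G : Finset (Bm r × (Fin r → Fin n × Fin 2 → ZMod 2)),
      (G : Set _) = {x : Bm r × (Fin r → Fin n × Fin 2 → ZMod 2) | ∀ i,
        nsolP δ (kap i) (lam i) (x.1, pc x.2 i) ≤ if i ∈ J then 1 else 2} :=
    ⟨(Set.toFinite _).toFinset, Set.Finite.coe_toFinset _⟩
  obtain ⟨Gd, hGd⟩ : ∃ Gd : Finset (Bm r), (Gd : Set _) = Badᶜ :=
    ⟨(Set.toFinite _).toFinset, Set.Finite.coe_toFinset _⟩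
  rw [← hG, Set.ncard_coe_finset]
  have h4 : ∀ B : Bm r, ((G.filter fun x => x.1 = B).card) = ∏ i, (Q B i).ncard := by
    intro B
    rw [← card_pc (Q B), ← Set.ncard_coe_finset]
    refine Set.ncard_congr (fun x _ => x.2) ?_ ?_ ?_
    · rintro ⟨B', p⟩ hx
      rw [mem_coe, mem_filter, ← mem_coe, hG] at hx
      obtain ⟨hx1, hx2⟩ := hx
      intro i
      have h5 := hx1 i
      rw [hQ]
      simp only at hx2 h5
      rw [hx2] at h5
      exact h5
    · rintro ⟨B1, p1⟩ ⟨B2, p2⟩ hx1 hx2 h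
      rw [mem_coe, mem_filter] at hx1 hx2
      exact Prod.ext (hx1.2.trans hx2.2.symm) h
    · intro p hp
      refine ⟨(B, p), ?_, rfl⟩
      rw [mem_coe, mem_filter, ← mem_coe, hG]
      refine ⟨fun i => ?_, rfl⟩
      have h5 := hp i
      rw [hQ] at h5
      exact h5
  have h5 : ∑ B ∈ Gd, (((∏ i, (Q B i).ncard : ℕ)) : ℝ) ≤ (G.card : ℝ) := by
    have h6 : ∑ B ∈ Gd, (G.filter fun x => x.1 = B).card ≤ G.card := by
      rw [← card_biUnion]
      · exact card_le_card fun x hx => by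
          rw [mem_biUnion] at hx
          obtain ⟨B, -, hx⟩ := hx
          exact (mem_filter.1 hx).1
      · intro B _ B' _ hne
        rw [Function.onFun, Finset.disjoint_left]
        intro x hx hx'
        exact hne ((mem_filter.1 hx).2.symm.trans (mem_filter.1 hx').2)
    have h7 : ∑ B ∈ Gd, (∏ i, (Q B i).ncard) ≤ G.card := by
      rw [← sum_congr rfl fun B _ => h4 B]
      exact h6
    exact_mod_cast h7
  have h8 : (Gd.card : ℝ) ≥ (1 - ε') * Bc := by
    have h9 : Bad.ncard + Gd.card = Nat.card (Bm r) := by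
      rw [← Set.ncard_coe_finset, hGd]
      exact Set.ncard_add_ncard_compl Bad
    have h10 : (Bad.ncard : ℝ) + (Gd.card : ℝ) = Bc := by
      rw [hBc]
      exact_mod_cast h9
    rw [← hBc] at hBad
    linarith
  have hprod0 : 0 ≤ ∏ i, c i := prod_nonneg fun i _ => hc0 i
  have hprod1 : ∏ i, c i ≤ 1 := prod_le_one (fun i _ => hc0 i) fun i _ => hc1 i
  rw [card_univ_pc, Nat.cast_pow, ← hM, ← hBc, ← hcprod]
  have hMn : (0 : ℝ) < M ^ n := by positivity
  have hn0 : (0 : ℝ) ≤ n := Nat.cast_nonneg _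
  rcases le_total (∏ i, c i - n * ε') 0 with hneg | hpos
  · have : (∏ i, c i - ε) ≤ 0 := by
      have : (n : ℝ) * ε' ≤ ε := by nlinarith
      linarith
    exact (mul_nonpos_of_nonpos_of_nonneg this (by positivity)).trans (Nat.cast_nonneg _)
  · refine le_trans ?_ h5
    have h11 : (Gd.card : ℝ) * ((∏ i, c i - n * ε') * M ^ n) ≤
        ∑ B ∈ Gd, (((∏ i, (Q B i).ncard : ℕ)) : ℝ) := by
      rw [← nsmul_eq_mul, ← sum_const]
      refine sum_le_sum fun B hB' => h1 B ?_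
      have : B ∈ (Gd : Set (Bm r)) := hB'
      rw [hGd] at this
      exact this
    refine le_trans ?_ h11
    have h12 : (1 - ε') * Bc * ((∏ i, c i - n * ε') * M ^ n) ≤
        (Gd.card : ℝ) * ((∏ i, c i - n * ε') * M ^ n) :=
      mul_le_mul_of_nonneg_right h8 (mul_nonneg hpos hMn.le)
    refine le_trans ?_ h12
    have h13 : (1 - ε') * Bc * ((∏ i, c i - n * ε') * M ^ n) =
        ((1 - ε') * (∏ i, c i - n * ε')) * (Bc * M ^ n) := by ring
    rw [h13]
    apply mul_le_mul_of_nonneg_right _ (by positivity)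
    nlinarith [mul_nonneg hn0 hε0.le, mul_nonneg (mul_nonneg hn0 hε0.le) hε0.le]

end count

end Pool.Agent.D0H99.OD
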