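import Pool.Agent.D0H99.OD.Low

/-!
All moments of the number of solutions: the asymptotics.
-/

set_option autoImplicit false
set_option linter.all false

open Filter

namespace Pool.Agent.D0H99.OD

open Finset
open Pool.Agent.D0H99.RM (V X sy cst)

/-- the sum over all `p` -/
noncomputable def YY {r : ℕ} (δ : Fin r → ZMod 2) (κ lam : ZMod 2) (k : ℕ) (B : Bm r) : ℕ :=
  ∑ p : Fin r → V 2 2, fm δ κ lam k (B, p)

/-- the mean -/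
noncomputable def Tk (k : ℕ) : ℝ := (2 : ℝ) ^ (k * (k + 1) / 2)

/-- the ratio -/
noncomputable def qk (k : ℕ) : ℝ := 1 - 1 / (4 : ℝ) ^ k

theorem qk_nonneg (k : ℕ) : 0 ≤ qk k := by
  unfold qk
  have h : (1 : ℝ) ≤ 4 ^ k := one_le_pow₀ (by norm_num)
  have : 1 / (4 : ℝ) ^ k ≤ 1 := by
    rw [div_le_one (by positivity)]
    exact h
  linarith

theorem qk_lt (k : ℕ) : qk k < 1 := by
  unfold qk
  have : 0 < 1 / (4 : ℝ) ^ k := by positivity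
  linarith

theorem cast1 (k r : ℕ) : (((4 ^ k - 1) ^ r : ℕ) : ℝ) = qk k ^ r * 4 ^ (r * k) := by
  have h1 : 1 ≤ 4 ^ k := Nat.one_le_pow _ _ (by norm_num)
  have h2 : (4 : ℝ) ^ k ≠ 0 := by positivity
  rw [Nat.cast_pow, Nat.cast_sub h1, mul_comm r k, pow_mul, ← mul_pow]
  push_cast
  congr 1
  unfold qk
  field_simp

theorem up1 (hNG : S_NG) (hGN : S_GN) (hCT : S_CT) (hIN : S_IN) (k r : ℕ) (δ : Fin r → ZMod 2)
    (κ lam : ZMod 2) : ((∑ B : Bm r, YY δ κ lam k B : ℕ) : ℝ) ≤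
      (Nat.card (Bm r) : ℝ) * 4 ^ r * (Tk k + 2 ^ (16 ^ k) * qk k ^ r) := by
  have h1 := pow_sum hIN (Fin 1) k r δ κ lam
  have h2 := total_le hNG hGN hCT (Fin 1) k r δ κ lam
  rw [← h1] at h2
  simp only [Fintype.card_fin, pow_one, mul_one, one_mul] at h2
  have h3 : ((∑ B : Bm r, YY δ κ lam k B : ℕ) : ℝ) * 4 ^ (r * k) ≤
      (Nat.card (Bm r) : ℝ) * 4 ^ r * (4 ^ (r * k) * Tk k +
        2 ^ (16 ^ k) * (((4 ^ k - 1) ^ r : ℕ) : ℝ)) := by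
    unfold YY Tk
    exact_mod_cast h2
  rw [cast1] at h3
  have h4 : (0 : ℝ) < 4 ^ (r * k) := by positivity
  refine le_of_mul_le_mul_right (h3.trans (le_of_eq ?_)) h4
  ring

theorem up2 (hNG : S_NG) (hGN : S_GN) (hCT : S_CT) (hIN : S_IN) (k r : ℕ) (δ : Fin r → ZMod 2)
    (κ lam : ZMod 2) : ((∑ B : Bm r, YY δ κ lam k B ^ 2 : ℕ) : ℝ) ≤
      (Nat.card (Bm r) : ℝ) * (4 ^ r) ^ 2 * (Tk k ^ 2 + 2 ^ (16 ^ (k * 2)) * qk (k * 2) ^ r) := by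
  have h1 := pow_sum hIN (Fin 2) k r δ κ lam
  have h2 := total_le hNG hGN hCT (Fin 2) k r δ κ lam
  rw [← h1] at h2
  simp only [Fintype.card_fin] at h2
  have h3 : ((∑ B : Bm r, YY δ κ lam k B ^ 2 : ℕ) : ℝ) * 4 ^ (r * (k * 2)) ≤
      (Nat.card (Bm r) : ℝ) * 4 ^ (r * 2) * (4 ^ (r * (k * 2)) * 2 ^ (2 * (k * (k + 1) / 2)) +
        2 ^ (16 ^ (k * 2)) * (((4 ^ (k * 2) - 1) ^ r : ℕ) : ℝ)) := by
    unfold YY
    exact_mod_cast h2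
  rw [cast1] at h3
  have h4 : (0 : ℝ) < 4 ^ (r * (k * 2)) := by positivity
  refine le_of_mul_le_mul_right (h3.trans (le_of_eq ?_)) h4
  have h5 : (2 : ℝ) ^ (2 * (k * (k + 1) / 2)) = Tk k ^ 2 := by
    unfold Tk
    rw [← pow_mul, mul_comm]
  have h6 : (4 : ℝ) ^ (r * 2) = (4 ^ r) ^ 2 := by rw [pow_mul]
  rw [h5, h6]
  ring

theorem lo1 (hGN : S_GN) (hGD : S_GD) (hCT : S_CT) (hIN : S_IN) (k r : ℕ) (δ : Fin r → ZMod 2)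
    (hδ : ∑ i, δ i = 0) (κ lam : ZMod 2) :
    (Nat.card (Bm r) : ℝ) * 4 ^ r * (Tk k - Tk k * 4 ^ k * qk k ^ r) ≤
      ((∑ B : Bm r, YY δ κ lam k B : ℕ) : ℝ) := by
  have h2 := low hGN hGD hCT hIN (Fin 1) (Fintype.card_fin 1) k r δ hδ κ lam
  have h3 : (Nat.card (Bm r) : ℝ) * 4 ^ r * 4 ^ (r * k) * Tk k ≤
      ((∑ B : Bm r, YY δ κ lam k B : ℕ) : ℝ) * 4 ^ (r * k) +
        (Nat.card (Bm r) : ℝ) * 4 ^ r * Tk k * (4 ^ k * (((4 ^ k - 1) ^ r : ℕ) : ℝ)) := by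
    unfold YY Tk
    exact_mod_cast h2
  rw [cast1] at h3
  have h4 : (0 : ℝ) < 4 ^ (r * k) := by positivity
  refine le_of_mul_le_mul_right ?_ h4
  have h5 : (Nat.card (Bm r) : ℝ) * 4 ^ r * (Tk k - Tk k * 4 ^ k * qk k ^ r) * 4 ^ (r * k) =
      (Nat.card (Bm r) : ℝ) * 4 ^ r * 4 ^ (r * k) * Tk k -
        (Nat.card (Bm r) : ℝ) * 4 ^ r * Tk k * (4 ^ k * (qk k ^ r * 4 ^ (r * k))) := by ring
  rw [h5]
  linarith

theorem zz1 (hNG : S_NG) (hCT : S_CT) (k r : ℕ) (δ : Fin r → ZMod 2) (κ lam : ZMod 2) :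
    ((∑ B : Bm r, ZZ δ κ lam k B : ℕ) : ℝ) ≤
      (Nat.card (Bm r) : ℝ) * 4 ^ r * (2 ^ (16 ^ k) * qk k ^ r) := by
  have h2 := sum_ZZ hNG hCT (Fin 1) 0 (fun i => Subsingleton.elim _ _) (Fintype.card_fin 1) k r
    δ κ lam
  have h3 : ((∑ B : Bm r, ZZ δ κ lam k B : ℕ) : ℝ) * 4 ^ (r * k) ≤
      (Nat.card (Bm r) : ℝ) * 4 ^ r * (2 ^ (16 ^ k) * (((4 ^ k - 1) ^ r : ℕ) : ℝ)) := by
    exact_mod_cast h2
  rw [cast1] at h3
  have h4 : (0 : ℝ) < 4 ^ (r * k) := by positivity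
  refine le_of_mul_le_mul_right (h3.trans (le_of_eq ?_)) h4
  ring

/-- the moments -/
theorem moments (hNG : S_NG) (hGN : S_GN) (hGD : S_GD) (hCT : S_CT) (hIN : S_IN) (k : ℕ) {η : ℝ}
    (hη : 0 < η) : ∃ r0 : ℕ, ∀ r : ℕ, r0 ≤ r → ∀ δ : Fin r → ZMod 2, ∑ i, δ i = 0 →
    ∀ κ lam : ZMod 2,
    ((∑ B : Bm r, YY δ κ lam k B ^ 2 : ℕ) : ℝ) ≤
      (Nat.card (Bm r) : ℝ) * (4 ^ r) ^ 2 * (Tk k ^ 2 + η) ∧
    ((∑ B : Bm r, YY δ κ lam k B : ℕ) : ℝ) ≤ (Nat.card (Bm r) : ℝ) * 4 ^ r * (Tk k + η) ∧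
    (Nat.card (Bm r) : ℝ) * 4 ^ r * (Tk k - η) ≤ ((∑ B : Bm r, YY δ κ lam k B : ℕ) : ℝ) ∧
    ((∑ B : Bm r, ZZ δ κ lam k B : ℕ) : ℝ) ≤ (Nat.card (Bm r) : ℝ) * 4 ^ r * η := by
  have t : ∀ (c : ℝ) (j : ℕ), ∀ᶠ r : ℕ in atTop, c * qk j ^ r < η := by
    intro c j
    have h1 : Tendsto (fun r : ℕ => c * qk j ^ r) atTop (nhds (c * 0)) :=
      (tendsto_pow_atTop_nhds_zero_of_lt_one (qk_nonneg j) (qk_lt j)).const_mul c
    rw [mul_zero] at h1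
    exact h1.eventually (gt_mem_nhds hη)
  obtain ⟨r0, hr0⟩ := eventually_atTop.1 (((t (2 ^ (16 ^ (k * 2))) (k * 2)).and
    (t (2 ^ (16 ^ k)) k)).and (t (Tk k * 4 ^ k) k))
  refine ⟨r0, fun r hr δ hδ κ lam => ?_⟩
  obtain ⟨⟨h1, h2⟩, h3⟩ := hr0 r hr
  have hb : (0 : ℝ) ≤ (Nat.card (Bm r) : ℝ) * 4 ^ r := by positivity
  have hb2 : (0 : ℝ) ≤ (Nat.card (Bm r) : ℝ) * (4 ^ r) ^ 2 := by positivity
  refine ⟨?_, ?_, ?_, ?_⟩
  · exact (up2 hNG hGN hCT hIN k r δ κ lam).trans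
      (mul_le_mul_of_nonneg_left (by linarith) hb2)
  · exact (up1 hNG hGN hCT hIN k r δ κ lam).trans
      (mul_le_mul_of_nonneg_left (by linarith) hb)
  · exact (mul_le_mul_of_nonneg_left (by linarith) hb).trans
      (lo1 hGN hGD hCT hIN k r δ hδ κ lam)
  · exact (zz1 hNG hCT k r δ κ lam).trans (mul_le_mul_of_nonneg_left h2.le hb)

/-- Markov's inequality -/
theorem markov {A : Type} [Fintype A] (f : A → ℝ) (hf : ∀ a, 0 ≤ f a) {t : ℝ} :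
    t * (({a | t < f a}.ncard : ℕ) : ℝ) ≤ ∑ a, f a := by
  classical
  rw [nc, Nat.cast_sum, mul_sum]
  refine sum_le_sum fun a _ => ?_
  by_cases h : t < f a
  · rw [if_pos h]
    push_cast
    linarith
  · rw [if_neg h]
    push_cast
    rw [mul_zero]
    exact hf a

/-- almost all matrices -/
theorem almost (hNG : S_NG) (hGN : S_GN) (hGD : S_GD) (hCT : S_CT) (hIN : S_IN) (k : ℕ) {ε : ℝ}
    (hε : 0 < ε) : ∃ r0 : ℕ, ∀ r : ℕ, r0 ≤ r → ∀ δ : Fin r → ZMod 2, ∑ i, δ i = 0 →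
    ∀ κ lam : ZMod 2, ∃ Bad : Set (Bm r), (Bad.ncard : ℝ) ≤ ε * (Nat.card (Bm r) : ℝ) ∧
      ∀ B : Bm r, B ∉ Bad → |(YY δ κ lam k B : ℝ) - Tk k * 4 ^ r| ≤ ε * 4 ^ r ∧
        (ZZ δ κ lam k B : ℝ) ≤ ε * 4 ^ r := by
  have hT : 0 < Tk k := by unfold Tk; positivity
  obtain ⟨η, hη⟩ : ∃ η : ℝ, η = min (ε ^ 3 / (2 * (1 + 2 * Tk k))) (ε ^ 2 / 2) := ⟨_, rfl⟩
  have hη0 : 0 < η := by
    rw [hη]
    exact lt_min (by positivity) (by positivity)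
  obtain ⟨r0, hr0⟩ := moments hNG hGN hGD hCT hIN k hη0
  refine ⟨r0, fun r hr δ hδ κ lam => ?_⟩
  obtain ⟨m1, m2, m3, m4⟩ := hr0 r hr δ hδ κ lam
  obtain ⟨M, hM⟩ : ∃ M : ℝ, M = 4 ^ r := ⟨_, rfl⟩
  have hM0 : 0 < M := by rw [hM]; positivity
  obtain ⟨b, hb⟩ : ∃ b : ℝ, b = (Nat.card (Bm r) : ℝ) := ⟨_, rfl⟩
  have hb0 : 0 ≤ b := by rw [hb]; exact Nat.cast_nonneg _
  obtain ⟨T, hTT⟩ : ∃ T : ℝ, T = Tk k := ⟨_, rfl⟩
  rw [← hM, ← hb] at m1 m2 m3 m4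
  rw [← hTT] at m1 m2 m3
  rw [← hTT] at hT hη
  rw [← hM, ← hb, ← hTT]
  have hsum : ∑ B : Bm r, ((YY δ κ lam k B : ℝ) - T * M) ^ 2 ≤ b * M ^ 2 * (η * (1 + 2 * T)) := by
    have e1 : ∀ B : Bm r, ((YY δ κ lam k B : ℝ) - T * M) ^ 2 =
        ((YY δ κ lam k B ^ 2 : ℕ) : ℝ) - 2 * T * M * (YY δ κ lam k B : ℝ) + (T * M) ^ 2 := by
      intro B
      push_cast
      ring
    rw [sum_congr rfl fun B _ => e1 B, sum_add_distrib, sum_sub_distrib, ← mul_sum, sum_const,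
      card_univ, nsmul_eq_mul, ← Nat.card_eq_fintype_card, ← hb, ← Nat.cast_sum, ← Nat.cast_sum]
    have h1 : 2 * T * M * (b * M * (T - η)) ≤
        2 * T * M * ((∑ B : Bm r, YY δ κ lam k B : ℕ) : ℝ) :=
      mul_le_mul_of_nonneg_left m3 (by positivity)
    nlinarith
  have hs1 := markov (fun B : Bm r => ((YY δ κ lam k B : ℝ) - T * M) ^ 2)
    (fun B => sq_nonneg _) (t := (ε * M) ^ 2)
  have hs2 := markov (fun B : Bm r => (ZZ δ κ lam k B : ℝ))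
    (fun B => Nat.cast_nonneg _) (t := ε * M)
  have hη1 : η * (1 + 2 * T) ≤ ε ^ 3 / 2 := by
    have : η ≤ ε ^ 3 / (2 * (1 + 2 * T)) := by rw [hη]; exact min_le_left _ _
    calc η * (1 + 2 * T) ≤ ε ^ 3 / (2 * (1 + 2 * T)) * (1 + 2 * T) :=
          mul_le_mul_of_nonneg_right this (by positivity)
      _ = ε ^ 3 / 2 := by
          have : (1 + 2 * T) ≠ 0 := by positivity
          field_simp
  have hη2 : η ≤ ε ^ 2 / 2 := by rw [hη]; exact min_le_right _ _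
  have hB1 : (({B : Bm r | (ε * M) ^ 2 < ((YY δ κ lam k B : ℝ) - T * M) ^ 2}.ncard : ℕ) : ℝ) ≤
      ε / 2 * b := by
    have h1 := hs1.trans hsum
    have h2 : b * M ^ 2 * (η * (1 + 2 * T)) ≤ b * M ^ 2 * (ε ^ 3 / 2) :=
      mul_le_mul_of_nonneg_left hη1 (by positivity)
    have h3 : (0 : ℝ) < (ε * M) ^ 2 := by positivity
    refine le_of_mul_le_mul_left ((h1.trans h2).trans (le_of_eq ?_)) h3
    ring
  have hB2 : (({B : Bm r | ε * M < (ZZ δ κ lam k B : ℝ)}.ncard : ℕ) : ℝ) ≤ ε / 2 * b := by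
    rw [Nat.cast_sum] at m4
    have h1 := hs2.trans m4
    have h2 : b * M * η ≤ b * M * (ε ^ 2 / 2) := mul_le_mul_of_nonneg_left hη2 (by positivity)
    have h3 : (0 : ℝ) < ε * M := by positivity
    refine le_of_mul_le_mul_left ((h1.trans h2).trans (le_of_eq ?_)) h3
    ring
  refine ⟨{B : Bm r | (ε * M) ^ 2 < ((YY δ κ lam k B : ℝ) - T * M) ^ 2} ∪
    {B : Bm r | ε * M < (ZZ δ κ lam k B : ℝ)}, ?_, ?_⟩
  · have h1 : (({B : Bm r | (ε * M) ^ 2 < ((YY δ κ lam k B : ℝ) - T * M) ^ 2} ∪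
        {B : Bm r | ε * M < (ZZ δ κ lam k B : ℝ)}).ncard : ℝ) ≤
        (({B : Bm r | (ε * M) ^ 2 < ((YY δ κ lam k B : ℝ) - T * M) ^ 2}.ncard : ℕ) : ℝ) +
        (({B : Bm r | ε * M < (ZZ δ κ lam k B : ℝ)}.ncard : ℕ) : ℝ) := by
      exact_mod_cast Set.ncard_union_le _ _
    linarith
  · intro B hB
    rw [Set.mem_union, not_or, Set.mem_setOf_eq, Set.mem_setOf_eq, not_lt, not_lt] at hB
    exact ⟨abs_le_of_sq_le_sq hB.1 (by positivity), hB.2⟩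

end Pool.Agent.D0H99.OD
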