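import Pool.Agent.D0H99.OD.MomS
import Pool.Agent.D0H99.OD.Conf

/-!
All moments of the number of solutions with a fixed small block: the asymptotics and the law.
-/

set_option autoImplicit false
set_option linter.all false

open Filter

namespace Pool.Agent.D0H99.OD

open Finset
open Pool.Agent.D0H99.RM (V X sy cst)

theorem castS (k r s : ℕ) (hs : s ≤ r) :
    ((2 ^ (16 ^ k) * (4 ^ k - 1) ^ (r - s) * 16 ^ (k * s) : ℕ) : ℝ) =
      2 ^ (16 ^ k) * 4 ^ (k * s) * qk k ^ (r - s) * 4 ^ (r * k) := by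
  rw [Nat.cast_mul, Nat.cast_mul, cast1]
  push_cast
  have h1 : (16 : ℝ) ^ (k * s) = 4 ^ (k * s) * 4 ^ (k * s) := by
    rw [← mul_pow]
    norm_num
  have h2 : (4 : ℝ) ^ (r * k) = 4 ^ ((r - s) * k) * 4 ^ (k * s) := by
    rw [← pow_add]
    congr 1
    rw [mul_comm k s, ← add_mul, Nat.sub_add_cancel hs]
  rw [h1, h2]
  ring

theorem castS' (k r s : ℕ) (hs : s ≤ r) :
    ((4 ^ k * ((4 ^ k - 1) ^ (r - s) * (4 ^ k) ^ s) : ℕ) : ℝ) =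
      4 ^ k * qk k ^ (r - s) * 4 ^ (r * k) := by
  rw [Nat.cast_mul, Nat.cast_mul, cast1]
  push_cast
  have h2 : (4 : ℝ) ^ (r * k) = 4 ^ ((r - s) * k) * (4 ^ k) ^ s := by
    rw [← pow_mul, ← pow_add]
    congr 1
    rw [mul_comm k s, ← add_mul, Nat.sub_add_cancel hs]
  rw [h2]
  ring

open Classical in
theorem momentsS (hNG2 : S_NG2) (hGN : S_GN) (hGD : S_GD) (hGN2 : S_GN2) (hCT2 : S_CT2)
    (hIN : S_IN) (k s0 : ℕ) {η : ℝ} (hη : 0 < η) : ∃ t0 : ℕ, ∀ r s : ℕ, s ≤ s0 → s ≤ r →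
    t0 ≤ r - s → ∀ (β : Bm r) (π : Fin r → V 2 2) (δ : Fin r → ZMod 2), ∑ i, δ i = 0 →
    ∀ κ lam : ZMod 2,
    ((∑ B : Bm r with B ∈ BS s β, YS s π δ κ lam k B ^ 2 : ℕ) : ℝ) ≤
      ((BS s β).ncard : ℝ) * ((PS s π).ncard : ℝ) ^ 2 * (Tk k ^ 2 + η) ∧
    ((BS s β).ncard : ℝ) * ((PS s π).ncard : ℝ) * (Tk k - η) ≤
      ((∑ B : Bm r with B ∈ BS s β, YS s π δ κ lam k B : ℕ) : ℝ) ∧
    ((∑ B : Bm r with B ∈ BS s β, ZS s π δ κ lam k B : ℕ) : ℝ) ≤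
      ((BS s β).ncard : ℝ) * ((PS s π).ncard : ℝ) * η := by
  have t : ∀ (c : ℝ) (j : ℕ), ∀ᶠ r : ℕ in atTop, c * qk j ^ r < η := by
    intro c j
    have h1 : Tendsto (fun r : ℕ => c * qk j ^ r) atTop (nhds (c * 0)) :=
      (tendsto_pow_atTop_nhds_zero_of_lt_one (qk_nonneg j) (qk_lt j)).const_mul c
    rw [mul_zero] at h1
    exact h1.eventually (gt_mem_nhds hη)
  obtain ⟨t0, ht0⟩ := eventually_atTop.1
    (((t (2 ^ (16 ^ (k * 2)) * 4 ^ (k * 2 * s0)) (k * 2)).and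
    (t (2 ^ (16 ^ k) * 4 ^ (k * s0)) k)).and (t (Tk k * 4 ^ k) k))
  refine ⟨t0, fun r s hs0 hs ht β π δ hδ κ lam => ?_⟩
  obtain ⟨⟨h1, h2⟩, h3⟩ := ht0 (r - s) ht
  obtain ⟨b, hb⟩ : ∃ b : ℝ, b = ((BS s β).ncard : ℝ) := ⟨_, rfl⟩
  obtain ⟨M, hM⟩ : ∃ M : ℝ, M = ((PS s π).ncard : ℝ) := ⟨_, rfl⟩
  have hb0 : 0 ≤ b := by rw [hb]; exact Nat.cast_nonneg _
  have hM0 : 0 ≤ M := by rw [hM]; exact Nat.cast_nonneg _
  have hq := qk_nonneg k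
  have hq2 := qk_nonneg (k * 2)
  refine ⟨?_, ?_, ?_⟩
  · have g1 := pow_sumS hIN (Fin 2) k r s β π δ κ lam
    have g2 := totalS_le hNG2 hGN2 hGN hCT2 (Fin 2) k r s hs β π δ κ lam
    rw [← g1] at g2
    simp only [Fintype.card_fin] at g2
    have g3 : ((∑ B : Bm r with B ∈ BS s β, YS s π δ κ lam k B ^ 2 : ℕ) : ℝ) *
        4 ^ (r * (k * 2)) ≤ b * M ^ 2 * (4 ^ (r * (k * 2)) * 2 ^ (2 * (k * (k + 1) / 2)) +
          ((2 ^ (16 ^ (k * 2)) * (4 ^ (k * 2) - 1) ^ (r - s) * 16 ^ (k * 2 * s) : ℕ) : ℝ)) := by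
      rw [hb, hM]
      exact_mod_cast g2
    rw [castS _ _ _ hs] at g3
    have g4 : (0 : ℝ) < 4 ^ (r * (k * 2)) := by positivity
    rw [← hb, ← hM]
    have g5 : (2 : ℝ) ^ (2 * (k * (k + 1) / 2)) = Tk k ^ 2 := by
      unfold Tk
      rw [← pow_mul, mul_comm]
    have g6 : (4 : ℝ) ^ (k * 2 * s) ≤ 4 ^ (k * 2 * s0) :=
      pow_le_pow_right₀ (by norm_num) (Nat.mul_le_mul_left _ hs0)
    have g7 : (2 : ℝ) ^ (16 ^ (k * 2)) * 4 ^ (k * 2 * s) * qk (k * 2) ^ (r - s) ≤ η := by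
      refine le_trans ?_ h1.le
      exact mul_le_mul_of_nonneg_right (mul_le_mul_of_nonneg_left g6 (by positivity))
        (pow_nonneg hq2 _)
    refine le_of_mul_le_mul_right (g3.trans ?_) g4
    rw [g5]
    have g8 : b * M ^ 2 * (4 ^ (r * (k * 2)) * Tk k ^ 2 +
        2 ^ (16 ^ (k * 2)) * 4 ^ (k * 2 * s) * qk (k * 2) ^ (r - s) * 4 ^ (r * (k * 2))) =
        b * M ^ 2 * (Tk k ^ 2 + 2 ^ (16 ^ (k * 2)) * 4 ^ (k * 2 * s) * qk (k * 2) ^ (r - s)) *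
          4 ^ (r * (k * 2)) := by ring
    rw [g8]
    apply mul_le_mul_of_nonneg_right _ g4.le
    apply mul_le_mul_of_nonneg_left _ (by positivity)
    linarith
  · have g2 := lowS hGN hGD hGN2 hCT2 hIN (Fin 1) (Fintype.card_fin 1) k r s hs β π δ hδ κ lam
    have g3 : b * M * 4 ^ (r * k) * Tk k ≤
        ((∑ B : Bm r with B ∈ BS s β, YS s π δ κ lam k B : ℕ) : ℝ) * 4 ^ (r * k) +
          b * M * Tk k * ((4 ^ k * ((4 ^ k - 1) ^ (r - s) * (4 ^ k) ^ s) : ℕ) : ℝ) := by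
      rw [hb, hM]
      unfold Tk
      exact_mod_cast g2
    rw [castS' _ _ _ hs] at g3
    have g4 : (0 : ℝ) < 4 ^ (r * k) := by positivity
    rw [← hb, ← hM]
    refine le_of_mul_le_mul_right ?_ g4
    have g5 : b * M * (Tk k - η) * 4 ^ (r * k) ≤ b * M * (Tk k - Tk k * 4 ^ k * qk k ^ (r - s)) *
        4 ^ (r * k) := by
      apply mul_le_mul_of_nonneg_right _ g4.le
      apply mul_le_mul_of_nonneg_left _ (by positivity)
      linarith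
    refine g5.trans ?_
    have g6 : b * M * (Tk k - Tk k * 4 ^ k * qk k ^ (r - s)) * 4 ^ (r * k) =
        b * M * 4 ^ (r * k) * Tk k - b * M * Tk k * (4 ^ k * qk k ^ (r - s) * 4 ^ (r * k)) := by
      ring
    rw [g6]
    linarith
  · have g2 := sum_ZS hNG2 hCT2 (Fin 1) 0 (fun i => Subsingleton.elim _ _) (Fintype.card_fin 1) k r s
      hs β π δ κ lam
    have g3 : ((∑ B : Bm r with B ∈ BS s β, ZS s π δ κ lam k B : ℕ) : ℝ) * 4 ^ (r * k) ≤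
        b * M * ((2 ^ (16 ^ k) * (4 ^ k - 1) ^ (r - s) * 16 ^ (k * s) : ℕ) : ℝ) := by
      rw [hb, hM]
      exact_mod_cast g2
    rw [castS _ _ _ hs] at g3
    have g4 : (0 : ℝ) < 4 ^ (r * k) := by positivity
    rw [← hb, ← hM]
    have g6 : (4 : ℝ) ^ (k * s) ≤ 4 ^ (k * s0) :=
      pow_le_pow_right₀ (by norm_num) (Nat.mul_le_mul_left _ hs0)
    have g7 : (2 : ℝ) ^ (16 ^ k) * 4 ^ (k * s) * qk k ^ (r - s) ≤ η := by
      refine le_trans ?_ h2.le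
      exact mul_le_mul_of_nonneg_right (mul_le_mul_of_nonneg_left g6 (by positivity))
        (pow_nonneg hq _)
    refine le_of_mul_le_mul_right (g3.trans ?_) g4
    have g8 : b * M * (2 ^ (16 ^ k) * 4 ^ (k * s) * qk k ^ (r - s) * 4 ^ (r * k)) =
        b * M * (2 ^ (16 ^ k) * 4 ^ (k * s) * qk k ^ (r - s)) * 4 ^ (r * k) := by ring
    rw [g8]
    apply mul_le_mul_of_nonneg_right _ g4.le
    exact mul_le_mul_of_nonneg_left g7 (by positivity)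

open Classical in
/-- Markov's inequality -/
theorem markovS {A : Type} [Fintype A] (S : Set A) (f : A → ℝ) (hf : ∀ a, 0 ≤ f a) {t : ℝ} :
    t * (({a | a ∈ S ∧ t < f a}.ncard : ℕ) : ℝ) ≤ ∑ a with a ∈ S, f a := by
  rw [nc, Nat.cast_sum, mul_sum, sum_filter]
  refine sum_le_sum fun a _ => ?_
  by_cases hS : a ∈ S
  · by_cases h : t < f a
    · rw [if_pos ⟨hS, h⟩, if_pos hS]
      push_cast
      linarith
    · rw [if_neg (fun h' => h h'.2), if_pos hS]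
      push_cast
      rw [mul_zero]
      exact hf a
  · rw [if_neg (fun h' => hS h'.1), if_neg hS]
    push_cast
    rw [mul_zero]

theorem PS_pos (s : ℕ) {r : ℕ} (π : Fin r → V 2 2) : 0 < (PS s π).ncard :=
  (Set.ncard_pos (Set.toFinite _)).2 ⟨π, fun _ _ => rfl⟩

theorem BS_pos (s : ℕ) {r : ℕ} (β : Bm r) : 0 < (BS s β).ncard :=
  (Set.ncard_pos (Set.toFinite _)).2 ⟨β, fun _ _ => rfl⟩

theorem almostS (hNG2 : S_NG2) (hGN : S_GN) (hGD : S_GD) (hGN2 : S_GN2) (hCT2 : S_CT2)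
    (hIN : S_IN) (k s0 : ℕ) {ε : ℝ} (hε : 0 < ε) : ∃ t0 : ℕ, ∀ r s : ℕ, s ≤ s0 → s ≤ r →
    t0 ≤ r - s → ∀ (β : Bm r) (π : Fin r → V 2 2) (δ : Fin r → ZMod 2), ∑ i, δ i = 0 →
    ∀ κ lam : ZMod 2, ∃ Bad : Set (Bm r), (Bad.ncard : ℝ) ≤ ε * ((BS s β).ncard : ℝ) ∧
      ∀ B ∈ BS s β, B ∉ Bad →
        |(YS s π δ κ lam k B : ℝ) - Tk k * ((PS s π).ncard : ℝ)| ≤ ε * ((PS s π).ncard : ℝ) ∧
        (ZS s π δ κ lam k B : ℝ) ≤ ε * ((PS s π).ncard : ℝ) := by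
  classical
  have hT : 0 < Tk k := by unfold Tk; positivity
  obtain ⟨η, hη⟩ : ∃ η : ℝ, η = min (ε ^ 3 / (2 * (1 + 2 * Tk k))) (ε ^ 2 / 2) := ⟨_, rfl⟩
  have hη0 : 0 < η := by
    rw [hη]
    exact lt_min (by positivity) (by positivity)
  obtain ⟨t0, ht0⟩ := momentsS hNG2 hGN hGD hGN2 hCT2 hIN k s0 hη0
  refine ⟨t0, fun r s hs0 hs ht β π δ hδ κ lam => ?_⟩
  obtain ⟨m1, m3, m4⟩ := ht0 r s hs0 hs ht β π δ hδ κ lam
  have hMp := PS_pos s π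
  obtain ⟨M, hM⟩ : ∃ M : ℝ, M = ((PS s π).ncard : ℝ) := ⟨_, rfl⟩
  have hM0 : 0 < M := by rw [hM]; exact_mod_cast hMp
  obtain ⟨b, hb⟩ : ∃ b : ℝ, b = ((BS s β).ncard : ℝ) := ⟨_, rfl⟩
  have hb0 : 0 ≤ b := by rw [hb]; exact Nat.cast_nonneg _
  obtain ⟨T, hTT⟩ : ∃ T : ℝ, T = Tk k := ⟨_, rfl⟩
  rw [← hM, ← hb] at m1 m3 m4
  rw [← hTT] at m1 m3
  rw [← hTT] at hT hη
  rw [← hM, ← hb, ← hTT]
  have hbc : ((univ.filter fun B : Bm r => B ∈ BS s β).card : ℝ) = b := by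
    rw [hb, ← Set.ncard_coe_finset]
    congr 2
    ext B
    simp
  have hsum : ∑ B : Bm r with B ∈ BS s β, ((YS s π δ κ lam k B : ℝ) - T * M) ^ 2 ≤
      b * M ^ 2 * (η * (1 + 2 * T)) := by
    have e1 : ∀ B : Bm r, ((YS s π δ κ lam k B : ℝ) - T * M) ^ 2 =
        ((YS s π δ κ lam k B ^ 2 : ℕ) : ℝ) - 2 * T * M * (YS s π δ κ lam k B : ℝ) +
          (T * M) ^ 2 := by
      intro B
      push_cast
      ring
    rw [sum_congr rfl fun B _ => e1 B, sum_add_distrib, sum_sub_distrib, ← mul_sum, sum_const,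
      nsmul_eq_mul, hbc, ← Nat.cast_sum, ← Nat.cast_sum]
    have h1 : 2 * T * M * (b * M * (T - η)) ≤
        2 * T * M * ((∑ B : Bm r with B ∈ BS s β, YS s π δ κ lam k B : ℕ) : ℝ) :=
      mul_le_mul_of_nonneg_left m3 (by positivity)
    nlinarith
  have hs1 := markovS (BS s β) (fun B : Bm r => ((YS s π δ κ lam k B : ℝ) - T * M) ^ 2)
    (fun B => sq_nonneg _) (t := (ε * M) ^ 2)
  have hs2 := markovS (BS s β) (fun B : Bm r => (ZS s π δ κ lam k B : ℝ))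
    (fun B => Nat.cast_nonneg _) (t := ε * M)
  have hη1 : η * (1 + 2 * T) ≤ ε ^ 3 / 2 := by
    have : η ≤ ε ^ 3 / (2 * (1 + 2 * T)) := by rw [hη]; exact min_le_left _ _
    calc η * (1 + 2 * T) ≤ ε ^ 3 / (2 * (1 + 2 * T)) * (1 + 2 * T) :=
          mul_le_mul_of_nonneg_right this (by positivity)
      _ = ε ^ 3 / 2 := by
          have : (1 + 2 * T) ≠ 0 := by positivity
          field_simp
  have hη2 : η ≤ ε ^ 2 / 2 := by rw [hη]; exact min_le_right _ _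
  have hB1 : (({B : Bm r | B ∈ BS s β ∧
      (ε * M) ^ 2 < ((YS s π δ κ lam k B : ℝ) - T * M) ^ 2}.ncard : ℕ) : ℝ) ≤ ε / 2 * b := by
    have h1 := hs1.trans hsum
    have h2 : b * M ^ 2 * (η * (1 + 2 * T)) ≤ b * M ^ 2 * (ε ^ 3 / 2) :=
      mul_le_mul_of_nonneg_left hη1 (by positivity)
    have h3 : (0 : ℝ) < (ε * M) ^ 2 := by positivity
    refine le_of_mul_le_mul_left ((h1.trans h2).trans (le_of_eq ?_)) h3
    ring
  have hB2 : (({B : Bm r | B ∈ BS s β ∧ ε * M < (ZS s π δ κ lam k B : ℝ)}.ncard : ℕ) : ℝ) ≤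
      ε / 2 * b := by
    rw [Nat.cast_sum] at m4
    have h1 := hs2.trans m4
    have h2 : b * M * η ≤ b * M * (ε ^ 2 / 2) := mul_le_mul_of_nonneg_left hη2 (by positivity)
    have h3 : (0 : ℝ) < ε * M := by positivity
    refine le_of_mul_le_mul_left ((h1.trans h2).trans (le_of_eq ?_)) h3
    ring
  refine ⟨{B : Bm r | B ∈ BS s β ∧ (ε * M) ^ 2 < ((YS s π δ κ lam k B : ℝ) - T * M) ^ 2} ∪
    {B : Bm r | B ∈ BS s β ∧ ε * M < (ZS s π δ κ lam k B : ℝ)}, ?_, ?_⟩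
  · have h1 : (({B : Bm r | B ∈ BS s β ∧
        (ε * M) ^ 2 < ((YS s π δ κ lam k B : ℝ) - T * M) ^ 2} ∪
        {B : Bm r | B ∈ BS s β ∧ ε * M < (ZS s π δ κ lam k B : ℝ)}).ncard : ℝ) ≤
        (({B : Bm r | B ∈ BS s β ∧
          (ε * M) ^ 2 < ((YS s π δ κ lam k B : ℝ) - T * M) ^ 2}.ncard : ℕ) : ℝ) +
        (({B : Bm r | B ∈ BS s β ∧ ε * M < (ZS s π δ κ lam k B : ℝ)}.ncard : ℕ) : ℝ) := by
      exact_mod_cast Set.ncard_union_le _ _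
    linarith
  · intro B hBS hB
    rw [Set.mem_union, not_or, Set.mem_setOf_eq, Set.mem_setOf_eq] at hB
    obtain ⟨hB1', hB2'⟩ := hB
    have g1 : ¬ (ε * M) ^ 2 < ((YS s π δ κ lam k B : ℝ) - T * M) ^ 2 := fun h => hB1' ⟨hBS, h⟩
    have g2 : ¬ ε * M < (ZS s π δ κ lam k B : ℝ) := fun h => hB2' ⟨hBS, h⟩
    rw [not_lt] at g1 g2
    exact ⟨abs_le_of_sq_le_sq g1 (by positivity), g2⟩

end Pool.Agent.D0H99.OD
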