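import Pool.Agent.D0H99.OD.Tri

/-!
Explicit 2-descent for twists by primes of any degrees: the classes of the points satisfy the local
conditions (adapted from `Pool.Agent.D0H99.DE.Loc2`).
-/

set_option autoImplicit false
set_option linter.all false

open Polynomial IsDedekindDomain

namespace Pool.Agent.D0H99.OD

open Finset
open Pool.Agent.Y164.SZ
open Pool.Agent.Y713.SE (hp Pw not_pw_exp pw_exp_pow val_hp_self)
open Pool.Agent.D0H99.FT (br nu cs)
open Pool.Agent.D0H99.RM (V Sol)
open Pool.Agent.D0H99.DE (tx tp th th_ne rt tors LSq LSq.mul good_pt node_pt twist_pt lsq_sq lsq_of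
  pi_lt rt_sub fin3_cases er0 er1 er2 tors_self0 tors_self1 tors_self2 tors_ne nu_th th_cases er_pair)

section
variable {k : Type} [Field k] [Fintype k] [DecidableEq k]
variable {K : Type} [Field K] [Algebra k[X] K] [IsFractionRing k[X] K]
variable {c : Fin 2 → k} {g : k[X]} {P : Fin 2 → k[X]} {r : ℕ} {T : Fin r → k[X]}

theorem val_rt (H : Dtc 2 c g P T (fun _ => 1)) (x : Fin r ⊕ Fin 2) {i j : Fin 3} (h : i ≠ j) :
    (hp (Sum.elim T P x) (H.fam.irr x)).valuation K (rt K c g T i - rt K c g T j) =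
      (WithZero.exp (-1 : ℤ) : WithZero (Multiplicative ℤ)) ^ (Sum.elim (fun _ => 1) (nu i j) x : ℕ) := by
  have h1 := H.val_del (K := K) (r := 1) one_ne_zero x
  rw [rt_sub, map_mul, H.val_diff x h, h1]
  rcases x with x | s
  · simp
  · simp

theorem val_rt_T (H : Dtc 2 c g P T (fun _ => 1)) (x : Fin r) {i j : Fin 3} (h : i ≠ j) :
    (hp (Sum.elim T P (Sum.inl x)) (H.fam.irr (Sum.inl x))).valuation K
      (rt K c g T i - rt K c g T j) = (WithZero.exp (-1 : ℤ) : WithZero (Multiplicative ℤ)) := by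
  rw [val_rt H (Sum.inl x) h]
  simp

theorem val_rt_P (H : Dtc 2 c g P T (fun _ => 1)) (s : Fin 2) {i j : Fin 3} (h : i ≠ j) :
    (hp (Sum.elim T P (Sum.inr s)) (H.fam.irr (Sum.inr s))).valuation K
      (rt K c g T i - rt K c g T j) = (WithZero.exp (-1 : ℤ) : WithZero (Multiplicative ℤ)) ^ (nu i j s) := by
  rw [val_rt H (Sum.inr s) h]
  simp

theorem val_rt_good (H : Dtc 2 c g P T (fun _ => 1)) {v : HeightOneSpectrum k[X]}
    (hv : ∀ x, Sum.elim T P x ∉ v.asIdeal) {i j : Fin 3} (h : i ≠ j) :
    v.valuation K (rt K c g T i - rt K c g T j) = 1 := by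
  have h1 := Dtc.val_del_one (K := K) (P := P) (T := T) (t := fun _ => 1) (r := 1) one_ne_zero hv
  rw [rt_sub, map_mul, H.val_diff_one hv h, h1, one_mul]

theorem sel_pt (H : Dtc 2 c g P T (fun _ => 1)) {x y : K} (hy0 : y ≠ 0)
    (hy : (x - rt K c g T 0) * (x - rt K c g T 1) * (x - rt K c g T 2) = y ^ 2) :
    Sel H (fun i => x - rt K c g T i) := by
  have hne : ∀ i, x - rt K c g T i ≠ 0 := by
    apply fin3_cases
    · intro h
      rw [h, zero_mul, zero_mul] at hy
      exact pow_ne_zero 2 hy0 hy.symm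
    · intro h
      rw [h, mul_zero, zero_mul] at hy
      exact pow_ne_zero 2 hy0 hy.symm
    · intro h
      rw [h, mul_zero] at hy
      exact pow_ne_zero 2 hy0 hy.symm
  refine ⟨hne, ⟨y, hy0, hy⟩, ?_, ?_, ?_⟩
  · intro v hv
    apply fin3_cases
    · exact good_pt v (val_rt_good H hv (by decide)) (val_rt_good H hv (by decide)) (hne 0) hy
    · exact good_pt v (e1 := rt K c g T 0) (e2 := rt K c g T 2) (y := y)
        (val_rt_good H hv (by decide)) (val_rt_good H hv (by decide)) (hne 1)
        (by rw [← hy]; ring)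
    · exact good_pt v (e1 := rt K c g T 0) (e2 := rt K c g T 1) (y := y)
        (val_rt_good H hv (by decide)) (val_rt_good H hv (by decide)) (hne 2)
        (by rw [← hy]; ring)
  · intro s
    have hP : (hp (Sum.elim T P (Sum.inr s)) (H.fam.irr (Sum.inr s))).valuation K
        (algebraMap k[X] K (P s)) = (WithZero.exp (-1 : ℤ) : WithZero (Multiplicative ℤ)) := val_hp_self _
    rcases (show s = 0 ∨ s = 1 by fin_cases s <;> simp) with rfl | rfl
    · refine node_pt _ (e1 := rt K c g T 1) (y := y) hP ?_ ?_ (hne 0) (hne 1) (hne 2) hy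
      · rw [val_rt_P H 0 (by decide), show nu (0 : Fin 3) 1 (0 : Fin 2) = 1 by decide, pow_one]
      · change (hp (Sum.elim T P (Sum.inr 0)) (H.fam.irr (Sum.inr 0))).valuation K
          (rt K c g T 0 - rt K c g T 2) = 1
        rw [val_rt_P H 0 (by decide), show nu (0 : Fin 3) 2 (0 : Fin 2) = 0 by decide, pow_zero]
    · refine node_pt _ (e1 := rt K c g T 2) (y := y) hP ?_ ?_ (hne 0) (hne 2) (hne 1)
        (by rw [← hy]; change _ * _ * (x - rt K c g T 1) = _; ring)
      · rw [val_rt_P H 1 (by decide), show nu (0 : Fin 3) 2 (1 : Fin 2) = 1 by decide, pow_one]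
      · change (hp (Sum.elim T P (Sum.inr 1)) (H.fam.irr (Sum.inr 1))).valuation K
          (rt K c g T 0 - rt K c g T 1) = 1
        rw [val_rt_P H 1 (by decide), show nu (0 : Fin 3) 1 (1 : Fin 2) = 0 by decide, pow_zero]
  · intro z
    exact twist_pt _ (fun i j hij => val_rt_T H z hij) hne hy

theorem sel_tors (H : Dtc 2 c g P T (fun _ => 1)) (i : Fin 3) :
    Sel (K := K) H (tors K c g T i) := by
  have hne : ∀ j, tors K c g T i j ≠ 0 := by
    intro j
    unfold tors
    split_ifs with h
    · exact prod_ne_zero_iff.2 fun l hl => rt_ne H (ne_of_mem_erase hl).symm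
    · exact rt_ne H (Ne.symm h)
  refine ⟨hne, ?_, ?_, ?_, ?_⟩
  · refine ⟨tors K c g T i i, hne i, ?_⟩
    revert i
    intro i hne
    rcases (show i = 0 ∨ i = 1 ∨ i = 2 by fin_cases i <;> simp) with rfl | rfl | rfl
    · rw [tors_ne (j := 1) (by decide), tors_ne (j := 2) (by decide), tors_self0]
      ring
    · rw [tors_ne (j := 0) (by decide), tors_ne (j := 2) (by decide), tors_self1]
      ring
    · rw [tors_ne (j := 0) (by decide), tors_ne (j := 1) (by decide), tors_self2]
      ring
  · intro v hv j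
    refine ⟨1, ?_⟩
    rw [one_pow]
    unfold tors
    split_ifs with h
    · rw [map_prod]
      exact prod_eq_one fun l hl => val_rt_good H hv (ne_of_mem_erase hl).symm
    · exact val_rt_good H hv (Ne.symm h)
  · intro s
    have hP : (hp (Sum.elim T P (Sum.inr s)) (H.fam.irr (Sum.inr s))).valuation K
        (algebraMap k[X] K (P s)) = (WithZero.exp (-1 : ℤ) : WithZero (Multiplicative ℤ)) := val_hp_self _
    obtain ⟨v, hv⟩ : ∃ v, v = hp (Sum.elim T P (Sum.inr s)) (H.fam.irr (Sum.inr s)) := ⟨_, rfl⟩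
    rw [← hv] at hP ⊢
    have hval : ∀ a b, a ≠ b → v.valuation K (rt K c g T a - rt K c g T b) = (WithZero.exp (-1 : ℤ) : WithZero (Multiplicative ℤ)) ^ nu a b s := by
      intro a b hab
      rw [hv]
      exact val_rt_P H s hab
    -- the general computations
    obtain ⟨n1, n2, n3, n4, n5, n6⟩ := nu_th s
    have hκ0 : rt K c g T 0 - rt K c g T (th s) ≠ 0 := rt_ne H (th_ne s).1.symm
    have hκ : v.valuation K (rt K c g T 0 - rt K c g T (th s)) = 1 := by
      rw [hval _ _ (th_ne s).1.symm, n1, pow_zero]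
    have hi := th_cases i s
    have hself : ∀ a b d : Fin 3, a ≠ b → a ≠ d → b ≠ d →
        tors K c g T a a = (rt K c g T a - rt K c g T b) * (rt K c g T a - rt K c g T d) := by
      intro a b d hab had hbd
      unfold tors
      rw [if_pos rfl]
      rw [er_pair a b d hab had hbd, prod_pair hbd]
    rcases hi with rfl | rfl | rfl
    · refine ⟨1, ?_, ?_⟩
      · rw [pow_one, tors_ne (th_ne s).1, ← pow_two]
        exact lsq_sq v hκ0
      · rw [pow_one, hself 0 s.succ (th s) (Fin.succ_ne_zero s).symm (th_ne s).1.symm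
          (th_ne s).2.symm, map_mul, map_mul, hP, hκ, hval _ _ (Fin.succ_ne_zero s).symm, n2,
          pow_one, mul_one]
        exact ⟨(WithZero.exp (-1 : ℤ) : WithZero (Multiplicative ℤ)), by rw [pow_two]⟩
    · refine ⟨1, ?_, ?_⟩
      · rw [pow_one, tors_ne (th_ne s).2]
        apply lsq_of v hκ0
        have e3 : rt K c g T s.succ - rt K c g T (th s) -
            (rt K c g T 0 - rt K c g T (th s)) = rt K c g T s.succ - rt K c g T 0 := by ring
        rw [e3, hκ, hval _ _ (Fin.succ_ne_zero s), n3, pow_one]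
        exact pi_lt
      · rw [pow_one, tors_ne (Fin.succ_ne_zero s).symm, map_mul, hP,
          hval _ _ (Fin.succ_ne_zero s), n3, pow_one]
        exact ⟨(WithZero.exp (-1 : ℤ) : WithZero (Multiplicative ℤ)), by rw [pow_two]⟩
    · refine ⟨0, ?_, ?_⟩
      · rw [pow_zero, mul_one, hself (th s) 0 s.succ (th_ne s).1 (th_ne s).2
          (Fin.succ_ne_zero s).symm, mul_comm]
        apply lsq_of v (rt_ne H (th_ne s).1)
        have e3 : rt K c g T (th s) - rt K c g T s.succ -
            (rt K c g T (th s) - rt K c g T 0) = rt K c g T 0 - rt K c g T s.succ := by ring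
        rw [e3, hval _ _ (Fin.succ_ne_zero s).symm, n2, pow_one, hval _ _ (th_ne s).1, n4,
          pow_zero]
        exact pi_lt
      · rw [pow_zero, mul_one, tors_ne (th_ne s).1.symm, hval _ _ (th_ne s).1, n4, pow_zero]
        exact ⟨1, by rw [one_pow]⟩
  · intro x
    refine ⟨Pi.single i 1, fun j => ?_⟩
    have hprod : ∏ i', tors K c g T i' j ^ (Pi.single i 1 : Fin 3 → ℕ) i' = tors K c g T i j := by
      rw [prod_eq_single i]
      · rw [Pi.single_eq_same, pow_one]
      · intro b _ hb
        rw [Pi.single_eq_of_ne hb, pow_zero]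
      · intro hh
        exact absurd (mem_univ _) hh
    rw [hprod, ← pow_two]
    exact lsq_sq _ (hne j)

end

end Pool.Agent.D0H99.OD
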