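import Pool.Agent.D0H99.OD.Mom

/-!
All moments of the number of solutions: the lower bound and the signed sum.
-/

set_option autoImplicit false
set_option linter.all false

open Filter

namespace Pool.Agent.D0H99.OD

open Finset
open Pool.Agent.D0H99.RM (V X sy cst)

theorem surj_ind {C : Type} [Fintype C] {k r : ℕ} {a : Fin r → Wk C k}
    (h : Function.Surjective a) : Ind a := by
  classical
  intro i
  rw [Fintype.linearIndependent_iff]
  intro g hg j
  obtain ⟨x, hx⟩ := h (fun _ j' _ => if j' = j then 1 else 0)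
  have h1 := congrFun (congrFun hg x) 0
  rw [Finset.sum_apply, Finset.sum_apply] at h1
  have h2 : ∀ j', (g j' • fun x => a x i j') x (0 : Fin 2) = if j' = j then g j' else 0 := by
    intro j'
    change g j' * a x i j' 0 = _
    rw [hx]
    dsimp only
    split_ifs
    · rw [mul_one]
    · rw [mul_zero]
  rw [Finset.sum_congr rfl fun j' _ => h2 j', Finset.sum_ite_eq', if_pos (Finset.mem_univ _)] at h1
  exact h1

theorem card_nonsurj (W : Type) [Finite W] (r : ℕ) :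
    {a : Fin r → W | ¬ Function.Surjective a}.ncard ≤ Nat.card W * (Nat.card W - 1) ^ r := by
  classical
  letI := Fintype.ofFinite W
  have h1 : {a : Fin r → W | ¬ Function.Surjective a} ⊆
      ((univ.biUnion fun w : W => Fintype.piFinset fun _ : Fin r => univ.erase w :
        Finset (Fin r → W)) : Set (Fin r → W)) := by
    intro a ha
    rw [Set.mem_setOf_eq, Function.Surjective] at ha
    push Not at ha
    obtain ⟨w, hw⟩ := ha
    rw [mem_coe, mem_biUnion]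
    refine ⟨w, mem_univ _, ?_⟩
    rw [Fintype.mem_piFinset]
    intro x
    exact mem_erase.2 ⟨hw x, mem_univ _⟩
  refine (Set.ncard_le_ncard h1 (Set.toFinite _)).trans ?_
  rw [Set.ncard_coe_finset]
  refine card_biUnion_le.trans ?_
  have h2 : ∀ w : W, (Fintype.piFinset fun _ : Fin r => univ.erase w).card =
      (Nat.card W - 1) ^ r := by
    intro w
    rw [Fintype.card_piFinset, prod_const, card_erase_of_mem (mem_univ _), card_univ, card_univ,
      Fintype.card_fin, Nat.card_eq_fintype_card]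
  rw [sum_congr rfl fun w _ => h2 w, sum_const, card_univ, smul_eq_mul, Nat.card_eq_fintype_card]

/-- no common zero -/
def Nz {k r : ℕ} (a : Fin k → Fin r → V 2 2) : Prop :=
  ∀ (x : Fin r) (s : Fin 2), ∃ j : Fin k, a j x s ≠ 0

/-- surjectivity -/
def SJ {C : Type} {k r : ℕ} (a : Fin r → Wk C k) : Prop := Function.Surjective a

theorem card_SJ (C : Type) [Fintype C] (hC : Fintype.card C = 1) (k r : ℕ) :
    4 ^ (r * k) ≤ {a : Fin r → Wk C k | SJ a}.ncard + 4 ^ k * (4 ^ k - 1) ^ r := by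
  have h7 : {a : Fin r → Wk C k | ¬ SJ a}.ncard ≤ Nat.card (Wk C k) *
      (Nat.card (Wk C k) - 1) ^ r := card_nonsurj (Wk C k) r
  have h8 := card_all C k r
  rw [card_Wk] at h7
  simp only [hC, mul_one] at h7 h8
  have h9 : {a : Fin r → Wk C k | SJ a}.ncard +
      {a : Fin r → Wk C k | ¬ SJ a}.ncard = Nat.card (Fin r → Wk C k) := by
    exact Set.ncard_add_ncard_compl _
  rw [← h8, ← h9]
  exact Nat.add_le_add_left h7 _

open Classical in
theorem low1 (hGN : S_GN) (hGD : S_GD) (hCT : S_CT) (C : Type) [Fintype C]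
    (hC : Fintype.card C = 1) (k r : ℕ) (δ : Fin r → ZMod 2)
    (hδ : ∑ i, δ i = 0) (κ lam : ZMod 2) :
    {a : Fin r → Wk C k | SJ a}.ncard *
        (Nat.card (Bm r) * 4 ^ r * 2 ^ (k * (k + 1) / 2)) ≤
      TT C k δ κ lam * 4 ^ (r * k) := by
  obtain ⟨F, hF⟩ : ∃ F : Finset (Fin r → Wk C k), (F : Set _) =
      {a : Fin r → Wk C k | SJ a} := ⟨(Set.toFinite _).toFinset, Set.Finite.coe_toFinset _⟩
  have h2 : ∑ a ∈ F, NN δ κ lam a ≤ TT C k δ κ lam := by
    unfold TT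
    apply sum_le_sum_of_subset
    intro a ha
    rw [mem_filter]
    have ha' : a ∈ (F : Set _) := ha
    rw [hF] at ha'
    exact ⟨mem_univ _, surj_ind ha'⟩
  have h3 : ∀ a ∈ F,
      NN δ κ lam a * 4 ^ (r * k) = Nat.card (Bm r) * 4 ^ r * 2 ^ (k * (k + 1) / 2) := by
    intro a ha
    have ha' : a ∈ (F : Set _) := ha
    rw [hF] at ha'
    have h4 := (hCT C k r a δ κ lam).2 (fun c hc => hGD C k r a c ha' hc δ hδ κ lam)
    rw [hGN C k r a ha'] at h4
    simp only [hC, mul_one, one_mul] at h4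
    exact h4
  rw [← hF, Set.ncard_coe_finset]
  refine le_trans (le_of_eq ?_) (Nat.mul_le_mul_right _ h2)
  rw [sum_mul, sum_congr rfl h3, sum_const, smul_eq_mul]

theorem low (hGN : S_GN) (hGD : S_GD) (hCT : S_CT) (hIN : S_IN) (C : Type) [Fintype C]
    (hC : Fintype.card C = 1) (k r : ℕ) (δ : Fin r → ZMod 2)
    (hδ : ∑ i, δ i = 0) (κ lam : ZMod 2) :
    Nat.card (Bm r) * 4 ^ r * 4 ^ (r * k) * 2 ^ (k * (k + 1) / 2) ≤
      (∑ B : Bm r, ∑ p : Fin r → V 2 2, fm δ κ lam k (B, p)) * 4 ^ (r * k) +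
        Nat.card (Bm r) * 4 ^ r * 2 ^ (k * (k + 1) / 2) * (4 ^ k * (4 ^ k - 1) ^ r) := by
  have h1 := pow_sum hIN C k r δ κ lam
  simp only [hC, pow_one] at h1
  rw [h1]
  have h10 := low1 hGN hGD hCT C hC k r δ hδ κ lam
  have h6 := Nat.mul_le_mul_right (Nat.card (Bm r) * 4 ^ r * 2 ^ (k * (k + 1) / 2)) (card_SJ C hC k r)
  obtain ⟨a1, e1⟩ : ∃ y, y = Nat.card (Bm r) * 4 ^ r := ⟨_, rfl⟩
  obtain ⟨a2, e2⟩ : ∃ y, y = 4 ^ (r * k) := ⟨_, rfl⟩
  obtain ⟨a3, e3⟩ : ∃ y, y = 2 ^ (k * (k + 1) / 2) := ⟨_, rfl⟩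
  obtain ⟨a4, e4⟩ : ∃ y, y = 4 ^ k * (4 ^ k - 1) ^ r := ⟨_, rfl⟩
  rw [← e1, ← e3] at h10
  rw [← e1, ← e2, ← e3, ← e4] at h6
  rw [← e2] at h10
  rw [← e1, ← e2, ← e3, ← e4]
  rw [add_mul] at h6
  have h7 := h6.trans (Nat.add_le_add_right h10 _)
  refine le_trans (le_of_eq ?_) (h7.trans (le_of_eq ?_))
  · ring
  · ring

open Classical in
/-- the sum over the even `p` -/
noncomputable def ev {r : ℕ} (δ : Fin r → ZMod 2) (κ lam : ZMod 2) (k : ℕ) (B : Bm r) : ℕ :=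
  ∑ p : Fin r → V 2 2 with ∑ y, ∑ t, p y t = 0, fm δ κ lam k (B, p)

open Classical in
/-- the sum over the odd `p` -/
noncomputable def od {r : ℕ} (δ : Fin r → ZMod 2) (κ lam : ZMod 2) (k : ℕ) (B : Bm r) : ℕ :=
  ∑ p : Fin r → V 2 2 with ∑ y, ∑ t, p y t ≠ 0, fm δ κ lam k (B, p)

open Classical in
/-- the sum over the vectors without a common zero -/
noncomputable def ZZ {r : ℕ} (δ : Fin r → ZMod 2) (κ lam : ZMod 2) (k : ℕ) (B : Bm r) : ℕ :=
  ∑ a : Fin k → Fin r → V 2 2 with (LinearIndependent (ZMod 2) a ∧ Nz a),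
    {p : Fin r → V 2 2 | ∀ j, PSol δ κ lam (sy B) p (a j)}.ncard

theorem ev_add_od {r : ℕ} (δ : Fin r → ZMod 2) (κ lam : ZMod 2) (k : ℕ) (B : Bm r) :
    ev δ κ lam k B + od δ κ lam k B = ∑ p : Fin r → V 2 2, fm δ κ lam k (B, p) := by
  classical
  unfold ev od
  convert Finset.sum_filter_add_sum_filter_not (univ : Finset (Fin r → V 2 2))
    (fun p => ∑ y, ∑ t, p y t = 0) (fun p => fm δ κ lam k (B, p))

open Classical in
theorem swap_sum (hIN : S_IN) {r : ℕ} (δ : Fin r → ZMod 2) (κ lam : ZMod 2) (k : ℕ) (B : Bm r)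
    (Q : (Fin r → V 2 2) → Prop) :
    ∑ p : Fin r → V 2 2 with Q p, fm δ κ lam k (B, p) =
      ∑ a : Fin k → Fin r → V 2 2 with LinearIndependent (ZMod 2) a,
        {p : Fin r → V 2 2 | Q p ∧ ∀ j, PSol δ κ lam (sy B) p (a j)}.ncard := by
  have h1 := sum_ncard Q (fun (p : Fin r → V 2 2) (a : Fin k → Fin r → V 2 2) =>
    LinearIndependent (ZMod 2) a ∧ ∀ j, PSol δ κ lam (sy B) p (a j))
  have h2 := sum_ncard (fun a : Fin k → Fin r → V 2 2 => LinearIndependent (ZMod 2) a)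
    (fun (a : Fin k → Fin r → V 2 2) (p : Fin r → V 2 2) =>
      Q p ∧ ∀ j, PSol δ κ lam (sy B) p (a j))
  rw [h2]
  rw [← sum_congr rfl fun p _ => hIN k r δ κ lam (B, p), h1]
  rw [← Nat.card_coe_set_eq, ← Nat.card_coe_set_eq]
  refine Nat.card_congr ((Equiv.prodComm _ _).subtypeEquiv ?_)
  rintro ⟨p, a⟩
  simp only [Set.mem_setOf_eq, Equiv.prodComm_apply, Prod.swap_prod_mk]
  tauto

theorem ev_od (hSG : S_SG) (hIN : S_IN) {r : ℕ} (δ : Fin r → ZMod 2) (κ lam : ZMod 2) (k : ℕ)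
    (B : Bm r) : ev δ κ lam k B ≤ od δ κ lam k B + ZZ δ κ lam k B ∧
      od δ κ lam k B ≤ ev δ κ lam k B + ZZ δ κ lam k B := by
  classical
  have key : ∀ Q Q' : (Fin r → V 2 2) → Prop,
      (∀ a : Fin k → Fin r → V 2 2, (¬ Nz a) →
        {p : Fin r → V 2 2 | Q p ∧ ∀ j, PSol δ κ lam (sy B) p (a j)}.ncard =
        {p : Fin r → V 2 2 | Q' p ∧ ∀ j, PSol δ κ lam (sy B) p (a j)}.ncard) →
      ∑ p : Fin r → V 2 2 with Q p, fm δ κ lam k (B, p) ≤
        ∑ p : Fin r → V 2 2 with Q' p, fm δ κ lam k (B, p) + ZZ δ κ lam k B := by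
    intro Q Q' h
    rw [swap_sum hIN, swap_sum hIN]
    unfold ZZ
    rw [← filter_filter, sum_filter (p := fun a : Fin k → Fin r → V 2 2 => Nz a),
      ← sum_add_distrib]
    refine sum_le_sum fun a _ => ?_
    by_cases hz : Nz a
    · rw [if_pos hz]
      refine le_trans ?_ (Nat.le_add_left _ _)
      exact Set.ncard_le_ncard (fun p hp => hp.2) (Set.toFinite _)
    · rw [if_neg hz, add_zero]
      exact (h a hz).le
  have h0 : ∀ a : Fin k → Fin r → V 2 2, (¬ Nz a) →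
      {p : Fin r → V 2 2 | ∑ y, ∑ t, p y t = 0 ∧ ∀ j, PSol δ κ lam (sy B) p (a j)}.ncard =
      {p : Fin r → V 2 2 | ∑ y, ∑ t, p y t ≠ 0 ∧ ∀ j, PSol δ κ lam (sy B) p (a j)}.ncard := by
    intro a hz
    unfold Nz at hz
    push Not at hz
    obtain ⟨x, s, hxs⟩ := hz
    exact hSG k r δ κ lam B a x s hxs
  unfold ev od
  refine ⟨?_, ?_⟩
  · convert key (fun p => ∑ y, ∑ t, p y t = 0) (fun p => ∑ y, ∑ t, p y t ≠ 0) h0
  · convert key (fun p => ∑ y, ∑ t, p y t ≠ 0) (fun p => ∑ y, ∑ t, p y t = 0)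
      (fun a hz => (h0 a hz).symm)

theorem sum_ZZ (hNG : S_NG) (hCT : S_CT) (C : Type) [Fintype C] (i0 : C) (hi : ∀ i, i = i0)
    (hC : Fintype.card C = 1) (k r : ℕ) (δ : Fin r → ZMod 2) (κ lam : ZMod 2) :
    (∑ B : Bm r, ZZ δ κ lam k B) * 4 ^ (r * k) ≤
      Nat.card (Bm r) * 4 ^ r * (2 ^ (16 ^ k) * (4 ^ k - 1) ^ r) := by
  classical
  have h1 : ∑ B : Bm r, ZZ δ κ lam k B = ∑ a : Fin r → Wk C k with
      (Ind a ∧ Nz fun j x => a x i0 j), NN δ κ lam a := by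
    have e1 : ∀ B : Bm r, ZZ δ κ lam k B = {v : (Fin k → Fin r → V 2 2) × (Fin r → V 2 2) |
        (∀ j, PSol δ κ lam (sy B) v.2 (v.1 j)) ∧
          (LinearIndependent (ZMod 2) v.1 ∧ Nz v.1)}.ncard := by
      intro B
      unfold ZZ
      rw [sum_ncard]
    rw [sum_congr rfl fun B _ => e1 B]
    unfold NN
    rw [sum_ncard]
    have h2 := sum_ncard (A := Bm r) (B := (Fin k → Fin r → V 2 2) × (Fin r → V 2 2))
      (fun _ => True) (fun B v => (∀ j, PSol δ κ lam (sy B) v.2 (v.1 j)) ∧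
          (LinearIndependent (ZMod 2) v.1 ∧ Nz v.1))
    simp only [Finset.filter_true, and_true] at h2
    rw [h2, ← Nat.card_coe_set_eq, ← Nat.card_coe_set_eq]
    let e : (Bm r × ((Fin k → Fin r → V 2 2) × (Fin r → V 2 2))) ≃
        ((Fin r → Wk C k) × (Bm r × (C → Fin r → V 2 2))) :=
      { toFun := fun z => (fun x _ j => z.2.1 j x, (z.1, fun _ => z.2.2))
        invFun := fun v => (v.2.1, (fun j x => v.1 x i0 j, v.2.2 i0))
        left_inv := fun z => rfl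
        right_inv := fun v => by
          refine Prod.ext ?_ (Prod.ext rfl ?_)
          · funext x i j
            rw [hi i]
          · funext i
            rw [hi i] }
    refine Nat.card_congr (e.subtypeEquiv ?_)
    rintro ⟨B, a, p⟩
    simp only [Set.mem_setOf_eq]
    constructor
    · rintro ⟨h3, h4, h5⟩
      exact ⟨fun i j => h3 j, fun i => h4, h5⟩
    · rintro ⟨h3, h4, h5⟩
      exact ⟨fun j => h3 i0 j, h4 i0, h5⟩
  rw [h1, sum_mul]
  have h3 : ∀ a : Fin r → Wk C k, NN δ κ lam a * 4 ^ (r * k) ≤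
      Nat.card (Bm r) * 4 ^ r * {c : Fin r → Wk C k | Orth a c}.ncard := by
    intro a
    have h4 := (hCT C k r a δ κ lam).1
    simp only [hC, mul_one] at h4
    exact h4
  refine (sum_le_sum fun a _ => h3 a).trans ?_
  rw [← mul_sum]
  apply Nat.mul_le_mul_left
  have h5 := hNG C k r
  simp only [hC, mul_one] at h5
  refine le_trans ?_ h5
  have h6 : ∑ a : Fin r → Wk C k with (Ind a ∧ Nz fun j x => a x i0 j),
      {c : Fin r → Wk C k | Orth a c}.ncard ≤
      ∑ a : Fin r → Wk C k with (Ind a ∧ ¬ Function.Surjective a),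
        {c : Fin r → Wk C k | Orth a c}.ncard := by
    apply sum_le_sum_of_subset
    intro a ha
    rw [mem_filter] at ha ⊢
    refine ⟨ha.1, ha.2.1, fun hs => ?_⟩
    obtain ⟨x, hx⟩ := hs 0
    obtain ⟨j, hj⟩ := ha.2.2 x 0
    apply hj
    change a x i0 j 0 = 0
    rw [hx]
    rfl
  refine h6.trans (le_of_eq ?_)
  rw [sum_ncard]
  rfl

end Pool.Agent.D0H99.OD
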