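import Pool.Agent.D0H99.OD.Rk
import Pool.Agent.D0H99.DE.Main

/-!
A positive proportion of all the quadratic twists of even degree has rank zero: assembly.
-/

set_option autoImplicit false
set_option linter.all false

open Polynomial IsDedekindDomain WeierstrassCurve Filter

namespace Pool.Agent.D0H99.OD

open Finset
open Pool.Agent.Y164.SZ
open Pool.Agent.Y164.PS (Fam Pr mem_Pr card_Pr_ge)
open Pool.Agent.D0H99.FT (br nu cs zeta_data sym0 chr)
open Pool.Agent.D0H99.RM (V X sy crv cst card_X_pos cst_le sy_symm)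
open Pool.Agent.D0H99.DE (rt rk nodes)

section deg

theorem dg_anti (A : Finset ℕ) : StrictAnti (dg A) := by
  intro i j hij
  unfold dg
  exact (A.orderEmbOfFin rfl).strictMono (Fin.rev_lt_rev.2 hij)

theorem dg_mem (A : Finset ℕ) (i : Fin A.card) : dg A i ∈ A := by
  unfold dg
  exact A.orderEmbOfFin_mem rfl _

theorem sum_dg {M : Type} [AddCommMonoid M] (A : Finset ℕ) (f : ℕ → M) :
    ∑ i, f (dg A i) = ∑ n ∈ A, f n := by
  rw [← Finset.sum_coe_sort A f]
  exact Fintype.sum_equiv (Fin.revPerm.trans (A.orderIsoOfFin rfl).toEquiv) _ _ fun i => rfl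

theorem prod_dg {M : Type} [CommMonoid M] (A : Finset ℕ) (f : ℕ → M) :
    ∏ i, f (dg A i) = ∏ n ∈ A, f n := by
  rw [← Finset.prod_coe_sort A f]
  exact Fintype.prod_equiv (Fin.revPerm.trans (A.orderIsoOfFin rfl).toEquiv) _ _ fun i => rfl

theorem card_dg (A : Finset ℕ) (i : Fin A.card) :
    (A.filter fun m => m ≤ dg A i).card = A.card - (i : ℕ) := by
  have h1 : (A.filter fun m => m ≤ dg A i).card =
      ∑ j : Fin A.card, if dg A j ≤ dg A i then 1 else 0 := by
    rw [sum_dg A (fun m => if m ≤ dg A i then 1 else 0), card_filter]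
  rw [h1, ← card_filter]
  have h2 : (univ.filter fun j : Fin A.card => dg A j ≤ dg A i) = Finset.Ici i := by
    ext j
    rw [mem_filter, Finset.mem_Ici]
    exact ⟨fun h => (dg_anti A).le_iff_ge.1 h.2, fun h => ⟨mem_univ _, (dg_anti A).antitone h⟩⟩
  rw [h2, Fin.card_Ici]

theorem wt_eq (Q C : ℝ) (A : Finset ℕ) : wt Q C A = ∑ i : Fin A.card,
    (2 : ℝ) ^ (A.card - (i : ℕ)) * (C * (dg A i : ℝ) ^ 3 / Q ^ dg A i) := by
  unfold wt
  rw [← sum_dg A (fun n => (2 : ℝ) ^ (A.filter fun m => m ≤ n).card * (C * (n : ℝ) ^ 3 / Q ^ n))]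
  refine sum_congr rfl fun i _ => ?_
  rw [card_dg]

end deg

section
variable {k : Type} [Field k] [Fintype k] [DecidableEq k]

theorem rank_bound (S : SYM0 2 k) (h2 : (2 : k) ≠ 0) (hneg : ∃ z : k, z ^ 2 = -1) {g : k[X]}
    {N : ℕ} (hN : ¬ 2 ∣ N) (hg : g.natDegree = N) {a b : k} (hab : a ≠ b) {P : Fin 2 → k[X]}
    (hPm : ∀ s, (P s).Monic) (hPi : ∀ s, Irreducible (P s)) (hPinj : Function.Injective P)
    (hPd : ∀ s, (P s).natDegree = N) (hP : ∀ s, g - C (![a, b] s) = C g.leadingCoeff * P s)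
    {r : ℕ} {n : Fin r → ℕ} (hn : StrictAnti n) (hnN : ∀ i, N < n i)
    (hsum : ∑ i, ((n i : ℕ) : ZMod 2) = 0) {c0 : k} (hc0 : c0 ≠ 0)
    (x : X 2 2 r) {d : Fin r → k[X]} (hd : d ∈ PtN P n (sy x.1) x.2) :
    2 ^ rk g a b (C c0 * ∏ i, d i) ≤ nsolP (fun i => ((n i : ℕ) : ZMod 2))
      (cs 2 (C c0 * g) ![c0 * a, c0 * b] 1 2) (ch 2 (C c0 * g).leadingCoeff) x := by
  classical
  rw [PtN, mem_filter, Fintype.mem_piFinset] at hd
  obtain ⟨hd1, hd3, hd4⟩ := hd
  have hd5 : ∀ i, (d i).Monic ∧ Irreducible (d i) ∧ (d i).natDegree = n i := fun i =>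
    mem_Pr.1 (hd1 i)
  have hd2 : Function.Injective d := by
    intro i j hij
    apply hn.injective
    rw [← (hd5 i).2.2, ← (hd5 j).2.2, hij]
  have H : Dtc 2 (![c0 * a, c0 * b]) (C c0 * g) P d (fun _ => 1) :=
    { S := S
      hl := hneg
      hlk := by exact_mod_cast h2
      hm := le_refl 2
      hn := by decide
      hc := by
        intro i j hij
        fin_cases i <;> fin_cases j
        · rfl
        · exact absurd (mul_left_cancel₀ hc0 hij) hab
        · exact absurd (mul_left_cancel₀ hc0 hij) hab.symm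
        · rfl
      hg := by
        rw [natDegree_C_mul hc0, hg]
        exact hN
      hP := by
        intro s
        rw [leadingCoeff_mul, leadingCoeff_C, C_mul, mul_assoc, ← hP s, mul_sub, ← C_mul]
        congr 2
        fin_cases s <;> rfl
      fam := by
        refine ⟨?_, ?_, ?_⟩
        · rintro (y | s)
          · exact (hd5 y).1
          · exact hPm s
        · rintro (y | s)
          · exact (hd5 y).2.1
          · exact hPi s
        · refine hd2.sumElim hPinj ?_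
          intro y s h
          have h1 := hnN y
          rw [← (hd5 y).2.2, h, hPd s] at h1
          exact lt_irrefl _ h1
      ht := fun _ => by decide }
  have hδ : ∑ x, ((d x).natDegree : ZMod 2) = 0 := by
    rw [← hsum]
    exact sum_congr rfl fun i _ => by rw [(hd5 i).2.2]
  have h1 := rank_le h2 H hδ
  have e1 : (fun x y => L 2 (d y) (d x)) = sy x.1 := by
    funext i j
    by_cases hij : i = j
    · subst hij
      have h8 : L 2 (d i) (d i) = 0 := by
        apply S.L_nc _ _ (hd5 i).2.1.ne_zero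
        intro h
        exact (hd5 i).2.1.not_isUnit (h.isUnit_of_dvd' dvd_rfl dvd_rfl)
      have h9 : sy x.1 i i = 0 := by
        unfold sy
        rw [dif_neg (lt_irrefl _), dif_neg (lt_irrefl _)]
      rw [h8, h9]
    · exact hd4 i j hij
  have e2 : (fun x s => L 2 (P s) (d x)) = x.2 := by
    funext i s
    exact hd3 i s
  have e0 : (fun x => ((d x).natDegree : ZMod 2)) = fun i => ((n i : ℕ) : ZMod 2) := by
    funext i
    rw [(hd5 i).2.2]
  have e3 : (SolSet (C c0 * g) (![c0 * a, c0 * b]) P d).ncard =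
      nsolP (fun i => ((n i : ℕ) : ZMod 2))
      (cs 2 (C c0 * g) ![c0 * a, c0 * b] 1 2) (ch 2 (C c0 * g).leadingCoeff) x := by
    unfold SolSet nsolP
    rw [e0, e1, e2]
  rw [e3] at h1
  have e4 : rt (RatFunc k) (![c0 * a, c0 * b]) (C c0 * g) d 0 =
      algebraMap k[X] (RatFunc k) ((C c0 * ∏ i, d i) * g) := by
    unfold rt
    congr 1
    change (C c0 * g) * ∏ x, d x = _
    ring
  have e5 : rt (RatFunc k) (![c0 * a, c0 * b]) (C c0 * g) d 1 =
      algebraMap k[X] (RatFunc k) ((C c0 * ∏ i, d i) * C a) := by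
    unfold rt
    congr 1
    change (C (c0 * a)) * ∏ x, d x = _
    rw [C_mul]
    ring
  have e6 : rt (RatFunc k) (![c0 * a, c0 * b]) (C c0 * g) d 2 =
      algebraMap k[X] (RatFunc k) ((C c0 * ∏ i, d i) * C b) := by
    unfold rt
    congr 1
    change (C (c0 * b)) * ∏ x, d x = _
    rw [C_mul]
    ring
  rw [e4, e5, e6] at h1
  exact h1

theorem ptN_disj (P : Fin 2 → k[X]) {r : ℕ} (n : Fin r → ℕ) {x y : X 2 2 r} (hxy : x ≠ y) :
    Disjoint (PtN P n (sy x.1) x.2) (PtN P n (sy y.1) y.2) := by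
  classical
  rw [Finset.disjoint_left]
  intro d hd hd'
  apply hxy
  rw [PtN, mem_filter] at hd hd'
  obtain ⟨-, h1, h3⟩ := hd
  obtain ⟨-, h1', h3'⟩ := hd'
  refine Prod.ext ?_ ?_
  · funext i j
    have hji : (j : ℕ) < i := j.2
    have hjr : (j : ℕ) < r := hji.trans i.2
    have h4 := h3 i ⟨j, hjr⟩ (fun h => by
      have := congrArg Fin.val h
      simp only at this
      omega)
    have h5 := h3' i ⟨j, hjr⟩ (fun h => by
      have := congrArg Fin.val h
      simp only at this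
      omega)
    have h6 : sy x.1 i ⟨j, hjr⟩ = x.1 i j := by
      unfold sy
      rw [dif_pos hji]
    have h7 : sy y.1 i ⟨j, hjr⟩ = y.1 i j := by
      unfold sy
      rw [dif_pos hji]
    rw [← h6, ← h7, ← h4, ← h5]
  · funext i s
    rw [← h1 i s, ← h1' i s]

/-- proportions in one set of degrees -/
theorem one_type (hEQD : S_EQD) (S : SYM 2 k) (hk : ringChar k ≠ 2) {N : ℕ} (hN1 : 1 ≤ N)
    {P : Fin 2 → k[X]} (hPm : ∀ s, (P s).Monic) (hPi : ∀ s, Irreducible (P s))
    (hPinj : Function.Injective P) (hPd : ∀ s, (P s).natDegree = N) {A : Finset ℕ}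
    (hA1 : ∀ n ∈ A, N < n) (hA2 : ∀ n ∈ A, 4 ≤ (Real.sqrt (Fintype.card k)) ^ n) {ε ρ : ℝ}
    (hw : wt (Real.sqrt (Fintype.card k)) (60 + 80 * (N : ℝ)) A ≤ ε / 2)
    (hw1 : wt (Real.sqrt (Fintype.card k)) (60 + 80 * (N : ℝ)) A ≤ 1)
    (G : Set (X 2 2 A.card))
    (hG : (ρ - ε / 2) * (Nat.card (X 2 2 A.card) : ℝ) ≤ (G.ncard : ℝ)) (R : k[X] → Prop)
    [DecidablePred R]
    (hR : ∀ x ∈ G, ∀ d ∈ PtN P (dg A) (sy x.1) x.2, R (∏ i, d i)) :
    (ρ - ε) * ∏ n ∈ A, ((Pr k n).card : ℝ) ≤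
      (((Fintype.piFinset fun i : Fin A.card => Pr k (dg A i)).filter
        fun d => R (∏ i, d i)).card : ℝ) := by
  classical
  obtain ⟨G', hG'⟩ : ∃ G' : Finset (X 2 2 A.card), (G' : Set (X 2 2 A.card)) = G :=
    ⟨(Set.toFinite G).toFinset, Set.Finite.coe_toFinset _⟩
  rw [← hG', Set.ncard_coe_finset] at hG
  obtain ⟨w, hwd⟩ : ∃ w, w = wt (Real.sqrt (Fintype.card k)) (60 + 80 * (N : ℝ)) A := ⟨_, rfl⟩
  rw [← hwd] at hw hw1
  obtain ⟨M, hM⟩ : ∃ M : ℝ, M = ∏ n ∈ A, ((Pr k n).card : ℝ) := ⟨_, rfl⟩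
  have hM0 : 0 ≤ M := by rw [hM]; exact prod_nonneg fun n _ => Nat.cast_nonneg _
  rw [← hM]
  have h1 : ∀ x : X 2 2 A.card, cst 2 2 A.card * (1 - w) * M ≤
      ((PtN P (dg A) (sy x.1) x.2).card : ℝ) := by
    intro x
    have h2 := hEQD k S hk N P hN1 hPm hPi hPinj hPd A.card (dg A) (dg_anti A)
      (fun i => hA1 _ (dg_mem A i)) (fun i => hA2 _ (dg_mem A i)) (sy x.1) x.2 (sy_symm x.1)
    rw [← wt_eq, ← hwd, prod_dg A (fun n => ((Pr k n).card : ℝ)), ← hM] at h2
    exact h2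
  have hsub : (G'.biUnion fun x => PtN P (dg A) (sy x.1) x.2) ⊆
      ((Fintype.piFinset fun i : Fin A.card => Pr k (dg A i)).filter fun d => R (∏ i, d i)) := by
    intro d hd
    rw [mem_biUnion] at hd
    obtain ⟨x, hx, hd⟩ := hd
    rw [mem_filter]
    refine ⟨?_, hR x (by rw [← hG']; exact hx) d hd⟩
    rw [PtN, mem_filter] at hd
    exact hd.1
  have h3 : ((G'.biUnion fun x => PtN P (dg A) (sy x.1) x.2).card : ℝ) ≤
      (((Fintype.piFinset fun i : Fin A.card => Pr k (dg A i)).filter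
        fun d => R (∏ i, d i)).card : ℝ) := by
    exact_mod_cast card_le_card hsub
  refine le_trans ?_ h3
  rw [card_biUnion (fun x _ y _ hxy => ptN_disj P (dg A) hxy), Nat.cast_sum]
  have h4 : (G'.card : ℝ) * (cst 2 2 A.card * (1 - w) * M) ≤
      ∑ x ∈ G', ((PtN P (dg A) (sy x.1) x.2).card : ℝ) := by
    rw [← nsmul_eq_mul, ← sum_const]
    exact sum_le_sum fun x _ => h1 x
  refine le_trans ?_ h4
  have hX : (1 : ℝ) ≤ (Nat.card (X 2 2 A.card) : ℝ) := by
    exact_mod_cast card_X_pos (ℓ := 2) 2 A.card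
  have hGX : (G'.card : ℝ) ≤ Nat.card (X 2 2 A.card) := by
    rw [Nat.card_eq_fintype_card]
    exact_mod_cast card_le_univ G'
  obtain ⟨z, hz⟩ : ∃ z : ℝ, z = G'.card * cst 2 2 A.card := ⟨_, rfl⟩
  have hz1 : ρ - ε / 2 ≤ z := by
    rw [hz]
    unfold cst
    rw [mul_one_div, le_div_iff₀ (by linarith)]
    exact hG
  have hz2 : z ≤ 1 := by
    rw [hz]
    unfold cst
    rw [mul_one_div, div_le_one (by linarith)]
    exact hGX
  have hz0 : 0 ≤ z := by
    rw [hz]
    exact mul_nonneg (Nat.cast_nonneg _) (cst_le (ℓ := 2) 2 A.card).1.le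
  have h5 : (G'.card : ℝ) * (cst 2 2 A.card * (1 - w) * M) = (z * (1 - w)) * M := by
    rw [hz]
    ring
  rw [h5]
  apply mul_le_mul_of_nonneg_right _ hM0
  have hw0 : 0 ≤ w := by
    rw [hwd]
    unfold wt
    exact sum_nonneg fun n _ => by positivity
  nlinarith

end

end Pool.Agent.D0H99.OD
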