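import Pool.Agent.D0H99.OD.Stm3

/-!
All moments of the number of solutions: the counting.
-/

set_option autoImplicit false
set_option linter.all false

open Filter

namespace Pool.Agent.D0H99.OD

open Finset
open Pool.Agent.D0H99.RM (V X sy cst)

section gen

theorem nc {A : Type} [Fintype A] (P : A → Prop) [DecidablePred P] :
    {a | P a}.ncard = ∑ a, if P a then 1 else 0 := by
  rw [← Finset.card_filter, ← Set.ncard_coe_finset]
  congr 1
  ext a
  simp

theorem sum_ncard {A B : Type} [Fintype A] [Fintype B] (P : A → Prop) [DecidablePred P]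
    (R : A → B → Prop) :
    ∑ a with P a, {c | R a c}.ncard = {v : A × B | R v.1 v.2 ∧ P v.1}.ncard := by
  classical
  rw [nc (fun v : A × B => R v.1 v.2 ∧ P v.1), Fintype.sum_prod_type, Finset.sum_filter]
  refine Finset.sum_congr rfl fun a _ => ?_
  by_cases h : P a
  · rw [if_pos h, nc]
    refine Finset.sum_congr rfl fun b _ => ?_
    simp [h]
  · rw [if_neg h]
    symm
    apply Finset.sum_eq_zero
    intro b _
    simp [h]

end gen

section
variable {C : Type} [Fintype C] {k r : ℕ}

/-- independence in each copy -/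
def Ind (a : Fin r → Wk C k) : Prop :=
  ∀ i, LinearIndependent (ZMod 2) fun (j : Fin k) (x : Fin r) => a x i j

/-- the number of the systems which are solved by all vectors -/
noncomputable def NN (δ : Fin r → ZMod 2) (κ lam : ZMod 2) (a : Fin r → Wk C k) : ℕ :=
  {z : Bm r × (C → Fin r → V 2 2) | AllSol δ κ lam a z}.ncard

open Classical in
/-- the sum over the independent vectors -/
noncomputable def TT (C : Type) [Fintype C] (k : ℕ) {r : ℕ} (δ : Fin r → ZMod 2)
    (κ lam : ZMod 2) : ℕ :=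
  ∑ a : Fin r → Wk C k with Ind a, NN δ κ lam a

theorem card_Wk (C : Type) [Fintype C] (k : ℕ) : Nat.card (Wk C k) = 4 ^ (k * Fintype.card C) := by
  classical
  rw [Nat.card_eq_fintype_card, Fintype.card_fun, Fintype.card_fun, Fintype.card_fun,
    Fintype.card_fin, Fintype.card_fin, ZMod.card, ← pow_mul, ← pow_mul]
  rw [pow_mul]
  norm_num

theorem card_all (C : Type) [Fintype C] (k r : ℕ) : Nat.card (Fin r → Wk C k) =
    4 ^ (r * (k * Fintype.card C)) := by
  classical
  rw [Nat.card_fun, card_Wk, Nat.card_eq_fintype_card, Fintype.card_fin, ← pow_mul]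
  rw [mul_comm r]

open Classical in
theorem orth_le (hNG : S_NG) (hGN : S_GN) (C : Type) [Fintype C] (k r : ℕ) :
    ∑ a : Fin r → Wk C k with Ind a, {c : Fin r → Wk C k | Orth a c}.ncard ≤
      4 ^ (r * (k * Fintype.card C)) * 2 ^ (Fintype.card C * (k * (k + 1) / 2)) +
        2 ^ (16 ^ (k * Fintype.card C)) * (4 ^ (k * Fintype.card C) - 1) ^ r := by
  have h1 : ∑ a : Fin r → Wk C k with Ind a, {c : Fin r → Wk C k | Orth a c}.ncard =
      ∑ a : Fin r → Wk C k with (Ind a ∧ Function.Surjective a),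
        {c : Fin r → Wk C k | Orth a c}.ncard +
      ∑ a : Fin r → Wk C k with (Ind a ∧ ¬ Function.Surjective a),
        {c : Fin r → Wk C k | Orth a c}.ncard := by
    rw [← Finset.filter_filter, ← Finset.filter_filter]
    exact (Finset.sum_filter_add_sum_filter_not _ _ _).symm
  rw [h1]
  refine add_le_add ?_ ?_
  · have h2 : ∀ a ∈ (univ.filter fun a : Fin r → Wk C k => Ind a ∧ Function.Surjective a),
        {c : Fin r → Wk C k | Orth a c}.ncard = 2 ^ (Fintype.card C * (k * (k + 1) / 2)) :=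
      fun a ha => hGN C k r a (Finset.mem_filter.1 ha).2.2
    rw [Finset.sum_congr rfl h2, Finset.sum_const, smul_eq_mul]
    apply Nat.mul_le_mul_right
    rw [← card_all, Nat.card_eq_fintype_card]
    exact Finset.card_le_univ _
  · rw [sum_ncard]
    exact hNG C k r

open Classical in
theorem total_le (hNG : S_NG) (hGN : S_GN) (hCT : S_CT) (C : Type) [Fintype C] (k r : ℕ)
    (δ : Fin r → ZMod 2) (κ lam : ZMod 2) :
    TT C k δ κ lam * 4 ^ (r * (k * Fintype.card C)) ≤
      Nat.card (Bm r) * 4 ^ (r * Fintype.card C) *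
        (4 ^ (r * (k * Fintype.card C)) * 2 ^ (Fintype.card C * (k * (k + 1) / 2)) +
        2 ^ (16 ^ (k * Fintype.card C)) * (4 ^ (k * Fintype.card C) - 1) ^ r) := by
  refine le_trans ?_ (Nat.mul_le_mul_left _ (orth_le hNG hGN C k r))
  unfold TT
  rw [Finset.sum_mul, Finset.mul_sum]
  exact Finset.sum_le_sum fun a _ => (hCT C k r a δ κ lam).1

/-- the equivalence -/
def eqv (C : Type) (k r : ℕ) :
    (Bm r × (C → (Fin r → V 2 2) × (Fin k → Fin r → V 2 2))) ≃
      ((Fin r → Wk C k) × (Bm r × (C → Fin r → V 2 2))) where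
  toFun z := (fun x i j => (z.2 i).2 j x, (z.1, fun i => (z.2 i).1))
  invFun v := (v.2.1, fun i => (v.2.2 i, fun j x => v.1 x i j))
  left_inv := fun z => rfl
  right_inv := fun v => rfl

theorem sum_fm (hIN : S_IN) (k r : ℕ) (δ : Fin r → ZMod 2) (κ lam : ZMod 2) (B : Bm r) :
    ∑ p : Fin r → V 2 2, fm δ κ lam k (B, p) =
      {y : (Fin r → V 2 2) × (Fin k → Fin r → V 2 2) | LinearIndependent (ZMod 2) y.2 ∧
        ∀ j, PSol δ κ lam (sy B) y.1 (y.2 j)}.ncard := by
  classical
  have h := sum_ncard (A := Fin r → V 2 2) (B := Fin k → Fin r → V 2 2) (fun _ => True)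
    (fun p a => LinearIndependent (ZMod 2) a ∧ ∀ j, PSol δ κ lam (sy B) p (a j))
  simp only [Finset.filter_true, and_true] at h
  rw [← h]
  exact Finset.sum_congr rfl fun p _ => (hIN k r δ κ lam (B, p)).symm

open Classical in
theorem pow_sum (hIN : S_IN) (C : Type) [Fintype C] (k r : ℕ) (δ : Fin r → ZMod 2)
    (κ lam : ZMod 2) :
    ∑ B : Bm r, (∑ p : Fin r → V 2 2, fm δ κ lam k (B, p)) ^ (Fintype.card C) =
      TT C k δ κ lam := by
  unfold TT NN
  rw [sum_ncard]
  let T : Bm r → Finset ((Fin r → V 2 2) × (Fin k → Fin r → V 2 2)) := fun B =>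
    univ.filter fun y => LinearIndependent (ZMod 2) y.2 ∧ ∀ j, PSol δ κ lam (sy B) y.1 (y.2 j)
  have h1 : ∀ B : Bm r, (∑ p : Fin r → V 2 2, fm δ κ lam k (B, p)) ^ (Fintype.card C) =
      {f : C → (Fin r → V 2 2) × (Fin k → Fin r → V 2 2) | ∀ i, f i ∈ T B}.ncard := by
    intro B
    rw [sum_fm hIN]
    have e1 : {y : (Fin r → V 2 2) × (Fin k → Fin r → V 2 2) | LinearIndependent (ZMod 2) y.2 ∧
        ∀ j, PSol δ κ lam (sy B) y.1 (y.2 j)} = (T B : Set _) := by
      ext y
      simp [T]
    have e2 : {f : C → (Fin r → V 2 2) × (Fin k → Fin r → V 2 2) | ∀ i, f i ∈ T B} =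
        ((Fintype.piFinset fun _ : C => T B : Finset _) : Set _) := by
      ext f
      simp
    rw [e1, e2, Set.ncard_coe_finset, Set.ncard_coe_finset, Fintype.card_piFinset,
      Finset.prod_const, Finset.card_univ]
  rw [Finset.sum_congr rfl fun B _ => h1 B]
  have h2 := sum_ncard (A := Bm r) (B := C → (Fin r → V 2 2) × (Fin k → Fin r → V 2 2))
    (fun _ => True) (fun B f => ∀ i, f i ∈ T B)
  simp only [Finset.filter_true, and_true] at h2
  rw [h2, ← Nat.card_coe_set_eq, ← Nat.card_coe_set_eq]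
  refine Nat.card_congr ((eqv C k r).subtypeEquiv ?_)
  rintro ⟨B, f⟩
  simp only [Set.mem_setOf_eq]
  constructor
  · intro h
    refine ⟨fun i j => ?_, fun i => ?_⟩
    · exact (Finset.mem_filter.1 (h i)).2.2 j
    · exact (Finset.mem_filter.1 (h i)).2.1
  · rintro ⟨h3, h4⟩ i
    exact Finset.mem_filter.2 ⟨Finset.mem_univ _, h4 i, h3 i⟩

end

end Pool.Agent.D0H99.OD
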