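import Pool.Agent.D0H99.OD.Stm3

/-!
Project OD (helper99), part 5: ALL squarefree twists (coprime to the places of bad reduction). Small
prime factors (indices `< s`, at most `s0` of them) are fixed, with their symbols; only the symbols with a
large prime factor (index `≥ s`) are random. Modules (all adapt the proofs of part 3):

`NG2` (adapts `Pool.Agent.D0H65.OD.Ng`). `I` = the values `(a x, c x)`, `x` large. As in `NG`:
`|I| ≤ |U| ≤ |W|`; suppose `|I| = |W|`; then `I = v + U`, `U = U^⊥`. For small `x` and all large `y`: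
`Q(v_x - v_y) = 0`; so `B(v_x - v_y, u) = 0` for `u` in `U` (`Q(v_x - v_y) = 0 = Q(v_x - v_y')`,
`v_y - v_y' = u`, `Q u = 0`), so `v_x` is in `v_y + U^⊥ = I`. The rest as in `NG`: if `a` does not take all
values on the large indices then there is a relation `∑_j u_j a_ij = 0` on `I`, hence for all `x`. So
`|I| ≤ |W| - 1`, and there are at most `(|W| ^ 2) ^ s` choices of the values at the small indices.

`GN2` (20 lines). `a` takes all values on the large indices, `Orth2 s a c`. If `a x = a y`, `x` large, `y`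
small: for all large `z`, `Pair` for `(z, x)` and `(z, y)` gives `(a z - a x) (c z - c x) = 0 =
(a z - a x) (c z - c y)`, so `(a z - a x) (c x - c y) = 0`, and `a z` is arbitrary: `c x = c y`. So each small
`y` can be replaced by a large `x` with the same `(a, c)` in `Cone` and `Pair`.

`CT2` (adapts `Pool.Agent.D0H6.OD.Ct`). The data `z` which agree with `z0` on the small block are a coset
of a group `X'`; the linear map restricted to `X'` has the annihilator `{c | Orth2 s a c}`. The solutions are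
empty or a coset of the kernel on `X'`. If `Orth2 s a c` implies `Orth a c` and the condition `GD` then
`c` is orthogonal to the left sides for `z0` (as for all data) and to the perturbation, so there are
solutions.

`SG2` (adapts `SG`): the flip of `p_xs` with `x` large.

`EQ2` (from `S_EQM` with `κ' = κ ⊕ Fin s`, nodes `P` and `e`; translation of the indices).
-/

set_option autoImplicit false

open Polynomial

namespace Pool.Agent.D0H99.OD

open Finset
open Pool.Agent.Y164.SZ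
open Pool.Agent.Y164.PS (Pr)
open Pool.Agent.D0H99.RM (V X sy cst)

section
variable {C : Type} [Fintype C] {k r : ℕ}

/-- orthogonality to the data with a large index -/
def Orth2 (s : ℕ) (a c : Fin r → Wk C k) : Prop :=
  (∀ x : Fin r, s ≤ (x : ℕ) → Cone (a x) (c x)) ∧
    ∀ x y : Fin r, s ≤ (x : ℕ) → Pair (a x) (c x) (a y) (c y)

/-- all values on the large indices -/
def Srj (s : ℕ) (a : Fin r → Wk C k) : Prop := ∀ w, ∃ x : Fin r, s ≤ (x : ℕ) ∧ a x = w

end

/-- the matrices with a given small block -/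
def BS (s : ℕ) {r : ℕ} (β : Bm r) : Set (Bm r) := {B | ∀ i : Fin r, (i : ℕ) < s → B i = β i}

/-- the vectors with given small coordinates -/
def PS (s : ℕ) {r : ℕ} (π : Fin r → V 2 2) : Set (Fin r → V 2 2) :=
  {p | ∀ x : Fin r, (x : ℕ) < s → p x = π x}

/-- NG2 -/
def S_NG2 : Prop := ∀ (C : Type) [Fintype C] (k r s : ℕ), s ≤ r →
  {v : (Fin r → Wk C k) × (Fin r → Wk C k) | Orth2 s v.1 v.2 ∧
    (∀ i, LinearIndependent (ZMod 2) fun (j : Fin k) (x : Fin r) => v.1 x i j) ∧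
    ¬ Srj s v.1}.ncard ≤
  2 ^ (16 ^ (k * Fintype.card C)) * (4 ^ (k * Fintype.card C) - 1) ^ (r - s) *
    16 ^ (k * Fintype.card C * s)

/-- GN2 -/
def S_GN2 : Prop := ∀ (C : Type) [Fintype C] (k r s : ℕ) (a c : Fin r → Wk C k),
  Srj s a → Orth2 s a c → Orth a c

/-- CT2 -/
def S_CT2 : Prop := ∀ (C : Type) [Fintype C] (k r s : ℕ), s ≤ r → ∀ (a : Fin r → Wk C k)
  (δ : Fin r → ZMod 2) (κ lam : ZMod 2) (β : Bm r) (π : Fin r → V 2 2),
  {z : Bm r × (C → Fin r → V 2 2) | AllSol δ κ lam a z ∧ z.1 ∈ BS s β ∧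
      ∀ i, z.2 i ∈ PS s π}.ncard * 4 ^ (r * (k * Fintype.card C)) ≤
    (BS s β).ncard * (PS s π).ncard ^ Fintype.card C * {c : Fin r → Wk C k | Orth2 s a c}.ncard ∧
  ((∀ c, Orth2 s a c → Orth a c ∧
      ∑ i, ∑ j, ∑ x, ∑ b, c x i j b * Dl δ κ lam (fun x => a x i j) x b = 0) →
    {z : Bm r × (C → Fin r → V 2 2) | AllSol δ κ lam a z ∧ z.1 ∈ BS s β ∧
      ∀ i, z.2 i ∈ PS s π}.ncard * 4 ^ (r * (k * Fintype.card C)) =
    (BS s β).ncard * (PS s π).ncard ^ Fintype.card C * {c : Fin r → Wk C k | Orth2 s a c}.ncard)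

/-- SG2 -/
def S_SG2 : Prop := ∀ (k r s : ℕ) (δ : Fin r → ZMod 2) (κ lam : ZMod 2) (B : Bm r)
  (π : Fin r → V 2 2) (a : Fin k → Fin r → V 2 2) (x : Fin r) (t : Fin 2), s ≤ (x : ℕ) →
  (∀ j, a j x t = 0) →
  {p : Fin r → V 2 2 | ∑ y, ∑ t, p y t = 0 ∧ p ∈ PS s π ∧
    ∀ j, PSol δ κ lam (sy B) p (a j)}.ncard =
  {p : Fin r → V 2 2 | ∑ y, ∑ t, p y t ≠ 0 ∧ p ∈ PS s π ∧
    ∀ j, PSol δ κ lam (sy B) p (a j)}.ncard

section
variable {k : Type} [Field k] [Fintype k] [DecidableEq k]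

open Classical in
/-- the large tuples with prescribed symbols; `e` are the small primes -/
noncomputable def PtE {κ : Type} (P : κ → k[X]) {s r : ℕ} (e : Fin s → k[X]) (n : Fin r → ℕ)
    (B : Bm (s + r)) (p : Fin (s + r) → κ → ZMod 2) : Finset (Fin r → k[X]) :=
  (Fintype.piFinset fun i : Fin r => Pr k (n i)).filter fun d =>
    (∀ x a, L 2 (P a) (Fin.append e d x) = p x a) ∧
      ∀ x y, x ≠ y → L 2 (Fin.append e d y) (Fin.append e d x) = sy B x y

end

/-- EQ2 -/
def S_EQ2 : Prop := ∀ (k : Type) [Field k] [Fintype k] [DecidableEq k], SYM 2 k →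
  ringChar k ≠ 2 → ∀ (κ : Type) [Fintype κ] (N : ℕ) (P : κ → k[X]), 1 ≤ N → (∀ a, (P a).Monic) →
  (∀ a, Irreducible (P a)) → Function.Injective P → (∀ a, (P a).natDegree ≤ N) →
  ∀ (s r : ℕ) (e : Fin s → k[X]), (∀ i, (e i).Monic) → (∀ i, Irreducible (e i)) →
  Function.Injective e → (∀ i, (e i).natDegree ≤ N) → (∀ i a, e i ≠ P a) →
  ∀ (n : Fin r → ℕ), StrictAnti n → (∀ i, N < n i) →
  (∀ i, 4 ≤ (Real.sqrt (Fintype.card k)) ^ n i) → ∀ (B : Bm (s + r))
  (p : Fin (s + r) → κ → ZMod 2),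
  (∀ x y : Fin s, x ≠ y → L 2 (e y) (e x) = sy B (Fin.castAdd r x) (Fin.castAdd r y)) →
  (∀ (x : Fin s) a, L 2 (P a) (e x) = p (Fin.castAdd r x) a) →
  1 / ((Nat.card (Bm r) : ℝ) * (Nat.card (Fin r → κ ⊕ Fin s → ZMod 2) : ℝ)) *
      (1 - ∑ i : Fin r, (2 : ℝ) ^ (r - (i : ℕ)) *
        ((2 : ℝ) ^ (Fintype.card κ + s) * (20 + 20 * ((Fintype.card κ + s : ℕ) : ℝ) * (N : ℝ)) *
          (n i : ℝ) ^ 3 / (Real.sqrt (Fintype.card k)) ^ n i)) *
    ∏ i, ((Pr k (n i)).card : ℝ) ≤ ((PtE P e n B p).card : ℝ)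

end Pool.Agent.D0H99.OD
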