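import Pool.Agent.D0H99.OD.Law
import Pool.Agent.D0H99.OD.Stm5

/-!
All moments of the number of solutions with a fixed small block: the counting.
-/

set_option autoImplicit false
set_option linter.all false

open Filter

namespace Pool.Agent.D0H99.OD

open Finset
open Pool.Agent.D0H99.RM (V X sy cst)

section
variable {C : Type} [Fintype C] {k r : ℕ}

/-- the number of the systems with the given small block which are solved by all vectors -/
noncomputable def NS (s : ℕ) (β : Bm r) (π : Fin r → V 2 2) (δ : Fin r → ZMod 2) (κ lam : ZMod 2)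
    (a : Fin r → Wk C k) : ℕ :=
  {z : Bm r × (C → Fin r → V 2 2) | AllSol δ κ lam a z ∧ z.1 ∈ BS s β ∧
      ∀ i, z.2 i ∈ PS s π}.ncard

open Classical in
/-- the sum over the independent vectors -/
noncomputable def TS (C : Type) [Fintype C] (k : ℕ) {r : ℕ} (s : ℕ) (β : Bm r)
    (π : Fin r → V 2 2) (δ : Fin r → ZMod 2) (κ lam : ZMod 2) : ℕ :=
  ∑ a : Fin r → Wk C k with Ind a, NS s β π δ κ lam a

theorem Srj_SJ {s : ℕ} {a : Fin r → Wk C k} (h : Srj s a) : Function.Surjective a := fun w => by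
  obtain ⟨x, -, hx⟩ := h w
  exact ⟨x, hx⟩

open Classical in
theorem orthS_le (hNG2 : S_NG2) (hGN2 : S_GN2) (hGN : S_GN) (C : Type) [Fintype C] (k r s : ℕ)
    (hs : s ≤ r) :
    ∑ a : Fin r → Wk C k with Ind a, {c : Fin r → Wk C k | Orth2 s a c}.ncard ≤
      4 ^ (r * (k * Fintype.card C)) * 2 ^ (Fintype.card C * (k * (k + 1) / 2)) +
        2 ^ (16 ^ (k * Fintype.card C)) * (4 ^ (k * Fintype.card C) - 1) ^ (r - s) *
          16 ^ (k * Fintype.card C * s) := by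
  have h1 : ∑ a : Fin r → Wk C k with Ind a, {c : Fin r → Wk C k | Orth2 s a c}.ncard =
      ∑ a : Fin r → Wk C k with (Ind a ∧ Srj s a),
        {c : Fin r → Wk C k | Orth2 s a c}.ncard +
      ∑ a : Fin r → Wk C k with (Ind a ∧ ¬ Srj s a),
        {c : Fin r → Wk C k | Orth2 s a c}.ncard := by
    rw [← Finset.filter_filter, ← Finset.filter_filter]
    exact (Finset.sum_filter_add_sum_filter_not _ _ _).symm
  rw [h1]
  refine add_le_add ?_ ?_
  · have h2 : ∀ a ∈ (univ.filter fun a : Fin r → Wk C k => Ind a ∧ Srj s a),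
        {c : Fin r → Wk C k | Orth2 s a c}.ncard ≤ 2 ^ (Fintype.card C * (k * (k + 1) / 2)) := by
      intro a ha
      have ha' := (Finset.mem_filter.1 ha).2.2
      rw [← hGN C k r a (Srj_SJ ha')]
      exact Set.ncard_le_ncard (fun c hc => hGN2 C k r s a c ha' hc) (Set.toFinite _)
    refine (Finset.sum_le_sum h2).trans ?_
    rw [Finset.sum_const, smul_eq_mul]
    apply Nat.mul_le_mul_right
    rw [← card_all, Nat.card_eq_fintype_card]
    exact Finset.card_le_univ _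
  · rw [sum_ncard]
    exact hNG2 C k r s hs

theorem totalS_le (hNG2 : S_NG2) (hGN2 : S_GN2) (hGN : S_GN) (hCT2 : S_CT2) (C : Type) [Fintype C]
    (k r s : ℕ) (hs : s ≤ r) (β : Bm r) (π : Fin r → V 2 2) (δ : Fin r → ZMod 2) (κ lam : ZMod 2) :
    TS C k s β π δ κ lam * 4 ^ (r * (k * Fintype.card C)) ≤
      (BS s β).ncard * (PS s π).ncard ^ Fintype.card C *
        (4 ^ (r * (k * Fintype.card C)) * 2 ^ (Fintype.card C * (k * (k + 1) / 2)) +
        2 ^ (16 ^ (k * Fintype.card C)) * (4 ^ (k * Fintype.card C) - 1) ^ (r - s) *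
          16 ^ (k * Fintype.card C * s)) := by
  refine le_trans ?_ (Nat.mul_le_mul_left _ (orthS_le hNG2 hGN2 hGN C k r s hs))
  unfold TS
  rw [Finset.sum_mul, Finset.mul_sum]
  exact Finset.sum_le_sum fun a _ => (hCT2 C k r s hs a δ κ lam β π).1

open Classical in
/-- the sum over the `p` with the given small coordinates -/
noncomputable def YS (s : ℕ) {r : ℕ} (π : Fin r → V 2 2) (δ : Fin r → ZMod 2) (κ lam : ZMod 2)
    (k : ℕ) (B : Bm r) : ℕ :=
  ∑ p : Fin r → V 2 2 with p ∈ PS s π, fm δ κ lam k (B, p)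

theorem YS_eq (hIN : S_IN) (s k r : ℕ) (π : Fin r → V 2 2) (δ : Fin r → ZMod 2) (κ lam : ZMod 2)
    (B : Bm r) :
    YS s π δ κ lam k B =
      {y : (Fin r → V 2 2) × (Fin k → Fin r → V 2 2) | (LinearIndependent (ZMod 2) y.2 ∧
        ∀ j, PSol δ κ lam (sy B) y.1 (y.2 j)) ∧ y.1 ∈ PS s π}.ncard := by
  classical
  have h := sum_ncard (A := Fin r → V 2 2) (B := Fin k → Fin r → V 2 2) (fun p => p ∈ PS s π)
    (fun p a => LinearIndependent (ZMod 2) a ∧ ∀ j, PSol δ κ lam (sy B) p (a j))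
  unfold YS
  rw [← h]
  refine Finset.sum_congr ?_ fun p _ => (hIN k r δ κ lam (B, p)).symm
  ext p
  simp

open Classical in
theorem pow_sumS (hIN : S_IN) (C : Type) [Fintype C] (k r s : ℕ) (β : Bm r) (π : Fin r → V 2 2)
    (δ : Fin r → ZMod 2) (κ lam : ZMod 2) :
    ∑ B : Bm r with B ∈ BS s β, YS s π δ κ lam k B ^ (Fintype.card C) =
      TS C k s β π δ κ lam := by
  unfold TS NS
  rw [sum_ncard]
  let T : Bm r → Finset ((Fin r → V 2 2) × (Fin k → Fin r → V 2 2)) := fun B =>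
    univ.filter fun y => (LinearIndependent (ZMod 2) y.2 ∧
      ∀ j, PSol δ κ lam (sy B) y.1 (y.2 j)) ∧ y.1 ∈ PS s π
  have h1 : ∀ B : Bm r, YS s π δ κ lam k B ^ (Fintype.card C) =
      {f : C → (Fin r → V 2 2) × (Fin k → Fin r → V 2 2) | ∀ i, f i ∈ T B}.ncard := by
    intro B
    rw [YS_eq hIN]
    have e1 : {y : (Fin r → V 2 2) × (Fin k → Fin r → V 2 2) | (LinearIndependent (ZMod 2) y.2 ∧
        ∀ j, PSol δ κ lam (sy B) y.1 (y.2 j)) ∧ y.1 ∈ PS s π} = (T B : Set _) := by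
      ext y
      simp [T]
    have e2 : {f : C → (Fin r → V 2 2) × (Fin k → Fin r → V 2 2) | ∀ i, f i ∈ T B} =
        ((Fintype.piFinset fun _ : C => T B : Finset _) : Set _) := by
      ext f
      simp
    rw [e1, e2, Set.ncard_coe_finset, Set.ncard_coe_finset, Fintype.card_piFinset,
      Finset.prod_const, Finset.card_univ]
  rw [Finset.sum_congr rfl fun B _ => h1 B]
  have h2 := sum_ncard (A := Bm r) (B := C → (Fin r → V 2 2) × (Fin k → Fin r → V 2 2))
    (fun B => B ∈ BS s β) (fun B f => ∀ i, f i ∈ T B)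
  rw [h2, ← Nat.card_coe_set_eq, ← Nat.card_coe_set_eq]
  refine Nat.card_congr ((eqv C k r).subtypeEquiv ?_)
  rintro ⟨B, f⟩
  simp only [Set.mem_setOf_eq]
  constructor
  · rintro ⟨h, hB⟩
    refine ⟨⟨fun i j => ?_, hB, fun i => ?_⟩, fun i => ?_⟩
    · exact (Finset.mem_filter.1 (h i)).2.1.2 j
    · exact (Finset.mem_filter.1 (h i)).2.2
    · exact (Finset.mem_filter.1 (h i)).2.1.1
  · rintro ⟨⟨h3, hB, h5⟩, h4⟩
    exact ⟨fun i => Finset.mem_filter.2 ⟨Finset.mem_univ _, ⟨h4 i, h3 i⟩, h5 i⟩, hB⟩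

theorem card_nonSrj (C : Type) [Fintype C] (k r s : ℕ) (hs : s ≤ r) :
    {a : Fin r → Wk C k | ¬ Srj s a}.ncard ≤
      Nat.card (Wk C k) * ((Nat.card (Wk C k) - 1) ^ (r - s) * Nat.card (Wk C k) ^ s) := by
  classical
  have h1 : {a : Fin r → Wk C k | ¬ Srj s a} ⊆
      ((univ.biUnion fun w : Wk C k => Fintype.piFinset fun x : Fin r =>
        if s ≤ (x : ℕ) then univ.erase w else univ : Finset (Fin r → Wk C k)) :
          Set (Fin r → Wk C k)) := by
    intro a ha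
    rw [Set.mem_setOf_eq, Srj] at ha
    push Not at ha
    obtain ⟨w, hw⟩ := ha
    rw [mem_coe, mem_biUnion]
    refine ⟨w, mem_univ _, ?_⟩
    rw [Fintype.mem_piFinset]
    intro x
    split_ifs with hx
    · exact mem_erase.2 ⟨hw x hx, mem_univ _⟩
    · exact mem_univ _
  refine (Set.ncard_le_ncard h1 (Set.toFinite _)).trans ?_
  rw [Set.ncard_coe_finset]
  refine card_biUnion_le.trans ?_
  have h2 : ∀ w : Wk C k, (Fintype.piFinset fun x : Fin r =>
      if s ≤ (x : ℕ) then univ.erase w else univ).card =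
      (Nat.card (Wk C k) - 1) ^ (r - s) * Nat.card (Wk C k) ^ s := by
    intro w
    rw [Fintype.card_piFinset]
    have h3 : ∀ x : Fin r, (if s ≤ (x : ℕ) then univ.erase w else univ : Finset (Wk C k)).card =
        if s ≤ (x : ℕ) then Nat.card (Wk C k) - 1 else Nat.card (Wk C k) := by
      intro x
      split_ifs
      · rw [card_erase_of_mem (mem_univ _), card_univ, Nat.card_eq_fintype_card]
      · rw [card_univ, Nat.card_eq_fintype_card]
    rw [prod_congr rfl fun x _ => h3 x, prod_ite, prod_const, prod_const]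
    have h4 : (univ.filter fun x : Fin r => ¬ s ≤ (x : ℕ)).card = s := by
      have : (univ.filter fun x : Fin r => ¬ s ≤ (x : ℕ)) =
          (univ : Finset (Fin s)).map (Fin.castLEEmb hs) := by
        ext x
        rw [mem_filter, Finset.mem_map]
        constructor
        · rintro ⟨-, h⟩
          exact ⟨⟨x, by omega⟩, mem_univ _, Fin.ext rfl⟩
        · rintro ⟨y, -, rfl⟩
          refine ⟨mem_univ _, ?_⟩
          have := y.2
          change ¬ s ≤ (y : ℕ)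
          omega
      rw [this, card_map, card_univ, Fintype.card_fin]
    have h5 : (univ.filter fun x : Fin r => s ≤ (x : ℕ)).card = r - s := by
      have h6 := card_filter_add_card_filter_not (s := (univ : Finset (Fin r)))
        (fun x : Fin r => s ≤ (x : ℕ))
      rw [h4, card_univ, Fintype.card_fin] at h6
      omega
    rw [h4, h5]
  rw [sum_congr rfl fun w _ => h2 w, sum_const, card_univ, smul_eq_mul, Nat.card_eq_fintype_card]

theorem card_Srj (C : Type) [Fintype C] (hC : Fintype.card C = 1) (k r s : ℕ) (hs : s ≤ r) :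
    4 ^ (r * k) ≤ {a : Fin r → Wk C k | Srj s a}.ncard +
      4 ^ k * ((4 ^ k - 1) ^ (r - s) * (4 ^ k) ^ s) := by
  have h7 := card_nonSrj C k r s hs
  have h8 := card_all C k r
  rw [card_Wk] at h7
  simp only [hC, mul_one] at h7 h8
  have h9 : {a : Fin r → Wk C k | Srj s a}.ncard +
      {a : Fin r → Wk C k | ¬ Srj s a}.ncard = Nat.card (Fin r → Wk C k) := by
    exact Set.ncard_add_ncard_compl _
  rw [← h8, ← h9]
  exact Nat.add_le_add_left h7 _

open Classical in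
theorem lowS1 (hGN : S_GN) (hGD : S_GD) (hGN2 : S_GN2) (hCT2 : S_CT2) (C : Type) [Fintype C]
    (hC : Fintype.card C = 1) (k r s : ℕ) (hs : s ≤ r) (β : Bm r) (π : Fin r → V 2 2)
    (δ : Fin r → ZMod 2) (hδ : ∑ i, δ i = 0) (κ lam : ZMod 2) :
    {a : Fin r → Wk C k | Srj s a}.ncard *
        ((BS s β).ncard * (PS s π).ncard * 2 ^ (k * (k + 1) / 2)) ≤
      TS C k s β π δ κ lam * 4 ^ (r * k) := by
  obtain ⟨F, hF⟩ : ∃ F : Finset (Fin r → Wk C k), (F : Set _) =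
      {a : Fin r → Wk C k | Srj s a} := ⟨(Set.toFinite _).toFinset, Set.Finite.coe_toFinset _⟩
  have h2 : ∑ a ∈ F, NS s β π δ κ lam a ≤ TS C k s β π δ κ lam := by
    unfold TS
    apply sum_le_sum_of_subset
    intro a ha
    rw [mem_filter]
    have ha' : a ∈ (F : Set _) := ha
    rw [hF] at ha'
    exact ⟨mem_univ _, surj_ind (Srj_SJ ha')⟩
  have h3 : ∀ a ∈ F, NS s β π δ κ lam a * 4 ^ (r * k) =
      (BS s β).ncard * (PS s π).ncard * 2 ^ (k * (k + 1) / 2) := by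
    intro a ha
    have ha' : a ∈ (F : Set _) := ha
    rw [hF] at ha'
    have h4 := (hCT2 C k r s hs a δ κ lam β π).2 (fun c hc => by
      have hc' := hGN2 C k r s a c ha' hc
      exact ⟨hc', hGD C k r a c (Srj_SJ ha') hc' δ hδ κ lam⟩)
    have h5 : {c : Fin r → Wk C k | Orth2 s a c} = {c | Orth a c} := by
      ext c
      exact ⟨fun hc => hGN2 C k r s a c ha' hc, fun hc => ⟨fun x _ => hc.1 x, fun x y _ => hc.2 x y⟩⟩
    rw [h5, hGN C k r a (Srj_SJ ha')] at h4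
    simp only [hC, mul_one, one_mul, pow_one] at h4
    exact h4
  rw [← hF, Set.ncard_coe_finset]
  refine le_trans (le_of_eq ?_) (Nat.mul_le_mul_right _ h2)
  rw [sum_mul, sum_congr rfl h3, sum_const, smul_eq_mul]

open Classical in
theorem lowS (hGN : S_GN) (hGD : S_GD) (hGN2 : S_GN2) (hCT2 : S_CT2) (hIN : S_IN) (C : Type)
    [Fintype C] (hC : Fintype.card C = 1) (k r s : ℕ) (hs : s ≤ r) (β : Bm r)
    (π : Fin r → V 2 2) (δ : Fin r → ZMod 2) (hδ : ∑ i, δ i = 0) (κ lam : ZMod 2) :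
    (BS s β).ncard * (PS s π).ncard * 4 ^ (r * k) * 2 ^ (k * (k + 1) / 2) ≤
      (∑ B : Bm r with B ∈ BS s β, YS s π δ κ lam k B) * 4 ^ (r * k) +
        (BS s β).ncard * (PS s π).ncard * 2 ^ (k * (k + 1) / 2) *
          (4 ^ k * ((4 ^ k - 1) ^ (r - s) * (4 ^ k) ^ s)) := by
  have h1 := pow_sumS hIN C k r s β π δ κ lam
  simp only [hC, pow_one] at h1
  rw [h1]
  have h10 := lowS1 hGN hGD hGN2 hCT2 C hC k r s hs β π δ hδ κ lam
  have h6 := Nat.mul_le_mul_right ((BS s β).ncard * (PS s π).ncard * 2 ^ (k * (k + 1) / 2))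
    (card_Srj C hC k r s hs)
  obtain ⟨a1, e1⟩ : ∃ y, y = (BS s β).ncard * (PS s π).ncard := ⟨_, rfl⟩
  obtain ⟨a2, e2⟩ : ∃ y, y = 4 ^ (r * k) := ⟨_, rfl⟩
  obtain ⟨a3, e3⟩ : ∃ y, y = 2 ^ (k * (k + 1) / 2) := ⟨_, rfl⟩
  obtain ⟨a4, e4⟩ : ∃ y, y = 4 ^ k * ((4 ^ k - 1) ^ (r - s) * (4 ^ k) ^ s) := ⟨_, rfl⟩
  rw [← e1, ← e3] at h10
  rw [← e1, ← e2, ← e3, ← e4] at h6
  rw [← e2] at h10
  rw [← e1, ← e2, ← e3, ← e4]
  rw [add_mul] at h6
  have h7 := h6.trans (Nat.add_le_add_right h10 _)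
  refine le_trans (le_of_eq ?_) (h7.trans (le_of_eq ?_))
  · ring
  · ring

end

/-- no common zero at the large indices -/
def NzS (s : ℕ) {k r : ℕ} (a : Fin k → Fin r → V 2 2) : Prop :=
  ∀ (x : Fin r) (t : Fin 2), s ≤ (x : ℕ) → ∃ j : Fin k, a j x t ≠ 0

open Classical in
/-- the sum over the even `p` -/
noncomputable def evS (s : ℕ) {r : ℕ} (π : Fin r → V 2 2) (δ : Fin r → ZMod 2) (κ lam : ZMod 2)
    (k : ℕ) (B : Bm r) : ℕ :=
  ∑ p : Fin r → V 2 2 with (∑ y, ∑ t, p y t = 0 ∧ p ∈ PS s π), fm δ κ lam k (B, p)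

open Classical in
/-- the sum over the odd `p` -/
noncomputable def odS (s : ℕ) {r : ℕ} (π : Fin r → V 2 2) (δ : Fin r → ZMod 2) (κ lam : ZMod 2)
    (k : ℕ) (B : Bm r) : ℕ :=
  ∑ p : Fin r → V 2 2 with (∑ y, ∑ t, p y t ≠ 0 ∧ p ∈ PS s π), fm δ κ lam k (B, p)

open Classical in
/-- the sum over the vectors without a common zero -/
noncomputable def ZS (s : ℕ) {r : ℕ} (π : Fin r → V 2 2) (δ : Fin r → ZMod 2) (κ lam : ZMod 2)
    (k : ℕ) (B : Bm r) : ℕ :=
  ∑ a : Fin k → Fin r → V 2 2 with (LinearIndependent (ZMod 2) a ∧ NzS s a),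
    {p : Fin r → V 2 2 | p ∈ PS s π ∧ ∀ j, PSol δ κ lam (sy B) p (a j)}.ncard

theorem evS_add_odS (s : ℕ) {r : ℕ} (π : Fin r → V 2 2) (δ : Fin r → ZMod 2) (κ lam : ZMod 2)
    (k : ℕ) (B : Bm r) :
    evS s π δ κ lam k B + odS s π δ κ lam k B = YS s π δ κ lam k B := by
  classical
  unfold evS odS YS
  rw [sum_filter, sum_filter, sum_filter, ← sum_add_distrib]
  refine sum_congr rfl fun p _ => ?_
  by_cases h2 : p ∈ PS s π
  · by_cases h1 : ∑ y, ∑ t, p y t = 0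
    · rw [if_pos ⟨h1, h2⟩, if_neg (fun h => h.1 h1), if_pos h2, add_zero]
    · rw [if_neg (fun h => h1 h.1), if_pos ⟨h1, h2⟩, if_pos h2, zero_add]
  · rw [if_neg (fun h => h2 h.2), if_neg (fun h => h2 h.2), if_neg h2, add_zero]

theorem swap_sum' (hIN : S_IN) {r : ℕ} (δ : Fin r → ZMod 2) (κ lam : ZMod 2) (k : ℕ) (B : Bm r)
    (Q : (Fin r → V 2 2) → Prop) [DecidablePred Q] [DecidablePred fun a :
      Fin k → Fin r → V 2 2 => LinearIndependent (ZMod 2) a] :
    ∑ p : Fin r → V 2 2 with Q p, fm δ κ lam k (B, p) =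
      ∑ a : Fin k → Fin r → V 2 2 with LinearIndependent (ZMod 2) a,
        {p : Fin r → V 2 2 | Q p ∧ ∀ j, PSol δ κ lam (sy B) p (a j)}.ncard := by
  convert swap_sum hIN δ κ lam k B Q

theorem evS_odS (hSG2 : S_SG2) (hIN : S_IN) (s : ℕ) {r : ℕ} (π : Fin r → V 2 2)
    (δ : Fin r → ZMod 2) (κ lam : ZMod 2) (k : ℕ) (B : Bm r) :
    evS s π δ κ lam k B ≤ odS s π δ κ lam k B + ZS s π δ κ lam k B ∧
      odS s π δ κ lam k B ≤ evS s π δ κ lam k B + ZS s π δ κ lam k B := by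
  classical
  have key : ∀ Q Q' : (Fin r → V 2 2) → Prop,
      (∀ a : Fin k → Fin r → V 2 2, ¬ NzS s a →
        {p : Fin r → V 2 2 | (Q p ∧ p ∈ PS s π) ∧ ∀ j, PSol δ κ lam (sy B) p (a j)}.ncard =
        {p : Fin r → V 2 2 | (Q' p ∧ p ∈ PS s π) ∧ ∀ j, PSol δ κ lam (sy B) p (a j)}.ncard) →
      ∑ p : Fin r → V 2 2 with (Q p ∧ p ∈ PS s π), fm δ κ lam k (B, p) ≤
        ∑ p : Fin r → V 2 2 with (Q' p ∧ p ∈ PS s π), fm δ κ lam k (B, p) +
          ZS s π δ κ lam k B := by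
    intro Q Q' h
    rw [swap_sum' hIN, swap_sum' hIN]
    unfold ZS
    rw [← filter_filter, sum_filter (p := fun a : Fin k → Fin r → V 2 2 => NzS s a),
      ← sum_add_distrib]
    refine sum_le_sum fun a _ => ?_
    by_cases hz : NzS s a
    · rw [if_pos hz]
      refine le_trans ?_ (Nat.le_add_left _ _)
      exact Set.ncard_le_ncard (fun p hp => ⟨hp.1.2, hp.2⟩) (Set.toFinite _)
    · rw [if_neg hz, add_zero]
      exact (h a hz).le
  have h0 : ∀ a : Fin k → Fin r → V 2 2, ¬ NzS s a →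
      {p : Fin r → V 2 2 | (∑ y, ∑ t, p y t = 0 ∧ p ∈ PS s π) ∧
        ∀ j, PSol δ κ lam (sy B) p (a j)}.ncard =
      {p : Fin r → V 2 2 | (∑ y, ∑ t, p y t ≠ 0 ∧ p ∈ PS s π) ∧
        ∀ j, PSol δ κ lam (sy B) p (a j)}.ncard := by
    intro a hz
    unfold NzS at hz
    push Not at hz
    obtain ⟨x, t, hx, hxs⟩ := hz
    have h1 := hSG2 k r s δ κ lam B π a x t hx hxs
    have e1 : {p : Fin r → V 2 2 | (∑ y, ∑ t, p y t = 0 ∧ p ∈ PS s π) ∧
        ∀ j, PSol δ κ lam (sy B) p (a j)} = {p : Fin r → V 2 2 | ∑ y, ∑ t, p y t = 0 ∧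
        p ∈ PS s π ∧ ∀ j, PSol δ κ lam (sy B) p (a j)} := by
      ext p
      simp only [Set.mem_setOf_eq, and_assoc]
    have e2 : {p : Fin r → V 2 2 | (∑ y, ∑ t, p y t ≠ 0 ∧ p ∈ PS s π) ∧
        ∀ j, PSol δ κ lam (sy B) p (a j)} = {p : Fin r → V 2 2 | ∑ y, ∑ t, p y t ≠ 0 ∧
        p ∈ PS s π ∧ ∀ j, PSol δ κ lam (sy B) p (a j)} := by
      ext p
      simp only [Set.mem_setOf_eq, and_assoc]
    rw [e1, e2]
    exact h1
  unfold evS odS
  refine ⟨?_, ?_⟩
  · convert key (fun p => ∑ y, ∑ t, p y t = 0) (fun p => ∑ y, ∑ t, p y t ≠ 0) h0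
  · convert key (fun p => ∑ y, ∑ t, p y t ≠ 0) (fun p => ∑ y, ∑ t, p y t = 0)
      (fun a hz => (h0 a hz).symm)

open Classical in
theorem sum_ZS (hNG2 : S_NG2) (hCT2 : S_CT2) (C : Type) [Fintype C] (i0 : C) (hi : ∀ i, i = i0)
    (hC : Fintype.card C = 1) (k r s : ℕ) (hs : s ≤ r) (β : Bm r) (π : Fin r → V 2 2)
    (δ : Fin r → ZMod 2) (κ lam : ZMod 2) :
    (∑ B : Bm r with B ∈ BS s β, ZS s π δ κ lam k B) * 4 ^ (r * k) ≤
      (BS s β).ncard * (PS s π).ncard *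
        (2 ^ (16 ^ k) * (4 ^ k - 1) ^ (r - s) * 16 ^ (k * s)) := by
  have h1 : ∑ B : Bm r with B ∈ BS s β, ZS s π δ κ lam k B = ∑ a : Fin r → Wk C k with
      (Ind a ∧ NzS s fun j x => a x i0 j), NS s β π δ κ lam a := by
    have e1 : ∀ B : Bm r, ZS s π δ κ lam k B = {v : (Fin k → Fin r → V 2 2) × (Fin r → V 2 2) |
        (v.2 ∈ PS s π ∧ ∀ j, PSol δ κ lam (sy B) v.2 (v.1 j)) ∧
          (LinearIndependent (ZMod 2) v.1 ∧ NzS s v.1)}.ncard := by
      intro B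
      unfold ZS
      rw [sum_ncard]
    rw [sum_congr rfl fun B _ => e1 B]
    unfold NS
    rw [sum_ncard, sum_ncard, ← Nat.card_coe_set_eq, ← Nat.card_coe_set_eq]
    let e : (Bm r × ((Fin k → Fin r → V 2 2) × (Fin r → V 2 2))) ≃
        ((Fin r → Wk C k) × (Bm r × (C → Fin r → V 2 2))) :=
      { toFun := fun z => (fun x _ j => z.2.1 j x, (z.1, fun _ => z.2.2))
        invFun := fun v => (v.2.1, (fun j x => v.1 x i0 j, v.2.2 i0))
        left_inv := fun z => rfl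
        right_inv := fun v => by
          refine Prod.ext ?_ (Prod.ext rfl ?_)
          · funext x i j
            rw [hi i]
          · funext i
            rw [hi i] }
    refine Nat.card_congr (e.subtypeEquiv ?_)
    rintro ⟨B, a, p⟩
    simp only [Set.mem_setOf_eq]
    constructor
    · rintro ⟨⟨⟨h2, h3⟩, h4, h5⟩, hB⟩
      exact ⟨⟨fun i j => h3 j, hB, fun i => h2⟩, fun i => h4, h5⟩
    · rintro ⟨⟨h3, hB, h2⟩, h4, h5⟩
      exact ⟨⟨⟨h2 i0, fun j => h3 i0 j⟩, h4 i0, h5⟩, hB⟩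
  rw [h1, sum_mul]
  have h3 : ∀ a : Fin r → Wk C k, NS s β π δ κ lam a * 4 ^ (r * k) ≤
      (BS s β).ncard * (PS s π).ncard * {c : Fin r → Wk C k | Orth2 s a c}.ncard := by
    intro a
    have h4 := (hCT2 C k r s hs a δ κ lam β π).1
    simp only [hC, mul_one, pow_one] at h4
    exact h4
  refine (sum_le_sum fun a _ => h3 a).trans ?_
  rw [← mul_sum]
  apply Nat.mul_le_mul_left
  have h5 := hNG2 C k r s hs
  simp only [hC, mul_one] at h5
  refine le_trans ?_ h5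
  have h6 : ∑ a : Fin r → Wk C k with (Ind a ∧ NzS s fun j x => a x i0 j),
      {c : Fin r → Wk C k | Orth2 s a c}.ncard ≤
      ∑ a : Fin r → Wk C k with (Ind a ∧ ¬ Srj s a),
        {c : Fin r → Wk C k | Orth2 s a c}.ncard := by
    apply sum_le_sum_of_subset
    intro a ha
    rw [mem_filter] at ha ⊢
    refine ⟨ha.1, ha.2.1, fun hsj => ?_⟩
    obtain ⟨x, hxs, hx⟩ := hsj 0
    obtain ⟨j, hj⟩ := ha.2.2 x 0 hxs
    apply hj
    change a x i0 j 0 = 0
    rw [hx]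
    rfl
  refine h6.trans (le_of_eq ?_)
  rw [sum_ncard]
  rfl

end Pool.Agent.D0H99.OD
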