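import Pool.Agent.D0H99.OD.Idx
import Pool.Agent.D0H99.DE.Rk

/-!
Explicit 2-descent for twists by primes of any degrees: the bound for the rank.
-/

set_option autoImplicit false
set_option linter.all false

open Polynomial IsDedekindDomain WeierstrassCurve

namespace Pool.Agent.D0H99.OD

open Finset
open Pool.Agent.Y164.SZ
open Pool.Agent.D0H99.FT (br nu cs)
open Pool.Agent.D0H99.RM (V Sol)
open Pool.Agent.D0H99.DE (rt tors four_pts rank_index)
open Pool.Agent.D0H99.DE.Hv (Ea tp2)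

section
variable {k : Type} [Field k] [Fintype k] [DecidableEq k]
variable {c : Fin 2 → k} {g : k[X]} {P : Fin 2 → k[X]} {r : ℕ} {T : Fin r → k[X]}

open scoped Classical in
theorem rank_le (h2 : (2 : k) ≠ 0) (H : Dtc 2 c g P T (fun _ => 1))
    (hδ : ∑ x, ((T x).natDegree : ZMod 2) = 0) :
    2 ^ Module.finrank ℤ (Pool.Agent.D0H99.RM.crv (rt (RatFunc k) c g T 0) (rt (RatFunc k) c g T 1)
      (rt (RatFunc k) c g T 2)).toAffine.Point ≤ (SolSet g c P T).ncard := by
  have h2' : (2 : RatFunc k) ≠ 0 := by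
    have : (2 : RatFunc k) = algebraMap k (RatFunc k) 2 :=
      (map_ofNat (algebraMap k (RatFunc k)) 2).symm
    rw [this]
    exact (_root_.map_ne_zero _).mpr h2
  haveI : NeZero (2 : RatFunc k) := ⟨h2'⟩
  have hα := rt_inj (K := RatFunc k) H
  obtain ⟨h12, h13, h23⟩ := DE.Hv.ne' hα
  obtain ⟨i1, i2⟩ := idx (K := RatFunc k) H hδ
  have hfg := Pool.Agent.D0H49.RM.mw h2' h12 h13 h23 i1
  obtain ⟨S, hS4, hS⟩ := four_pts hα
  have h3 := rank_index hfg i1 hS
  rw [hS4] at h3
  have hc : Pool.Agent.D0H99.RM.crv (rt (RatFunc k) c g T 0) (rt (RatFunc k) c g T 1)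
      (rt (RatFunc k) c g T 2) = Pool.Agent.D0H49.RM.Par.crv (-rt (RatFunc k) c g T 0)
      (-rt (RatFunc k) c g T 1) (-rt (RatFunc k) c g T 2) := by
    simp only [Pool.Agent.D0H99.RM.crv, Pool.Agent.D0H49.RM.Par.crv]
    congr 1 <;> ring
  rw [hc]
  have h4 := h3.trans i2
  omega

end

end Pool.Agent.D0H99.OD
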