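import Pool.Agent.D0H99.OD.Alg

/-!
Explicit 2-descent for twists by primes of any degrees: the vector of a Selmer class is a solution of the
perturbed system (adapted from `Pool.Agent.D0H99.DE.Sol`).
-/

set_option autoImplicit false
set_option linter.all false

open Polynomial IsDedekindDomain

namespace Pool.Agent.D0H99.OD

open Finset
open Pool.Agent.Y164.SZ
open Pool.Agent.Y713.SE (hp Pw)
open Pool.Agent.Y164.PS (Fam el)
open Pool.Agent.D0H99.FT (br nu cs)
open Pool.Agent.D0H99.RM (V Sol)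
open Pool.Agent.D0H99.DE (tx tp th t1 t2 t4 t5 th_ne th_mu succ_cases rt tors LSq locB Vec tc two0
  z_add_self eq_of_add cases_fin3)

theorem th_succ : ∀ b : Fin 2, th b = (b + 1).succ := by decide

theorem mu_one : ∀ b : Fin 2, mu 2 (fun _ => (0 : Fin 3)) Fin.succ 0 (b + 1).succ (b + 1) = 1 := by
  decide

theorem fin2_sum {f : Fin 2 → ZMod 2} (b : Fin 2) : ∑ s, f s = f b + f (b + 1) := by
  rw [Fin.sum_univ_two]
  fin_cases b
  · rfl
  · exact add_comm _ _

theorem b11 : ∀ b : Fin 2, b + 1 + 1 = b := by decide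

section
variable {k : Type} [Field k] [Fintype k] [DecidableEq k]
variable {K : Type} [Field K] [Algebra k[X] K] [IsFractionRing k[X] K]
variable {c : Fin 2 → k} {g : k[X]} {P : Fin 2 → k[X]} {r : ℕ} {T : Fin r → k[X]}

theorem rep_rt (H : Dtc 2 c g P T (fun _ => 1)) {i j : Fin 3} (h : i ≠ j) :
    IsRep 2 (Sum.elim T P) (rt K c g T i - rt K c g T j) (cs 2 g c i j)
      (Sum.elim (fun _ => 1) (fun s => mu 2 (fun _ => 0) Fin.succ i j s)) := by
  have h1 := H.rep_diff K h
  have h2 := H.rep_twist K (r := 1) one_ne_zero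
  have h3 := h1.mul H.S h2
  have e : (algebraMap k[X] K (br g c i) - algebraMap k[X] K (br g c j)) *
      algebraMap k[X] K (C 1 * ∏ x, T x ^ 1) = rt K c g T i - rt K c g T j := by
    unfold rt
    simp only [pow_one, C_1, one_mul, map_mul]
    ring
  rw [e] at h3
  refine h3.congr ?_ ?_
  · rw [ch_one H.S, add_zero]
  · rintro (x | s)
    · simp
    · simp

theorem rt_ne (H : Dtc 2 c g P T (fun _ => 1)) {i j : Fin 3} (h : i ≠ j) :
    rt K c g T i - rt K c g T j ≠ 0 := (rep_rt H h).ne H.fam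

theorem rep_tors (H : Dtc 2 c g P T (fun _ => 1)) (i j : Fin 3) :
    IsRep 2 (Sum.elim T P) (tors K c g T i j) (tc g c i j)
      (Sum.elim (fun _ => tx i j) (tp i j)) := by
  unfold tors tc tx
  by_cases h : j = i
  · simp only [if_pos h]
    have h1 := IsRep.prod H.S (univ.erase i) (f := fun l => rt K c g T i - rt K c g T l)
      (fun l hl => rep_rt H (ne_of_mem_erase hl).symm)
    refine h1.congr rfl ?_
    rintro (x | s)
    · simp only [Sum.elim_inl, sum_const]
      have : (univ.erase i).card = 2 := by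
        rw [card_erase_of_mem (mem_univ _), card_univ, Fintype.card_fin]
      rw [this]
      decide
    · simp only [Sum.elim_inr]
      unfold tp
      rw [if_pos h]
  · simp only [if_neg h]
    refine (rep_rt H (Ne.symm h)).congr rfl ?_
    rintro (x | s)
    · rfl
    · simp only [Sum.elim_inr]
      unfold tp
      rw [if_neg h]

theorem rep_tw (H : Dtc 2 c g P T (fun _ => 1)) (m : Fin 3 → ℕ) (j : Fin 3) :
    IsRep 2 (Sum.elim T P) (∏ i, tors K c g T i j ^ m i) (∑ i, (m i : ZMod 2) * tc g c i j)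
      (Sum.elim (fun _ => ∑ i, (m i : ZMod 2) * tx i j)
        (fun s => ∑ i, (m i : ZMod 2) * tp i j s)) := by
  have h1 := IsRep.prod H.S univ (f := fun i => tors K c g T i j ^ m i)
    (fun i _ => (rep_tors H i j).pow H.S (m i))
  refine h1.congr rfl ?_
  rintro (x | s)
  · rfl
  · rfl

theorem third_zero {H : Dtc 2 c g P T (fun _ => 1)} {D : Fin 3 → K} (h : Sel H D)
    {cc : Fin 3 → ZMod 2} {U : Fin 3 → (Fin r ⊕ Fin 2) → ZMod 2}
    (h1 : ∀ i, IsRep 2 (Sum.elim T P) (D i) (cc i) (U i)) (s : Fin 2) :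
    U (th s) (Sum.inr s) = 0 ∧
    ∑ y, (U (th s) y + U 0 (Sum.inr s) * (Sum.elim (fun _ => 1)
      (fun s' => mu 2 (fun _ => 0) Fin.succ 0 (th s) s') : (Fin r ⊕ Fin 2) → ZMod 2) y) *
        L 2 (Sum.elim T P y) (P s) +
      ((P s).natDegree : ZMod 2) * (cc (th s) + U 0 (Sum.inr s) * cs 2 g c 0 (th s)) = 0 := by
  obtain ⟨rA, rB, rC, rD⟩ :=
    Pool.Agent.Y547.SZ.Rep.t 2 k K (Fin r ⊕ Fin 2) (Sum.elim T P) H.fam H.S
  replace rB := locB (K := K) H.S H.fam
  obtain ⟨ρ, h2, h3⟩ := h.node s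
  have hPs : IsRep 2 (Sum.elim T P) (algebraMap k[X] K (P s)) 0 (Pi.single (Sum.inr s) 1) := by
    have h4 := isRep_el (ℓ := 2) (K := K) (R := Sum.elim T P) (r := 1) one_ne_zero
      (Pi.single (Sum.inr s) 1)
    have e : el (Sum.elim T P) 1 (Pi.single (Sum.inr s) 1) = P s := by
      rw [el, C_1, one_mul, prod_eq_single (Sum.inr s)]
      · rw [Pi.single_eq_same, pow_one]
        rfl
      · intro y _ hy
        rw [Pi.single_eq_of_ne hy, pow_zero]
      · intro h
        exact absurd (mem_univ _) h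
    rw [e] at h4
    refine h4.congr (ch_one H.S) (fun y => ?_)
    by_cases hy : y = Sum.inr s
    · rw [hy, Pi.single_eq_same, Pi.single_eq_same, Nat.cast_one]
    · rw [Pi.single_eq_of_ne hy, Pi.single_eq_of_ne hy, Nat.cast_zero]
  have h5 := rA _ _ _ ((h1 0).mul H.S (hPs.pow H.S ρ)) (Sum.inr s) h3
  rw [Pi.single_eq_same, mul_one] at h5
  have hρ : (ρ : ZMod 2) = U 0 (Sum.inr s) := by
    linear_combination h5 - (U 0 (Sum.inr s)) * two0
  obtain ⟨h6, h7⟩ := rB _ _ _ ((h1 (th s)).mul H.S ((rep_rt H (th_ne s).1.symm).pow H.S ρ))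
    (Sum.inr s) h2
  simp only [Sum.elim_inr] at h6 h7
  rw [th_mu, mul_zero, add_zero] at h6
  rw [hρ] at h7
  exact ⟨h6, h7⟩

theorem node_succ {H : Dtc 2 c g P T (fun _ => 1)} {D : Fin 3 → K} (h : Sel H D)
    {cc : Fin 3 → ZMod 2} {U : Fin 3 → (Fin r ⊕ Fin 2) → ZMod 2}
    (h1 : ∀ i, IsRep 2 (Sum.elim T P) (D i) (cc i) (U i)) (h3 : ∀ y, U 0 y = U 1 y + U 2 y)
    (b s : Fin 2) : U b.succ (Sum.inr s) = if s = b then U 0 (Sum.inr s) else 0 := by
  have h2 := (third_zero h h1 s).1
  by_cases hs : s = b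
  · rw [if_pos hs, h3, ← hs]
    fin_cases s
    · have e : U 2 (Sum.inr 0) = 0 := h2
      change U 1 (Sum.inr 0) = U 1 (Sum.inr 0) + U 2 (Sum.inr 0)
      rw [e, add_zero]
    · have e : U 1 (Sum.inr 1) = 0 := h2
      change U 2 (Sum.inr 1) = U 1 (Sum.inr 1) + U 2 (Sum.inr 1)
      rw [e, zero_add]
  · rw [if_neg hs, succ_cases b s hs]
    exact h2

theorem tc_sum (H : Dtc 2 c g P T (fun _ => 1)) (i : Fin 3) :
    tc g c i 0 = tc g c i 1 + tc g c i 2 := by
  have s01 := H.cs_symm 0 1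
  have s02 := H.cs_symm 0 2
  have s12 := H.cs_symm 1 2
  have e0 : univ.erase (0 : Fin 3) = {1, 2} := by decide
  have e1 : univ.erase (1 : Fin 3) = {0, 2} := by decide
  have e2 : univ.erase (2 : Fin 3) = {0, 1} := by decide
  have n12 : (1 : Fin 3) ≠ 2 := by decide
  have n02 : (0 : Fin 3) ≠ 2 := by decide
  have n01 : (0 : Fin 3) ≠ 1 := by decide
  revert i
  apply cases_fin3
  · unfold tc
    rw [if_pos rfl, if_neg (by decide), if_neg (by decide), e0, sum_pair n12]
  · unfold tc
    rw [if_neg (by decide), if_pos rfl, if_neg (by decide), e1, sum_pair n02]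
    linear_combination (-(cs 2 g c 1 2)) * two0
  · unfold tc
    rw [if_neg (by decide), if_neg (by decide), if_pos rfl, e2, sum_pair n01]
    linear_combination (-(cs 2 g c 2 1)) * two0

/-- the constant of the roots `g` and `c s` -/
theorem cs_zero (H : Dtc 2 c g P T (fun _ => 1)) (s : Fin 2) :
    cs 2 g c 0 s.succ = ch 2 g.leadingCoeff := by
  unfold cs
  congr 1
  change (g - C (c s)).leadingCoeff = _
  apply leadingCoeff_sub_of_degree_lt
  exact lt_of_le_of_lt degree_C_le (natDegree_pos_iff_degree_pos.1 H.gpos)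

theorem deg_one (H : Dtc 2 c g P T (fun _ => 1)) (s : Fin 2) : ((P s).natDegree : ZMod 2) = 1 := by
  have h1 : ∀ z : ZMod 2, z ≠ 0 → z = 1 := by decide
  exact h1 _ (H.deg_P_ne s)

/-- the symbol of the two nodes -/
theorem symb (H : Dtc 2 c g P T (fun _ => 1)) (b : Fin 2) :
    L 2 (P (b + 1)) (P b) = cs 2 g c 1 2 + ch 2 g.leadingCoeff := by
  have hlc := H.lc_ne
  have hPm : ∀ s, (P s).Monic := fun s => H.fam.mon (Sum.inr s)
  have hPi : ∀ s, Irreducible (P s) := fun s => H.fam.irr (Sum.inr s)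
  have hne : P (b + 1) ≠ P b := by
    intro h
    have h1 : (Sum.inr (b + 1) : Fin r ⊕ Fin 2) = Sum.inr b := H.fam.inj h
    have h2 : ∀ b : Fin 2, b + 1 ≠ b := by decide
    exact h2 b (Sum.inr_injective h1)
  have hcop : IsCoprime (P (b + 1)) (P b) := by
    refine ((hPi (b + 1)).coprime_iff_not_dvd).2 fun hd => hne ?_
    exact eq_of_monic_of_associated (hPm _) (hPm _)
      (((hPi _).associated_of_dvd (hPi _)) hd)
  have hcc : c (b + 1) ≠ c b := by
    intro h
    have h2 : ∀ b : Fin 2, b + 1 ≠ b := by decide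
    exact h2 b (H.hc h)
  have hd : P b ∣ C g.leadingCoeff * P (b + 1) - C (c b - c (b + 1)) := by
    refine ⟨C g.leadingCoeff, ?_⟩
    rw [← H.hP (b + 1), C_sub, mul_comm (P b), ← H.hP b]
    ring
  have h1 := H.S.L_congr (P b) _ _ (hPm b) (hPi b) hd
  have hcu : IsCoprime (C g.leadingCoeff) (P b) :=
    ⟨C (g.leadingCoeff)⁻¹, 0, by rw [zero_mul, add_zero, ← C_mul, inv_mul_cancel₀ hlc, C_1]⟩
  rw [H.S.L_mul_left _ _ _ (hPm b).ne_zero (C_ne_zero.2 hlc) (hPm _).ne_zero hcu hcop,
    H.S.L_C _ _ hlc, H.S.L_C _ _ (sub_ne_zero.2 hcc.symm), deg_one H, one_mul, one_mul] at h1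
  have h2 : ch 2 (c b - c (b + 1)) = cs 2 g c 1 2 := by
    have h3 : cs 2 g c 1 2 = ch 2 (c 0 - c 1) := by
      unfold cs
      congr 1
      change (C (c 0) - C (c 1)).leadingCoeff = _
      rw [← C_sub, leadingCoeff_C]
    have h01 : c 0 - c 1 ≠ 0 := sub_ne_zero.2 fun h => absurd (H.hc h) (by decide)
    have h4 := H.ch_neg (c 0 - c 1) h01
    rw [neg_sub] at h4
    rw [h3]
    fin_cases b
    · rfl
    · exact h4
  rw [h2] at h1
  linear_combination h1 - (ch 2 g.leadingCoeff) * two0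

theorem sol_of {H : Dtc 2 c g P T (fun _ => 1)} (hδ : ∑ x, ((T x).natDegree : ZMod 2) = 0)
    {D : Fin 3 → K} (h : Sel H D) {a : Fin r → V 2 2} (hv : Vec T P D a) :
    PSol (fun x => ((T x).natDegree : ZMod 2)) (cs 2 g c 1 2) (ch 2 g.leadingCoeff)
      (fun x y => L 2 (T y) (T x)) (fun x s => L 2 (P s) (T x)) a := by
  obtain ⟨rA, rB, rC, rD⟩ :=
    Pool.Agent.Y547.SZ.Rep.t 2 k K (Fin r ⊕ Fin 2) (Sum.elim T P) H.fam H.S
  replace rB := locB (K := K) H.S H.fam
  obtain ⟨cc, U, h1, h2, h3, h4⟩ := hv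
  obtain ⟨kap, hkap⟩ : ∃ z, z = cs 2 g c 1 2 := ⟨_, rfl⟩
  obtain ⟨lam, hlam⟩ : ∃ z, z = ch 2 g.leadingCoeff := ⟨_, rfl⟩
  obtain ⟨δ, hδ'⟩ : ∃ δ : Fin r → ZMod 2, δ = fun x => ((T x).natDegree : ZMod 2) := ⟨_, rfl⟩
  rw [← hkap, ← hlam, ← hδ']
  have hδ0 : ∑ x, δ x = 0 := by rw [hδ']; exact hδ
  obtain ⟨u, hu⟩ : ∃ u : Fin 2 → ZMod 2, u = fun s => U 0 (Sum.inr s) := ⟨_, rfl⟩
  obtain ⟨p, hp'⟩ : ∃ p : Fin r → Fin 2 → ZMod 2, p = fun x s => L 2 (P s) (T x) := ⟨_, rfl⟩
  rw [← hp']
  have hU : ∀ b s, U b.succ (Sum.inr s) = if s = b then U 0 (Sum.inr s) else 0 :=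
    fun b s => node_succ h h1 h3 b s
  -- the constants
  have hc0 : ∀ b : Fin 2, cs 2 g c 0 b.succ = lam := fun b => by rw [hlam]; exact cs_zero H b
  have hUth : ∀ (y : Fin r) (b : Fin 2), U (th b) (Sum.inl y) = a y b + u b := by
    intro y b
    rw [h4, hu]
    have h5 := h3 (Sum.inl y)
    fin_cases b
    · change U 2 (Sum.inl y) = U 1 (Sum.inl y) + U 0 (Sum.inl y) + U 0 (Sum.inr 0) + U 0 (Sum.inr 0)
      linear_combination (-1 : ZMod 2) * h5 - (U 1 (Sum.inl y) + U 0 (Sum.inr 0)) * two0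
    · change U 1 (Sum.inl y) = U 2 (Sum.inl y) + U 0 (Sum.inl y) + U 0 (Sum.inr 1) + U 0 (Sum.inr 1)
      linear_combination (-1 : ZMod 2) * h5 - (U 2 (Sum.inl y) + U 0 (Sum.inr 1)) * two0
  have hcc : ∀ b : Fin 2, cc (th b) = ∑ y, a y b * p y b + (u (b + 1) + u b) * (kap + lam) +
      u b * lam := by
    intro b
    have h5 := (third_zero h h1 b).2
    rw [Fintype.sum_sum_type, deg_one H, one_mul] at h5
    simp only [Sum.elim_inl, Sum.elim_inr, mul_one] at h5
    have e1 : ∑ y, (U (th b) (Sum.inl y) + U 0 (Sum.inr b)) * L 2 (T y) (P b) =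
        ∑ y, a y b * p y b := by
      refine sum_congr rfl fun y _ => ?_
      rw [hUth, hp', H.S.L_comm (T y) (P b), hu]
      linear_combination (U 0 (Sum.inr b) * L 2 (P b) (T y)) * two0
    have e2 : ∑ s, (U (th b) (Sum.inr s) + U 0 (Sum.inr b) *
        mu 2 (fun _ => 0) Fin.succ 0 (th b) s) * L 2 (P s) (P b) =
        (u (b + 1) + u b) * (kap + lam) := by
      rw [fin2_sum b]
      have e3 : L 2 (P b) (P b) = 0 := H.L_self (Sum.inr b)
      rw [e3, mul_zero, zero_add, symb H b, th_succ, mu_one, hU, if_pos rfl, hu, hkap, hlam]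
      ring
    rw [e1, e2] at h5
    have e4 : cs 2 g c 0 (th b) = lam := by
      rw [th_succ]
      exact hc0 _
    rw [e4] at h5
    have e5 : U 0 (Sum.inr b) = u b := by rw [hu]
    rw [e5] at h5
    linear_combination h5 - (∑ y, a y b * p y b + (u (b + 1) + u b) * (kap + lam) +
      u b * lam) * two0
  have hc1 : cc 0 = cc 1 + cc 2 := h2
  -- the equations
  have E1 : ∀ (x : Fin r) (b : Fin 2), (∑ y, L 2 (T y) (T x) * (a x b - a y b) +
      ∑ s, a x s * p x s + a x b * p x b) + δ x * (∑ y, a y b * p y b + lam * a x (b + 1) +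
        kap * (a x 0 + a x 1)) = 0 := by
    intro x b
    obtain ⟨m, hm⟩ := h.twist x
    obtain ⟨w, hw⟩ : ∃ w : Fin 3 → ZMod 2, w = fun j => ∑ i, (m i : ZMod 2) * tx i j := ⟨_, rfl⟩
    have hd : ((T x).natDegree : ZMod 2) = δ x := by rw [hδ']
    have key : ∀ j : Fin 3, U j (Sum.inl x) = w j ∧
        ∑ y, (U j (Sum.inl y) + w j) * L 2 (T y) (T x) +
          ∑ s, (U j (Sum.inr s) + ∑ i, (m i : ZMod 2) * tp i j s) * L 2 (P s) (T x) +
          δ x * (cc j + ∑ i, (m i : ZMod 2) * tc g c i j) = 0 := by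
      intro j
      obtain ⟨h5, h6⟩ := rB _ _ _ ((h1 j).mul H.S (rep_tw H m j)) (Sum.inl x) (hm j)
      rw [Fintype.sum_sum_type] at h6
      simp only [Sum.elim_inl, Sum.elim_inr] at h5 h6
      rw [hd] at h6
      constructor
      · rw [hw]
        linear_combination h5 - (∑ i, (m i : ZMod 2) * tx i j) * two0
      · rw [hw]
        exact h6
    have e0 := (key 0).2
    have e1 := (key b.succ).2
    have hw0 : ∀ s : Fin 2, ∑ i, (m i : ZMod 2) * tp i 0 s = w 0 + w s.succ := by
      intro s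
      rw [hw]
      simp only [t1, mul_add, sum_add_distrib]
    have hwb : ∀ s : Fin 2, ∑ i, (m i : ZMod 2) * tp i b.succ s =
        if s = b then w 0 + w b.succ else 0 := by
      intro s
      rw [hw]
      simp only [t2]
      by_cases hs : s = b
      · simp only [if_pos hs, mul_add, sum_add_distrib]
      · simp only [if_neg hs, mul_zero, sum_const_zero]
    have ea : ∀ s, a x s = w s.succ + w 0 + u s := by
      intro s
      rw [h4, (key s.succ).1, (key 0).1, hu]
    have y1 : ∀ y : Fin r, L 2 (T y) (T x) * (a x b - a y b) =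
        (U 0 (Sum.inl y) + w 0) * L 2 (T y) (T x) +
          (U b.succ (Sum.inl y) + w b.succ) * L 2 (T y) (T x) := by
      intro y
      rw [ea, h4]
      have e5 : U 0 (Sum.inr b) = u b := by rw [hu]
      rw [e5]
      linear_combination (-(U 0 (Sum.inl y) + U b.succ (Sum.inl y)) * L 2 (T y) (T x)) * two0
    have y2 : ∀ s : Fin 2, a x s * p x s + (if s = b then a x s * p x s else 0) =
        (U 0 (Sum.inr s) + ∑ i, (m i : ZMod 2) * tp i 0 s) * L 2 (P s) (T x) +
          (U b.succ (Sum.inr s) + ∑ i, (m i : ZMod 2) * tp i b.succ s) * L 2 (P s) (T x) := by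
      intro s
      rw [hw0, hwb, hU, ea, hp', hu]
      by_cases hs : s = b
      · simp only [if_pos hs]
        rw [hs]
        ring
      · simp only [if_neg hs]
        ring
    have hsum : ∑ s, (a x s * p x s + (if s = b then a x s * p x s else 0)) =
        ∑ s, a x s * p x s + a x b * p x b := by
      rw [sum_add_distrib, sum_ite_eq' univ b, if_pos (mem_univ b)]
    -- the constants of the torsion points
    have htc : ∑ i, (m i : ZMod 2) * tc g c i 0 + ∑ i, (m i : ZMod 2) * tc g c i b.succ =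
        lam * w b.succ + kap * w 0 := by
      have s10 := H.cs_symm 1 0
      have s20 := H.cs_symm 2 0
      have s21 := H.cs_symm 2 1
      have l1 : cs 2 g c 0 1 = lam := hc0 0
      have l2 : cs 2 g c 0 2 = lam := hc0 1
      have e0 : univ.erase (0 : Fin 3) = {1, 2} := by decide
      have e1 : univ.erase (1 : Fin 3) = {0, 2} := by decide
      have e2 : univ.erase (2 : Fin 3) = {0, 1} := by decide
      have n12 : (1 : Fin 3) ≠ 2 := by decide
      have n02 : (0 : Fin 3) ≠ 2 := by decide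
      have n01 : (0 : Fin 3) ≠ 1 := by decide
      have t00 : tc g c 0 0 = lam + lam := by
        unfold tc
        rw [if_pos rfl, e0, sum_pair n12, l1, l2]
      have t01 : tc g c 0 1 = lam := by unfold tc; rw [if_neg (by decide), l1]
      have t02 : tc g c 0 2 = lam := by unfold tc; rw [if_neg (by decide), l2]
      have t10 : tc g c 1 0 = lam := by unfold tc; rw [if_neg (by decide), s10, l1]
      have t11 : tc g c 1 1 = lam + kap := by
        unfold tc
        rw [if_pos rfl, e1, sum_pair n02, s10, l1, hkap]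
      have t12 : tc g c 1 2 = kap := by unfold tc; rw [if_neg (by decide), hkap]
      have t20 : tc g c 2 0 = lam := by unfold tc; rw [if_neg (by decide), s20, l2]
      have t21 : tc g c 2 1 = kap := by unfold tc; rw [if_neg (by decide), s21, hkap]
      have t22 : tc g c 2 2 = lam + kap := by
        unfold tc
        rw [if_pos rfl, e2, sum_pair n01, s20, l2, s21, hkap]
      rw [hw]
      simp only [Fin.sum_univ_three]
      rw [t00, t10, t20]
      have x00 : tx 0 0 = 0 := by decide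
      have x10 : tx 1 0 = 1 := by decide
      have x20 : tx 2 0 = 1 := by decide
      rw [x00, x10, x20]
      fin_cases b
      · change _ + ((m 0 : ZMod 2) * tc g c 0 1 + (m 1 : ZMod 2) * tc g c 1 1 +
          (m 2 : ZMod 2) * tc g c 2 1) = lam * ((m 0 : ZMod 2) * tx 0 1 + (m 1 : ZMod 2) * tx 1 1 +
            (m 2 : ZMod 2) * tx 2 1) + _
        have x01 : tx 0 1 = 1 := by decide
        have x11 : tx 1 1 = 0 := by decide
        have x21 : tx 2 1 = 1 := by decide
        rw [x01, x11, x21, t01, t11, t21]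
        linear_combination ((m 0 : ZMod 2) * lam + (m 1 : ZMod 2) * lam) * two0
      · change _ + ((m 0 : ZMod 2) * tc g c 0 2 + (m 1 : ZMod 2) * tc g c 1 2 +
          (m 2 : ZMod 2) * tc g c 2 2) = lam * ((m 0 : ZMod 2) * tx 0 2 + (m 1 : ZMod 2) * tx 1 2 +
            (m 2 : ZMod 2) * tx 2 2) + _
        have x02 : tx 0 2 = 1 := by decide
        have x12 : tx 1 2 = 1 := by decide
        have x22 : tx 2 2 = 0 := by decide
        rw [x02, x12, x22, t02, t12, t22]
        linear_combination ((m 0 : ZMod 2) * lam + (m 2 : ZMod 2) * lam) * two0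
    have hccb : cc 0 + cc b.succ = cc (th b) := by
      rw [hc1]
      fin_cases b
      · change cc 1 + cc 2 + cc 1 = cc 2
        linear_combination (cc 1) * two0
      · change cc 1 + cc 2 + cc 2 = cc 1
        linear_combination (cc 2) * two0
    have hww : w 0 = a x 0 + a x 1 + u 0 + u 1 := by
      have q0 := ea 0
      have q1 := ea 1
      have q2 : w 0 = w 1 + w 2 := by
        rw [← (key 0).1, ← (key 1).1, ← (key 2).1]
        exact h3 _
      change a x 0 = w 1 + w 0 + u 0 at q0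
      change a x 1 = w 2 + w 0 + u 1 at q1
      rw [q0, q1]
      linear_combination q2 - (w 0 + u 0 + u 1) * two0
    have hwbs : w b.succ = a x b + w 0 + u b := by
      rw [ea b]
      linear_combination (-(w 0 + u b)) * two0
    have hab : a x 0 + a x 1 = a x b + a x (b + 1) := by
      fin_cases b
      · rfl
      · exact add_comm _ _
    have hub : u 0 + u 1 = u b + u (b + 1) := by
      fin_cases b
      · rfl
      · exact add_comm _ _
    have hfin : cc 0 + ∑ i, (m i : ZMod 2) * tc g c i 0 +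
        (cc b.succ + ∑ i, (m i : ZMod 2) * tc g c i b.succ) =
        ∑ y, a y b * p y b + lam * a x (b + 1) + kap * (a x 0 + a x 1) := by
      have q : cc 0 + ∑ i, (m i : ZMod 2) * tc g c i 0 +
        (cc b.succ + ∑ i, (m i : ZMod 2) * tc g c i b.succ) =
          (cc 0 + cc b.succ) + (∑ i, (m i : ZMod 2) * tc g c i 0 +
            ∑ i, (m i : ZMod 2) * tc g c i b.succ) := by ring
      rw [q, hccb, htc, hcc, hwbs, hww]
      linear_combination ((kap + lam)) * hub + lam * hab +
        ((u b + u (b + 1)) * (kap + lam) + u b * lam + lam * a x b) * two0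
    have e9 : ∑ y, L 2 (T y) (T x) * (a x b - a y b) + ∑ s, a x s * p x s + a x b * p x b =
        ∑ y, L 2 (T y) (T x) * (a x b - a y b) +
          ∑ s, (a x s * p x s + (if s = b then a x s * p x s else 0)) := by
      rw [hsum, add_assoc]
    rw [e9, sum_congr rfl fun y _ => y1 y, sum_congr rfl fun s _ => y2 s,
      sum_add_distrib, sum_add_distrib, ← hfin]
    linear_combination e0 + e1
  -- the sums
  have E2 : ∀ b : Fin 2, ∑ x, a x b * p x b =
      ∑ y, δ y * (lam * a y b + kap * (a y 0 + a y 1)) := by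
    intro b
    have hdbl : ∑ x, ∑ y, L 2 (T y) (T x) * (a x (b + 1) - a y (b + 1)) = 0 := by
      simp only [mul_sub, sum_sub_distrib]
      rw [sub_eq_zero, sum_comm]
      refine sum_congr rfl fun x _ => sum_congr rfl fun y _ => ?_
      rw [H.S.L_comm]
    have h5 : ∑ x, ((∑ y, L 2 (T y) (T x) * (a x (b + 1) - a y (b + 1)) +
        ∑ s, a x s * p x s + a x (b + 1) * p x (b + 1)) + δ x * (∑ y, a y (b + 1) * p y (b + 1) +
          lam * a x (b + 1 + 1) + kap * (a x 0 + a x 1))) = 0 :=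
      sum_eq_zero fun x _ => E1 x (b + 1)
    have h6 : ∀ x : Fin r, (∑ y, L 2 (T y) (T x) * (a x (b + 1) - a y (b + 1)) +
        ∑ s, a x s * p x s + a x (b + 1) * p x (b + 1)) + δ x * (∑ y, a y (b + 1) * p y (b + 1) +
          lam * a x (b + 1 + 1) + kap * (a x 0 + a x 1)) =
        ∑ y, L 2 (T y) (T x) * (a x (b + 1) - a y (b + 1)) + a x b * p x b +
        δ x * (∑ y, a y (b + 1) * p y (b + 1)) + δ x * (lam * a x b + kap * (a x 0 + a x 1)) := by
      intro x
      rw [b11, fin2_sum b]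
      linear_combination (a x (b + 1) * p x (b + 1)) * two0
    rw [sum_congr rfl fun x _ => h6 x, sum_add_distrib, sum_add_distrib, sum_add_distrib, hdbl,
      ← sum_mul, hδ0, zero_mul, zero_add, add_zero] at h5
    linear_combination h5 - (∑ y, δ y * (lam * a y b + kap * (a y 0 + a y 1))) * two0
  intro x b
  have h5 := E1 x b
  rw [E2 b] at h5
  rw [← h5]

end

end Pool.Agent.D0H99.OD
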