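import Pool.Agent.D0H99.OD.Stm2

/-!
Project OD (helper99), part 3: all moments (the law of the ranks as in the work of Heath-Brown). For
`nsolP = 2 ^ d` the number of the linearly independent `k`-tuples of solutions has for almost all
matrices the mean `2 ^ (k (k + 1) / 2)` over `p`, and its sum with the sign `(-1) ^ (∑ p)` is small. With
`k ≤ 3` this gives the proportions `0.2097` and `0.6291` instead of `1 / 6` and `7 / 12`. Five modules.

Notation: `C` copies, `k` vectors in each copy; `a x i j s` is the coordinate `s` at `x` of the vector `j` in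
the copy `i`; `Wk C k` is the space of the values at `x`, `|Wk C k| = 4 ^ (k |C|)`.

`NG` (80 lines). Let `v = (a, c)` with `Orth a c` and `I` the set of the values `(a x, c x)` in
`W × W`, `Q (a, c) = ∑ a c` on `W × W`, nondegenerate with the polar form `B((a, c), (a', c')) =
∑ a c' + a' c`. `Pair` says `Q (v - w) = 0` for `v, w` in `I`. So (characteristic 2) for `v, w, u` in `I`:
`B(v - u, w - u) = Q(v - u) + Q(w - u) - Q(v - w) = 0`: the span `U` of the differences is totally isotropic,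
`|U| ^ 2 ≤ |W| ^ 2`, `|I| ≤ |U| ≤ |W|`. Suppose `|I| = |W|`. Then `I = v + U` and `U = U^⊥`. If `a` is not
surjective then there is `t ≠ 0` with `∑ t_ijs a_ijs = 0` for all `(a, c)` in `U` (the projection of `U` to
the first factor is a proper subspace, because the projection of `I` is its coset), so `(0, t)` is in
`U^⊥ = U`. For `v` in `I` also `v + (0, t)` is in `I`, and the difference of the conditions `Cone` is
`∑_j a_ijs t_ij(s+1) = 0` for all `v` in `I`, `i`, `s`. Choose `i`, `s` with `u = t_i.(s+1) ≠ 0`: so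
`∑_j a_ijs u_j = 0` on `I`; so `(0, t')` with `t'_ijs = u_j` and zero elsewhere is orthogonal to
`U`, hence in `U`, and the difference of `Cone` at `(i, s + 1)` gives `∑_j a_ij(s+1) u_j = 0` on `I`. Hence
`∑_j u_j a^i_j = 0`, and the vectors `j ↦ (x ↦ a x i j)` are dependent. So under the assumptions of `NG`
`|I| ≤ |W| - 1`, and for each set `I` there are at most `|I| ^ r` maps `v`; the number of the sets `I` is
`2 ^ (|W| ^ 2)`.

`GN` (150 lines). `a` surjective, `Orth a c`. If `a x = a y` then `c x = c y` (`Pair` for `(x, z)` and for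
`(y, z)` gives `(a x - a z) (c x - c y) = 0` for all `z`). So `c x = F (a x)`, `F : W → W` with
`(u - v) (F u - F v) = 0`. `G u = F u - F 0` has `u G u = 0`, `u G v = v G u`, so `G` is additive (linear):
`v G(u + u') = (u + u') G v = u G v + u' G v = v G u + v G u'` for all `v`. So `G` is given by a symmetric
matrix `T` indexed by `(i, j, s)`; with `f = F 0`: `Cone` says
`∑_j u_ijs (∑ T_(ij(s+1), i'j's') u_i'j's' + f_ij(s+1)) = 0` for all `u` in `W`, so (polynomial identity of
degree 2 over `F_2`) `T_(ij(s+1), i'j's') = 0` unless `i' = i` and `s' = s`, and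
`S^i_jj' = T_(ij(s+1), ij's)` is a symmetric matrix, `f_ij(s+1) = S^i_jj` (both `s`: `T` symmetric and
`S^(i,s+1) = (S^(i,s))^T`). So `c^i_j(s+1) = ∑_j' S^i_jj' a^i_j's + S^i_jj`, and conversely; the number is
`2 ^ (|C| k (k + 1) / 2)`.

`GD` (60 lines, after `GN` or with it): the `c` of this form are orthogonal to the perturbation.

`CT` (120 lines; adapts `Cond`, `Mom2`). The linear map `(B, p) ↦` (left sides of the systems with
`δ = 0` for all the vectors `a^i_j`, copy `i` with `p i`) has the adjoint whose kernel is `{c | Orth a c}`: the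
coefficient of `B_xy` is `Pair`, the coefficient of `p^i_xs` is `∑_j a_xijs (c_xij0 + c_xij1 + c_xijs) =
∑_j a_xijs c_xij(s+1)`. The solutions of the perturbed system are empty or a coset of the kernel.

`SG` (30 lines; `psol_flip`). If all `a^j` vanish at `(x, s)` then the flip of `p_xs` changes the parity of
`∑ p` and not the conditions.

`IN` (30 lines; `ppar`, `card_linearIndependent`).
-/

set_option autoImplicit false

namespace Pool.Agent.D0H99.OD

open Finset
open Pool.Agent.D0H99.RM (V X sy cst)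

/-- the space of the values -/
abbrev Wk (C : Type) (k : ℕ) : Type := C → Fin k → V 2 2

section
variable {C : Type} [Fintype C] {k r : ℕ}

/-- the condition from the variables `p` -/
def Cone (a c : Wk C k) : Prop := ∀ (i : C) (s : Fin 2), ∑ j, a i j s * c i j (s + 1) = 0

/-- the condition from the variables `B` -/
def Pair (a c a' c' : Wk C k) : Prop :=
  ∑ i, ∑ j, ∑ s, (a i j s - a' i j s) * (c i j s - c' i j s) = 0

/-- orthogonality -/
def Orth (a c : Fin r → Wk C k) : Prop :=
  (∀ x, Cone (a x) (c x)) ∧ ∀ x y, Pair (a x) (c x) (a y) (c y)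

/-- all vectors are solutions -/
def AllSol (δ : Fin r → ZMod 2) (κ lam : ZMod 2) (a : Fin r → Wk C k)
    (z : Bm r × (C → Fin r → V 2 2)) : Prop :=
  ∀ i j, PSol δ κ lam (sy z.1) (z.2 i) (fun x => a x i j)

end

/-- the perturbation of the system -/
def Dl {r : ℕ} (δ : Fin r → ZMod 2) (κ lam : ZMod 2) (a : Fin r → V 2 2) (x : Fin r) (b : Fin 2) :
    ZMod 2 :=
  δ x * (∑ y, δ y * (lam * a y b + κ * (a y 0 + a y 1)) + lam * a x (b + 1) +
      κ * (a x 0 + a x 1))

/-- the number of the linearly independent `k`-tuples of solutions -/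
noncomputable def fm {r : ℕ} (δ : Fin r → ZMod 2) (κ lam : ZMod 2) (k : ℕ) (x : X 2 2 r) : ℕ :=
  ∏ i ∈ range k, (nsolP δ κ lam x - 2 ^ i)

/-- NG -/
def S_NG : Prop := ∀ (C : Type) [Fintype C] (k r : ℕ),
  {v : (Fin r → Wk C k) × (Fin r → Wk C k) | Orth v.1 v.2 ∧
    (∀ i, LinearIndependent (ZMod 2) fun (j : Fin k) (x : Fin r) => v.1 x i j) ∧
    ¬ Function.Surjective v.1}.ncard ≤
  2 ^ (16 ^ (k * Fintype.card C)) * (4 ^ (k * Fintype.card C) - 1) ^ r

/-- GN -/
def S_GN : Prop := ∀ (C : Type) [Fintype C] (k r : ℕ) (a : Fin r → Wk C k),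
  Function.Surjective a → {c : Fin r → Wk C k | Orth a c}.ncard =
    2 ^ (Fintype.card C * (k * (k + 1) / 2))

/-- GD -/
def S_GD : Prop := ∀ (C : Type) [Fintype C] (k r : ℕ) (a c : Fin r → Wk C k),
  Function.Surjective a → Orth a c → ∀ δ : Fin r → ZMod 2, ∑ i, δ i = 0 → ∀ κ lam : ZMod 2,
  ∑ i, ∑ j, ∑ x, ∑ b, c x i j b * Dl δ κ lam (fun x => a x i j) x b = 0

/-- CT -/
def S_CT : Prop := ∀ (C : Type) [Fintype C] (k r : ℕ) (a : Fin r → Wk C k) (δ : Fin r → ZMod 2)
  (κ lam : ZMod 2),
  {z : Bm r × (C → Fin r → V 2 2) | AllSol δ κ lam a z}.ncard * 4 ^ (r * (k * Fintype.card C)) ≤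
    Nat.card (Bm r) * 4 ^ (r * Fintype.card C) * {c : Fin r → Wk C k | Orth a c}.ncard ∧
  ((∀ c, Orth a c → ∑ i, ∑ j, ∑ x, ∑ b, c x i j b * Dl δ κ lam (fun x => a x i j) x b = 0) →
    {z : Bm r × (C → Fin r → V 2 2) | AllSol δ κ lam a z}.ncard *
      4 ^ (r * (k * Fintype.card C)) =
    Nat.card (Bm r) * 4 ^ (r * Fintype.card C) * {c : Fin r → Wk C k | Orth a c}.ncard)

/-- SG -/
def S_SG : Prop := ∀ (k r : ℕ) (δ : Fin r → ZMod 2) (κ lam : ZMod 2) (B : Bm r)
  (a : Fin k → Fin r → V 2 2) (x : Fin r) (s : Fin 2), (∀ j, a j x s = 0) →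
  {p : Fin r → V 2 2 | ∑ y, ∑ t, p y t = 0 ∧ ∀ j, PSol δ κ lam (sy B) p (a j)}.ncard =
  {p : Fin r → V 2 2 | ∑ y, ∑ t, p y t ≠ 0 ∧ ∀ j, PSol δ κ lam (sy B) p (a j)}.ncard

/-- IN -/
def S_IN : Prop := ∀ (k r : ℕ) (δ : Fin r → ZMod 2) (κ lam : ZMod 2) (x : X 2 2 r),
  {a : Fin k → Fin r → V 2 2 | LinearIndependent (ZMod 2) a ∧
    ∀ j, PSol δ κ lam (sy x.1) x.2 (a j)}.ncard = fm δ κ lam k x

end Pool.Agent.D0H99.OD
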