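import Pool.Agent.D0H99.OD.Conf
import Pool.Agent.D0H99.DE.Main
import Pool.Agent.D0H41.OD.Mb

/-!
The law and the moments in the family of the products of primes of the same degree.
-/

set_option autoImplicit false
set_option linter.all false

open Polynomial IsDedekindDomain WeierstrassCurve Filter

namespace Pool.Agent.D0H99.OD

open Finset
open Pool.Agent.Y164.SZ
open Pool.Agent.Y164.PS (Fam Pr mem_Pr)
open Pool.Agent.D0H99.FT (br nu cs zeta_data sym0 chr)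
open Pool.Agent.D0H99.RM (Dtb V Sol X sy nsol crv Dist Pt av_le le_prop)
open Pool.Agent.D0H99.DE (rk nodes Tup)

theorem nsol_eqP {r : ℕ} (x : X 2 2 r) : nsol x = nsolP (fun _ => 0) 0 0 x := by
  unfold nsol nsolP
  congr 1
  ext a
  simp only [Set.mem_setOf_eq, Sol, PSol, zero_mul, add_zero, one_mul]

theorem card_X4 (r : ℕ) : (Nat.card (X 2 2 r) : ℝ) = (Nat.card (Bm r) : ℝ) * 4 ^ r := by
  have h : Nat.card (X 2 2 r) = Nat.card (Bm r) * Nat.card (Fin r → V 2 2) := Nat.card_prod _ _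
  rw [h, Nat.cast_mul, Nat.card_eq_fintype_card (α := Fin r → V 2 2), card_V]

/-- the law for all data -/
theorem law_X (hCONF : S_CONF) (hNUM : S_NUM) {ε : ℝ} (hε : 0 < ε) : ∃ r0 : ℕ, ∀ r : ℕ, r0 ≤ r →
    ∀ m : ℕ, (FF m - ε) * (Nat.card (X 2 2 r) : ℝ) ≤
      ({x : X 2 2 r | nsol x ≤ 2 ^ m}.ncard : ℝ) := by
  classical
  obtain ⟨r0, hr0⟩ := hCONF (ε / 2) (half_pos hε)
  obtain ⟨-, -, -, hF01, -⟩ := hNUM
  refine ⟨r0, fun r hr m => ?_⟩
  obtain ⟨Bad, hBad, hB⟩ := hr0 r hr (fun _ => 0) (by simp)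
  obtain ⟨G, hG⟩ : ∃ G : Finset (X 2 2 r), (G : Set _) = {x : X 2 2 r | nsol x ≤ 2 ^ m} :=
    ⟨(Set.toFinite _).toFinset, Set.Finite.coe_toFinset _⟩
  obtain ⟨Gd, hGd⟩ : ∃ Gd : Finset (Bm r), (Gd : Set _) = Badᶜ :=
    ⟨(Set.toFinite _).toFinset, Set.Finite.coe_toFinset _⟩
  rw [← hG, Set.ncard_coe_finset, card_X4]
  obtain ⟨M, hM⟩ : ∃ M : ℝ, M = 4 ^ r := ⟨_, rfl⟩
  have hM0 : 0 < M := by rw [hM]; positivity
  obtain ⟨b, hb⟩ : ∃ b : ℝ, b = (Nat.card (Bm r) : ℝ) := ⟨_, rfl⟩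
  have hb0 : 0 ≤ b := by rw [hb]; exact Nat.cast_nonneg _
  have hcM : (Nat.card (Fin r → V 2 2) : ℝ) = M := by
    rw [Nat.card_eq_fintype_card, card_V, hM]
  rw [← hM, ← hb]
  have h4 : ∀ B : Bm r, ((G.filter fun x => x.1 = B).card) =
      {p : Fin r → V 2 2 | nsolP (fun _ => 0) 0 0 (B, p) ≤ 2 ^ m}.ncard := by
    intro B
    rw [← Set.ncard_coe_finset]
    refine Set.ncard_congr (fun x _ => x.2) ?_ ?_ ?_
    · rintro ⟨B', p⟩ hx
      rw [mem_coe, mem_filter, ← mem_coe, hG] at hx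
      obtain ⟨hx1, hx2⟩ := hx
      simp only at hx2
      subst hx2
      rw [Set.mem_setOf_eq] at hx1 ⊢
      rw [← nsol_eqP]
      exact hx1
    · rintro ⟨B1, p1⟩ ⟨B2, p2⟩ hx1 hx2 h
      rw [mem_coe, mem_filter] at hx1 hx2
      exact Prod.ext (hx1.2.trans hx2.2.symm) h
    · intro p hp
      refine ⟨(B, p), ?_, rfl⟩
      rw [mem_coe, mem_filter, ← mem_coe, hG]
      refine ⟨?_, rfl⟩
      rw [Set.mem_setOf_eq] at hp ⊢
      rw [nsol_eqP]
      exact hp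
  have h5 : ∑ B ∈ Gd, (({p : Fin r → V 2 2 | nsolP (fun _ => 0) 0 0 (B, p) ≤ 2 ^ m}.ncard : ℕ) : ℝ) ≤
      (G.card : ℝ) := by
    have h6 : ∑ B ∈ Gd, (G.filter fun x => x.1 = B).card ≤ G.card := by
      rw [← card_biUnion]
      · exact card_le_card fun x hx => by
          rw [mem_biUnion] at hx
          obtain ⟨B, -, hx⟩ := hx
          exact (mem_filter.1 hx).1
      · intro B _ B' _ hne
        rw [Function.onFun, Finset.disjoint_left]
        intro x hx hx'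
        exact hne ((mem_filter.1 hx).2.symm.trans (mem_filter.1 hx').2)
    have h7 : ∑ B ∈ Gd, {p : Fin r → V 2 2 | nsolP (fun _ => 0) 0 0 (B, p) ≤ 2 ^ m}.ncard ≤
        G.card := by
      rw [← sum_congr rfl fun B _ => h4 B]
      exact h6
    exact_mod_cast h7
  have h8 : (Gd.card : ℝ) ≥ (1 - ε / 2) * b := by
    have h9 : Bad.ncard + Gd.card = Nat.card (Bm r) := by
      rw [← Set.ncard_coe_finset, hGd]
      exact Set.ncard_add_ncard_compl Bad
    have h10 : (Bad.ncard : ℝ) + (Gd.card : ℝ) = b := by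
      rw [hb]
      exact_mod_cast h9
    rw [← hb] at hBad
    linarith
  rcases le_total (FF m - ε / 2) 0 with hneg | hpos
  · have : FF m - ε ≤ 0 := by linarith
    exact (mul_nonpos_of_nonpos_of_nonneg this (by positivity)).trans (Nat.cast_nonneg _)
  · refine le_trans ?_ h5
    have h11 : (Gd.card : ℝ) * ((FF m - ε / 2) * M) ≤
        ∑ B ∈ Gd, (({p : Fin r → V 2 2 | nsolP (fun _ => 0) 0 0 (B, p) ≤ 2 ^ m}.ncard : ℕ) : ℝ) := by
      rw [← nsmul_eq_mul, ← sum_const]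
      refine sum_le_sum fun B hB' => ?_
      have : B ∈ (Gd : Set (Bm r)) := hB'
      rw [hGd] at this
      have h12 := hB B this 0 0 m
      rw [hcM] at h12
      exact h12
    refine le_trans ?_ h11
    have h12 : (1 - ε / 2) * b * ((FF m - ε / 2) * M) ≤ (Gd.card : ℝ) * ((FF m - ε / 2) * M) :=
      mul_le_mul_of_nonneg_right h8 (mul_nonneg hpos hM0.le)
    refine le_trans ?_ h12
    have h13 : (1 - ε / 2) * b * ((FF m - ε / 2) * M) =
        ((1 - ε / 2) * (FF m - ε / 2)) * (b * M) := by ring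
    rw [h13]
    apply mul_le_mul_of_nonneg_right _ (by positivity)
    have h14 := (hF01 m).1
    have h15 := (hF01 m).2
    nlinarith

/-- the moments for all data -/
theorem moments_X (hNG : S_NG) (hGN : S_GN) (hGD : S_GD) (hCT : S_CT) (hIN : S_IN) (K : ℕ)
    {ε : ℝ} (hε : 0 < ε) : ∃ r0 : ℕ, ∀ r : ℕ, r0 ≤ r →
    ((∑ x : X 2 2 r, nsol x ^ K : ℕ) : ℝ) ≤
      (∏ i ∈ range K, (1 + (2 : ℝ) ^ (i + 1)) + ε) * (Nat.card (X 2 2 r) : ℝ) := by
  classical
  obtain ⟨G, hG1, hG2⟩ := Pool.Agent.D0H41.OD.t_MB K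
  obtain ⟨η, hη⟩ : ∃ η : ℝ, η = ε / (1 + ∑ j ∈ range (K + 1), (G j : ℝ)) := ⟨_, rfl⟩
  have hs0 : (0 : ℝ) ≤ ∑ j ∈ range (K + 1), (G j : ℝ) := sum_nonneg fun j _ => Nat.cast_nonneg _
  have hη0 : 0 < η := by rw [hη]; positivity
  have hηs : η * ∑ j ∈ range (K + 1), (G j : ℝ) ≤ ε := by
    rw [hη, div_mul_eq_mul_div, div_le_iff₀ (by positivity)]
    nlinarith
  choose r1 hr1 using fun k : ℕ => moments hNG hGN hGD hCT hIN k hη0
  obtain ⟨r0, hr0⟩ : ∃ r0 : ℕ, ∀ k ≤ K, r1 k ≤ r0 :=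
    ⟨(range (K + 1)).sup r1, fun k hk => le_sup (f := r1) (mem_range.2 (Nat.lt_succ_of_le hk))⟩
  refine ⟨r0, fun r hr => ?_⟩
  have h1 : ∑ x : X 2 2 r, nsol x ^ K =
      ∑ j ∈ range (K + 1), G j * ∑ B : Bm r, YY (fun _ : Fin r => (0 : ZMod 2)) 0 0 j B := by
    have e1 : ∀ x : X 2 2 r, nsol x ^ K =
        ∑ j ∈ range (K + 1), G j * fm (fun _ => 0) 0 0 j x := by
      intro x
      obtain ⟨d, hd, -⟩ := Pool.Agent.D0H52.OD.ppar (fun _ : Fin r => (0 : ZMod 2)) (by simp) 0 0 x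
      rw [nsol_eqP]
      unfold fm
      rw [hd]
      exact hG1 d
    rw [sum_congr rfl fun x _ => e1 x, sum_comm]
    refine sum_congr rfl fun j _ => ?_
    rw [← mul_sum, Fintype.sum_prod_type]
    rfl
  rw [h1, Nat.cast_sum, card_X4]
  have hbM : (0 : ℝ) ≤ (Nat.card (Bm r) : ℝ) * 4 ^ r := by positivity
  have h2 : ∀ j ∈ range (K + 1),
      ((G j * ∑ B : Bm r, YY (fun _ : Fin r => (0 : ZMod 2)) 0 0 j B : ℕ) : ℝ) ≤
        (G j : ℝ) * ((Nat.card (Bm r) : ℝ) * 4 ^ r * (Tk j + η)) := by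
    intro j hj
    rw [Nat.cast_mul]
    apply mul_le_mul_of_nonneg_left _ (Nat.cast_nonneg _)
    exact (hr1 j r ((hr0 j (Nat.le_of_lt_succ (mem_range.1 hj))).trans hr) (fun _ => 0)
      (by simp) 0 0).2.1
  refine (sum_le_sum h2).trans ?_
  have h3 : ∑ j ∈ range (K + 1), (G j : ℝ) * ((Nat.card (Bm r) : ℝ) * 4 ^ r * (Tk j + η)) =
      (∑ j ∈ range (K + 1), (G j : ℝ) * Tk j + η * ∑ j ∈ range (K + 1), (G j : ℝ)) *
        ((Nat.card (Bm r) : ℝ) * 4 ^ r) := by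
    rw [mul_sum, ← sum_add_distrib, sum_mul]
    refine sum_congr rfl fun j _ => ?_
    ring
  rw [h3]
  apply mul_le_mul_of_nonneg_right _ hbM
  have h4 : ∑ j ∈ range (K + 1), (G j : ℝ) * Tk j = ∏ i ∈ range K, (1 + (2 : ℝ) ^ (i + 1)) := by
    unfold Tk
    exact_mod_cast hG2
  rw [h4]
  linarith

theorem thin (hNG : S_NG) (hGN : S_GN) (hGD : S_GD) (hCT : S_CT) (hIN : S_IN) (hCONF : S_CONF)
    (hNUM : S_NUM) (hAVG : S_AVG) {ε : ℝ} (hε : 0 < ε) (K : ℕ) : ∃ r0 : ℕ, ∀ r : ℕ, r0 ≤ r →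
    ∀ (k : Type) [Field k] [Finite k], (2 : k) ≠ 0 → 2 ∣ Nat.card k - 1 → (∃ z : k, z ^ 2 = -1) →
    ∀ N : ℕ, ¬ 2 ∣ N →
    ∀ᶠ n : ℕ in atTop, 2 ∣ n → ∀ (g : k[X]) (a b : k), g.natDegree = N → a ≠ b →
      Irreducible (g - C a) → Irreducible (g - C b) → ∀ c0 : k, c0 ≠ 0 →
      (∀ m : ℕ, (FF m - ε) * ((Tup k r n).ncard : ℝ) ≤
        (({d ∈ Tup k r n | rk g a b (C c0 * ∏ i, d i) ≤ m}).ncard : ℝ)) ∧
      (∀ j ≤ K, ∑ᶠ d ∈ Tup k r n, ((2 : ℝ) ^ rk g a b (C c0 * ∏ i, d i)) ^ j ≤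
        (∏ i ∈ range j, (1 + (2 : ℝ) ^ (i + 1)) + ε) * ((Tup k r n).ncard : ℝ)) ∧
      ∑ᶠ d ∈ Tup k r n, (rk g a b (C c0 * ∏ i, d i) : ℝ) ≤
        (1265 / 1000 + ε) * ((Tup k r n).ncard : ℝ) := by
  classical
  obtain ⟨M0, hM0⟩ := eventually_atTop.1 (hNUM.2.2.2.2.eventually (lt_mem_nhds
    (show (1 : ℝ) - ε / 2 < 1 by linarith)))
  have hM0' := hM0 M0 le_rfl
  have hF1 := fun m => (hNUM.2.2.2.1 m).2
  obtain ⟨mA, ηA, hηA, hA⟩ := hAVG
  obtain ⟨rA, hrA⟩ := law_X hCONF hNUM hηA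
  obtain ⟨r1, hr1⟩ := law_X hCONF hNUM (show 0 < ε / 4 by positivity)
  choose r2 hr2 using fun j : ℕ => moments_X hNG hGN hGD hCT hIN j (half_pos hε)
  obtain ⟨r3, hr3⟩ := moments_X hNG hGN hGD hCT hIN 1 (show (0 : ℝ) < 1 by norm_num)
  obtain ⟨r4, hr4⟩ : ∃ r4 : ℕ, ∀ j ≤ K, r2 j ≤ r4 :=
    ⟨(range (K + 1)).sup r2, fun k hk => le_sup (f := r2) (mem_range.2 (Nat.lt_succ_of_le hk))⟩
  refine ⟨max (max rA r1) (max r3 r4), fun r hr k _ _ h2 hlk hneg N hN => ?_⟩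
  have hrA' : rA ≤ r := ((le_max_left _ _).trans (le_max_left _ _)).trans hr
  have hr1' : r1 ≤ r := ((le_max_right _ _).trans (le_max_left _ _)).trans hr
  have hr3' : r3 ≤ r := ((le_max_left _ _).trans (le_max_right _ _)).trans hr
  have hr4' : r4 ≤ r := ((le_max_right _ _).trans (le_max_right _ _)).trans hr
  obtain ⟨hlk0, ζ, hζ⟩ := zeta_data Nat.prime_two hlk
  letI : Fintype k := Fintype.ofFinite k
  have hchar : ringChar k ≠ 2 := by
    intro h
    apply h2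
    have := ringChar.Nat.cast_ringChar (R := k)
    rw [h] at this
    exact_mod_cast this
  have hcard : Nat.card k = Fintype.card k := Nat.card_eq_fintype_card
  rw [hcard] at hlk
  have S : SYM0 2 k := sym0 hneg hlk
  have S' : SYM 2 k := chr hlk hchar S
  -- the average of the rank
  have m3 : ((∑ x : X 2 2 r, Nat.log 2 (nsol x) : ℕ) : ℝ) ≤
      (1265 / 1000 + ε / 2) * (Nat.card (X 2 2 r) : ℝ) := by
    have hcx : (Nat.card (X 2 2 r) : ℝ) = (Fintype.card (X 2 2 r) : ℝ) := by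
      rw [Nat.card_eq_fintype_card]
    have hpow : ∀ x : X 2 2 r, nsol x = 2 ^ Nat.log 2 (nsol x) := by
      intro x
      obtain ⟨d, hd, -⟩ := Pool.Agent.D0H52.OD.ppar (fun _ : Fin r => (0 : ZMod 2)) (by simp) 0 0 x
      rw [nsol_eqP, hd, Nat.log_pow (by norm_num)]
    have h3 := hA (X 2 2 r) (fun x => Nat.log 2 (nsol x)) (fun m _ => by
      have h4 := hrA r hrA' m
      rw [hcx] at h4
      refine h4.trans (le_of_eq ?_)
      congr 2
      ext x
      rw [Set.mem_setOf_eq, Set.mem_setOf_eq]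
      conv_lhs => rw [hpow x]
      exact Nat.pow_le_pow_iff_right (by norm_num)) (by
      have h4 := hr3 r hr3'
      rw [hcx] at h4
      have h5 : ((∑ x : X 2 2 r, nsol x ^ 1 : ℕ) : ℝ) =
          ∑ x : X 2 2 r, (2 : ℝ) ^ Nat.log 2 (nsol x) := by
        rw [Nat.cast_sum]
        refine sum_congr rfl fun x _ => ?_
        rw [pow_one]
        conv_lhs => rw [hpow x]
        push_cast
        rfl
      rw [h5] at h4
      refine h4.trans (le_of_eq ?_)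
      congr 1
      rw [prod_range_one]
      norm_num)
    rw [Nat.cast_sum, hcx]
    refine h3.trans ?_
    apply mul_le_mul_of_nonneg_right _ (Nat.cast_nonneg _)
    linarith
  have E1 : ∀ᶠ n : ℕ in atTop, ∀ m ∈ range (M0 + 1), 2 ∣ n → ∀ P : Fin 2 → k[X],
      (∀ a, (P a).Monic) → (∀ a, Irreducible (P a)) → Function.Injective P →
      (∀ a, (P a).natDegree = N) → ∀ R : Set (Fin r → k[X]),
      (∀ x ∈ {x : X 2 2 r | nsol x ≤ 2 ^ m}, ∀ d ∈ Pt 2 P n (sy x.1) x.2, d ∈ R) →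
      (FF m - ε / 2) * ((Dist k r n).card : ℝ) ≤ ((((Dist k r n : Finset (Fin r → k[X])) :
        Set (Fin r → k[X])) ∩ R).ncard : ℝ) := by
    rw [eventually_all_finset]
    intro m _
    refine le_prop S' hchar 2 hN r (half_pos hε) {x : X 2 2 r | nsol x ≤ 2 ^ m} ?_
    have h3 := hr1 r hr1' m
    refine le_trans (le_of_eq ?_) h3
    congr 1
    ring
  have E2 : ∀ᶠ n : ℕ in atTop, ∀ j ∈ range (K + 1), 2 ∣ n → ∀ P : Fin 2 → k[X],
      (∀ a, (P a).Monic) → (∀ a, Irreducible (P a)) → Function.Injective P →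
      (∀ a, (P a).natDegree = N) → ∀ R : (Fin r → k[X]) → ℕ,
      (∀ x : X 2 2 r, ∀ d ∈ Pt 2 P n (sy x.1) x.2, R d ≤ nsol x ^ j) →
      ∑ d ∈ Dist k r n, (R d : ℝ) ≤
        (∏ i ∈ range j, (1 + (2 : ℝ) ^ (i + 1)) + ε) * ((Dist k r n).card : ℝ) := by
    rw [eventually_all_finset]
    intro j hj
    refine av_le S' hchar 2 hN r hε (prod_nonneg fun i _ => by positivity) (fun x => nsol x ^ j) ?_
    have h3 := hr2 j r ((hr4 j (Nat.le_of_lt_succ (mem_range.1 hj))).trans hr4')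
    exact_mod_cast h3
  filter_upwards [E1, E2,
    av_le S' hchar 2 hN r (ρ := 1265 / 1000) hε (by norm_num) (fun x => Nat.log 2 (nsol x))
      (by exact_mod_cast m3)] with n e1 e2 e3 hn g a b hg hab hga hgb c0 hc0
  obtain ⟨P, hPm, hPi, hPinj, hPd, hP⟩ := nodes (Nat.pos_of_ne_zero fun h => hN (by rw [h]; exact dvd_zero _))
    hg ![a, b] (by
      intro i j hij
      fin_cases i <;> fin_cases j
      · rfl
      · exact absurd hij hab
      · exact absurd hij hab.symm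
      · rfl) (by
      intro s
      fin_cases s
      · exact hga
      · exact hgb)
  have hb : ∀ x : X 2 2 r, ∀ d ∈ Pt 2 P n (sy x.1) x.2,
      2 ^ rk g a b (C c0 * ∏ i, d i) ≤ nsol x := fun x d hd =>
    Pool.Agent.D0H99.DE.rank_bound S h2 hneg hN hg hab hPm hPi hPinj hPd hP hn hc0 x hd
  have hT : Tup k r n = ((Pool.Agent.D0H99.RM.Dist k r n : Finset (Fin r → k[X])) : Set (Fin r → k[X])) := by
    ext d
    rw [mem_coe, Pool.Agent.D0H99.RM.Dist, mem_filter, Fintype.mem_piFinset, Tup, Set.mem_setOf_eq, and_comm]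
    exact and_congr (forall_congr' fun i => (mem_Pr (k := k)).symm) Iff.rfl
  rw [hT, Set.ncard_coe_finset, finsum_mem_coe_finset]
  have hD0 : (0 : ℝ) ≤ ((Dist k r n).card : ℝ) := Nat.cast_nonneg _
  have hle : ∀ m ≤ M0, (FF m - ε / 2) * ((Dist k r n).card : ℝ) ≤
      ((((Dist k r n : Finset (Fin r → k[X])) : Set (Fin r → k[X])) ∩
        {d | rk g a b (C c0 * ∏ i, d i) ≤ m}).ncard : ℝ) := by
    intro m hm
    refine e1 m (mem_range.2 (Nat.lt_succ_of_le hm)) hn P hPm hPi hPinj hPd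
      {d | rk g a b (C c0 * ∏ i, d i) ≤ m} ?_
    intro x hx d hd
    exact (Nat.pow_le_pow_iff_right (by norm_num)).1 ((hb x d hd).trans hx)
  refine ⟨?_, ?_, ?_⟩
  · intro m
    rcases le_total m M0 with hm | hm
    · refine le_trans ?_ (hle m hm)
      apply mul_le_mul_of_nonneg_right _ hD0
      linarith
    · have h3 : ((((Dist k r n : Finset (Fin r → k[X])) : Set (Fin r → k[X])) ∩
          {d | rk g a b (C c0 * ∏ i, d i) ≤ M0}).ncard : ℝ) ≤
          ((((Dist k r n : Finset (Fin r → k[X])) : Set (Fin r → k[X])) ∩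
          {d | rk g a b (C c0 * ∏ i, d i) ≤ m}).ncard : ℝ) := by
        have hsub : ((Dist k r n : Finset (Fin r → k[X])) : Set (Fin r → k[X])) ∩
            {d | rk g a b (C c0 * ∏ i, d i) ≤ M0} ⊆
            ((Dist k r n : Finset (Fin r → k[X])) : Set (Fin r → k[X])) ∩
            {d | rk g a b (C c0 * ∏ i, d i) ≤ m} := fun d hd => ⟨hd.1, le_trans hd.2 hm⟩
        have hfin : (((Dist k r n : Finset (Fin r → k[X])) : Set (Fin r → k[X])) ∩
            {d | rk g a b (C c0 * ∏ i, d i) ≤ m}).Finite :=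
          (Finset.finite_toSet _).subset Set.inter_subset_left
        exact_mod_cast Set.ncard_le_ncard hsub hfin
      refine le_trans ?_ ((hle M0 le_rfl).trans h3)
      apply mul_le_mul_of_nonneg_right _ hD0
      have := hF1 m
      linarith
  · intro j hj
    rw [finsum_mem_coe_finset]
    have h5 := e2 j (mem_range.2 (Nat.lt_succ_of_le hj)) hn P hPm hPi hPinj hPd
      (fun d => (2 ^ rk g a b (C c0 * ∏ i, d i)) ^ j)
      (fun x d hd => Nat.pow_le_pow_left (hb x d hd) j)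
    refine le_trans (le_of_eq ?_) h5
    refine sum_congr rfl fun d _ => ?_
    push_cast
    rfl
  · refine e3 hn P hPm hPi hPinj hPd (fun d => rk g a b (C c0 * ∏ i, d i)) ?_
    intro x d hd
    exact Nat.le_log_of_pow_le (by norm_num) (hb x d hd)

end Pool.Agent.D0H99.OD
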