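import Pool.Agent.D0H99.OD.Sol

/-!
Explicit 2-descent for twists by primes of any degrees: the classes with zero vector are the classes of
torsion points (adapted from `Pool.Agent.D0H99.DE.Tri`).
-/

set_option autoImplicit false
set_option linter.all false

open Polynomial IsDedekindDomain

namespace Pool.Agent.D0H99.OD

open Finset
open Pool.Agent.Y164.SZ
open Pool.Agent.Y713.SE (hp Pw)
open Pool.Agent.Y164.PS (Fam el)
open Pool.Agent.D0H99.FT (br nu cs)
open Pool.Agent.D0H99.RM (V Sol)
open Pool.Agent.D0H99.DE (tx tp th t1 t2 t4 t5 th_ne th_mu succ_cases rt tors LSq locB Vec tc two0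
  z_add_self eq_of_add cases_fin3)

section
variable {k : Type} [Field k] [Fintype k] [DecidableEq k]
variable {K : Type} [Field K] [Algebra k[X] K] [IsFractionRing k[X] K]
variable {c : Fin 2 → k} {g : k[X]} {P : Fin 2 → k[X]} {r : ℕ} {T : Fin r → k[X]}

/-- all exponents and constants are zero -/
theorem sq_all (H : Dtc 2 c g P T (fun _ => 1)) {D : Fin 3 → K} {cc : Fin 3 → ZMod 2}
    {U : Fin 3 → (Fin r ⊕ Fin 2) → ZMod 2} (h1 : ∀ i, IsRep 2 (Sum.elim T P) (D i) (cc i) (U i))
    (hU : ∀ i y, U i y = 0) (hc : ∀ i, cc i = 0) (j : Fin 3) : ∃ z : K, D j = z ^ 2 := by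
  obtain ⟨rA, rB, rC, rD⟩ :=
    Pool.Agent.Y547.SZ.Rep.t 2 k K (Fin r ⊕ Fin 2) (Sum.elim T P) H.fam H.S
  exact rC _ ((h1 j).congr (hc j) (fun y => (hU j y).trans rfl))

theorem triv_of {H : Dtc 2 c g P T (fun _ => 1)} (ht : ∀ i, Sel (K := K) H (tors K c g T i))
    {D : Fin 3 → K} (h : Sel H D) (hv : Vec T P D 0) :
    (∀ j, ∃ z : K, D j = z ^ 2) ∨ ∃ i, ∀ j, ∃ z : K, D j * tors K c g T i j = z ^ 2 := by
  obtain ⟨cc, U, h1, h2, h3, h4⟩ := hv
  have hnode : ∀ b s, U b.succ (Sum.inr s) = if s = b then U 0 (Sum.inr s) else 0 :=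
    fun b s => node_succ h h1 h3 b s
  have h4' : ∀ x (s : Fin 2), U s.succ (Sum.inl x) + U 0 (Sum.inl x) + U 0 (Sum.inr s) = 0 :=
    fun x s => (h4 x s).symm
  rcases t4 (fun s => U 0 (Sum.inr s)) with hf | ⟨i, hf⟩
  · left
    have hf' : ∀ s, U 0 (Sum.inr s) = 0 := fun s => congrFun hf s
    have hT : ∀ j x, U j (Sum.inl x) = 0 := by
      intro j x
      have e1 : U 1 (Sum.inl x) = U 0 (Sum.inl x) := by
        have := h4' x 0
        rw [hf', add_zero] at this
        exact eq_of_add this
      have e2 : U 2 (Sum.inl x) = U 0 (Sum.inl x) := by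
        have := h4' x 1
        rw [hf', add_zero] at this
        exact eq_of_add this
      have e0 : U 0 (Sum.inl x) = 0 := by
        have := h3 (Sum.inl x)
        rw [e1, e2, z_add_self] at this
        exact this
      revert j
      apply cases_fin3
      · exact e0
      · rw [e1, e0]
      · rw [e2, e0]
    have hU : ∀ j y, U j y = 0 := by
      intro j y
      rcases y with x | s
      · exact hT j x
      · rcases Fin.eq_zero_or_eq_succ j with rfl | ⟨b, rfl⟩
        · exact hf' s
        · rw [hnode, hf']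
          split_ifs <;> rfl
    have hth : ∀ s, cc (th s) = 0 := by
      intro s
      have h5 := (third_zero h h1 s).2
      rw [sum_eq_zero (fun y _ => by rw [hU, hU, zero_mul, add_zero, zero_mul]), zero_add, hU,
        zero_mul, add_zero] at h5
      exact (mul_eq_zero.1 h5).resolve_left (H.deg_P_ne s)
    have hc : ∀ i, cc i = 0 := by
      apply cases_fin3
      · rw [h2, show cc 1 = 0 from hth 1, show cc 2 = 0 from hth 0, add_zero]
      · exact hth 1
      · exact hth 0
    exact sq_all H h1 hU hc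
  · right
    refine ⟨i, ?_⟩
    have hf' : ∀ s, U 0 (Sum.inr s) = tx i 0 + tx i s.succ := fun s => congrFun hf s
    have hW : ∀ j x, U j (Sum.inl x) + tx i j = 0 := by
      intro j x
      have e1 : U 1 (Sum.inl x) + tx i 1 = U 0 (Sum.inl x) + tx i 0 := by
        have := h4' x 0
        rw [hf'] at this
        have h6 : (U 1 (Sum.inl x) + tx i 1) + (U 0 (Sum.inl x) + tx i 0) = 0 := by
          rw [← this]
          change _ = U 1 (Sum.inl x) + U 0 (Sum.inl x) + (tx i 0 + tx i 1)
          ring
        exact eq_of_add h6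
      have e2 : U 2 (Sum.inl x) + tx i 2 = U 0 (Sum.inl x) + tx i 0 := by
        have := h4' x 1
        rw [hf'] at this
        have h6 : (U 2 (Sum.inl x) + tx i 2) + (U 0 (Sum.inl x) + tx i 0) = 0 := by
          rw [← this]
          change _ = U 2 (Sum.inl x) + U 0 (Sum.inl x) + (tx i 0 + tx i 2)
          ring
        exact eq_of_add h6
      have e0 : U 0 (Sum.inl x) + tx i 0 = 0 := by
        have h6 : U 0 (Sum.inl x) + tx i 0 = (U 1 (Sum.inl x) + tx i 1) +
            (U 2 (Sum.inl x) + tx i 2) := by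
          rw [h3, t5]
          ring
        rw [e1, e2, z_add_self] at h6
        exact h6
      revert j
      apply cases_fin3
      · exact e0
      · rw [e1, e0]
      · rw [e2, e0]
    have hrep : ∀ j, IsRep 2 (Sum.elim T P) (D j * tors K c g T i j) (cc j + tc g c i j)
        (fun y => U j y + (Sum.elim (fun _ => tx i j) (tp i j) : (Fin r ⊕ Fin 2) → ZMod 2) y) :=
      fun j => (h1 j).mul H.S (rep_tors H i j)
    have hU : ∀ j y, U j y + (Sum.elim (fun _ => tx i j) (tp i j) : (Fin r ⊕ Fin 2) → ZMod 2) y =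
        0 := by
      intro j y
      rcases y with x | s
      · exact hW j x
      · simp only [Sum.elim_inr]
        rcases Fin.eq_zero_or_eq_succ j with rfl | ⟨b, rfl⟩
        · rw [hf', t1, z_add_self]
        · rw [hnode, t2, hf']
          by_cases hs : s = b
          · rw [if_pos hs, if_pos hs, hs, z_add_self]
          · rw [if_neg hs, if_neg hs, add_zero]
    have hth : ∀ s, cc (th s) + tc g c i (th s) = 0 := by
      intro s
      have h5 := (third_zero h h1 s).2
      have h6 := (third_zero (ht i) (fun j => rep_tors H i j) s).2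
      have h7 : (Sum.elim (fun _ => tx i 0) (tp i 0) : (Fin r ⊕ Fin 2) → ZMod 2) (Sum.inr s) =
          U 0 (Sum.inr s) := by
        rw [hf', Sum.elim_inr, t1]
      rw [h7] at h6
      have h8 := congrArg₂ (· + ·) h5 h6
      simp only [add_zero] at h8
      have h9 : ∑ y, (U (th s) y + U 0 (Sum.inr s) * (Sum.elim (fun _ => 1)
          (fun s' => mu 2 (fun _ => 0) Fin.succ 0 (th s) s') : (Fin r ⊕ Fin 2) → ZMod 2) y) *
            L 2 (Sum.elim T P y) (P s) +
          ∑ y, ((Sum.elim (fun _ => tx i (th s)) (tp i (th s)) : (Fin r ⊕ Fin 2) → ZMod 2) y +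
            U 0 (Sum.inr s) * (Sum.elim (fun _ => 1)
          (fun s' => mu 2 (fun _ => 0) Fin.succ 0 (th s) s') : (Fin r ⊕ Fin 2) → ZMod 2) y) *
            L 2 (Sum.elim T P y) (P s) = 0 := by
        rw [← sum_add_distrib]
        refine sum_eq_zero fun y _ => ?_
        have h10 := hU (th s) y
        linear_combination (L 2 (Sum.elim T P y) (P s)) * h10 +
          (U 0 (Sum.inr s) * (Sum.elim (fun _ => 1)
          (fun s' => mu 2 (fun _ => 0) Fin.succ 0 (th s) s') : (Fin r ⊕ Fin 2) → ZMod 2) y) *
            L 2 (Sum.elim T P y) (P s) * two0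
      have h11 : ((P s).natDegree : ZMod 2) * (cc (th s) + tc g c i (th s)) = 0 := by
        linear_combination h8 - h9 - ((P s).natDegree : ZMod 2) *
          (U 0 (Sum.inr s) * cs 2 g c 0 (th s)) * two0
      exact (mul_eq_zero.1 h11).resolve_left (H.deg_P_ne s)
    have hc : ∀ j, cc j + tc g c i j = 0 := by
      have c1 : cc 1 + tc g c i 1 = 0 := hth 1
      have c2 : cc 2 + tc g c i 2 = 0 := hth 0
      apply cases_fin3
      · rw [h2, tc_sum H]
        linear_combination c1 + c2
      · exact c1
      · exact c2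
    exact sq_all H hrep hU hc

end

end Pool.Agent.D0H99.OD
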